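import Pool.Agent.P.MP_d95e10_pr.Shared

/-!
The Burton-Keane uniqueness theorem.
-/

namespace Pool.Agent.P.MP_d95e10_pr

open MeasureTheory ProbabilityTheory Filter unitInterval
open scoped Classical ENNReal

variable {d : ℕ}

namespace BK

lemma touches_box {n : ℕ} {e : Edge d} (he : e ∈ boxEdges d n) {x : Vtx d} (hx : Touches e x) :
    x ∈ box d n := by
  rcases hx with rfl | rfl
  · exact (mem_boxEdges.1 he).1
  · exact (mem_boxEdges.1 he).2

lemma conn_zero (n : ℕ) : ∀ (k : ℕ) (a : Vtx d), a ∈ box d n → ∑ i, (a i).natAbs = k →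
    Conn (boxEdges d n : Set (Edge d)) a 0 := by
  intro k
  induction k using Nat.strong_induction_on with
  | _ k ih =>
    intro a ha hk
    by_cases h0 : a = 0
    · subst h0; exact SimpleGraph.Reachable.refl _
    obtain ⟨i, hi⟩ := Function.ne_iff.1 h0
    have hi' : a i ≠ 0 := hi
    have hlt : ∀ c : ℤ, (a i + c).natAbs < (a i).natAbs →
        a + Pi.single i c ∈ box d n ∧
          Conn (boxEdges d n : Set (Edge d)) (a + Pi.single i c) 0 := by
      intro c hc
      have hle : ∀ j, ((a + Pi.single i c : Vtx d) j).natAbs ≤ (a j).natAbs := fun j => by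
        by_cases hj : j = i
        · subst hj; simpa using hc.le
        · simp [hj]
      have hb : a + Pi.single i c ∈ box d n := mem_box.2 fun j => by
        have := mem_box.1 ha j
        have h2 := hle j
        rw [← Int.natCast_natAbs] at this ⊢
        omega
      refine ⟨hb, ih _ ?_ _ hb rfl⟩
      rw [← hk]
      exact Finset.sum_lt_sum (fun j _ => hle j) ⟨i, Finset.mem_univ _, by simpa using hc⟩
    rcases lt_or_gt_of_ne hi' with h | h
    · obtain ⟨h1, h2⟩ := hlt 1 (by omega)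
      exact (Conn.of_joins (e := (a, i)) (mem_boxEdges.2 ⟨ha, h1⟩) (joins_self _)).trans h2
    · obtain ⟨h1, h2⟩ := hlt (-1) (by omega)
      have ht : tip ((a + Pi.single i (-1), i) : Edge d) = a := by
        simp [tip, add_assoc, ← Pi.single_add]
      refine (Conn.of_joins (e := (a + Pi.single i (-1), i))
        (mem_boxEdges.2 ⟨h1, by rw [ht]; exact ha⟩) (Or.inr ⟨rfl, ht⟩)).trans h2

lemma conn_box {n : ℕ} {a b : Vtx d} (ha : a ∈ box d n) (hb : b ∈ box d n) :
    Conn (boxEdges d n : Set (Edge d)) a b :=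
  (conn_zero n _ a ha rfl).trans (conn_zero n _ b hb rfl).symm

lemma null_open {ν : Measure (Set (Edge d))} (hins : ∀ e, ν.map (insert e) ≪ ν)
    (Λ : Finset (Edge d)) : ∀ A : Set (Set (Edge d)), MeasurableSet A → ν A = 0 →
      ν {ω | ω ∪ Λ ∈ A} = 0 := by
  induction Λ using Finset.induction_on with
  | empty => intro A _ h; simpa using h
  | insert e Λ _ ih =>
    intro A hA h
    have h1 := hins e h
    rw [Measure.map_apply (measurable_insertE e) hA] at h1
    have h2 := ih _ (measurable_insertE e hA) h1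
    simpa only [Finset.coe_insert, Set.union_insert, Set.mem_preimage] using h2

lemma inf_of_open {ω : Set (Edge d)} {n : ℕ} {c : Vtx d}
    (hc : InfAt (ω ∪ boxEdges d n) c) : (∃ x ∈ box d n, Conn ω c x) ∨ InfAt ω c := by
  by_contra hcon
  push Not at hcon
  refine hcon.2 (Set.Infinite.mono (fun b hb => ?_) hc)
  refine Conn.induction (P := fun b => Conn ω c b) (SimpleGraph.Reachable.refl _) ?_ hb
  rintro b b' e (he | he) hj - ih
  · exact ih.trans (Conn.of_joins he hj)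
  · exact absurd ih (hcon.1 b (touches_box he hj.touches_left))

lemma inf_of_close {ω : Set (Edge d)} {n : ℕ} {a : Vtx d} (ha : a ∈ box d n) (h : InfAt ω a) :
    ∃ x ∈ box d n, Conn ω a x ∧ InfAt (ω \ boxEdges d n) x := by
  by_contra hcon
  push Not at hcon
  refine h (Set.Finite.subset (s := ⋃ x ∈ ((box d n).filter fun x => Conn ω a x),
    cluster (ω \ boxEdges d n) x) ?_ ?_)
  · refine Set.Finite.biUnion (Finset.finite_toSet _) fun x hx => ?_
    obtain ⟨h1, h2⟩ := Finset.mem_filter.1 hx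
    exact Set.not_infinite.1 (hcon x h1 h2)
  · intro b hb
    simp only [Set.mem_iUnion, Finset.mem_filter, exists_prop]
    refine Conn.induction (P := fun b => ∃ x, (x ∈ box d n ∧ Conn ω a x) ∧
      b ∈ cluster (ω \ boxEdges d n) x)
      ⟨a, ⟨ha, SimpleGraph.Reachable.refl _⟩, SimpleGraph.Reachable.refl _⟩ ?_ hb
    rintro b c e he hj hab ⟨x, hx, hxb⟩
    by_cases heB : e ∈ boxEdges d n
    · exact ⟨c, ⟨touches_box heB hj.touches_right, hab.trans (Conn.of_joins he hj)⟩,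
        SimpleGraph.Reachable.refl _⟩
    · exact ⟨x, hx, SimpleGraph.Reachable.trans hxb (Conn.of_joins (Set.mem_sdiff_of_mem he heB) hj)⟩

lemma joins_box {N : ℕ} {e : Edge d} {b c : Vtx d} (hj : Joins e b c) (hb : b ∈ box d N) :
    c ∈ box d (N + 1) := by
  refine mem_box.2 fun i => ?_
  have h1 := mem_box.1 hb i
  have h2 : |(Pi.single e.2 1 : Vtx d) i| ≤ 1 := by
    by_cases h : i = e.2
    · subst h; simp
    · simp [h]
  rw [abs_le] at h1 h2 ⊢
  rcases hj with ⟨rfl, rfl⟩ | ⟨rfl, rfl⟩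
  · simp only [tip, Pi.add_apply]; push_cast; omega
  · simp only [tip, Pi.add_apply] at h1; push_cast; omega

lemma exit_box {ω : Set (Edge d)} {N : ℕ} {a : Vtx d} (ha : a ∈ box d N) (h : InfAt ω a) :
    ∃ y ∈ box d (N + 1) \ box d N, Conn ω a y := by
  by_contra hcon
  push Not at hcon
  refine h (Set.Finite.subset (box d N).finite_toSet fun b hb => ?_)
  refine Conn.induction (P := fun b => b ∈ box d N) ha ?_ hb
  intro b c e he hj hab ih
  by_contra hc
  exact hcon c (Finset.mem_sdiff.2 ⟨joins_box hj ih, hc⟩) (hab.trans (Conn.of_joins he hj))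

lemma three_max (g : Fin 3 → ℕ) (hg : Function.Injective g) :
    ∃ i j k, j ≠ k ∧ g j < g i ∧ g k < g i := by
  have h01 : g 0 ≠ g 1 := fun h => absurd (hg h) (by decide)
  have h02 : g 0 ≠ g 2 := fun h => absurd (hg h) (by decide)
  have h12 : g 1 ≠ g 2 := fun h => absurd (hg h) (by decide)
  by_cases h1 : g 1 < g 0 ∧ g 2 < g 0
  · exact ⟨0, 1, 2, by decide, h1.1, h1.2⟩
  by_cases h2 : g 0 < g 1 ∧ g 2 < g 1
  · exact ⟨1, 0, 2, by decide, h2.1, h2.2⟩
  exact ⟨2, 0, 1, by decide, by omega, by omega⟩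

/-- the deterministic counting lemma -/
lemma enc_card_le {ι : Type*} (ω : Set (Edge d)) (Z : Finset ι) (V : ι → Set (Vtx d))
    (B : ι → Set (Edge d)) (Y : Finset (Vtx d))
    (hB : ∀ z e x, e ∈ B z → Touches e x → x ∈ V z)
    (hdisj : ∀ z ∈ Z, ∀ z' ∈ Z, z ≠ z' → ∀ x, x ∈ V z → x ∉ V z')
    (hsub : ∀ z ∈ Z, B z ⊆ ω)
    (hconn : ∀ z, ∀ a ∈ V z, ∀ b ∈ V z, Conn (B z) a b)
    (henc : ∀ z ∈ Z, ∃ a : Fin 3 → Vtx d, (∀ i, a i ∈ V z) ∧
      (∀ i j, i ≠ j → ¬ Conn (ω \ B z) (a i) (a j)) ∧ ∀ i, ∃ y ∈ Y, Conn (ω \ B z) (a i) y) :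
    Z.card ≤ Y.card := by
  obtain ⟨f, hf⟩ := exists_injective_nat (Vtx d)
  let Q : ι → Vtx d → Prop := fun z y => y ∈ Y ∧ (∃ a ∈ V z, Conn (ω \ B z) a y) ∧
    (∀ y' ∈ Y, Conn (ω \ B z) y y' → f y ≤ f y') ∧
    ∃ a₁ ∈ V z, ∃ a₂ ∈ V z, ¬ Conn (ω \ B z) a₁ a₂ ∧
      (∃ y₁ ∈ Y, Conn (ω \ B z) a₁ y₁ ∧ f y₁ < f y) ∧ ∃ y₂ ∈ Y, Conn (ω \ B z) a₂ y₂ ∧ f y₂ < f y
  have hQ : ∀ z ∈ Z, ∃ y, Q z y := by
    intro z hz
    obtain ⟨a, h1, h2, h3⟩ := henc z hz
    have h4 : ∀ i, ∃ y ∈ Y.filter fun y => Conn (ω \ B z) (a i) y,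
        ∀ y' ∈ Y.filter fun y => Conn (ω \ B z) (a i) y, f y ≤ f y' := fun i => by
      obtain ⟨y, hy, hc⟩ := h3 i
      exact Finset.exists_min_image _ f ⟨y, Finset.mem_filter.2 ⟨hy, hc⟩⟩
    choose m hm hmin using h4
    simp only [Finset.mem_filter] at hm hmin
    obtain ⟨i, j, k, hjk, hj, hk⟩ := three_max (fun i => f (m i)) fun i j hij => by
      by_contra hne
      have : m i = m j := hf hij
      exact h2 i j hne ((hm i).2.trans (this ▸ (hm j).2.symm))
    exact ⟨m i, (hm i).1, ⟨a i, h1 i, (hm i).2⟩, fun y' hy' hc => hmin i y' ⟨hy', (hm i).2.trans hc⟩,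
      a j, h1 j, a k, h1 k, h2 j k hjk, ⟨m j, (hm j).1, (hm j).2, hj⟩, m k, (hm k).1, (hm k).2, hk⟩
  have hV : ∀ z ∈ Z, ∀ z' ∈ Z, z ≠ z' → ∀ a ∈ V z', ∀ b ∈ V z', Conn (ω \ B z) a b := by
    intro z hz z' hz' hne a ha b hb
    refine (hconn z' a ha b hb).mono fun e he => Set.mem_sdiff_of_mem (hsub z' hz' he) fun he' => ?_
    exact hdisj z hz z' hz' hne e.1 (hB z e _ he' (Or.inl rfl)) (hB z' e _ he (Or.inl rfl))
  have key : ∀ z z' a, (∀ x ∈ V z', ¬ Conn (ω \ B z) a x) → ∀ y, Conn (ω \ B z) a y →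
      Conn (ω \ B z') a y := by
    intro z z' a ha y hy
    refine Conn.induction (P := fun b => Conn (ω \ B z') a b) (SimpleGraph.Reachable.refl _) ?_ hy
    intro b c e he hj hab ih
    refine ih.trans (Conn.of_joins (Set.mem_sdiff_of_mem he.1 fun he' => ?_) hj)
    exact ha b (hB z' e b he' hj.touches_left) hab
  have claim : ∀ z ∈ Z, ∀ z' ∈ Z, z ≠ z' → ∀ y, Q z y → Q z' y →
      ¬ ∃ x ∈ V z, Conn (ω \ B z') x y := by
    rintro z hz z' hz' hne y ⟨-, -, -, a₁, ha₁, a₂, ha₂, h12, ⟨y₁, hy₁, c₁, l₁⟩, y₂, hy₂, c₂, l₂⟩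
      ⟨-, -, hmin, -⟩ ⟨x, hx, hxy⟩
    have aux : ∀ a ∈ V z, ∀ y' ∈ Y, Conn (ω \ B z) a y' → f y' < f y →
        ∃ x ∈ V z', Conn (ω \ B z) a x := by
      intro a ha y' hy' hc hl
      by_contra hcon
      push Not at hcon
      have := hmin y' hy' (hxy.symm.trans ((hV z' hz' z hz hne.symm x hx a ha).trans
        (key z z' a hcon y' hc)))
      omega
    obtain ⟨x₁, hx₁, d₁⟩ := aux a₁ ha₁ y₁ hy₁ c₁ l₁
    obtain ⟨x₂, hx₂, d₂⟩ := aux a₂ ha₂ y₂ hy₂ c₂ l₂
    exact h12 (d₁.trans ((hV z hz z' hz' hne x₁ hx₁ x₂ hx₂).trans d₂.symm))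
  choose! φ hφ using hQ
  refine Finset.card_le_card_of_injOn φ (fun z hz => (hφ z hz).1) fun z hz z' hz' h => ?_
  by_contra hne
  have h1 := hφ z hz
  have h2 := hφ z' hz'
  rw [← h] at h2
  obtain ⟨a, ha, hc⟩ := h1.2.1
  refine claim z hz z' hz' hne _ h1 h2 ⟨a, ha, key z z' a (fun x hx hax => ?_) _ hc⟩
  exact claim z' hz' z hz (Ne.symm hne) _ h2 h1 ⟨x, hx, hax.symm.trans hc⟩

/-- `k` points of `S` in distinct infinite clusters -/
def Many (k : ℕ) (S : Set (Vtx d)) (ω : Set (Edge d)) : Prop :=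
  ∃ a : Fin k → Vtx d, (∀ i, a i ∈ S) ∧ (∀ i, InfAt ω (a i)) ∧
    ∀ i j, i ≠ j → ¬ Conn ω (a i) (a j)

lemma measurable_many (k : ℕ) (S : Set (Vtx d)) {Y : Type*} [MeasurableSpace Y]
    {f : Y → Set (Edge d)} (hf : Measurable f) : Measurable fun y => Many k S (f y) :=
  .exists fun _ => measurable_const.and ((Measurable.forall fun _ => measurable_infAt hf _).and
    (.forall fun _ => .forall fun _ => measurable_const.imp (measurable_conn hf _ _).not))

lemma measurableSet_many (k : ℕ) (S : Set (Vtx d)) : MeasurableSet {ω | Many k S ω} :=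
  measurableSet_setOfPred.2 (measurable_many k S measurable_id)

lemma many_shift {k : ℕ} {z : Vtx d} {ω : Set (Edge d)} :
    Many k Set.univ (shiftS z ω) ↔ Many k Set.univ ω := by
  constructor
  · rintro ⟨a, -, h1, h2⟩
    exact ⟨fun i => a i + z, fun _ => trivial, fun i => infAt_shiftS.1 (h1 i),
      fun i j hij h => h2 i j hij (conn_shiftS.2 h)⟩
  · rintro ⟨a, -, h1, h2⟩
    exact ⟨fun i => a i - z, fun _ => trivial, fun i => infAt_shiftS.2 (by simpa using h1 i),
      fun i j hij h => h2 i j hij (by simpa using conn_shiftS.1 h)⟩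

lemma many_box {k : ℕ} {ω : Set (Edge d)} (h : Many k Set.univ ω) :
    ∃ n, Many k (box d n) ω := by
  obtain ⟨a, -, h1, h2⟩ := h
  obtain ⟨n, hn⟩ := exists_subset_box (Finset.univ.image a)
  exact ⟨n, a, fun i => hn (Finset.mem_image_of_mem _ (Finset.mem_univ i)), h1, h2⟩

/-- encounter box -/
def Enc (n : ℕ) (ω : Set (Edge d)) : Prop :=
  (∀ e ∈ boxEdges d n, e ∈ ω) ∧ Many 3 (box d n) (ω \ boxEdges d n)

lemma measurableSet_enc (n : ℕ) : MeasurableSet {ω : Set (Edge d) | Enc n ω} := by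
  refine measurableSet_setOfPred.2 (Measurable.and
    (.forall fun e => measurable_const.imp (measurable_set_mem e)) (measurable_many _ _ ?_))
  exact measurable_set_iff.2 fun e => (measurable_set_mem e).and measurable_const

lemma enc_of_many {n : ℕ} {ω : Set (Edge d)} (h : Many 3 (box d n) ω) :
    Enc n (ω ∪ boxEdges d n) := by
  obtain ⟨a, h1, h2, h3⟩ := h
  choose x hx hc hi using fun i => inf_of_close (h1 i) (h2 i)
  refine ⟨fun e he => Or.inr he, ?_⟩
  rw [Set.union_sdiff_right]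
  exact ⟨x, hx, hi, fun i j hij h => h3 i j hij
    ((hc i).trans ((h.mono Set.sdiff_subset).trans (hc j).symm))⟩

lemma not_two_of_open {n : ℕ} {ω : Set (Edge d)} (h : Many 2 (box d n) ω)
    (h3 : ¬ Many 3 Set.univ ω) : ¬ Many 2 Set.univ (ω ∪ boxEdges d n) := by
  obtain ⟨a, h1, h2, h4⟩ := h
  have key : ∀ c, InfAt (ω ∪ boxEdges d n) c → Conn (ω ∪ boxEdges d n) c (a 0) := by
    intro c hc
    have : ∃ x ∈ box d n, Conn ω c x := by
      rcases inf_of_open hc with h | h
      · exact h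
      by_contra hcon
      push Not at hcon
      refine h3 ⟨Fin.cons c a, fun _ => trivial, fun i => ?_, fun i j hij => ?_⟩
      · exact Fin.cases h h2 i
      · revert hij
        refine Fin.cases ?_ (fun i => ?_) i <;> refine Fin.cases ?_ (fun j => ?_) j
        · intro h; exact absurd rfl h
        · intro _; exact hcon _ (h1 j)
        · intro _ h; exact hcon _ (h1 i) h.symm
        · intro h; exact h4 i j fun h' => h (by rw [h'])
    obtain ⟨x, hx, hc⟩ := this
    exact (hc.mono Set.subset_union_left).trans ((conn_box hx (h1 0)).mono Set.subset_union_right)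
  rintro ⟨b, -, hb, hb'⟩
  exact hb' 0 1 (by decide) ((key _ (hb 0)).trans (key _ (hb 1)).symm)

lemma card_enc_le (n M : ℕ) (ω : Set (Edge d)) :
    ((box d M).filter fun y => Enc n (shiftS ((2 * n + 1 : ℤ) • y) ω)).card
      ≤ (box d ((2 * n + 1) * M + n + 1) \ box d ((2 * n + 1) * M + n)).card := by
  have hsh : ∀ z : Vtx d, shiftS z (ω \ shiftS (-z) (boxEdges d n : Set (Edge d)))
      = shiftS z ω \ boxEdges d n := fun z => by
    ext e; simp [shiftS, shiftE_shiftE]
  refine enc_card_le ω _ (fun y => {x | x + -((2 * n + 1 : ℤ) • y) ∈ box d n})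
    (fun y => shiftS (-((2 * n + 1 : ℤ) • y)) (boxEdges d n : Set (Edge d))) _ ?_ ?_ ?_ ?_ ?_
  · intro y e x he hx
    exact touches_box he (touches_shiftE.2 hx)
  · intro y _ y' _ hne x hx hx'
    apply hne
    funext i
    have h1 := abs_le.1 (mem_box.1 hx i)
    have h2 := abs_le.1 (mem_box.1 hx' i)
    simp only [Pi.add_apply, Pi.neg_apply, Pi.smul_apply, smul_eq_mul] at h1 h2
    by_contra h
    rcases lt_or_gt_of_ne h with h | h
    · have : y i + 1 ≤ y' i := h
      nlinarith [h1.1, h1.2, h2.1, h2.2]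
    · have : y' i + 1 ≤ y i := h
      nlinarith [h1.1, h1.2, h2.1, h2.2]
  · intro y hy e he
    have := (Finset.mem_filter.1 hy).2.1 _ he
    simpa [shiftS, shiftE_shiftE] using this
  · intro y a ha b hb
    exact conn_shiftS.2 (conn_box ha hb)
  · intro y hy
    obtain ⟨hy1, -, a, h1, h2, h3⟩ := Finset.mem_filter.1 hy
    rw [← hsh] at h2 h3
    refine ⟨fun i => a i + (2 * n + 1 : ℤ) • y, fun i => by simpa using h1 i,
      fun i j hij h => h3 i j hij (conn_shiftS.2 h), fun i => ?_⟩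
    refine exit_box (mem_box.2 fun j => ?_) (infAt_shiftS.1 (h2 i))
    have e1 := abs_le.1 (mem_box.1 (h1 i) j)
    have e2 := abs_le.1 (mem_box.1 hy1 j)
    simp only [Pi.add_apply, Pi.smul_apply, smul_eq_mul]
    rw [abs_le]
    push_cast
    constructor <;> nlinarith [e1.1, e1.2, e2.1, e2.2]

lemma exists_small (n : ℕ) {p : ℝ} (hp : 0 < p) : ∃ M : ℕ,
    ((box d ((2 * n + 1) * M + n + 1) \ box d ((2 * n + 1) * M + n)).card : ℝ)
      < p * (box d M).card := by
  have h1 : Tendsto (fun M : ℕ => ((2 * n + 1 : ℝ) + 2 * (1 / (2 * (M : ℝ) + 1))) ^ d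
      - (2 * n + 1 : ℝ) ^ d) atTop (nhds (((2 * n + 1 : ℝ) + 2 * 0) ^ d - (2 * n + 1 : ℝ) ^ d)) := by
    have : Tendsto (fun M : ℕ => 1 / (2 * (M : ℝ) + 1)) atTop (nhds 0) :=
      tendsto_const_nhds.div_atTop (tendsto_atTop_add_const_right _ _
        (tendsto_natCast_atTop_atTop.const_mul_atTop two_pos))
    exact (((this.const_mul 2).const_add _).pow d).sub_const _
  simp only [mul_zero, add_zero, sub_self] at h1
  obtain ⟨M, hM⟩ := (h1.eventually (gt_mem_nhds hp)).exists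
  refine ⟨M, ?_⟩
  rw [Finset.card_sdiff_of_subset (box_mono (Nat.le_succ _)),
    Nat.cast_sub (Finset.card_le_card (box_mono (Nat.le_succ _))), card_box, card_box, card_box]
  have hm : (0 : ℝ) < 2 * (M : ℝ) + 1 := by positivity
  have := mul_lt_mul_of_pos_right hM (pow_pos hm d)
  rw [sub_mul, ← mul_pow, ← mul_pow] at this
  push_cast
  have e1 : (2 * (n : ℝ) + 1 + 2 * (1 / (2 * M + 1))) * (2 * M + 1)
      = 2 * ((2 * n + 1) * M + n + 1) + 1 := by field_simp; ring
  have e2 : (2 * (n : ℝ) + 1) * (2 * M + 1) = 2 * ((2 * n + 1) * M + n) + 1 := by ring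
  rwa [e1, e2] at this

lemma enc_null (ν : Measure (Set (Edge d))) [IsProbabilityMeasure ν]
    (hinv : ∀ z, MeasurePreserving (shiftS z) ν ν) (n : ℕ) : ν {ω | Enc n ω} = 0 := by
  by_contra h0
  have hp : 0 < (ν {ω | Enc n ω}).toReal := ENNReal.toReal_pos h0 (measure_ne_top _ _)
  obtain ⟨M, hM⟩ := exists_small (d := d) n hp
  set K := (box d ((2 * n + 1) * M + n + 1) \ box d ((2 * n + 1) * M + n)).card
  let A : Vtx d → Set (Set (Edge d)) := fun y => shiftS ((2 * n + 1 : ℤ) • y) ⁻¹' {ω | Enc n ω}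
  have hA : ∀ y, MeasurableSet (A y) := fun y => measurable_shiftS _ (measurableSet_enc n)
  have h1 : ∑ y ∈ box d M, ν (A y) ≤ K := by
    calc ∑ y ∈ box d M, ν (A y) = ∑ y ∈ box d M, ∫⁻ ω, (A y).indicator 1 ω ∂ν :=
          Finset.sum_congr rfl fun y _ => (lintegral_indicator_one (hA y)).symm
      _ = ∫⁻ ω, ∑ y ∈ box d M, (A y).indicator 1 ω ∂ν :=
          (lintegral_finsetSum _ fun y _ => measurable_one.indicator (hA y)).symm
      _ ≤ ∫⁻ _, (K : ℝ≥0∞) ∂ν := by
          refine lintegral_mono fun ω => ?_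
          have := card_enc_le n M ω
          rw [Finset.card_filter] at this
          have h2 : ((∑ y ∈ box d M, if Enc n (shiftS ((2 * n + 1 : ℤ) • y) ω) then 1 else 0 : ℕ) :
            ℝ≥0∞) ≤ K := by exact_mod_cast this
          refine le_of_eq_of_le ?_ h2
          push_cast
          exact Finset.sum_congr rfl fun y _ => by simp [Set.indicator, A]
      _ = K := by simp
  have h2 : ∀ y, ν (A y) = ν {ω | Enc n ω} := fun y =>
    (hinv _).measure_preimage (measurableSet_enc n).nullMeasurableSet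
  simp only [h2, Finset.sum_const, nsmul_eq_mul] at h1
  have h3 := ENNReal.toReal_mono (by simp) h1
  rw [ENNReal.toReal_mul, ENNReal.toReal_natCast, ENNReal.toReal_natCast, mul_comm] at h3
  exact absurd hM (not_lt.2 h3)

end BK

open BK in
theorem burton_keane (ν : Measure (Set (Edge d))) [IsProbabilityMeasure ν]
    (hinv : ∀ z, MeasurePreserving (shiftS z) ν ν)
    (herg : ∀ A : Set (Set (Edge d)), MeasurableSet A → (∀ z, shiftS z ⁻¹' A = A) →
      ν A = 0 ∨ ν A = 1)
    (hins : ∀ e, ν.map (insert e) ≪ ν) :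
    ∀ᵐ ω ∂ν, ∀ a b, InfAt ω a → InfAt ω b → Conn ω a b := by
  have h3 : ν {ω | Many 3 Set.univ ω} = 0 := by
    refine measure_mono_null (t := ⋃ n, {ω | ω ∪ boxEdges d n ∈ {ω | Enc n ω}}) ?_
      (measure_iUnion_null fun n => null_open hins _ _ (measurableSet_enc n) (enc_null ν hinv n))
    intro ω hω
    obtain ⟨n, hn⟩ := many_box hω
    exact Set.mem_iUnion.2 ⟨n, enc_of_many hn⟩
  have h2 : ν {ω | Many 2 Set.univ ω} = 0 := by
    rcases herg _ (measurableSet_many 2 Set.univ) (fun z => Set.ext fun ω => many_shift) with h | h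
    · exact h
    have hc : ν {ω | Many 2 Set.univ ω}ᶜ = 0 :=
      (prob_compl_eq_zero_iff (measurableSet_many 2 Set.univ)).2 h
    refine measure_mono_null (t := {ω | Many 3 Set.univ ω} ∪
      ⋃ n, {ω | ω ∪ boxEdges d n ∈ {ω | Many 2 Set.univ ω}ᶜ}) ?_
      (measure_union_null h3 (measure_iUnion_null fun n =>
        null_open hins _ _ (measurableSet_many 2 Set.univ).compl hc))
    intro ω hω
    obtain ⟨n, hn⟩ := many_box hω
    by_cases h' : Many 3 Set.univ ω
    · exact Or.inl h'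
    · exact Or.inr (Set.mem_iUnion.2 ⟨n, not_two_of_open hn h'⟩)
  refine measure_mono_null (fun ω hω => ?_) h2
  simp only [Set.mem_compl_iff, Set.mem_ofPred_eq] at hω
  push Not at hω
  obtain ⟨a, b, ha, hb, hab⟩ := hω
  refine ⟨![a, b], fun _ => trivial, fun i => ?_, fun i j hij => ?_⟩
  · fin_cases i
    · exact ha
    · exact hb
  · fin_cases i <;> fin_cases j
    · exact absurd rfl hij
    · exact hab
    · exact fun h => hab h.symm
    · exact absurd rfl hij

end Pool.Agent.P.MP_d95e10_pr
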