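import Mathlib

/-!
Definitions for the coupled random-cluster dynamics on the hypercubic lattice.
-/

namespace Pool.Agent.P.MP_d95e10_pr

open MeasureTheory ProbabilityTheory Filter unitInterval
open scoped Classical

/-- Vertices of the lattice. -/
abbrev Vtx (d : ℕ) : Type := Fin d → ℤ

/-- The edge `(x, i)` joins `x` and `x + e_i`; every nearest-neighbour edge occurs exactly once. -/
abbrev Edge (d : ℕ) : Type := Vtx d × Fin d

/-- The space `X = [0,1]^E`. -/
abbrev Conf (d : ℕ) : Type := Edge d → I

variable {d : ℕ}

/-- The second endpoint `x + e_i` of the edge `(x, i)`. -/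
def tip (e : Edge d) : Vtx d := e.1 + Pi.single e.2 1

/-- The graph on the lattice points whose edges are the open edges. -/
def openGraph (ω : Set (Edge d)) : SimpleGraph (Vtx d) :=
  SimpleGraph.fromRel fun a b => ∃ e ∈ ω, e.1 = a ∧ tip e = b

/-- The number of infinite open clusters. -/
noncomputable def infCount (ω : Set (Edge d)) : ℕ∞ :=
  {C : (openGraph ω).ConnectedComponent | C.supp.Infinite}.encard

/-- `F(e, v)`: the infimum of the levels `s` such that the endpoints of `e` are joined by a finite
path avoiding `e` on which all values are at most `s`. -/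
noncomputable def bottleneck (e : Edge d) (v : Conf d) : I :=
  sInf {s | (openGraph {f | f ≠ e ∧ v f ≤ s}).Reachable e.1 (tip e)}

/-- The new value of an edge with `F(e, v) = F` whose clock rings with mark `α`. -/
noncomputable def upd (q : ℝ) (F α : I) : I :=
  if F < α then α
  else if (F : ℝ) / (F + q * (1 - F)) < α then F
  else Set.projIcc 0 1 zero_le_one (q * α / (1 - α + q * α))

/-- One update at time `τ`: `R e τ α` means that the clock of `e` rings at time `τ` with mark `α`;
only edges of `Λ` are updated. (Ties, a null event, are resolved by a parallel update.) -/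
noncomputable def step (q : ℝ) (Λ : Finset (Edge d)) (R : Edge d → ℝ → I → Prop)
    (v : Conf d) (τ : ℝ) : Conf d :=
  fun e => if e ∈ Λ ∧ ∃ α, R e τ α then upd q (bottleneck e v) (sInf {α | R e τ α}) else v e

/-- The times in `(a, b]` at which some edge of `Λ` rings. -/
def ringTimes (Λ : Finset (Edge d)) (R : Edge d → ℝ → I → Prop) (a b : ℝ) : Set ℝ :=
  {τ | a < τ ∧ τ ≤ b ∧ ∃ e ∈ Λ, ∃ α, R e τ α}

/-- The state at time `b` of the dynamics on `Λ` started from `v` at time `a`. -/
noncomputable def run (q : ℝ) (Λ : Finset (Edge d)) (R : Edge d → ℝ → I → Prop) (a b : ℝ)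
    (v : Conf d) : Conf d :=
  if h : (ringTimes Λ R a b).Finite then (h.toFinset.sort (· ≤ ·)).foldl (step q Λ R) v else v

/-- The randomness of one edge in one unit time interval: a number of rings and a sequence of
pairs (position in the interval, mark). -/
abbrev Block : Type := ℕ × (ℕ → I × I)

/-- Poisson(1) many rings, positions and marks i.i.d. uniform. -/
noncomputable def blockLaw : Measure Block :=
  (poissonMeasure 1).prod (Measure.infinitePi fun _ : ℕ => (volume : Measure I).prod volume)

/-- One block for every edge and every unit time interval. -/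
abbrev Om (d : ℕ) : Type := Edge d × ℤ → Block

/-- Independent blocks: independent rate-one Poisson clocks with i.i.d. uniform marks. -/
noncomputable def clockLaw (d : ℕ) : Measure (Om d) := Measure.infinitePi fun _ => blockLaw

/-- The clock of `e` rings at time `τ` with mark `α`. -/
def Rings (ω : Om d) (e : Edge d) (τ : ℝ) (α : I) : Prop :=
  ∃ k : ℤ, ∃ i < (ω (e, k)).1, (k : ℝ) + ((ω (e, k)).2 i).1 = τ ∧ ((ω (e, k)).2 i).2 = α

/-- The box `[-n, n]^d`. -/
noncomputable def box (d n : ℕ) : Finset (Vtx d) :=
  Fintype.piFinset fun _ => Finset.Icc (-(n : ℤ)) n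

/-- The edges with both endpoints in the box. -/
noncomputable def boxEdges (d n : ℕ) : Finset (Edge d) :=
  (box d n ×ˢ Finset.univ).filter fun e => tip e ∈ box d n

/-- The infinite-volume process `Z^b_t`, started at time `0` from the constant configuration `b`
with boundary value `b`. -/
noncomputable def Z (q : ℝ) (b : I) (t : ℝ) (ω : Om d) : Conf d :=
  fun e => limUnder atTop fun n => run q (boxEdges d n) (Rings ω) 0 t (fun _ => b) e

end Pool.Agent.P.MP_d95e10_pr
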