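import Pool.Agent.P.MP_d95e10_pr.Shared

/-!
Deterministic theory of the finite-volume dynamics.
-/

namespace Pool.Agent.P.MP_d95e10_pr

open Filter unitInterval
open scoped Classical

variable {d : ℕ}

/-- The strict level set. -/
def lev (v : Conf d) (s : ℝ) : Set (Edge d) := {e | (v e : ℝ) < s}

/-- The non-strict level set. -/
def lle (v : Conf d) (s : I) : Set (Edge d) := {e | v e ≤ s}

lemma mem_lev {v : Conf d} {s : ℝ} {e : Edge d} : e ∈ lev v s ↔ (v e : ℝ) < s := Iff.rfl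

lemma mem_lle {v : Conf d} {s : I} {e : Edge d} : e ∈ lle v s ↔ v e ≤ s := Iff.rfl

lemma lev_mono (v : Conf d) {s t : ℝ} (h : s ≤ t) : lev v s ⊆ lev v t :=
  fun _ he => lt_of_lt_of_le he h

lemma lle_mono (v : Conf d) {s t : I} (h : s ≤ t) : lle v s ⊆ lle v t :=
  fun _ he => le_trans he h

lemma lev_anti {v v' : Conf d} (h : v ≤ v') (s : ℝ) : lev v' s ⊆ lev v s :=
  fun e he => lt_of_le_of_lt (show (v e : ℝ) ≤ v' e from h e) he

lemma le_of_lev {x y : I} (h : ∀ s : ℝ, s ≤ 1 → (y : ℝ) < s → (x : ℝ) < s) : x ≤ y := by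
  by_contra hc
  have h1 : (y : ℝ) < x := by exact_mod_cast not_le.1 hc
  exact lt_irrefl _ (h x x.2.2 h1)

lemma sInf_lt_real {S : Set I} (hS : S.Nonempty) {t : ℝ} :
    ((sInf S : I) : ℝ) < t ↔ ∃ α ∈ S, (α : ℝ) < t := by
  constructor
  · intro h
    by_cases ht : t ≤ 1
    · have h0 : 0 ≤ t := (sInf S).2.1.trans h.le
      have h1 : sInf S < (⟨t, h0, ht⟩ : I) := h
      obtain ⟨α, hα, h2⟩ := sInf_lt_iff.1 h1
      exact ⟨α, hα, h2⟩
    · obtain ⟨α, hα⟩ := hS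
      exact ⟨α, hα, lt_of_le_of_lt α.2.2 (not_le.1 ht)⟩
  · rintro ⟨α, hα, h⟩
    exact lt_of_le_of_lt (show ((sInf S : I) : ℝ) ≤ α from sInf_le hα) h

lemma not_conn_empty (e : Edge d) : ¬ Conn (∅ : Set (Edge d)) e.1 (tip e) := by
  intro h
  have : tip e = e.1 := Conn.induction (P := fun b => b = e.1) rfl
    (fun _ _ _ he => absurd he (Set.notMem_empty _)) h
  exact tip_ne e this.symm

lemma bottleneck_lt_iff {e : Edge d} {v : Conf d} {s : ℝ} (hs : s ≤ 1) :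
    (bottleneck e v : ℝ) < s ↔ Conn (lev v s \ {e}) e.1 (tip e) := by
  constructor
  · intro h
    have h0 : 0 ≤ s := (bottleneck e v).2.1.trans h.le
    have h1 : bottleneck e v < (⟨s, h0, hs⟩ : I) := h
    obtain ⟨t, ht, h2⟩ := sInf_lt_iff.1 h1
    refine Conn.mono ?_ ht
    rintro f ⟨hf1, hf2⟩
    exact ⟨lt_of_le_of_lt (show (v f : ℝ) ≤ t from hf2) h2, hf1⟩
  · intro h
    obtain ⟨γ, hγ, hc⟩ := h.exists_finset
    have hne : γ.Nonempty := by
      rcases γ.eq_empty_or_nonempty with rfl | h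
      · exact absurd (by simpa using hc) (not_conn_empty e)
      · exact h
    obtain ⟨f, hf, hmax⟩ := γ.exists_max_image v hne
    have h1 : bottleneck e v ≤ v f := by
      refine sInf_le (Conn.mono ?_ hc)
      intro g hg
      exact ⟨(hγ hg).2, hmax g hg⟩
    exact lt_of_le_of_lt (show (bottleneck e v : ℝ) ≤ v f from h1) (hγ hf).1

lemma gq_den_pos {q s : ℝ} (hq : 1 ≤ q) (hs : s ≤ 1) : 0 < s + q * (1 - s) := by nlinarith

lemma gq_le' {q s : ℝ} (hq : 1 ≤ q) (hs0 : 0 ≤ s) (hs : s ≤ 1) : gq q s ≤ s := by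
  rw [gq, div_le_iff₀ (gq_den_pos hq hs)]
  nlinarith [mul_nonneg hs0 (mul_nonneg (sub_nonneg.2 hq) (sub_nonneg.2 hs))]

lemma gq_pos {q s : ℝ} (hq : 1 ≤ q) (hs0 : 0 < s) (hs : s ≤ 1) : 0 < gq q s :=
  div_pos hs0 (gq_den_pos hq hs)

lemma gq_mono {q s t : ℝ} (hq : 1 ≤ q) (hst : s ≤ t) (ht : t ≤ 1) : gq q s ≤ gq q t := by
  rw [gq, gq, div_le_div_iff₀ (gq_den_pos hq (hst.trans ht)) (gq_den_pos hq ht)]
  nlinarith

lemma gq_strictMono {q s t : ℝ} (hq : 1 ≤ q) (hst : s < t) (ht : t ≤ 1) : gq q s < gq q t := by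
  rw [gq, gq, div_lt_div_iff₀ (gq_den_pos hq (hst.le.trans ht)) (gq_den_pos hq ht)]
  nlinarith

lemma lt_of_lt_gq {q s : ℝ} (hq : 1 ≤ q) (hs : s ≤ 1) {α : I} (h : (α : ℝ) < gq q s) :
    (α : ℝ) < s := by
  by_cases h0 : 0 ≤ s
  · exact h.trans_le (gq_le' hq h0 hs)
  · have : gq q s < 0 := div_neg_of_neg_of_pos (not_le.1 h0) (gq_den_pos hq hs)
    linarith [α.2.1]

lemma upd_lt_iff {q s : ℝ} (hq : 1 ≤ q) (hs : s ≤ 1) {F α : I} :
    (upd q F α : ℝ) < s ↔ ((F : ℝ) < s ∧ (α : ℝ) < s) ∨ (α : ℝ) < gq q s := by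
  have hF0 := F.2.1
  have hF1 := F.2.2
  have hα0 := α.2.1
  have hα1 := α.2.2
  unfold upd
  split_ifs with h1 h2
  · have h1' : (F : ℝ) < α := h1
    constructor
    · intro h; exact Or.inl ⟨h1'.trans h, h⟩
    · rintro (h | h)
      · exact h.2
      · exact lt_of_lt_gq hq hs h
  · have h1' : (α : ℝ) ≤ F := by exact_mod_cast not_lt.1 h1
    constructor
    · intro h; exact Or.inl ⟨h, h1'.trans_lt h⟩
    · rintro (h | h)
      · exact h.1
      · by_contra hc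
        have := gq_mono hq (not_lt.1 hc) hF1
        unfold gq at this h
        linarith
  · have hden : 0 < 1 - (α : ℝ) + q * α := by nlinarith
    have hmem : q * α / (1 - α + q * α) ∈ Set.Icc (0 : ℝ) 1 :=
      ⟨div_nonneg (by nlinarith) hden.le, (div_le_one hden).2 (by linarith)⟩
    rw [Set.projIcc_of_mem _ hmem]
    have key : q * α / (1 - α + q * α) < s ↔ (α : ℝ) < gq q s := by
      rw [gq, div_lt_iff₀ hden, lt_div_iff₀ (gq_den_pos hq hs)]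
      constructor <;> intro h <;> nlinarith
    simp only [key]
    constructor
    · exact Or.inr
    · rintro (h | h)
      · exact lt_of_le_of_lt (not_lt.1 h2) (gq_strictMono hq h.1 hs)
      · exact h

lemma step_of_not {q : ℝ} {Λ : Finset (Edge d)} {R : Rel d} {v : Conf d} {τ : ℝ} {e : Edge d}
    (h : ¬ (e ∈ Λ ∧ ∃ α, R e τ α)) : step q Λ R v τ e = v e := by
  simp only [step, if_neg h]

lemma step_lt_iff {q s : ℝ} (hq : 1 ≤ q) (hs : s ≤ 1) {Λ : Finset (Edge d)} {R : Rel d}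
    {v : Conf d} {τ : ℝ} {e : Edge d} (h : e ∈ Λ ∧ ∃ α, R e τ α) :
    (step q Λ R v τ e : ℝ) < s ↔ ∃ α, R e τ α ∧
      ((Conn (lev v s \ {e}) e.1 (tip e) ∧ (α : ℝ) < s) ∨ (α : ℝ) < gq q s) := by
  have hne : {α | R e τ α}.Nonempty := h.2
  simp only [step, if_pos h, upd_lt_iff hq hs, bottleneck_lt_iff hs, sInf_lt_real hne,
    Set.mem_ofPred_eq]
  constructor
  · rintro (⟨h1, α, h2, h3⟩ | ⟨α, h2, h3⟩)
    · exact ⟨α, h2, Or.inl ⟨h1, h3⟩⟩
    · exact ⟨α, h2, Or.inr h3⟩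
  · rintro ⟨α, h2, ⟨h1, h3⟩ | h3⟩
    · exact Or.inl ⟨h1, α, h2, h3⟩
    · exact Or.inr ⟨α, h2, h3⟩

/-! ### Runs -/

/-- Local finiteness of a ring relation. -/
def LF (R : Rel d) : Prop := ∀ Λ a b, (ringTimes Λ R a b).Finite

lemma foldl_filter_id {A B : Type*} (f : A → B → A) (p : B → Prop) (l : List B)
    (h : ∀ b ∈ l, ¬ p b → ∀ a, f a b = a) (a : A) :
    l.foldl f a = (l.filter fun b => decide (p b)).foldl f a := by
  induction l generalizing a with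
  | nil => rfl
  | cons b l ih =>
    have ih' := ih fun c hc => h c (List.mem_cons_of_mem _ hc)
    by_cases hb : p b
    · simp [hb, ih']
    · simp [hb, ih', h b List.mem_cons_self hb]

lemma run_eq_foldl {q : ℝ} {Λ : Finset (Edge d)} {R : Rel d} {a b : ℝ} {l : List ℝ}
    (hl : l.Pairwise (· < ·)) (hsub : ∀ τ ∈ ringTimes Λ R a b, τ ∈ l)
    (hwin : ∀ τ ∈ l, a < τ ∧ τ ≤ b) (v : Conf d) :
    run q Λ R a b v = l.foldl (step q Λ R) v := by
  have hfin : (ringTimes Λ R a b).Finite := (List.finite_toSet l).subset hsub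
  rw [run, dif_pos hfin, foldl_filter_id (step q Λ R) (· ∈ ringTimes Λ R a b) l]
  · congr 1
    refine List.Perm.eq_of_pairwise (le := (· < ·)) (fun x y _ _ h1 h2 => absurd h1 (lt_asymm h2))
      (Finset.sortedLT_sort _).pairwise (hl.filter _) ?_
    refine (List.perm_ext_iff_of_nodup (Finset.sort_nodup _ _)
      ((hl.filter _).imp ne_of_lt)).2 fun τ => ?_
    simp only [Finset.mem_sort, Set.Finite.mem_toFinset, List.mem_filter, decide_eq_true_eq]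
    exact ⟨fun h => ⟨hsub τ h, h⟩, fun h => h.2⟩
  · intro τ hτ hn w
    funext e
    refine step_of_not fun h => hn ⟨(hwin τ hτ).1, (hwin τ hτ).2, e, h.1, h.2⟩

lemma exists_list {T : Set ℝ} (hT : T.Finite) :
    ∃ l : List ℝ, l.Pairwise (· < ·) ∧ ∀ τ, τ ∈ l ↔ τ ∈ T :=
  ⟨hT.toFinset.sort (· ≤ ·), (Finset.sortedLT_sort _).pairwise, fun τ => by simp⟩

lemma foldl_rel {A A' B : Type*} {f : A → B → A} {f' : A' → B → A'} {P : A → A' → Prop}
    {l : List B} (h : ∀ b ∈ l, ∀ a a', P a a' → P (f a b) (f' a' b)) {a : A} {a' : A'}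
    (h0 : P a a') : P (l.foldl f a) (l.foldl f' a') := by
  induction l generalizing a a' with
  | nil => exact h0
  | cons b l ih =>
    exact ih (fun c hc => h c (List.mem_cons_of_mem _ hc)) (h b List.mem_cons_self _ _ h0)

/-- Comparison principle. -/
lemma run_rel {q : ℝ} {Λ Λ' : Finset (Edge d)} {R R' : Rel d} (hR : LF R) (hR' : LF R')
    {a b : ℝ} {P : Conf d → Conf d → Prop}
    (h : ∀ τ, a < τ → τ ≤ b → ∀ v v', P v v' → P (step q Λ R v τ) (step q Λ' R' v' τ))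
    {v v' : Conf d} (h0 : P v v') : P (run q Λ R a b v) (run q Λ' R' a b v') := by
  obtain ⟨l, hl, hm⟩ := exists_list ((hR Λ a b).union (hR' Λ' a b))
  have hwin : ∀ τ ∈ l, a < τ ∧ τ ≤ b := by
    intro τ hτ
    rcases (hm τ).1 hτ with h | h <;> exact ⟨h.1, h.2.1⟩
  rw [run_eq_foldl hl (fun τ h => (hm τ).2 (Or.inl h)) hwin,
    run_eq_foldl hl (fun τ h => (hm τ).2 (Or.inr h)) hwin]
  exact foldl_rel (fun τ hτ => h τ (hwin τ hτ).1 (hwin τ hτ).2) h0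

lemma run_inv {q : ℝ} {Λ : Finset (Edge d)} {R : Rel d} (hR : LF R)
    {a b : ℝ} {P : Conf d → Prop}
    (h : ∀ τ, a < τ → τ ≤ b → ∀ v, P v → P (step q Λ R v τ))
    {v : Conf d} (h0 : P v) : P (run q Λ R a b v) :=
  run_rel (Λ' := Λ) (q := q) (P := fun v _ => P v) (v' := v) hR hR
    (fun τ h1 h2 v _ hv => h τ h1 h2 v hv) h0

lemma run_semigroup {q : ℝ} {Λ : Finset (Edge d)} {R : Rel d} (hR : LF R) {a b c : ℝ}
    (hab : a ≤ b) (hbc : b ≤ c) (v : Conf d) :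
    run q Λ R a c v = run q Λ R b c (run q Λ R a b v) := by
  obtain ⟨l₁, hl₁, hm₁⟩ := exists_list (hR Λ a b)
  obtain ⟨l₂, hl₂, hm₂⟩ := exists_list (hR Λ b c)
  have w₁ : ∀ τ ∈ l₁, a < τ ∧ τ ≤ b := fun τ h => ⟨((hm₁ τ).1 h).1, ((hm₁ τ).1 h).2.1⟩
  have w₂ : ∀ τ ∈ l₂, b < τ ∧ τ ≤ c := fun τ h => ⟨((hm₂ τ).1 h).1, ((hm₂ τ).1 h).2.1⟩
  rw [run_eq_foldl hl₁ (fun τ h => (hm₁ τ).2 h) w₁, run_eq_foldl hl₂ (fun τ h => (hm₂ τ).2 h) w₂,
    ← List.foldl_append]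
  refine run_eq_foldl ?_ ?_ ?_ v
  · exact List.pairwise_append.2 ⟨hl₁, hl₂, fun x hx y hy => (w₁ x hx).2.trans_lt (w₂ y hy).1⟩
  · rintro τ ⟨h1, h2, h3⟩
    rcases le_or_gt τ b with h | h
    · exact List.mem_append_left _ ((hm₁ τ).2 ⟨h1, h, h3⟩)
    · exact List.mem_append_right _ ((hm₂ τ).2 ⟨h, h2, h3⟩)
  · intro τ hτ
    rcases List.mem_append.1 hτ with h | h
    · exact ⟨(w₁ τ h).1, (w₁ τ h).2.trans hbc⟩
    · exact ⟨hab.trans_lt (w₂ τ h).1, (w₂ τ h).2⟩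

lemma step_congr {q : ℝ} {Λ : Finset (Edge d)} {R R' : Rel d} {τ τ' : ℝ}
    (h : ∀ e ∈ Λ, ∀ α, R e τ α ↔ R' e τ' α) (v : Conf d) :
    step q Λ R v τ = step q Λ R' v τ' := by
  funext e
  by_cases he : e ∈ Λ
  · have : (fun α => R e τ α) = fun α => R' e τ' α := funext fun α => propext (h e he α)
    simp only [step, he, true_and, h e he]
  · simp [step, he]

lemma run_congr {q : ℝ} {Λ : Finset (Edge d)} {R R' : Rel d} (hR : LF R) (hR' : LF R')
    {a b : ℝ} (h : ∀ e ∈ Λ, ∀ τ, a < τ → τ ≤ b → ∀ α, R e τ α ↔ R' e τ α) (v : Conf d) :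
    run q Λ R a b v = run q Λ R' a b v :=
  run_rel (P := fun v v' => v = v') hR hR'
    (fun τ h1 h2 v _ hv => hv ▸ step_congr (fun e he => h e he τ h1 h2) v) rfl

lemma run_of_no_ring {q : ℝ} {Λ : Finset (Edge d)} {R : Rel d} (hR : LF R) {a b : ℝ}
    {e : Edge d} (h : e ∈ Λ → ∀ τ, a < τ → τ ≤ b → ∀ α, ¬ R e τ α) (v : Conf d) :
    run q Λ R a b v e = v e :=
  run_inv (P := fun w => w e = v e) hR
    (fun τ h1 h2 w hw => by
      rw [step_of_not fun ⟨he, α, hα⟩ => h he τ h1 h2 α hα, hw]) rfl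

lemma run_single {q : ℝ} {Λ : Finset (Edge d)} {R : Rel d} {a τ : ℝ} (ha : a < τ)
    (h : ∀ e ∈ Λ, ∀ t, a < t → t < τ → ∀ α, ¬ R e t α) (v : Conf d) :
    run q Λ R a τ v = step q Λ R v τ := by
  rw [run_eq_foldl (l := [τ]) (by simp) ?_ (by simp [ha])]
  · rfl
  · rintro t ⟨h1, h2, e, he, α, hα⟩
    rcases h2.lt_or_eq with h3 | h3
    · exact absurd hα (h e he t h1 h3 α)
    · simp [h3]

lemma exists_gap {T : Set ℝ} (hT : T.Finite) {a τ : ℝ} (ha : a < τ) :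
    ∃ t, a ≤ t ∧ t < τ ∧ ∀ u ∈ T, ¬ (t < u ∧ u < τ) := by
  have hf : (insert a (T ∩ Set.Iio τ)).Finite := (hT.inter_of_left _).insert a
  obtain ⟨t, ht, hmax⟩ := Set.exists_max_image _ id hf (Set.insert_nonempty _ _)
  refine ⟨t, hmax a (Set.mem_insert _ _), ?_, fun u hu h => ?_⟩
  · rcases ht with rfl | ht
    · exact ha
    · exact ht.2
  · exact absurd (hmax u (Set.mem_insert_of_mem _ ⟨hu, h.2⟩)) (not_le.2 h.1)

/-! ### Monotonicity -/

/-- Domination of ring relations at a pair of levels and a time. -/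
def DomAt (q : ℝ) (R : Rel d) (s : ℝ) (R' : Rel d) (s' : ℝ) (τ : ℝ) : Prop :=
  ∀ e, (∀ α, R e τ α → (α : ℝ) < s →
      ∃ α', R' e τ α' ∧ (α' : ℝ) < s' ∧ ((α : ℝ) < gq q s → (α' : ℝ) < gq q s')) ∧
    ((∀ α, ¬ R e τ α) → ∀ α', R' e τ α' → ∃ α'', R' e τ α'' ∧ (α'' : ℝ) < gq q s')

lemma step_lev_mono {q s s' : ℝ} (hq : 1 ≤ q) (hs : s ≤ 1) (hs' : s' ≤ 1)
    {Λ : Finset (Edge d)} {R R' : Rel d} {τ : ℝ} (hD : DomAt q R s R' s' τ) {v v' : Conf d}
    (h : lev v s ⊆ lev v' s') : lev (step q Λ R v τ) s ⊆ lev (step q Λ R' v' τ) s' := by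
  intro e he
  rw [mem_lev] at he ⊢
  by_cases h1 : e ∈ Λ ∧ ∃ α, R e τ α
  · obtain ⟨α, hα, h2⟩ := (step_lt_iff hq hs h1).1 he
    have hαs : (α : ℝ) < s := h2.elim (fun h => h.2) (lt_of_lt_gq hq hs)
    obtain ⟨α', hα', h3, h4⟩ := (hD e).1 α hα hαs
    refine (step_lt_iff hq hs' ⟨h1.1, α', hα'⟩).2 ⟨α', hα', ?_⟩
    rcases h2 with h2 | h2
    · exact Or.inl ⟨h2.1.mono (Set.sdiff_subset_sdiff_left h), h3⟩
    · exact Or.inr (h4 h2)
  · rw [step_of_not h1] at he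
    by_cases h2 : e ∈ Λ ∧ ∃ α, R' e τ α
    · obtain ⟨α', hα'⟩ := h2.2
      obtain ⟨α'', h3, h4⟩ := (hD e).2 (fun α hα => h1 ⟨h2.1, α, hα⟩) α' hα'
      exact (step_lt_iff hq hs' h2).2 ⟨α'', h3, Or.inr h4⟩
    · rw [step_of_not h2]
      exact h he

lemma DomAt.refl (q : ℝ) (R : Rel d) (s τ : ℝ) : DomAt q R s R s τ :=
  fun _ => ⟨fun α h1 h2 => ⟨α, h1, h2, id⟩, fun h α' h' => absurd h' (h α')⟩

lemma run_lev_mono {q s s' : ℝ} (hq : 1 ≤ q) (hs : s ≤ 1) (hs' : s' ≤ 1)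
    {Λ : Finset (Edge d)} {R R' : Rel d} (hR : LF R) (hR' : LF R') {a b : ℝ}
    (hD : ∀ τ, a < τ → τ ≤ b → DomAt q R s R' s' τ) {v v' : Conf d}
    (h : lev v s ⊆ lev v' s') : lev (run q Λ R a b v) s ⊆ lev (run q Λ R' a b v') s' :=
  run_rel (P := fun v v' => lev v s ⊆ lev v' s') hR hR'
    (fun τ h1 h2 _ _ hv => step_lev_mono hq hs hs' (hD τ h1 h2) hv) h

lemma step_mono {q : ℝ} (hq : 1 ≤ q) {Λ : Finset (Edge d)} {R : Rel d} {τ : ℝ} {v v' : Conf d}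
    (h : v ≤ v') : step q Λ R v τ ≤ step q Λ R v' τ := fun _ =>
  le_of_lev fun s hs he => step_lev_mono hq hs hs (DomAt.refl q R s τ) (lev_anti h s) he

lemma run_mono {q : ℝ} (hq : 1 ≤ q) {Λ : Finset (Edge d)} {R : Rel d} (hR : LF R) {a b : ℝ}
    {v v' : Conf d} (h : v ≤ v') : run q Λ R a b v ≤ run q Λ R a b v' :=
  run_rel (P := fun v v' => v ≤ v') hR hR (fun _ _ _ _ _ hv => step_mono hq hv) h

lemma step_eq_of_mem {q : ℝ} {Λ Λ' : Finset (Edge d)} {R : Rel d} {τ : ℝ} {v : Conf d}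
    {e : Edge d} (h : e ∈ Λ) (h' : e ∈ Λ') : step q Λ R v τ e = step q Λ' R v τ e := by
  simp [step, h, h']

/-- Free boundary: the values decrease with the volume and the elapsed time. -/
lemma run_one_anti {q : ℝ} (hq : 1 ≤ q) {Λ Λ' : Finset (Edge d)} (hΛ : Λ ⊆ Λ') {R : Rel d}
    (hR : LF R) {a a' b : ℝ} (ha : a' ≤ a) (hb : a ≤ b) :
    run q Λ' R a' b (fun _ => 1) ≤ run q Λ R a b (fun _ => 1) := by
  rw [run_semigroup hR ha hb]
  refine (run_rel (P := fun v' v => (∀ e ∉ Λ, v e = 1) ∧ v' ≤ v) hR hR ?_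
    ⟨fun _ _ => rfl, fun e => le_one'⟩).2
  rintro τ - - v' v ⟨h1, h2⟩
  refine ⟨fun e he => by rw [step_of_not fun h => he h.1, h1 e he], fun e => ?_⟩
  by_cases he : e ∈ Λ
  · rw [← step_eq_of_mem he (hΛ he)]
    exact step_mono hq h2 e
  · rw [step_of_not (Λ := Λ) fun h => he h.1, h1 e he]
    exact le_one'

/-- Wired boundary: the values increase with the volume and the elapsed time. -/
lemma run_zero_mono {q : ℝ} (hq : 1 ≤ q) {Λ Λ' : Finset (Edge d)} (hΛ : Λ ⊆ Λ') {R : Rel d}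
    (hR : LF R) {a a' b : ℝ} (ha : a' ≤ a) (hb : a ≤ b) :
    run q Λ R a b (fun _ => 0) ≤ run q Λ' R a' b (fun _ => 0) := by
  rw [run_semigroup hR ha hb]
  refine (run_rel (P := fun v v' => (∀ e ∉ Λ, v e = 0) ∧ v ≤ v') hR hR ?_
    ⟨fun _ _ => rfl, fun e => nonneg'⟩).2
  rintro τ - - v v' ⟨h1, h2⟩
  refine ⟨fun e he => by rw [step_of_not fun h => he h.1, h1 e he], fun e => ?_⟩
  by_cases he : e ∈ Λ
  · rw [step_eq_of_mem he (hΛ he)]
    exact step_mono hq h2 e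
  · rw [step_of_not (Λ := Λ) fun h => he h.1, h1 e he]
    exact nonneg'

/-! ### Translations in space and time -/

lemma bottleneck_shift (z : Vtx d) (e : Edge d) (v : Conf d) :
    bottleneck e (v ∘ shiftE z) = bottleneck (shiftE z e) v := by
  unfold bottleneck
  congr 1
  ext s
  have : {f | f ≠ e ∧ (v ∘ shiftE z) f ≤ s} = shiftS z {f | f ≠ shiftE z e ∧ v f ≤ s} := by
    ext f
    simp [shiftS, (shiftE_injective z).eq_iff]
  simp only [Set.mem_ofPred_eq, this]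
  rw [tip_shiftE]
  exact conn_shiftS

lemma LF.shift {R : Rel d} (hR : LF R) (z : Vtx d) : LF fun e => R (shiftE z e) := by
  intro Λ a b
  refine (hR (Λ.image (shiftE z)) a b).subset ?_
  rintro τ ⟨h1, h2, e, he, h3⟩
  exact ⟨h1, h2, shiftE z e, Finset.mem_image_of_mem _ he, h3⟩

lemma run_shift {q : ℝ} {Λ : Finset (Edge d)} {R : Rel d} (hR : LF R) (z : Vtx d) (a b : ℝ)
    (v : Conf d) : run q Λ (fun e => R (shiftE z e)) a b (v ∘ shiftE z) =
      run q (Λ.image (shiftE z)) R a b v ∘ shiftE z := by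
  refine run_rel (P := fun v' v => v' = v ∘ shiftE z) (hR.shift z) hR ?_ rfl
  rintro τ - - _ v rfl
  funext e
  have : shiftE z e ∈ Λ.image (shiftE z) ↔ e ∈ Λ :=
    (shiftE_injective z).mem_finset_image
  simp only [step, Function.comp, this]
  rw [← bottleneck_shift]

lemma run_winRel {q : ℝ} {Λ : Finset (Edge d)} {R : Rel d} (hR : LF R) (a L : ℝ) (v : Conf d) :
    run q Λ (winRel Λ a L R) 0 L v = run q Λ R a (a + L) v := by
  obtain ⟨l, hl, hm⟩ := exists_list (hR Λ a (a + L))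
  have w : ∀ τ ∈ l, a < τ ∧ τ ≤ a + L := fun τ h => ⟨((hm τ).1 h).1, ((hm τ).1 h).2.1⟩
  rw [run_eq_foldl hl (fun τ h => (hm τ).2 h) w,
    run_eq_foldl (l := l.map (· - a)) (List.pairwise_map.2 (hl.imp fun h => by linarith))]
  · rw [List.foldl_map]
    refine foldl_rel (P := fun v v' => v = v') ?_ rfl
    rintro τ hτ v _ rfl
    refine step_congr (fun e he α => ?_) v
    have := w τ hτ
    simp only [winRel, he, true_and, add_sub_cancel]
    exact ⟨fun h => h.2.2, fun h => ⟨by linarith, by linarith, h⟩⟩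
  · rintro τ ⟨h1, h2, e, he, α, -, -, -, h3⟩
    exact List.mem_map.2 ⟨a + τ, (hm _).2 ⟨by linarith, by linarith, e, he, α, h3⟩, by ring⟩
  · intro τ hτ
    obtain ⟨t, ht, rfl⟩ := List.mem_map.1 hτ
    have := w t ht
    constructor <;> linarith

lemma lf_rings (ω : Om d) : LF (Rings ω) := by
  intro Λ a b
  have : (⋃ e ∈ Λ, ⋃ k ∈ Finset.Icc (⌊a⌋ - 1) ⌊b⌋, ⋃ i ∈ Finset.range (ω (e, k)).1,
      {(k : ℝ) + ((ω (e, k)).2 i).1}).Finite :=
    Λ.finite_toSet.biUnion fun e _ => (Finset.finite_toSet _).biUnion fun k _ =>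
      (Finset.finite_toSet _).biUnion fun i _ => Set.finite_singleton _
  refine this.subset ?_
  rintro τ ⟨h1, h2, e, he, α, k, i, hi, h3, -⟩
  simp only [Set.mem_iUnion, Set.mem_singleton_iff, Finset.mem_Icc, Finset.mem_range,
    exists_prop]
  have u0 := ((ω (e, k)).2 i).1.2.1
  have u1 := ((ω (e, k)).2 i).1.2.2
  refine ⟨e, he, k, ⟨?_, Int.le_floor.2 (by linarith)⟩, i, hi, h3.symm⟩
  have h4 : (⌊a⌋ : ℝ) ≤ a := Int.floor_le a
  have h5 : ((⌊a⌋ - 1 : ℤ) : ℝ) < k := by push_cast; linarith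
  exact (Int.cast_lt.1 h5).le

end Pool.Agent.P.MP_d95e10_pr
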