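import Pool.Agent.P.MP_d95e10_pr.Shared

/-!
The finite-volume random-cluster measure: heat-bath invariance, insertion tolerance and the
comparison of the wired and free edge densities.
-/

namespace Pool.Agent.P.MP_d95e10_pr

open MeasureTheory ProbabilityTheory Filter unitInterval
open scoped Classical ENNReal

variable {d : ℕ}

lemma card_image_le_of {V A B : Type*} [DecidableEq A] [DecidableEq B] [Nonempty B]
    (S : Finset V) (f : V → A) (g : V → B) (h : ∀ a ∈ S, ∀ b ∈ S, f a = f b → g a = g b) :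
    (S.image g).card ≤ (S.image f).card := by
  obtain ⟨φ, hφ⟩ : ∃ φ : A → B, ∀ a ∈ S, φ (f a) = g a := by
    refine ⟨fun c => if h : ∃ a ∈ S, f a = c then g h.choose else Classical.arbitrary B,
      fun a ha => ?_⟩
    have hex : ∃ a' ∈ S, f a' = f a := ⟨a, ha, rfl⟩
    simp only [dif_pos hex]
    exact h _ hex.choose_spec.1 _ ha hex.choose_spec.2
  calc (S.image g).card = ((S.image f).image φ).card := by
        rw [Finset.image_image]
        congr 1
        exact Finset.image_congr fun a ha => (hφ a ha).symm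
    _ ≤ _ := Finset.card_image_le

lemma conn_insert {ω : Set (Edge d)} {e : Edge d} {a b : Vtx d} :
    Conn (insert e ω) a b ↔ Conn ω a b ∨ (Conn ω a e.1 ∧ Conn ω (tip e) b) ∨
      (Conn ω a (tip e) ∧ Conn ω e.1 b) := by
  constructor
  · intro h
    refine Conn.induction (P := fun b => Conn ω a b ∨ (Conn ω a e.1 ∧ Conn ω (tip e) b) ∨
      (Conn ω a (tip e) ∧ Conn ω e.1 b)) (Or.inl (SimpleGraph.Reachable.refl _)) ?_ h
    intro b c f hf hj _ ih
    rcases hf with rfl | hf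
    · rcases hj with ⟨rfl, rfl⟩ | ⟨rfl, rfl⟩
      · rcases ih with h | ⟨h, -⟩ | ⟨h, -⟩
        · exact Or.inr (Or.inl ⟨h, SimpleGraph.Reachable.refl _⟩)
        · exact Or.inr (Or.inl ⟨h, SimpleGraph.Reachable.refl _⟩)
        · exact Or.inl h
      · rcases ih with h | ⟨h, -⟩ | ⟨h, -⟩
        · exact Or.inr (Or.inr ⟨h, SimpleGraph.Reachable.refl _⟩)
        · exact Or.inl h
        · exact Or.inr (Or.inr ⟨h, SimpleGraph.Reachable.refl _⟩)
    · have hc := Conn.of_joins hf hj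
      rcases ih with h | ⟨h1, h2⟩ | ⟨h1, h2⟩
      · exact Or.inl (h.trans hc)
      · exact Or.inr (Or.inl ⟨h1, h2.trans hc⟩)
      · exact Or.inr (Or.inr ⟨h1, h2.trans hc⟩)
  · have hm : ω ⊆ insert e ω := Set.subset_insert _ _
    have he : Conn (insert e ω) e.1 (tip e) :=
      Conn.of_joins (Set.mem_insert _ _) (joins_self e)
    rintro (h | ⟨h1, h2⟩ | ⟨h1, h2⟩)
    · exact h.mono hm
    · exact ((h1.mono hm).trans he).trans (h2.mono hm)
    · exact ((h1.mono hm).trans he.symm).trans (h2.mono hm)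

lemma nCl_anti (S : Finset (Vtx d)) {ω ω' : Set (Edge d)} (h : ω ⊆ ω') : nCl S ω' ≤ nCl S ω :=
  card_image_le_of S _ _ fun _ _ _ _ hab =>
    SimpleGraph.ConnectedComponent.eq.2 (Conn.mono h (SimpleGraph.ConnectedComponent.eq.1 hab))

lemma nCl_insert_of_conn (S : Finset (Vtx d)) {ω : Set (Edge d)} {e : Edge d}
    (h : Conn ω e.1 (tip e)) : nCl S (insert e ω) = nCl S ω := by
  refine le_antisymm (nCl_anti S (Set.subset_insert _ _)) (card_image_le_of S _ _ ?_)
  intro a _ b _ hab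
  refine SimpleGraph.ConnectedComponent.eq.2 ?_
  rcases conn_insert.1 (SimpleGraph.ConnectedComponent.eq.1 hab) with h1 | ⟨h1, h2⟩ | ⟨h1, h2⟩
  · exact h1
  · exact (h1.trans h).trans h2
  · exact (h1.trans h.symm).trans h2

lemma nCl_insert_of_not_conn {S : Finset (Vtx d)} {ω : Set (Edge d)} {e : Edge d}
    (h1 : e.1 ∈ S) (h2 : tip e ∈ S) (h : ¬ Conn ω e.1 (tip e)) :
    nCl S ω = nCl S (insert e ω) + 1 := by
  set f := (openGraph ω).connectedComponentMk with hf
  have hfe : ∀ a b, f a = f b ↔ Conn ω a b := fun a b => SimpleGraph.ConnectedComponent.eq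
  have huv : f e.1 ≠ f (tip e) := fun h' => h ((hfe _ _).1 h')
  let φ : (openGraph ω).ConnectedComponent → (openGraph ω).ConnectedComponent :=
    fun c => if c = f (tip e) then f e.1 else c
  have key : ∀ a b, Conn (insert e ω) a b ↔ φ (f a) = φ (f b) := by
    intro a b
    rw [conn_insert, ← hfe, ← hfe, ← hfe, ← hfe, ← hfe]
    simp only [φ]
    split_ifs with ha hb hb
    · simp [ha, hb]
    · constructor
      · rintro (h | ⟨h, -⟩ | ⟨-, h⟩)
        · exact absurd (h.symm.trans ha) hb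
        · exact absurd (h.symm.trans ha) huv
        · exact h
      · exact fun h => Or.inr (Or.inr ⟨ha, h⟩)
    · constructor
      · rintro (h | ⟨h, -⟩ | ⟨h, -⟩)
        · exact absurd (h.trans hb) ha
        · exact h
        · exact absurd h ha
      · exact fun h => Or.inr (Or.inl ⟨h, hb.symm⟩)
    · constructor
      · rintro (h | ⟨-, h⟩ | ⟨h, -⟩)
        · exact h
        · exact absurd h.symm hb
        · exact absurd h ha
      · exact Or.inl
  have e1 : nCl S (insert e ω) = (S.image (φ ∘ f)).card :=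
    le_antisymm
      (card_image_le_of S _ _ fun a _ b _ hab =>
        SimpleGraph.ConnectedComponent.eq.2 ((key a b).2 hab))
      (card_image_le_of S _ _ fun a _ b _ hab =>
        (key a b).1 (SimpleGraph.ConnectedComponent.eq.1 hab))
  have e2 : S.image (φ ∘ f) = (S.image f).erase (f (tip e)) := by
    ext c
    simp only [Finset.mem_image, Finset.mem_erase, Function.comp, φ]
    constructor
    · rintro ⟨a, ha, rfl⟩
      split_ifs with h'
      · exact ⟨huv, _, h1, rfl⟩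
      · exact ⟨h', a, ha, rfl⟩
    · rintro ⟨hc, a, ha, rfl⟩
      exact ⟨a, ha, if_neg hc⟩
  rw [e1, e2, Finset.card_erase_add_one (Finset.mem_image_of_mem _ h2)]
  rfl

theorem fkW_nonneg {q s : ℝ} (hq : 1 ≤ q) (hs0 : 0 < s) (hs1 : s ≤ 1) (n : ℕ)
    (β : Set (Edge d)) (η : Finset (Edge d)) : 0 ≤ fkW q s n β η := by
  have : 0 ≤ 1 - s := by linarith
  unfold fkW
  positivity

theorem fkZ_pos {q s : ℝ} (hq : 1 ≤ q) (hs0 : 0 < s) (hs1 : s ≤ 1) (n : ℕ)
    (β : Set (Edge d)) : 0 < fkZ q s n β := by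
  refine Finset.sum_pos' (fun η _ => fkW_nonneg hq hs0 hs1 n β η)
    ⟨boxEdges d n, Finset.mem_powerset_self _, ?_⟩
  unfold fkW
  rw [Finset.sdiff_self, Finset.card_empty, pow_zero]
  positivity

lemma gq_mul {q s : ℝ} (hq : 1 ≤ q) (hs1 : s ≤ 1) : gq q s * (s + q * (1 - s)) = s :=
  div_mul_cancel₀ _ (by nlinarith)

lemma gq_le {q s : ℝ} (hq : 1 ≤ q) (hs0 : 0 < s) (hs1 : s ≤ 1) : gq q s ≤ s :=
  div_le_self hs0.le (by nlinarith)

lemma gq_le_heatP {q s : ℝ} (hq : 1 ≤ q) (hs0 : 0 < s) (hs1 : s ≤ 1) (ω : Set (Edge d))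
    (e : Edge d) : gq q s ≤ heatP q s ω e := by
  unfold heatP
  split_ifs
  exacts [gq_le hq hs0 hs1, le_rfl]

lemma heatP_le {q s : ℝ} (hq : 1 ≤ q) (hs0 : 0 < s) (hs1 : s ≤ 1) (ω : Set (Edge d))
    (e : Edge d) : heatP q s ω e ≤ s := by
  unfold heatP
  split_ifs
  exacts [le_rfl, gq_le hq hs0 hs1]

lemma fk_balance {q s : ℝ} (hq : 1 ≤ q) (hs1 : s ≤ 1) (n : ℕ)
    {β : Set (Edge d)} {e : Edge d} (he : e ∈ boxEdges d n) (heβ : e ∉ β)
    {η : Finset (Edge d)} (heη : e ∉ η) :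
    heatP q s ((η : Set (Edge d)) ∪ β) e * (fkW q s n β η + fkW q s n β (insert e η)) =
      fkW q s n β (insert e η) := by
  have h1 : ((η : Set (Edge d)) ∪ β) \ {e} = (η : Set (Edge d)) ∪ β :=
    Set.sdiff_singleton_eq_self (by simp [heη, heβ])
  have h2 : (boxEdges d n \ η).card = (boxEdges d n \ insert e η).card + 1 := by
    rw [Finset.sdiff_insert, Finset.card_erase_add_one (Finset.mem_sdiff.2 ⟨he, heη⟩)]
  have h3 : ((insert e η : Finset (Edge d)) : Set (Edge d)) ∪ β =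
      insert e ((η : Set (Edge d)) ∪ β) := by
    rw [Finset.coe_insert, Set.insert_union]
  unfold heatP fkW
  rw [h1, h2, h3, Finset.card_insert_of_notMem heη]
  split_ifs with hc
  · rw [nCl_insert_of_conn _ hc]
    ring
  · rw [nCl_insert_of_not_conn (mem_boxEdges.1 he).1 (mem_boxEdges.1 he).2 hc]
    have := gq_mul hq hs1
    calc _ = gq q s * (s + q * (1 - s)) * (s ^ η.card * (1 - s) ^ (boxEdges d n \ insert e η).card *
          q ^ nCl (box d n) (insert e ((η : Set (Edge d)) ∪ β))) := by ring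
      _ = _ := by rw [this]; ring

theorem fk_heat {q s : ℝ} (hq : 1 ≤ q) (hs0 : 0 < s) (hs1 : s ≤ 1) (n : ℕ)
    {β : Set (Edge d)} {e : Edge d} (he : e ∈ boxEdges d n) (heβ : e ∉ β)
    (f : Finset (Edge d) → ℝ) :
    fkE q s n β (fun η => heatP q s ((η : Set (Edge d)) ∪ β) e * f (insert e η) +
      (1 - heatP q s ((η : Set (Edge d)) ∪ β) e) * f (η.erase e)) = fkE q s n β f := by
  have _ := hs0
  unfold fkE
  congr 1
  have hsplit : ∀ F : Finset (Edge d) → ℝ, ∑ η ∈ (boxEdges d n).powerset, F η =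
      ∑ η ∈ ((boxEdges d n).erase e).powerset, (F η + F (insert e η)) := by
    intro F
    conv_lhs => rw [← Finset.insert_erase he]
    rw [Finset.sum_powerset_insert (Finset.notMem_erase _ _), Finset.sum_add_distrib]
  rw [hsplit, hsplit]
  refine Finset.sum_congr rfl fun η hη => ?_
  have heη : e ∉ η := fun h => Finset.notMem_erase _ _ (Finset.mem_powerset.1 hη h)
  have h1 : heatP q s (((insert e η : Finset (Edge d)) : Set (Edge d)) ∪ β) e =
      heatP q s ((η : Set (Edge d)) ∪ β) e := by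
    unfold heatP
    rw [Finset.coe_insert, Set.insert_union, Set.insert_sdiff_of_mem _ (Set.mem_singleton e)]
  have h2 := fk_balance hq hs1 n he heβ heη
  beta_reduce
  rw [h1, Finset.insert_idem, Finset.erase_insert heη, Finset.erase_eq_of_notMem heη]
  linear_combination (f (insert e η) - f η) * h2

lemma fkE_mono {q s : ℝ} (hq : 1 ≤ q) (hs0 : 0 < s) (hs1 : s ≤ 1) (n : ℕ) (β : Set (Edge d))
    {f g : Finset (Edge d) → ℝ} (h : ∀ η, f η ≤ g η) : fkE q s n β f ≤ fkE q s n β g :=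
  div_le_div_of_nonneg_right (Finset.sum_le_sum fun η _ =>
    mul_le_mul_of_nonneg_left (h η) (fkW_nonneg hq hs0 hs1 n β η)) (fkZ_pos hq hs0 hs1 n β).le

lemma fkE_const_mul (q s : ℝ) (n : ℕ) (β : Set (Edge d)) (c : ℝ) (f : Finset (Edge d) → ℝ) :
    fkE q s n β (fun η => c * f η) = c * fkE q s n β f := by
  unfold fkE
  rw [← mul_div_assoc, Finset.mul_sum]
  congr 1
  exact Finset.sum_congr rfl fun η _ => by ring

lemma fkE_const {q s : ℝ} (hq : 1 ≤ q) (hs0 : 0 < s) (hs1 : s ≤ 1) (n : ℕ) (β : Set (Edge d))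
    (c : ℝ) : fkE q s n β (fun _ => c) = c := by
  unfold fkE
  rw [← Finset.sum_mul]
  exact mul_div_cancel_left₀ c (fkZ_pos hq hs0 hs1 n β).ne'

theorem fk_insert {q s : ℝ} (hq : 1 ≤ q) (hs0 : 0 < s) (hs1 : s ≤ 1) (n : ℕ)
    {β : Set (Edge d)} {e : Edge d} (he : e ∈ boxEdges d n) (heβ : e ∉ β)
    {f : Finset (Edge d) → ℝ} (hf : ∀ η, 0 ≤ f η) :
    gq q s * fkE q s n β (fun η => f (insert e η)) ≤ fkE q s n β f := by
  rw [← fkE_const_mul, ← fk_heat hq hs0 hs1 n he heβ f]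
  refine fkE_mono hq hs0 hs1 n β fun η => ?_
  have h1 := mul_le_mul_of_nonneg_right (gq_le_heatP hq hs0 hs1 ((η : Set (Edge d)) ∪ β) e)
    (hf (insert e η))
  have h2 := mul_nonneg (sub_nonneg.2 ((heatP_le hq hs0 hs1 ((η : Set (Edge d)) ∪ β) e).trans hs1))
    (hf (η.erase e))
  linarith

theorem fk_open_le {q s : ℝ} (hq : 1 ≤ q) (hs0 : 0 < s) (hs1 : s ≤ 1) (n : ℕ)
    {β : Set (Edge d)} {e : Edge d} (he : e ∈ boxEdges d n) (heβ : e ∉ β) :
    fkE q s n β (fun η => if e ∈ η then 1 else 0) ≤ s := by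
  rw [← fk_heat hq hs0 hs1 n he heβ]
  refine (fkE_mono hq hs0 hs1 n β (g := fun _ => s) fun η => ?_).trans
    (fkE_const hq hs0 hs1 n β s).le
  simpa using heatP_le hq hs0 hs1 ((η : Set (Edge d)) ∪ β) e

lemma mem_boxEdges_of_touches {m : ℕ} {e : Edge d} {b : Vtx d} (hb : b ∈ box d m)
    (h : Touches e b) : e ∈ boxEdges d (m + 1) := by
  have hb' := mem_box.1 hb
  have key : ∀ i, tip e i = e.1 i ∨ tip e i = e.1 i + 1 := by
    intro i
    by_cases hi : i = e.2
    · right; simp [tip, hi]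
    · left; simp [tip, hi]
  refine mem_boxEdges.2 ⟨mem_box.2 fun i => ?_, mem_box.2 fun i => ?_⟩ <;>
  · have h1 := abs_le.1 (hb' i)
    have h2 := key i
    rw [abs_le]
    push_cast
    rcases h with rfl | rfl <;> omega

lemma nCl_free_le (m : ℕ) {η : Finset (Edge d)} (hη : η ⊆ boxEdges d (m + 1)) :
    nCl (box d (m + 1)) ((η : Set (Edge d)) ∪ ∅) ≤
      nCl (box d (m + 1)) ((η : Set (Edge d)) ∪ (boxEdges d (m + 1) : Set (Edge d))ᶜ) +
        (box d (m + 1) \ box d m).card := by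
  rw [Set.union_empty]
  set S := box d (m + 1) with hS
  set D := S \ box d m with hD
  set p : Vtx d → Prop := fun a => ∃ c ∈ D, Conn (η : Set (Edge d)) a c with hp
  set f := (openGraph (η : Set (Edge d))).connectedComponentMk with hf
  have h1 : ((S.filter p).image f).card ≤ D.card := by
    refine le_trans (Finset.card_le_card ?_) (Finset.card_image_le (f := f))
    intro c hc
    obtain ⟨a, ha, rfl⟩ := Finset.mem_image.1 hc
    obtain ⟨b, hb, hab⟩ := (Finset.mem_filter.1 ha).2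
    exact Finset.mem_image.2 ⟨b, hb, SimpleGraph.ConnectedComponent.eq.2 hab.symm⟩
  have h2 : ((S.filter fun a => ¬ p a).image f).card ≤
      nCl S ((η : Set (Edge d)) ∪ (boxEdges d (m + 1) : Set (Edge d))ᶜ) := by
    refine le_trans (card_image_le_of _ (openGraph ((η : Set (Edge d)) ∪
      (boxEdges d (m + 1) : Set (Edge d))ᶜ)).connectedComponentMk _ ?_)
      (Finset.card_le_card (Finset.image_subset_image (Finset.filter_subset _ _)))
    intro a ha b _ hab
    obtain ⟨ha1, ha2⟩ := Finset.mem_filter.1 ha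
    refine SimpleGraph.ConnectedComponent.eq.2 (Conn.induction
      (P := fun b => b ∈ S ∧ Conn (η : Set (Edge d)) a b) ⟨ha1, SimpleGraph.Reachable.refl _⟩ ?_
      (SimpleGraph.ConnectedComponent.eq.1 hab)).2
    rintro b c e he hj - ⟨hb1, hb2⟩
    have hb3 : b ∈ box d m := by
      by_contra h
      exact ha2 ⟨b, Finset.mem_sdiff.2 ⟨hb1, h⟩, hb2⟩
    have he1 := mem_boxEdges_of_touches hb3 hj.touches_left
    have he2 : e ∈ (η : Set (Edge d)) := he.resolve_right fun h => h he1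
    refine ⟨?_, hb2.trans (Conn.of_joins he2 hj)⟩
    rcases hj.touches_right with rfl | rfl
    exacts [(mem_boxEdges.1 he1).1, (mem_boxEdges.1 he1).2]
  have h3 : S.image f = (S.filter fun a => ¬ p a).image f ∪ (S.filter p).image f := by
    rw [← Finset.image_union, Finset.union_comm, Finset.filter_union_filter_not_eq]
  have _ := hη
  calc nCl S η = (S.image f).card := rfl
    _ ≤ _ := by rw [h3]; exact (Finset.card_union_le _ _).trans (add_le_add h2 h1)

lemma jensen_exp {ι : Type*} (T : Finset ι) (w y : ι → ℝ) (hw : ∀ i, 0 ≤ w i)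
    (hZ : 0 < ∑ i ∈ T, w i) :
    (∑ i ∈ T, w i) * Real.exp ((∑ i ∈ T, w i * y i) / ∑ i ∈ T, w i) ≤
      ∑ i ∈ T, w i * Real.exp (y i) := by
  set m := (∑ i ∈ T, w i * y i) / ∑ i ∈ T, w i with hm
  have h1 : (∑ i ∈ T, w i) * m = ∑ i ∈ T, w i * y i := mul_div_cancel₀ _ hZ.ne'
  calc _ = ∑ i ∈ T, w i * (Real.exp m * (y i - m + 1)) := by
        have : ∑ i ∈ T, w i * (Real.exp m * (y i - m + 1)) =
            Real.exp m * (∑ i ∈ T, w i * y i - (∑ i ∈ T, w i) * m + ∑ i ∈ T, w i) := by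
          rw [Finset.sum_mul, ← Finset.sum_sub_distrib, ← Finset.sum_add_distrib, Finset.mul_sum]
          exact Finset.sum_congr rfl fun i _ => by ring
        rw [this, h1]
        ring
    _ ≤ _ := Finset.sum_le_sum fun i _ => mul_le_mul_of_nonneg_left (by
        rw [show Real.exp (y i) = Real.exp m * Real.exp (y i - m) by
          rw [← Real.exp_add]; congr 1; ring]
        exact mul_le_mul_of_nonneg_left (Real.add_one_le_exp _) (Real.exp_pos _).le) (hw i)

/-- Change of the parameter, with Jensen's inequality. -/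
lemma fkZ_change {q s s' : ℝ} (hq : 1 ≤ q) (hs0 : 0 < s) (hs1 : s < 1) (hs0' : 0 < s')
    (hs1' : s' < 1) (n : ℕ) (β : Set (Edge d)) :
    ((1 - s') / (1 - s)) ^ (boxEdges d n).card * (fkZ q s n β *
      Real.exp (Real.log (s' * (1 - s) / (s * (1 - s'))) * fkE q s n β fun η => (η.card : ℝ))) ≤
      fkZ q s' n β := by
  have h1 : 0 < 1 - s := by linarith
  have h2 : 0 < 1 - s' := by linarith
  rw [← fkE_const_mul]
  refine (mul_le_mul_of_nonneg_left (jensen_exp _ _ _ (fkW_nonneg hq hs0 hs1.le n β)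
    (fkZ_pos hq hs0 hs1.le n β)) (by positivity)).trans (le_of_eq ?_)
  rw [Finset.mul_sum]
  refine Finset.sum_congr rfl fun η hη => ?_
  rw [mul_comm (Real.log _), Real.exp_nat_mul, Real.exp_log (by positivity),
    ← Finset.card_sdiff_add_card_eq_card (Finset.mem_powerset.1 hη)]
  unfold fkW
  rw [pow_add, div_pow, div_pow, div_pow, mul_pow, mul_pow]
  field_simp

lemma boundary_small (d : ℕ) {δ : ℝ} (hδ : 0 < δ) : ∀ᶠ m : ℕ in atTop,
    ((box d (m + 1) \ box d m).card : ℝ) ≤ δ * (2 * ((m + 1 : ℕ) : ℝ) + 1) ^ d := by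
  have h1 : Tendsto (fun m : ℕ => (1 - 2 / (2 * ((m + 1 : ℕ) : ℝ) + 1)) ^ d) atTop
      (nhds ((1 - 0) ^ d)) := by
    refine Tendsto.pow (tendsto_const_nhds.sub (tendsto_const_nhds.div_atTop ?_)) d
    exact tendsto_atTop_add_const_right _ _
      ((tendsto_natCast_atTop_atTop.comp (tendsto_add_atTop_nat 1)).const_mul_atTop two_pos)
  rw [sub_zero, one_pow] at h1
  filter_upwards [h1.eventually_const_le (show 1 - δ < 1 by linarith)] with m hm
  have h2 : (0 : ℝ) < 2 * ((m + 1 : ℕ) : ℝ) + 1 := by positivity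
  have h3 := Finset.card_sdiff_add_card_eq_card (box_mono (d := d) (Nat.le_succ m))
  rw [card_box, card_box] at h3
  have h4 : ((box d (m + 1) \ box d m).card : ℝ) + (2 * (m : ℝ) + 1) ^ d =
      (2 * ((m + 1 : ℕ) : ℝ) + 1) ^ d := by exact_mod_cast h3
  rw [one_sub_div h2.ne', div_pow, le_div_iff₀ (by positivity),
    show 2 * ((m + 1 : ℕ) : ℝ) + 1 - 2 = 2 * (m : ℝ) + 1 by push_cast; ring] at hm
  linarith

theorem fk_wired_le_free (hd : 1 ≤ d) {q s s' : ℝ} (hq : 1 ≤ q) (hs0 : 0 < s) (hss : s < s')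
    (hs1 : s' < 1) {ε : ℝ} (hε : 0 < ε) :
    ∀ᶠ n : ℕ in atTop,
      fkE q s n ((boxEdges d n : Set (Edge d))ᶜ) (fun η => (η.card : ℝ)) ≤
        fkE q s' n (∅ : Set (Edge d)) (fun η => (η.card : ℝ)) + ε * (2 * n + 1) ^ d := by
  have _ := hd
  have h1 : 0 < 1 - s := by linarith
  have h2 : 0 < 1 - s' := by linarith
  have hs0' : 0 < s' := by linarith
  obtain ⟨L, hL⟩ : ∃ L, Real.log (s' * (1 - s) / (s * (1 - s'))) = L := ⟨_, rfl⟩
  have hL0 : 0 < L := hL ▸ Real.log_pos (by rw [one_lt_div (by positivity)]; nlinarith)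
  have hL' : Real.log (s * (1 - s') / (s' * (1 - s))) = -L := by
    rw [← hL, ← Real.log_inv, inv_div]
  have hlq : 0 ≤ Real.log q := Real.log_nonneg hq
  obtain ⟨M, hM⟩ := eventually_atTop.1
    (boundary_small d (show 0 < ε * L / (Real.log q + 1) by positivity))
  filter_upwards [eventually_ge_atTop (M + 1)] with n hn
  obtain ⟨m, rfl⟩ : ∃ m, n = m + 1 := ⟨n - 1, by omega⟩
  have hB := hM m (by omega)
  have hA1 := fkZ_change hq hs0 (by linarith) hs0' hs1 (m + 1)
    ((boxEdges d (m + 1) : Set (Edge d))ᶜ)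
  have hA2 := fkZ_change hq hs0' hs1 hs0 (by linarith) (m + 1) (∅ : Set (Edge d))
  rw [hL] at hA1
  rw [hL'] at hA2
  have hA3 : fkZ q s' (m + 1) ((boxEdges d (m + 1) : Set (Edge d))ᶜ) ≤
      fkZ q s' (m + 1) (∅ : Set (Edge d)) :=
    Finset.sum_le_sum fun η _ => mul_le_mul_of_nonneg_left (pow_le_pow_right₀ hq
      (nCl_anti _ (Set.union_subset_union_right _ (Set.empty_subset _)))) (by positivity)
  have hA4 : fkZ q s (m + 1) (∅ : Set (Edge d)) ≤ q ^ (box d (m + 1) \ box d m).card *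
      fkZ q s (m + 1) ((boxEdges d (m + 1) : Set (Edge d))ᶜ) := by
    unfold fkZ
    rw [Finset.mul_sum]
    refine Finset.sum_le_sum fun η hη => ?_
    have h3 := pow_le_pow_right₀ hq (nCl_free_le m (Finset.mem_powerset.1 hη))
    rw [pow_add, mul_comm] at h3
    unfold fkW
    rw [mul_left_comm]
    exact mul_le_mul_of_nonneg_left h3 (by positivity)
  have hZ := fkZ_pos hq hs0 (hss.trans hs1).le (m + 1) ((boxEdges d (m + 1) : Set (Edge d))ᶜ)
  generalize fkE q s (m + 1) ((boxEdges d (m + 1) : Set (Edge d))ᶜ) (fun η => (η.card : ℝ)) = a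
    at hA1 ⊢
  generalize fkE q s' (m + 1) (∅ : Set (Edge d)) (fun η => (η.card : ℝ)) = b at hA2 ⊢
  generalize fkZ q s (m + 1) ((boxEdges d (m + 1) : Set (Edge d))ᶜ) = z1 at hA1 hA4 hZ
  generalize fkZ q s' (m + 1) ((boxEdges d (m + 1) : Set (Edge d))ᶜ) = z2 at hA1 hA3
  generalize fkZ q s (m + 1) (∅ : Set (Edge d)) = z3 at hA2 hA4
  generalize fkZ q s' (m + 1) (∅ : Set (Edge d)) = z4 at hA2 hA3
  generalize (box d (m + 1) \ box d m).card = B at hB hA4
  have hK : ((1 - s) / (1 - s')) ^ (boxEdges d (m + 1)).card *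
      ((1 - s') / (1 - s)) ^ (boxEdges d (m + 1)).card = 1 := by
    rw [← mul_pow, div_mul_div_cancel₀ h2.ne', div_self h1.ne', one_pow]
  have hK0 : 0 < ((1 - s) / (1 - s')) ^ (boxEdges d (m + 1)).card := by positivity
  generalize ((1 - s) / (1 - s')) ^ (boxEdges d (m + 1)).card = K at hA2 hK hK0
  generalize ((1 - s') / (1 - s)) ^ (boxEdges d (m + 1)).card = K' at hA1 hK
  have h5 : z1 * Real.exp (L * a + -L * b) ≤ z1 * Real.exp (B * Real.log q) := by
    have h6 := mul_le_mul_of_nonneg_left (mul_le_mul_of_nonneg_right (hA1.trans hA3)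
      (Real.exp_pos (-L * b)).le) hK0.le
    rw [Real.exp_nat_mul, Real.exp_log (by linarith), Real.exp_add]
    calc _ = K * K' * (z1 * (Real.exp (L * a) * Real.exp (-L * b))) := by rw [hK, one_mul]
      _ = K * (K' * (z1 * Real.exp (L * a)) * Real.exp (-L * b)) := by ring
      _ ≤ _ := by linarith
  have h7 := Real.exp_le_exp.1 (le_of_mul_le_mul_left h5 hZ)
  have h8 : (0 : ℝ) ≤ (2 * ((m + 1 : ℕ) : ℝ) + 1) ^ d := by positivity
  generalize (2 * ((m + 1 : ℕ) : ℝ) + 1) ^ d = V at hB h8 ⊢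
  have h9 : (B : ℝ) * (Real.log q + 1) ≤ ε * L * V := by
    rw [div_mul_eq_mul_div, le_div_iff₀ (by positivity)] at hB
    exact hB
  have h10 : (0 : ℝ) ≤ B := Nat.cast_nonneg _
  refine le_of_mul_le_mul_left ?_ hL0
  nlinarith

end Pool.Agent.P.MP_d95e10_pr
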