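import Pool.Agent.P.MP_d95e10_pr.Ident

/-!
Fixed-level facts for the stationary configuration: zero-one law and uniqueness of the infinite
cluster at a fixed level.
-/

namespace Pool.Agent.P.MP_d95e10_pr

open MeasureTheory ProbabilityTheory Filter Topology unitInterval
open scoped Classical ENNReal symmDiff

variable {d : ℕ} {q : ℝ}

namespace Fx

lemma measurable_filter {Y : Type*} [MeasurableSpace Y] (S : Finset (Edge d))
    {P : Edge d → Y → Prop} (hP : ∀ e, Measurable (P e)) (F : Finset (Edge d) → ℝ) :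
    Measurable fun y => F (S.filter fun e => P e y) := by
  induction S using Finset.induction_on generalizing F with
  | empty => simp
  | insert a S _ ih =>
    simp only [Finset.filter_insert, apply_ite F]
    exact Measurable.ite (measurableSet_setOfPred.2 (hP a)) (ih fun η => F (insert a η)) (ih F)

lemma abs_filter_le (S : Finset (Edge d)) (F : Finset (Edge d) → ℝ) (P : Edge d → Prop) :
    ‖F (S.filter P)‖ ≤ ∑ η ∈ S.powerset, ‖F η‖ :=
  Finset.single_le_sum (f := fun η => ‖F η‖) (fun _ _ => norm_nonneg _)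
    (Finset.mem_powerset.2 (Finset.filter_subset _ _))

lemma integrable_filter (S : Finset (Edge d)) {P : Edge d → Om d → Prop}
    (hP : ∀ e, Measurable (P e)) (F : Finset (Edge d) → ℝ) :
    Integrable (fun ω => F (S.filter fun e => P e ω)) (clockLaw d) :=
  (integrable_const _).mono' (measurable_filter S hP F).aestronglyMeasurable
    (.of_forall fun _ => abs_filter_le S F _)

lemma tendsto_int (S : Finset (Edge d)) (F : Finset (Edge d) → ℝ)
    {P : ℕ → Edge d → Om d → Prop} {Q : Edge d → Om d → Prop} (hP : ∀ k e, Measurable (P k e))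
    (h : ∀ ω, ∀ e ∈ S, ∀ᶠ k in atTop, P k e ω ↔ Q e ω) :
    Tendsto (fun k => ∫ ω, F (S.filter fun e => P k e ω) ∂clockLaw d) atTop
      (𝓝 (∫ ω, F (S.filter fun e => Q e ω) ∂clockLaw d)) := by
  refine tendsto_integral_of_dominated_convergence (fun _ => ∑ η ∈ S.powerset, ‖F η‖)
    (fun k => (measurable_filter S (hP k) F).aestronglyMeasurable) (integrable_const _)
    (fun k => .of_forall fun _ => abs_filter_le S F _) (.of_forall fun ω => ?_)
  refine tendsto_const_nhds.congr' ?_
  filter_upwards [(eventually_all_finset S).2 (h ω)] with k hk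
  rw [Finset.filter_congr hk]

lemma integrable_ind {A : Set (Om d)} (hA : MeasurableSet A) :
    Integrable (A.indicator (1 : Om d → ℝ)) (clockLaw d) := (integrable_const 1).indicator hA

lemma measurable_lt {Y : Type*} [MeasurableSpace Y] {v : Y → Conf d} (hv : Measurable v) (s : ℝ)
    (e : Edge d) : Measurable fun y => (v y e : ℝ) < s :=
  measurable_set_iff.1 (measurable_lev hv s) e

lemma nonneg_of_fk (hq : 1 ≤ q) {s : ℝ} (hs0 : 0 < s) (hs1 : s ≤ 1) (S : Finset (Edge d))
    (F : Finset (Edge d) → ℝ) (h : ∀ n, S ⊆ boxEdges d n → 0 ≤ fkE q s n ∅ fun η => F (η ∩ S)) :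
    0 ≤ ∫ ω, F (S.filter fun e => (zt q ω e : ℝ) < s) ∂clockLaw d := by
  have h1 : ∀ n : ℕ, ∃ T : ℕ, n ≤ T ∧ (fkE q s n ∅ fun η => F (η ∩ S)) - 1 / ((n : ℝ) + 1) <
      ∫ ω, F (Lb n s (run q (boxEdges d n) (Rings ω) (-T) 0 fun _ => 1) ∩ S) ∂clockLaw d := by
    intro n
    have := (fk_ident_one hq hs0 hs1 n fun η => F (η ∩ S)).eventually
      (lt_mem_nhds (sub_lt_self _ (Nat.one_div_pos_of_nat (α := ℝ) (n := n))))
    exact ((eventually_ge_atTop n).and this).exists
  choose T hT1 hT2 using h1
  have h2 := tendsto_int S F (P := fun n e ω =>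
    (run q (boxEdges d n) (Rings ω) (-(T n)) 0 (fun _ => 1) e : ℝ) < s)
    (Q := fun e ω => (zt q ω e : ℝ) < s)
    (fun n e => measurable_lt (measurable_run_rings hq _ _ _ _) s e) (by
      intro ω e _
      by_cases he : (zt q ω e : ℝ) < s
      · filter_upwards [eventually_app_lt hq (lf_rings ω) he] with n hn
        refine iff_of_true (lt_of_le_of_lt ?_ hn) he
        have h3 : (n : ℝ) ≤ T n := by exact_mod_cast hT1 n
        exact run_one_anti hq subset_rfl (lf_rings ω) (a := 0 - n) (by linarith) (by simp) e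
      · refine .of_forall fun n => iff_of_false (fun h => he (lt_of_le_of_lt ?_ h)) he
        exact zeta_le_run hq (lf_rings ω) _ (by simp) e)
  obtain ⟨n0, hn0⟩ := exists_subset_boxEdges S
  have h3 : Tendsto (fun n : ℕ => -(1 / ((n : ℝ) + 1))) atTop (𝓝 0) := by
    simpa using (tendsto_one_div_add_atTop_nhds_zero_nat (𝕜 := ℝ)).neg
  refine le_of_tendsto_of_tendsto h3 h2 ?_
  filter_upwards [eventually_ge_atTop n0] with n hn
  have hS := hn0.trans (boxEdges_mono hn)
  have h4 := hT2 n
  have h5 : ∀ v : Conf d, Lb n s v ∩ S = S.filter fun e => (v e : ℝ) < s := by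
    intro v
    ext e
    simp only [Lb, Finset.mem_inter, Finset.mem_filter]
    exact ⟨fun h => ⟨h.2, h.1.2⟩, fun h => ⟨⟨hS h.1, h.2⟩, h.1⟩⟩
  simp only [h5] at h4
  have := h n hS
  linarith

lemma fkE_sub (q s : ℝ) (n : ℕ) (β : Set (Edge d)) (f g : Finset (Edge d) → ℝ) :
    fkE q s n β (fun η => f η - g η) = fkE q s n β f - fkE q s n β g := by
  simp only [fkE, mul_sub, Finset.sum_sub_distrib, sub_div]

/-- local insertion tolerance -/
def Ins (c : ℝ) (X : Om d → Set (Edge d)) : Prop :=
  ∀ (e : Edge d) (S : Finset (Edge d)), e ∈ S → ∀ f : Finset (Edge d) → ℝ, (∀ η, 0 ≤ f η) →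
    0 ≤ ∫ ω, (fun η => f η - c * f (insert e η)) (S.filter fun e => e ∈ X ω) ∂clockLaw d

lemma ins_lev (hq : 1 ≤ q) {s c : ℝ} (hs0 : 0 < s) (hs1 : s ≤ 1) (hc : c ≤ gq q s) :
    Ins c fun ω : Om d => lev (zt q ω) s := by
  intro e S he f hf
  refine nonneg_of_fk hq hs0 hs1 S (fun η => f η - c * f (insert e η)) fun n hn => ?_
  rw [fkE_sub, fkE_const_mul, sub_nonneg]
  have h1 := fk_insert hq hs0 hs1 n (β := ∅) (hn he) (Set.notMem_empty e)
    (f := fun η => f (η ∩ S)) fun _ => hf _
  simp only [Finset.insert_inter_of_mem he] at h1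
  refine le_trans (mul_le_mul_of_nonneg_right hc ?_) h1
  rw [← fkE_const hq hs0 hs1 n (∅ : Set (Edge d)) 0]
  exact fkE_mono hq hs0 hs1 n _ fun _ => hf _

lemma ins_lle (hq : 1 ≤ q) {p : I} (hp1 : (p : ℝ) < 1) :
    Ins (gq q p) fun ω : Om d => lle (zt q ω) p := by
  intro e S he f hf
  set s : ℕ → ℝ := fun k => p + (1 - p) * (1 / ((k : ℝ) + 1)) with hs
  have h0 : ∀ k, (p : ℝ) < s k := fun k =>
    lt_add_of_pos_right _ (mul_pos (by linarith) Nat.one_div_pos_of_nat)
  have h1 : ∀ k, s k ≤ 1 := fun k => by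
    have : 1 / ((k : ℝ) + 1) ≤ 1 := by
      rw [div_le_one (by positivity)]
      linarith [(Nat.cast_nonneg k : (0 : ℝ) ≤ k)]
    simp only [hs]
    nlinarith
  have h2 : Tendsto s atTop (𝓝 p) := by
    have := ((tendsto_one_div_add_atTop_nhds_zero_nat (𝕜 := ℝ)).const_mul
      (1 - (p : ℝ))).const_add (p : ℝ)
    rwa [mul_zero, add_zero] at this
  refine ge_of_tendsto' (tendsto_int S (fun η => f η - gq q p * f (insert e η))
    (P := fun k e ω => e ∈ lev (zt q ω) (s k)) (Q := fun e ω => e ∈ lle (zt q ω) p)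
    (fun k e => measurable_lt (measurable_zt hq) _ e) ?_) fun k =>
      ins_lev hq (p.2.1.trans_lt (h0 k)) (h1 k) (gq_mono hq (h0 k).le (h1 k)) e S he f hf
  intro ω e _
  by_cases h : zt q ω e ≤ p
  · exact .of_forall fun k => iff_of_true (lt_of_le_of_lt (show (zt q ω e : ℝ) ≤ p from h) (h0 k)) h
  · filter_upwards [h2.eventually (gt_mem_nhds (show (p : ℝ) < zt q ω e from not_le.1 h))]
      with k hk
    exact iff_of_false (not_lt.2 hk.le) h

lemma absCont {c : ℝ} (hc : 0 < c) {X : Om d → Set (Edge d)} (hX : Measurable X) (h : Ins c X)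
    (e : Edge d) : ((clockLaw d).map X).map (insert e) ≪ (clockLaw d).map X := by
  set ν := (clockLaw d).map X with hν
  set ν' := ν.map (insert e) with hν'
  have : IsProbabilityMeasure ν := Measure.isProbabilityMeasure_map hX.aemeasurable
  have : IsProbabilityMeasure ν' :=
    Measure.isProbabilityMeasure_map (measurable_insertE e).aemeasurable
  have hloc : ∀ t : Set (Set (Edge d)), t ∈ measurableCylinders (fun _ : Edge d => Prop) →
      c * ν'.real t ≤ ν.real t := by
    intro t ht
    have htm : MeasurableSet t := MeasurableSet.of_mem_measurableCylinders ht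
    obtain ⟨S, A, -, hA⟩ := (mem_measurableCylinders _).1 ht
    have hdep : ∀ a b : Set (Edge d), (∀ x ∈ S, x ∈ a ↔ x ∈ b) → (a ∈ t ↔ b ∈ t) := by
      intro a b hab
      have : S.restrict (π := fun _ => Prop) a = S.restrict (π := fun _ => Prop) b :=
        funext fun x => propext (hab x x.2)
      rw [hA]
      change S.restrict (π := fun _ => Prop) a ∈ A ↔ S.restrict (π := fun _ => Prop) b ∈ A
      rw [this]
    have h1 := h e (insert e S) (Finset.mem_insert_self _ _)
      (fun η => if (η : Set (Edge d)) ∈ t then 1 else 0) fun η => by split_ifs <;> norm_num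
    have e1 : ∀ ω, (fun η : Finset (Edge d) => (if (η : Set (Edge d)) ∈ t then (1 : ℝ) else 0) -
        c * if ((insert e η : Finset (Edge d)) : Set (Edge d)) ∈ t then 1 else 0)
        ((insert e S).filter fun x => x ∈ X ω) =
        (X ⁻¹' t).indicator 1 ω - c * (X ⁻¹' (insert e ⁻¹' t)).indicator 1 ω := by
      intro ω
      have a1 := hdep (((insert e S).filter fun x => x ∈ X ω : Finset (Edge d)) : Set (Edge d))
        (X ω) fun x hx => by simp [hx]
      have a2 := hdep ((insert e ((insert e S).filter fun x => x ∈ X ω) : Finset (Edge d)) :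
        Set (Edge d)) (insert e (X ω)) fun x hx => by simp [hx]
      simp only [Set.indicator_apply, Set.mem_preimage, Pi.one_apply, a1, a2]
    simp only [e1] at h1
    rw [integral_sub (integrable_ind (hX htm))
      ((integrable_ind (hX (measurable_insertE e htm))).const_mul c),
      integral_const_mul, integral_indicator_one (hX htm),
      integral_indicator_one (hX (measurable_insertE e htm)), sub_nonneg] at h1
    rwa [hν', map_measureReal_apply (measurable_insertE e) htm, hν,
      map_measureReal_apply hX (measurable_insertE e htm), map_measureReal_apply hX htm]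
  refine Measure.AbsolutelyContinuous.mk fun A hA h0 => ?_
  rw [← measureReal_eq_zero_iff] at h0 ⊢
  refine le_antisymm (le_of_forall_pos_le_add fun ε hε => ?_) measureReal_nonneg
  have hδ : 0 < ε * c / (1 + c) := by positivity
  obtain ⟨t, ht, hlt⟩ := exists_measure_symmDiff_lt_of_generateFrom_isSetRing (μ := ν + ν')
    (C := measurableCylinders fun _ : Edge d => Prop) isSetRing_measurableCylinders
    ⟨{Set.univ}, Set.countable_singleton _,
      Set.singleton_subset_iff.2 (univ_mem_measurableCylinders _), by simp⟩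
    generateFrom_measurableCylinders.symm hA (ENNReal.ofReal_pos.2 hδ)
  have h1 : ν.real (t ∆ A) + ν'.real (t ∆ A) < ε * c / (1 + c) := by
    rw [← measureReal_add_apply]
    exact (ENNReal.lt_ofReal_iff_toReal_lt (measure_ne_top _ _)).1 hlt
  have h2 := hloc t ht
  have h3 : ν.real t ≤ ν.real A + ν.real (t ∆ A) :=
    (measureReal_mono (fun x hx => by
      by_cases hxA : x ∈ A
      · exact Or.inl hxA
      · exact Or.inr (Or.inl ⟨hx, hxA⟩))).trans (measureReal_union_le _ _)
  have h4 : ν'.real A ≤ ν'.real t + ν'.real (t ∆ A) :=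
    (measureReal_mono (fun x hx => by
      by_cases hxt : x ∈ t
      · exact Or.inl hxt
      · exact Or.inr (Or.inr ⟨hx, hxt⟩))).trans (measureReal_union_le _ _)
  have h5 : 0 ≤ ν.real (t ∆ A) := measureReal_nonneg
  have h6 : 0 ≤ ν'.real (t ∆ A) := measureReal_nonneg
  rw [lt_div_iff₀ (by positivity)] at h1
  rw [zero_add]
  refine le_of_mul_le_mul_left ?_ hc
  nlinarith

lemma uniq_of_ins (hd : 1 ≤ d) {c : ℝ} (hc : 0 < c) {X : Om d → Set (Edge d)}
    (hX : Measurable X) (hsh : ∀ z ω, X (shiftO z ω) = shiftS z (X ω)) (h : Ins c X) :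
    ∀ᵐ ω ∂clockLaw d, Uniq (X ω) := by
  have : IsProbabilityMeasure ((clockLaw d).map X) :=
    Measure.isProbabilityMeasure_map hX.aemeasurable
  refine ae_of_ae_map (p := Uniq) hX.aemeasurable
    (burton_keane _ (fun z => ⟨measurable_shiftS z, ?_⟩) (fun A hA hinv => ?_) (absCont hc hX h))
  · rw [Measure.map_map (measurable_shiftS z) hX,
      show shiftS z ∘ X = X ∘ shiftO z from funext fun ω => (hsh z ω).symm,
      ← Measure.map_map hX (measurePreserving_shiftO z).measurable,
      (measurePreserving_shiftO z).map_eq]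
  · rw [Measure.map_apply hX hA]
    refine zero_one hd (hX hA) fun z => ?_
    ext ω
    rw [Set.mem_preimage, Set.mem_preimage, hsh, ← Set.mem_preimage, hinv, Set.mem_preimage]

lemma uniq_empty : Uniq (∅ : Set (Edge d)) := by
  intro a b ha _
  refine absurd ((Set.finite_singleton a).subset fun x hx => ?_) ha
  exact Conn.induction (P := fun x => x = a) rfl (fun _ _ _ he => he.elim) hx

lemma prob_lt_le (hq : 1 ≤ q) {s : ℝ} (hs0 : 0 < s) (hs1 : s ≤ 1) (e : Edge d) :
    (clockLaw d).real {ω | (zt q ω e : ℝ) < s} ≤ s := by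
  have h := nonneg_of_fk hq hs0 hs1 {e} (fun η => s - if e ∈ η then 1 else 0) fun n hn => by
    rw [fkE_sub, fkE_const hq hs0 hs1, sub_nonneg]
    simpa using fk_open_le hq hs0 hs1 n (β := ∅) (hn (Finset.mem_singleton_self e))
      (Set.notMem_empty e)
  have hm : MeasurableSet {ω : Om d | (zt q ω e : ℝ) < s} :=
    measurableSet_setOfPred.2 (measurable_lt (measurable_zt hq) s e)
  have e1 : ∀ ω : Om d, (s - if e ∈ ({e} : Finset (Edge d)).filter
      (fun e => (zt q ω e : ℝ) < s) then 1 else 0) =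
      s - {ω : Om d | (zt q ω e : ℝ) < s}.indicator 1 ω := by
    intro ω
    simp [Set.indicator_apply]
  simp only [e1] at h
  rw [integral_sub (integrable_const s) (integrable_ind hm),
    integral_indicator_one hm] at h
  simpa using h

end Fx

theorem zero_one_zt (hd : 1 ≤ d) (hq : 1 ≤ q) {A : Set (Conf d)} (hA : MeasurableSet A)
    (hinv : ∀ z v, v ∘ shiftE z ∈ A ↔ v ∈ A) :
    clockLaw d (zt q ⁻¹' A) = 0 ∨ clockLaw d (zt q ⁻¹' A) = 1 := by
  refine zero_one hd (measurable_zt hq hA) fun z => ?_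
  ext ω
  simp only [Set.mem_preimage, zt_shift hq, hinv]

theorem ae_uniq_lev (hd : 1 ≤ d) (hq : 1 ≤ q) {s : ℝ} (hs1 : s ≤ 1) :
    ∀ᵐ ω ∂clockLaw d, Uniq (lev (zt q ω) s) := by
  rcases le_or_gt s 0 with hs0 | hs0
  · refine .of_forall fun ω => ?_
    have : lev (zt q ω) s = ∅ :=
      Set.eq_empty_of_forall_notMem fun e he => absurd (lt_of_lt_of_le he hs0)
        (not_lt.2 (zt q ω e).2.1)
    rw [this]
    exact Fx.uniq_empty
  · exact Fx.uniq_of_ins hd (gq_pos hq hs0 hs1) (measurable_lev (measurable_zt hq) s)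
      (fun z ω => by rw [zt_shift hq]; rfl) (Fx.ins_lev hq hs0 hs1 le_rfl)

theorem ae_uniq_lle (hd : 1 ≤ d) (hq : 1 ≤ q) (p : I) :
    ∀ᵐ ω ∂clockLaw d, Uniq (lle (zt q ω) p) := by
  rcases p.2.1.eq_or_lt with h0 | h0
  · have : ∀ e : Edge d, ∀ᵐ ω ∂clockLaw d, e ∉ lle (zt q ω) p := by
      intro e
      rw [ae_iff, ← measureReal_eq_zero_iff]
      refine le_antisymm (le_of_forall_pos_le_add fun ε hε => ?_) measureReal_nonneg
      have h1 := Fx.prob_lt_le hq (lt_min hε one_pos) (min_le_right ε 1) e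
      rw [zero_add]
      refine le_trans (measureReal_mono fun ω hω => ?_) (h1.trans (min_le_left _ _))
      have h2 : (zt q ω e : ℝ) ≤ p := not_not.1 hω
      exact lt_of_le_of_lt (h2.trans h0.ge) (lt_min hε one_pos)
    filter_upwards [ae_all_iff.2 this] with ω hω
    rw [Set.eq_empty_of_forall_notMem hω]
    exact Fx.uniq_empty
  rcases p.2.2.eq_or_lt with h1 | h1
  · refine .of_forall fun ω a b _ _ => ?_
    have : lle (zt q ω) p = Set.univ :=
      Set.eq_univ_of_forall fun e => show (zt q ω e : ℝ) ≤ p from h1 ▸ (zt q ω e).2.2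
    rw [this]
    exact conn_univ a b
  · exact Fx.uniq_of_ins hd (gq_pos hq h0 h1.le) (measurable_lle (measurable_zt hq) p)
      (fun z ω => by rw [zt_shift hq]; rfl) (Fx.ins_lle hq h1)

end Pool.Agent.P.MP_d95e10_pr
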