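import Pool.Agent.P.MP_d95e10_pr.Main
import Pool.Agent.P.MP_d95e10_pr.Fixed

/-!
Simultaneous uniqueness for the stationary configuration.
-/

namespace Pool.Agent.P.MP_d95e10_pr

open MeasureTheory ProbabilityTheory Filter Topology unitInterval
open scoped Classical ENNReal

variable {d : ℕ} {q : ℝ}

lemma measurable_uniq {Y : Type*} [MeasurableSpace Y] {f : Y → Set (Edge d)} (hf : Measurable f) :
    Measurable fun y => Uniq (f y) :=
  .forall fun a => .forall fun b => (measurable_infAt hf a).imp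
    ((measurable_infAt hf b).imp (measurable_conn hf a b))

lemma infCount_eq_ite {ω : Set (Edge d)} (h : Uniq ω) :
    infCount ω = if ∃ x, InfAt ω x then 1 else 0 := by
  split_ifs with h1
  · exact infCount_eq_one h1 h
  · exact infCount_eq_zero_iff.2 (not_exists.1 h1)

lemma dichotomy (hd : 1 ≤ d) (hq : 1 ≤ q) {L : Conf d → Set (Edge d)} (hL : Measurable L)
    (hs : ∀ z v, L (v ∘ shiftE z) = shiftS z (L v)) :
    (∀ᵐ ω ∂clockLaw d, ∃ x, InfAt (L (zt q ω)) x) ∨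
      ∀ᵐ ω ∂clockLaw d, ¬ ∃ x, InfAt (L (zt q ω)) x := by
  have hm : MeasurableSet {v | ∃ x, InfAt (L v) x} :=
    measurableSet_setOfPred.2 (.exists fun x => measurable_infAt hL x)
  rcases zero_one_zt hd hq hm (fun z v => by
    simp only [Set.mem_ofPred_eq, hs, infAt_shiftS]
    exact (add_right_surjective z).exists.symm) with h | h
  · exact Or.inr (measure_eq_zero_iff_ae_notMem.1 h)
  · exact Or.inl ((mem_ae_iff_prob_eq_one (measurable_zt hq hm)).2 h)

theorem ae_not_exc (hd : 1 ≤ d) (hq : 1 ≤ q) {p : ℝ} (hp0 : 0 < p) (hp1 : p ≤ 1)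
    (hc : ContinuousAt (fun s => (clockLaw d).real {ω | InfAt (lev (zt q ω) s) 0}) p)
    (hex : ∀ᵐ ω ∂clockLaw d, ∃ x, InfAt (lev (zt q ω) p) x) :
    ∀ᵐ ω ∂clockLaw d, ∀ y, ¬ Exc (zt q ω) p y := by
  refine ae_all_iff.2 (exc_null_of_adj hd hq hp0 hp1 (ae_uniq_lev hd hq hp1) hex fun e b c hj => ?_)
  have h1 := (measurePreserving_shiftO c).quasiMeasurePreserving.ae (ae_rob hq hp0 hp1 0 hc)
  have h2 := ae_all_iff.2 fun M => (measurePreserving_shiftO b).quasiMeasurePreserving.ae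
    (measure_eq_zero_iff_ae_notMem.1 (adj_null (M := M) hd hq hp0 hp1))
  filter_upwards [h1, h2] with ω h1 h2 h
  simp only [zt_shift hq, lev_shift, infAt_shiftS, rob_shift hq, gd_shift hq,
    exc_shift, zero_add] at h1 h2
  obtain ⟨M, hM⟩ := h1 h.2
  exact h2 M ⟨h.1, e, c, hj, hM⟩

lemma infCount_of_not_exc {v : Conf d} {s : ℝ} {L : Set I} (hL : IsLowerSet L) (h0 : 0 ∈ L)
    (hs : lev v s ⊆ {e | v e ∈ L}) (h1 : Uniq (lev v s)) (h2 : ∃ x, InfAt (lev v s) x)
    (h3 : ∀ y, ¬ Exc v s y) : infCount {e | v e ∈ L} = 1 := by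
  have key : ∀ a, InfAt {e | v e ∈ L} a → ∃ z, Conn {e | v e ∈ L} a z ∧ InfAt (lev v s) z := by
    intro a ha
    by_contra h
    exact h3 a (exc_of_lower hL h0 ha fun z h1 h2 => h ⟨z, h1, h2⟩)
  refine infCount_eq_one (h2.imp fun x hx => hx.mono hs) fun a b ha hb => ?_
  obtain ⟨z, hz1, hz2⟩ := key a ha
  obtain ⟨w, hw1, hw2⟩ := key b hb
  exact hz1.trans (((h1 z w hz2 hw2).mono hs).trans hw1.symm)

theorem simultaneous (hd : 1 ≤ d) (hq : 1 ≤ q) :
    ∃ i i' : I → ℕ∞, Monotone i ∧ Monotone i' ∧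
      (∀ p, i p ∈ ({0, 1} : Set ℕ∞) ∧ i' p ∈ ({0, 1} : Set ℕ∞)) ∧
      ∀ᵐ ζ ∂(clockLaw d).map (zt q), ∀ p : I,
        infCount {e | ζ e < p} = i p ∧ infCount {e | ζ e ≤ p} = i' p := by
  have hmu : ∀ {P : Conf d → Prop}, Measurable P → (∀ᵐ ω ∂clockLaw d, P (zt q ω)) →
      ∀ᵐ ζ ∂(clockLaw d).map (zt q), P ζ := fun hP h =>
    (ae_map_iff (measurable_zt hq).aemeasurable (measurableSet_setOfPred.2 hP)).2 h
  have hθ : Monotone fun s => (clockLaw d).real {ω | InfAt (lev (zt q ω) s) 0} :=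
    fun s t h => measureReal_mono fun ω hω => hω.mono (lev_mono _ h)
  obtain ⟨T, hT1, hT2, hT3⟩ :=
    (hθ.countable_not_continuousAt.dense_compl ℝ).exists_countable_dense_subset
  have hT : {s : I | (s : ℝ) ∈ T}.Countable := hT2.preimage Subtype.coe_injective
  have hT4 : ∀ a b : I, a < b → ∃ s : I, (s : ℝ) ∈ T ∧ a < s ∧ s < b := fun a b h => by
    obtain ⟨s, h1, h2⟩ := hT3.exists_between (show (a : ℝ) < b from h)
    exact ⟨⟨s, a.2.1.trans h2.1.le, h2.2.le.trans b.2.2⟩, h1, h2.1, h2.2⟩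
  set pc : I := sInf {s : I | ∀ᵐ ω ∂clockLaw d, ∃ x, InfAt (lev (zt q ω) s) x} with hpc
  have hi : ∀ a : Prop, Monotone fun p : I => if pc < p ∨ (p = pc ∧ a) then (1 : ℕ∞) else 0 := by
    intro a p p' h
    by_cases h1 : pc < p ∨ (p = pc ∧ a)
    · have : pc < p' ∨ (p' = pc ∧ a) := by
        rcases h1 with h1 | ⟨rfl, h1⟩
        · exact Or.inl (h1.trans_le h)
        · exact h.lt_or_eq.imp id fun h => ⟨h.symm, h1⟩
      simp only [if_pos h1, if_pos this, le_refl]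
    · simp only [if_neg h1, zero_le]
  have crit : ∀ {L : Conf d → Set (Edge d)}, Measurable L →
      (∀ z v, L (v ∘ shiftE z) = shiftS z (L v)) → (∀ᵐ ω ∂clockLaw d, Uniq (L (zt q ω))) →
      ∃ a : Prop, ∀ᵐ ζ ∂(clockLaw d).map (zt q), Uniq (L ζ) ∧ ((∃ x, InfAt (L ζ) x) ↔ a) := by
    intro L hL hs hU
    have hm := fun a : Prop => (measurable_uniq hL).and
      ((Measurable.exists fun x => measurable_infAt hL x).iff (measurable_const (a := a)))
    rcases dichotomy hd hq hL hs with h | h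
    · exact ⟨True, hmu (hm _) (by filter_upwards [hU, h] with ω h1 h2 using ⟨h1, iff_true_intro h2⟩)⟩
    · exact ⟨False, hmu (hm _) (by
        filter_upwards [hU, h] with ω h1 h2 using ⟨h1, iff_false_intro h2⟩)⟩
  obtain ⟨a, ha⟩ := crit (measurable_lev measurable_id pc) (fun _ _ => rfl)
    (ae_uniq_lev hd hq pc.2.2)
  obtain ⟨a', ha'⟩ := crit (measurable_lle measurable_id pc) (fun _ _ => rfl) (ae_uniq_lle hd hq pc)
  refine ⟨_, _, hi a, hi a', fun p => ⟨by split_ifs <;> simp, by split_ifs <;> simp⟩, ?_⟩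
  have h1 : ∀ᵐ ζ ∂(clockLaw d).map (zt q), ∀ s ∈ {s : I | (s : ℝ) ∈ T}, pc < s →
      Uniq (lev ζ s) ∧ (∃ x, InfAt (lev ζ s) x) ∧ ∀ y, ¬ Exc ζ s y := by
    refine (ae_ball_iff hT).2 fun s hs => ?_
    by_cases h : pc < s
    · simp only [h, forall_const]
      have hm := measurable_lev (measurable_id (α := Conf d)) s
      obtain ⟨r, hr, hrs⟩ := sInf_lt_iff.1 h
      have hex : ∀ᵐ ω ∂clockLaw d, ∃ x, InfAt (lev (zt q ω) s) x := by
        filter_upwards [hr] with ω ⟨x, hx⟩ using ⟨x, hx.mono (lev_mono _ hrs.le)⟩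
      refine hmu ((measurable_uniq hm).and ((Measurable.exists fun x => measurable_infAt hm x).and
        (.forall fun y => (measurable_exc measurable_id _ y).not)))
        ((ae_uniq_lev hd hq s.2.2).and (hex.and
          (ae_not_exc hd hq (pc.2.1.trans_lt h) s.2.2 (not_not.1 (hT1 hs)) hex)))
    · simp [h]
  have h2 : ∀ᵐ ζ ∂(clockLaw d).map (zt q), ∀ s ∈ {s : I | (s : ℝ) ∈ T}, s < pc →
      ¬ ∃ x, InfAt (lev ζ s) x := by
    refine (ae_ball_iff hT).2 fun s hs => ?_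
    by_cases h : s < pc
    · simp only [h, forall_const]
      have hm := measurable_lev (measurable_id (α := Conf d)) s
      exact hmu (Measurable.exists fun x => measurable_infAt hm x).not
        ((dichotomy hd hq hm fun _ _ => rfl).resolve_left fun h' => h.not_ge (sInf_le h'))
    · simp [h]
  filter_upwards [ha, ha', h1, h2] with ζ ha ha' h1 h2 p
  rcases lt_trichotomy p pc with h | rfl | h
  · obtain ⟨s, hs, h3, h4⟩ := hT4 p pc h
    simp only [h.not_gt, h.ne, false_and, or_self, if_false, infCount_eq_zero_iff]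
    exact ⟨fun x hx => h2 s hs h4 ⟨x, hx.mono fun e he => lt_trans he h3⟩,
      fun x hx => h2 s hs h4 ⟨x, hx.mono fun e he => lt_of_le_of_lt he h3⟩⟩
  · simp only [lt_irrefl, true_and, false_or, ← ha.2, ← ha'.2]
    exact ⟨infCount_eq_ite ha.1, infCount_eq_ite ha'.1⟩
  · obtain ⟨s, hs, h3, h4⟩ := hT4 pc p h
    obtain ⟨h5, h6, h7⟩ := h1 s hs h3
    simp only [h, true_or, if_true]
    have h0 : 0 < p := nonneg'.trans_lt h
    exact ⟨infCount_of_not_exc (isLowerSet_Iio p) h0 (fun e he => lt_trans he h4) h5 h6 h7,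
      infCount_of_not_exc (isLowerSet_Iic p) h0.le (fun e he => (lt_trans he h4).le) h5 h6 h7⟩

end Pool.Agent.P.MP_d95e10_pr
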