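import Pool.Agent.P.MP_d95e10_pr.Defs

/-!
Basic facts on open clusters: monotonicity, finite support, translations, measurability.
-/

namespace Pool.Agent.P.MP_d95e10_pr

open MeasureTheory Filter

variable {d : ℕ}

/-- `a` and `b` are joined by an open path. -/
abbrev Conn (ω : Set (Edge d)) (a b : Vtx d) : Prop := (openGraph ω).Reachable a b

/-- The open cluster of `a`. -/
def cluster (ω : Set (Edge d)) (a : Vtx d) : Set (Vtx d) := {b | Conn ω a b}

/-- `a` lies in an infinite open cluster. -/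
def InfAt (ω : Set (Edge d)) (a : Vtx d) : Prop := (cluster ω a).Infinite

/-- `a` and `b` are the two endpoints of `e`. -/
def Joins (e : Edge d) (a b : Vtx d) : Prop :=
  (e.1 = a ∧ tip e = b) ∨ (e.1 = b ∧ tip e = a)

/-- `a` is an endpoint of `e`. -/
def Touches (e : Edge d) (a : Vtx d) : Prop := e.1 = a ∨ tip e = a

lemma tip_ne (e : Edge d) : e.1 ≠ tip e := by
  intro h
  have := congrFun h e.2
  simp [tip] at this

lemma Joins.symm {e : Edge d} {a b : Vtx d} (h : Joins e a b) : Joins e b a := Or.symm h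

lemma Joins.ne {e : Edge d} {a b : Vtx d} (h : Joins e a b) : a ≠ b := by
  rcases h with ⟨rfl, rfl⟩ | ⟨rfl, rfl⟩
  · exact tip_ne e
  · exact (tip_ne e).symm

lemma Joins.touches_left {e : Edge d} {a b : Vtx d} (h : Joins e a b) : Touches e a := by
  rcases h with ⟨h, -⟩ | ⟨-, h⟩
  · exact Or.inl h
  · exact Or.inr h

lemma Joins.touches_right {e : Edge d} {a b : Vtx d} (h : Joins e a b) : Touches e b :=
  h.symm.touches_left

lemma Joins.eq_of_touches {e : Edge d} {a b c : Vtx d} (h : Joins e a b) (hc : Touches e c) :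
    c = a ∨ c = b := by
  rcases h with ⟨rfl, rfl⟩ | ⟨rfl, rfl⟩ <;> rcases hc with rfl | rfl <;> simp

lemma joins_self (e : Edge d) : Joins e e.1 (tip e) := Or.inl ⟨rfl, rfl⟩

lemma Touches.exists_joins {e : Edge d} {a : Vtx d} (h : Touches e a) : ∃ b, Joins e a b := by
  rcases h with rfl | rfl
  · exact ⟨_, joins_self e⟩
  · exact ⟨_, (joins_self e).symm⟩

lemma openGraph_adj {ω : Set (Edge d)} {a b : Vtx d} :
    (openGraph ω).Adj a b ↔ ∃ e ∈ ω, Joins e a b := by
  simp only [openGraph, SimpleGraph.fromRel_adj]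
  constructor
  · rintro ⟨-, ⟨e, he, h⟩ | ⟨e, he, h⟩⟩
    · exact ⟨e, he, Or.inl h⟩
    · exact ⟨e, he, Or.inr h⟩
  · rintro ⟨e, he, h⟩
    refine ⟨h.ne, ?_⟩
    rcases h with h | h
    · exact Or.inl ⟨e, he, h⟩
    · exact Or.inr ⟨e, he, h⟩

lemma openGraph_mono {ω ω' : Set (Edge d)} (h : ω ⊆ ω') : openGraph ω ≤ openGraph ω' := by
  intro a b hab
  obtain ⟨e, he, hj⟩ := openGraph_adj.1 hab
  exact openGraph_adj.2 ⟨e, h he, hj⟩

lemma Conn.mono {ω ω' : Set (Edge d)} (h : ω ⊆ ω') {a b : Vtx d} (hab : Conn ω a b) :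
    Conn ω' a b := SimpleGraph.Reachable.mono (openGraph_mono h) hab

lemma Conn.of_joins {ω : Set (Edge d)} {e : Edge d} (he : e ∈ ω) {a b : Vtx d}
    (h : Joins e a b) : Conn ω a b := (openGraph_adj.2 ⟨e, he, h⟩).reachable

/-- Induction along an open path. -/
lemma Conn.induction {ω : Set (Edge d)} {a : Vtx d} {P : Vtx d → Prop} (h0 : P a)
    (hs : ∀ b c e, e ∈ ω → Joins e b c → Conn ω a b → P b → P c) {b : Vtx d}
    (hab : Conn ω a b) : P b := by
  have h := (SimpleGraph.reachable_iff_reflTransGen a b).1 hab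
  induction h with
  | refl => exact h0
  | tail h1 h2 ih =>
    obtain ⟨e, he, hj⟩ := openGraph_adj.1 h2
    have h3 := (SimpleGraph.reachable_iff_reflTransGen _ _).2 h1
    exact hs _ _ e he hj h3 (ih h3)

lemma Conn.exists_finset {ω : Set (Edge d)} {a b : Vtx d} (hab : Conn ω a b) :
    ∃ γ : Finset (Edge d), (γ : Set (Edge d)) ⊆ ω ∧ Conn (γ : Set (Edge d)) a b := by
  classical
  refine Conn.induction (P := fun b => ∃ γ : Finset (Edge d), (γ : Set (Edge d)) ⊆ ω ∧
    Conn (γ : Set (Edge d)) a b) ⟨∅, by simp, SimpleGraph.Reachable.refl _⟩ ?_ hab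
  rintro b c e he hj - ⟨γ, hγ, hc⟩
  refine ⟨insert e γ, ?_, ?_⟩
  · rw [Finset.coe_insert]; exact Set.insert_subset he hγ
  · exact (hc.mono (by simp)).trans (Conn.of_joins (by simp) hj)

lemma cluster_mono {ω ω' : Set (Edge d)} (h : ω ⊆ ω') (a : Vtx d) :
    cluster ω a ⊆ cluster ω' a := fun _ hb => Conn.mono h hb

lemma InfAt.mono {ω ω' : Set (Edge d)} (h : ω ⊆ ω') {a : Vtx d} (ha : InfAt ω a) :
    InfAt ω' a := Set.Infinite.mono (cluster_mono h a) ha

lemma cluster_eq_of_conn {ω : Set (Edge d)} {a b : Vtx d} (h : Conn ω a b) :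
    cluster ω a = cluster ω b := by
  ext c
  exact ⟨fun hc => h.symm.trans hc, fun hc => h.trans hc⟩

lemma InfAt.of_conn {ω : Set (Edge d)} {a b : Vtx d} (ha : InfAt ω a) (h : Conn ω a b) :
    InfAt ω b := by
  unfold InfAt at *
  rwa [← cluster_eq_of_conn h]

lemma supp_mk (ω : Set (Edge d)) (a : Vtx d) :
    ((openGraph ω).connectedComponentMk a).supp = cluster ω a := by
  ext b
  simp only [SimpleGraph.ConnectedComponent.mem_supp_iff, SimpleGraph.ConnectedComponent.eq,
    cluster, Set.mem_ofPred_eq]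
  exact ⟨fun h => h.symm, fun h => h.symm⟩

lemma infCount_eq_zero_iff {ω : Set (Edge d)} : infCount ω = 0 ↔ ∀ a, ¬ InfAt ω a := by
  rw [infCount, Set.encard_eq_zero, Set.eq_empty_iff_forall_notMem]
  constructor
  · intro h a ha
    exact h ((openGraph ω).connectedComponentMk a) (by simpa [supp_mk, InfAt] using ha)
  · intro h C hC
    induction C using SimpleGraph.ConnectedComponent.ind with
    | _ a => exact h a (by simpa [supp_mk, InfAt] using hC)

lemma infCount_eq_one {ω : Set (Edge d)} (h1 : ∃ a, InfAt ω a)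
    (h2 : ∀ a b, InfAt ω a → InfAt ω b → Conn ω a b) : infCount ω = 1 := by
  obtain ⟨a, ha⟩ := h1
  rw [infCount, Set.encard_eq_one]
  refine ⟨(openGraph ω).connectedComponentMk a, ?_⟩
  ext C
  induction C using SimpleGraph.ConnectedComponent.ind with
  | _ b =>
    simp only [Set.mem_ofPred_eq, supp_mk, Set.mem_singleton_iff, SimpleGraph.ConnectedComponent.eq]
    exact ⟨fun hb => h2 b a hb ha, fun hb => ha.of_conn hb.symm⟩

/-! ### Translations -/

/-- Translation of an edge. -/
def shiftE (z : Vtx d) (e : Edge d) : Edge d := (e.1 + z, e.2)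

/-- Translation (by `-z`) of a set of edges. -/
def shiftS (z : Vtx d) (ω : Set (Edge d)) : Set (Edge d) := shiftE z ⁻¹' ω

lemma tip_shiftE (z : Vtx d) (e : Edge d) : tip (shiftE z e) = tip e + z := by
  simp only [tip, shiftE]; abel

@[simp] lemma shiftE_zero (e : Edge d) : shiftE 0 e = e := by simp [shiftE]

lemma shiftE_shiftE (z w : Vtx d) (e : Edge d) : shiftE z (shiftE w e) = shiftE (w + z) e := by
  simp [shiftE, add_assoc]

lemma shiftE_injective (z : Vtx d) : Function.Injective (shiftE z) := by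
  intro e f h
  have := congrArg (shiftE (-z)) h
  simpa [shiftE_shiftE] using this

lemma shiftE_surjective (z : Vtx d) : Function.Surjective (shiftE z) := fun e =>
  ⟨shiftE (-z) e, by simp [shiftE_shiftE]⟩

lemma joins_shiftE {z : Vtx d} {e : Edge d} {a b : Vtx d} :
    Joins (shiftE z e) (a + z) (b + z) ↔ Joins e a b := by
  simp only [Joins, tip_shiftE]
  simp [shiftE]

lemma touches_shiftE {z : Vtx d} {e : Edge d} {a : Vtx d} :
    Touches (shiftE z e) (a + z) ↔ Touches e a := by
  simp only [Touches, tip_shiftE]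
  simp [shiftE]

lemma shiftS_shiftS (z w : Vtx d) (ω : Set (Edge d)) :
    shiftS z (shiftS w ω) = shiftS (z + w) ω := by
  ext e; simp [shiftS, shiftE_shiftE]

@[simp] lemma shiftS_zero (ω : Set (Edge d)) : shiftS 0 ω = ω := by
  ext e; simp [shiftS]

lemma Conn.shift {ω : Set (Edge d)} {z a b : Vtx d} (h : Conn (shiftS z ω) a b) :
    Conn ω (a + z) (b + z) := by
  refine Conn.induction (P := fun b => Conn ω (a + z) (b + z)) (SimpleGraph.Reachable.refl _) ?_ h
  intro b c e he hj _ ih
  exact ih.trans (Conn.of_joins (e := shiftE z e) he (joins_shiftE.2 hj))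

lemma conn_shiftS {ω : Set (Edge d)} {z a b : Vtx d} :
    Conn (shiftS z ω) a b ↔ Conn ω (a + z) (b + z) := by
  refine ⟨Conn.shift, fun h => ?_⟩
  have h1 : Conn (shiftS (-z) (shiftS z ω)) (a + z) (b + z) := by
    rw [shiftS_shiftS]; simpa using h
  simpa using h1.shift

lemma cluster_shiftS {ω : Set (Edge d)} {z a : Vtx d} :
    cluster (shiftS z ω) a = (· + z) ⁻¹' cluster ω (a + z) := by
  ext b; simp [cluster, conn_shiftS]

lemma infAt_shiftS {ω : Set (Edge d)} {z a : Vtx d} :
    InfAt (shiftS z ω) a ↔ InfAt ω (a + z) := by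
  unfold InfAt
  rw [cluster_shiftS]
  exact ⟨fun h hf => h (hf.preimage (add_left_injective z).injOn),
    fun h => h.preimage (by rw [(add_right_surjective z).range_eq]; exact Set.subset_univ _)⟩

/-! ### Measurability -/

lemma measurable_shiftS (z : Vtx d) : Measurable (shiftS z : Set (Edge d) → Set (Edge d)) :=
  measurable_set_iff.2 fun e => measurable_set_mem (shiftE z e)

lemma measurable_insertE (f : Edge d) :
    Measurable (insert f : Set (Edge d) → Set (Edge d)) :=
  measurable_set_iff.2 fun e => by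
    simp only [Set.mem_insert_iff]
    exact measurable_const.or (measurable_set_mem e)

lemma measurableSet_conn (a b : Vtx d) : MeasurableSet {ω : Set (Edge d) | Conn ω a b} := by
  have : {ω : Set (Edge d) | Conn ω a b} = ⋃ γ : Finset (Edge d),
      ⋃ (_ : Conn (γ : Set (Edge d)) a b), ⋂ e ∈ γ, {ω | e ∈ ω} := by
    ext ω
    simp only [Set.mem_ofPred_eq, Set.mem_iUnion, Set.mem_iInter, exists_prop]
    constructor
    · intro h
      obtain ⟨γ, h1, h2⟩ := h.exists_finset
      exact ⟨γ, h2, fun e he => h1 he⟩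
    · rintro ⟨γ, h1, h2⟩
      exact h1.mono fun e he => h2 e he
  rw [this]
  exact .iUnion fun γ => .iUnion fun _ => γ.measurableSet_biInter fun e _ => measurableSet_mem e

lemma infAt_iff {ω : Set (Edge d)} {a : Vtx d} :
    InfAt ω a ↔ ∀ S : Finset (Vtx d), ∃ b, b ∉ S ∧ Conn ω a b := by
  constructor
  · intro h S
    obtain ⟨b, hb, hbS⟩ := h.exists_notMem_finset S
    exact ⟨b, hbS, hb⟩
  · intro h hf
    obtain ⟨b, hb, hc⟩ := h hf.toFinset
    exact hb (hf.mem_toFinset.2 hc)

lemma measurableSet_infAt (a : Vtx d) : MeasurableSet {ω : Set (Edge d) | InfAt ω a} := by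
  simp only [infAt_iff]
  rw [measurableSet_setOfPred]
  exact .forall fun S => .exists fun b =>
    measurable_const.and (measurableSet_setOfPred.1 (measurableSet_conn a b))

@[fun_prop] lemma measurable_conn {Y : Type*} [MeasurableSpace Y] {f : Y → Set (Edge d)}
    (hf : Measurable f) (a b : Vtx d) : Measurable fun y => Conn (f y) a b :=
  (measurableSet_setOfPred.1 (measurableSet_conn a b)).comp hf

@[fun_prop] lemma measurable_infAt {Y : Type*} [MeasurableSpace Y] {f : Y → Set (Edge d)}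
    (hf : Measurable f) (a : Vtx d) : Measurable fun y => InfAt (f y) a :=
  (measurableSet_setOfPred.1 (measurableSet_infAt a)).comp hf

/-! ### Boxes -/

lemma mem_box {n : ℕ} {x : Vtx d} : x ∈ box d n ↔ ∀ i, |x i| ≤ n := by
  simp [box, Fintype.mem_piFinset, abs_le]

lemma mem_boxEdges {n : ℕ} {e : Edge d} :
    e ∈ boxEdges d n ↔ e.1 ∈ box d n ∧ tip e ∈ box d n := by
  simp [boxEdges]

lemma box_mono {m n : ℕ} (h : m ≤ n) : box d m ⊆ box d n := fun x hx =>
  mem_box.2 fun i => (mem_box.1 hx i).trans (by exact_mod_cast h)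

lemma boxEdges_mono {m n : ℕ} (h : m ≤ n) : boxEdges d m ⊆ boxEdges d n := fun _ he =>
  mem_boxEdges.2 ⟨box_mono h (mem_boxEdges.1 he).1, box_mono h (mem_boxEdges.1 he).2⟩

lemma exists_mem_box (x : Vtx d) : ∃ n, x ∈ box d n :=
  ⟨∑ i, (x i).natAbs, mem_box.2 fun i => by
    rw [← Int.natCast_natAbs]
    exact_mod_cast Finset.single_le_sum (f := fun i => (x i).natAbs) (fun _ _ => Nat.zero_le _)
      (Finset.mem_univ i)⟩

lemma exists_subset_box (S : Finset (Vtx d)) : ∃ n, S ⊆ box d n := by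
  classical
  choose f hf using exists_mem_box (d := d)
  exact ⟨S.sup f, fun x hx => box_mono (Finset.le_sup hx) (hf x)⟩

lemma exists_subset_boxEdges (Λ : Finset (Edge d)) : ∃ n, Λ ⊆ boxEdges d n := by
  classical
  obtain ⟨n, hn⟩ := exists_subset_box (Λ.image Prod.fst ∪ Λ.image tip)
  refine ⟨n, fun e he => mem_boxEdges.2 ⟨hn ?_, hn ?_⟩⟩
  · exact Finset.mem_union_left _ (Finset.mem_image_of_mem _ he)
  · exact Finset.mem_union_right _ (Finset.mem_image_of_mem _ he)

lemma card_box (n : ℕ) : (box d n).card = (2 * n + 1) ^ d := by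
  simp only [box, Fintype.card_piFinset, Int.card_Icc, Finset.prod_const, Finset.card_univ,
    Fintype.card_fin]
  congr 1
  omega

end Pool.Agent.P.MP_d95e10_pr
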