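import Pool.Agent.P.MP_d95e10_pr.Shared2

/-!
The finite-volume dynamics started in the far past has the random-cluster law at each level.
-/

namespace Pool.Agent.P.MP_d95e10_pr

open MeasureTheory ProbabilityTheory Filter Topology unitInterval
open scoped Classical ENNReal

variable {d : ℕ} {q : ℝ}

namespace Id

/-- One heat-bath update of a finite edge set. -/
noncomputable def hstep (q s : ℝ) (β : Set (Edge d)) (η : Finset (Edge d)) (e : Edge d) (α : I) :
    Finset (Edge d) :=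
  if (α : ℝ) < heatP q s ((η : Set (Edge d)) ∪ β) e then insert e η else η.erase e

/-- The heat-bath chain driven by a list of ring indices. -/
noncomputable def chain (q s : ℝ) (β : Set (Edge d)) (ω : Om d) (l : List (Idx d))
    (η : Finset (Edge d)) : Finset (Edge d) :=
  l.foldl (fun η j => hstep q s β η j.1.1 (pt ω j).2.2) η

lemma f_chain_cons (s : ℝ) (β : Set (Edge d)) (ω : Om d) (j : Idx d) (l : List (Idx d))
    (η : Finset (Edge d)) (f : Finset (Edge d) → ℝ) :
    f (chain q s β ω (j :: l) η) =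
      if (((pt ω j).2.2 : I) : ℝ) < heatP q s ((η : Set (Edge d)) ∪ β) j.1.1 then
        f (chain q s β ω l (insert j.1.1 η)) else f (chain q s β ω l (η.erase j.1.1)) := by
  simp only [chain, List.foldl_cons, hstep]
  split_ifs <;> rfl

lemma measurableSet_mark (j : Idx d) (h : ℝ) :
    MeasurableSet {ω : Om d | (((pt ω j).2.2 : I) : ℝ) < h} :=
  measurableSet_lt (measurable_pt j).snd.snd.subtype_coe measurable_const

lemma measurable_chain (s : ℝ) (β : Set (Edge d)) (f : Finset (Edge d) → ℝ) (l : List (Idx d))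
    (η : Finset (Edge d)) : Measurable fun ω : Om d => f (chain q s β ω l η) := by
  induction l generalizing η with
  | nil => exact measurable_const (a := f η)
  | cons j l ih =>
    simp only [f_chain_cons]
    exact Measurable.ite (measurableSet_mark j _) (ih _) (ih _)

lemma bdd_chain (s : ℝ) (β : Set (Edge d)) (f : Finset (Edge d) → ℝ) (l : List (Idx d))
    (η : Finset (Edge d)) : ∃ C, ∀ ω : Om d, ‖f (chain q s β ω l η)‖ ≤ C := by
  induction l generalizing η with
  | nil => exact ⟨‖f η‖, fun _ => le_rfl⟩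
  | cons j l ih =>
    obtain ⟨C₁, h₁⟩ := ih (insert j.1.1 η)
    obtain ⟨C₂, h₂⟩ := ih (η.erase j.1.1)
    refine ⟨max C₁ C₂, fun ω => ?_⟩
    rw [f_chain_cons s β ω j l η f]
    split_ifs
    exacts [(h₁ ω).trans (le_max_left _ _), (h₂ ω).trans (le_max_right _ _)]

lemma integrable_chain (s : ℝ) (β : Set (Edge d)) (f : Finset (Edge d) → ℝ) (l : List (Idx d))
    (η : Finset (Edge d)) : Integrable (fun ω : Om d => f (chain q s β ω l η)) (clockLaw d) := by
  obtain ⟨C, hC⟩ := bdd_chain (q := q) s β f l η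
  exact Integrable.of_bound (measurable_chain s β f l η).aestronglyMeasurable C
    (Eventually.of_forall hC)

lemma chain_setMark (s : ℝ) (β : Set (Edge d)) {j : Idx d} {l : List (Idx d)} (hj : j ∉ l)
    (ω : Om d) (α : I) (η : Finset (Edge d)) :
    chain q s β (setMark ω j α) l η = chain q s β ω l η := by
  refine foldl_rel (P := fun a b => a = b) ?_ rfl
  rintro j' hj' a _ rfl
  rw [setMark, poi_pt_setPt (j := j) (j' := j') fun h => hj (h ▸ hj')]

lemma mark_setMark (ω : Om d) (j : Idx d) (α : I) : (pt (setMark ω j α) j).2.2 = α := by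
  simp [pt, setMark, setPt]

lemma time_setMark (ω : Om d) (j j' : Idx d) (α : I) :
    (pt (setMark ω j α) j').2.1 = (pt ω j').2.1 := by
  by_cases h : j = j'
  · subst h
    simp [pt, setMark, setPt]
  · rw [setMark, poi_pt_setPt h]

lemma act_setMark (ω : Om d) (j j' : Idx d) (α : I) : Act (setMark ω j α) j' ↔ Act ω j' := by
  unfold Act setMark setPt
  by_cases h : j'.1 = j.1
  · rw [h]; simp
  · simp [Function.update_of_ne h]

lemma mp_setMark (j : Idx d) : MeasurePreserving (fun p : Om d × I => setMark p.1 j p.2)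
    ((clockLaw d).prod volume) (clockLaw d) := by
  refine ⟨measurable_setMark j, Measure.ext fun S hS => ?_⟩
  rw [← lintegral_indicator_one hS, ← lintegral_indicator_one hS,
    lintegral_map (measurable_one.indicator hS) (measurable_setMark j),
    lintegral_setMark j (measurable_one.indicator hS), lintegral_prod]
  exact ((measurable_one.indicator hS).comp (measurable_setMark j)).aemeasurable

lemma integral_mark (j : Idx d) {h : ℝ} (h0 : 0 ≤ h) (h1 : h ≤ 1) {G : Om d → ℝ}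
    (hG : Measurable G) (hinv : ∀ ω α, G (setMark ω j α) = G ω) :
    ∫ ω, (if (((pt ω j).2.2 : I) : ℝ) < h then G ω else 0) ∂clockLaw d =
      h * ∫ ω, G ω ∂clockLaw d := by
  have hm : Measurable fun ω : Om d => if (((pt ω j).2.2 : I) : ℝ) < h then G ω else 0 :=
    Measurable.ite (measurableSet_mark j h) hG measurable_const
  have e1 := integral_map (μ := (clockLaw d).prod (volume : Measure I))
    (measurable_setMark j).aemeasurable hm.aestronglyMeasurable
  rw [(mp_setMark j).map_eq] at e1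
  rw [e1]
  simp only [mark_setMark, hinv]
  have e2 : ∀ p : Om d × I, (if ((p.2 : I) : ℝ) < h then G p.1 else 0) =
      G p.1 * (Set.Iio (⟨h, h0, h1⟩ : I)).indicator 1 p.2 := fun p => by
    by_cases hp : ((p.2 : I) : ℝ) < h
    · rw [if_pos hp, Set.indicator_of_mem (show p.2 ∈ Set.Iio (⟨h, h0, h1⟩ : I) from hp)]
      simp
    · rw [if_neg hp, Set.indicator_of_notMem (show p.2 ∉ Set.Iio (⟨h, h0, h1⟩ : I) from hp)]
      simp
  simp only [e2]
  rw [integral_prod_mul G fun α : I => (Set.Iio (⟨h, h0, h1⟩ : I)).indicator 1 α,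
    integral_indicator_one measurableSet_Iio, Measure.real, unitInterval.volume_Iio,
    ENNReal.toReal_ofReal h0, mul_comm]

lemma integral_mark_ite (j : Idx d) {h : ℝ} (h0 : 0 ≤ h) (h1 : h ≤ 1) {E : Set (Om d)}
    (hE : MeasurableSet E) (hEi : ∀ ω α, setMark ω j α ∈ E ↔ ω ∈ E) {A B : Om d → ℝ}
    (hA : Measurable A) (hB : Measurable B) (hAi : Integrable A (clockLaw d))
    (hBi : Integrable B (clockLaw d)) (hA' : ∀ ω α, A (setMark ω j α) = A ω)
    (hB' : ∀ ω α, B (setMark ω j α) = B ω) :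
    ∫ ω in E, (if (((pt ω j).2.2 : I) : ℝ) < h then A ω else B ω) ∂clockLaw d =
      h * ∫ ω in E, A ω ∂clockLaw d + (1 - h) * ∫ ω in E, B ω ∂clockLaw d := by
  have key := integral_mark j h0 h1 (G := E.indicator fun ω => A ω - B ω)
    ((hA.sub hB).indicator hE) fun ω α => by
      by_cases hω : ω ∈ E
      · rw [Set.indicator_of_mem hω, Set.indicator_of_mem ((hEi ω α).2 hω), hA', hB']
      · rw [Set.indicator_of_notMem hω, Set.indicator_of_notMem fun h => hω ((hEi ω α).1 h)]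
  have e1 : ∀ ω, (if (((pt ω j).2.2 : I) : ℝ) < h then E.indicator (fun ω => A ω - B ω) ω
      else 0) = E.indicator (fun ω => (if (((pt ω j).2.2 : I) : ℝ) < h then A ω else B ω) -
        B ω) ω := fun ω => by
    by_cases hω : ω ∈ E
    · simp only [Set.indicator_of_mem hω]
      split_ifs <;> simp
    · simp [Set.indicator_of_notMem hω]
  have hI : Integrable (fun ω => if (((pt ω j).2.2 : I) : ℝ) < h then A ω else B ω)
      (clockLaw d) := Integrable.piecewise (measurableSet_mark j h) hAi.integrableOn hBi.integrableOn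
  simp only [e1] at key
  rw [integral_indicator hE, integral_indicator hE,
    integral_sub hI.integrableOn hBi.integrableOn,
    integral_sub hAi.integrableOn hBi.integrableOn] at key
  linarith

/-- The random-cluster weights are invariant under the heat-bath chain. -/
lemma chain_inv (hq : 1 ≤ q) {s : ℝ} (hs0 : 0 < s) (hs1 : s ≤ 1) (n : ℕ) {β : Set (Edge d)}
    (hβ : ∀ e ∈ boxEdges d n, e ∉ β) (f : Finset (Edge d) → ℝ) {E : Set (Om d)}
    (hE : MeasurableSet E) (hEi : ∀ j ω α, setMark ω j α ∈ E ↔ ω ∈ E) (l : List (Idx d))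
    (hl : l.Nodup) (hΛ : ∀ j ∈ l, j.1.1 ∈ boxEdges d n) :
    fkE q s n β (fun η => ∫ ω in E, f (chain q s β ω l η) ∂clockLaw d) =
      (clockLaw d).real E * fkE q s n β f := by
  induction l with
  | nil =>
    simp only [chain, List.foldl_nil, setIntegral_const, smul_eq_mul]
    exact fkE_const_mul q s n β _ f
  | cons j l ih =>
    obtain ⟨hj, hl'⟩ := List.nodup_cons.1 hl
    have he := hΛ j List.mem_cons_self
    rw [← ih hl' fun j' h => hΛ j' (List.mem_cons_of_mem _ h), ← fk_heat hq hs0 hs1 n he (hβ _ he)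
      fun η => ∫ ω in E, f (chain q s β ω l η) ∂clockLaw d]
    congr 1
    funext η
    simp only [f_chain_cons]
    exact integral_mark_ite j ((gq_pos hq hs0 hs1).le.trans (gq_le_heatP hq hs0 hs1 _ _))
      ((heatP_le hq hs0 hs1 _ _).trans hs1) hE (hEi j) (measurable_chain s β f l _)
      (measurable_chain s β f l _) (integrable_chain s β f l _) (integrable_chain s β f l _)
      (fun ω α => by rw [chain_setMark s β hj]) fun ω α => by rw [chain_setMark s β hj]

/-! ### The continuous-time run follows the chain -/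

lemma lev_step (hq : 1 ≤ q) {s : ℝ} (hs1 : s ≤ 1) {Λ : Finset (Edge d)} {β : Set (Edge d)}
    {R : Rel d} {τ : ℝ} {e₀ : Edge d} {α₀ : I} (he₀ : e₀ ∈ Λ) (hβ : e₀ ∉ β)
    (hR : ∀ e ∈ Λ, ∀ α, R e τ α ↔ e = e₀ ∧ α = α₀) {v : Conf d} {η : Finset (Edge d)}
    (hv : lev v s = (η : Set (Edge d)) ∪ β) :
    lev (step q Λ R v τ) s = (hstep q s β η e₀ α₀ : Set (Edge d)) ∪ β := by
  ext e
  rw [mem_lev]
  by_cases he : e = e₀
  · subst he
    rw [step_lt_iff hq hs1 ⟨he₀, α₀, (hR e he₀ α₀).2 ⟨rfl, rfl⟩⟩, hv]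
    simp only [hR e he₀, true_and, exists_eq_left, Set.mem_union, hβ, or_false, Finset.mem_coe]
    have : e ∈ hstep q s β η e α₀ ↔ (α₀ : ℝ) < heatP q s ((η : Set (Edge d)) ∪ β) e := by
      unfold hstep
      split_ifs with h <;> simp [h]
    rw [this]
    unfold heatP
    split_ifs with h
    · exact ⟨fun h' => h'.elim (fun h => h.2) (lt_of_lt_gq hq hs1), fun h' => Or.inl ⟨h, h'⟩⟩
    · exact ⟨fun h' => h'.elim (fun h' => absurd h'.1 h) id, Or.inr⟩
  · rw [step_of_not fun ⟨h1, α, h2⟩ => he ((hR e h1 α).1 h2).1, ← mem_lev, hv]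
    unfold hstep
    split_ifs <;> simp [he]

lemma hstep_subset {s : ℝ} {Λ : Finset (Edge d)} {β : Set (Edge d)} {η : Finset (Edge d)}
    {e : Edge d} (α : I) (he : e ∈ Λ) (hη : η ⊆ Λ) : hstep q s β η e α ⊆ Λ := by
  unfold hstep
  split_ifs
  exacts [Finset.insert_subset he hη, (Finset.erase_subset _ _).trans hη]

/-- The list `l` enumerates the rings of the window in increasing order of time. -/
def Ev (Λ : Finset (Edge d)) (a L : ℝ) (l : List (Idx d)) : Set (Om d) :=
  {ω | (l.Pairwise fun j j' => (pt ω j).2.1 < (pt ω j').2.1) ∧ ∀ j, j ∈ l ↔ j ∈ TS.idx Λ a L ω}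

lemma measurableSet_Ev (Λ : Finset (Edge d)) (a L : ℝ) (l : List (Idx d)) :
    MeasurableSet (Ev Λ a L l) := by
  refine measurableSet_setOfPred.2 (.and ?_ (.forall fun j =>
    measurable_const.iff (TS.measurable_mem_idx Λ a L j)))
  simp only [List.pairwise_iff_getElem]
  exact .forall fun i => .forall fun k => .forall fun _ => .forall fun _ =>
    measurable_const.imp (measurableSet_setOfPred.1 (measurableSet_lt
      (measurable_pt _).snd.fst (measurable_pt _).snd.fst))

lemma setMark_mem_Ev (Λ : Finset (Edge d)) (a L : ℝ) (l : List (Idx d)) (j : Idx d) (ω : Om d)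
    (α : I) : setMark ω j α ∈ Ev Λ a L l ↔ ω ∈ Ev Λ a L l := by
  have : ∀ j', (pt (setMark ω j α) j').1 = (pt ω j').1 := fun _ => rfl
  simp only [Ev, TS.idx, TS.inW, Set.mem_ofPred_eq, time_setMark, act_setMark, this]

lemma nodup_of_Ev {Λ : Finset (Edge d)} {a L : ℝ} {l : List (Idx d)} {ω : Om d}
    (h : ω ∈ Ev Λ a L l) : l.Nodup :=
  h.1.imp fun h' e => absurd h' (by rw [e]; exact lt_irrefl _)

lemma disjoint_Ev (Λ : Finset (Edge d)) (a L : ℝ) :
    Pairwise (Function.onFun Disjoint (Ev Λ a L)) := by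
  intro l l' hne
  refine Set.disjoint_left.2 fun ω h h' => hne ?_
  refine List.Perm.eq_of_pairwise (le := fun j j' => (pt ω j).2.1 < (pt ω j').2.1)
    (fun x y _ _ h1 h2 => absurd h1 (lt_asymm h2)) h.1 h'.1 ?_
  exact (List.perm_ext_iff_of_nodup (nodup_of_Ev h) (nodup_of_Ev h')).2 fun j =>
    (h.2 j).trans (h'.2 j).symm

lemma ae_Ev (Λ : Finset (Edge d)) (a L : ℝ) :
    (⋃ l, Ev Λ a L l) =ᵐ[clockLaw d] (Set.univ : Set (Om d)) := by
  rw [ae_eq_univ, ← mem_ae_iff]
  filter_upwards [ae_distinct (d := d)] with ω hω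
  obtain ⟨T, hT, hm⟩ := exists_list ((TS.finite_idx Λ a L ω).image fun j => (pt ω j).2.1)
  obtain ⟨l, rfl⟩ : ∃ l : List (Idx d), l.map (fun j => (pt ω j).2.1) = T := by
    have : ∀ τ ∈ T, ∃ j, (pt ω j).2.1 = τ := fun τ hτ =>
      ((hm τ).1 hτ).imp fun j hj => hj.2
    choose g hg using this
    exact ⟨T.attach.map fun τ => g τ.1 τ.2, by simp [Function.comp_def, hg]⟩
  refine Set.mem_iUnion.2 ⟨l, List.pairwise_map.1 hT, fun j => ⟨fun hj => ?_, fun hj => ?_⟩⟩
  · obtain ⟨j', h1, h2⟩ := (hm _).1 (List.mem_map_of_mem hj)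
    exact hω.1 _ _ h2 ▸ h1
  · obtain ⟨j', h1, h2⟩ := List.mem_map.1 ((hm _).2 ⟨j, hj, rfl⟩)
    exact hω.1 _ _ h2 ▸ h1

lemma lev_run (hq : 1 ≤ q) {s : ℝ} (hs1 : s ≤ 1) {Λ : Finset (Edge d)} {β : Set (Edge d)}
    (hβ : ∀ e ∈ Λ, e ∉ β) {a L : ℝ} {l : List (Idx d)} {ω : Om d} (h : ω ∈ Ev Λ a L l)
    {v : Conf d} {η : Finset (Edge d)} (hη : η ⊆ Λ) (hv : lev v s = (η : Set (Edge d)) ∪ β) :
    lev (run q Λ (Rings ω) a (a + L) v) s = (chain q s β ω l η : Set (Edge d)) ∪ β ∧
      chain q s β ω l η ⊆ Λ := by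
  rw [run_eq_foldl (l := l.map fun j => (pt ω j).2.1) (List.pairwise_map.2 h.1), List.foldl_map]
  · refine foldl_rel (P := fun (v : Conf d) (η : Finset (Edge d)) =>
      lev v s = (η : Set (Edge d)) ∪ β ∧ η ⊆ Λ) ?_ ⟨hv, hη⟩
    rintro j hj w ζ ⟨h1, h2⟩
    obtain ⟨hA, he, hw1, hw2⟩ := (h.2 j).1 hj
    refine ⟨lev_step hq hs1 he (hβ _ he) (fun e heΛ α => ⟨fun hr => ?_, ?_⟩) h1,
      hstep_subset _ he h2⟩
    · obtain ⟨j', hA', hp⟩ := rings_iff.1 hr
      have hj' : j' ∈ l := (h.2 j').2 ⟨hA', by rw [hp]; exact ⟨heΛ, hw1, hw2⟩⟩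
      have ht : (pt ω j').2.1 = (pt ω j).2.1 := by rw [hp]
      have : j' = j := by
        by_contra hne
        have : Std.Symm fun x y : Idx d => (pt ω x).2.1 ≠ (pt ω y).2.1 := ⟨fun _ _ => Ne.symm⟩
        exact List.Pairwise.forall (R := fun x y : Idx d => (pt ω x).2.1 ≠ (pt ω y).2.1)
          (h.1.imp ne_of_lt) hj' hj hne ht
      subst this
      exact ⟨(congrArg Prod.fst hp).symm, (congrArg (fun p : Pt d => p.2.2) hp).symm⟩
    · rintro ⟨rfl, rfl⟩
      exact rings_iff.2 ⟨j, hA, rfl⟩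
  · rintro τ ⟨h1, h2, e, he, α, hr⟩
    obtain ⟨j, hA, hp⟩ := rings_iff.1 hr
    exact List.mem_map.2 ⟨j, (h.2 j).2 ⟨hA, by rw [hp]; exact ⟨he, h1, h2⟩⟩, by rw [hp]⟩
  · intro τ hτ
    obtain ⟨j, hj, rfl⟩ := List.mem_map.1 hτ
    exact ((h.2 j).1 hj).2.2

/-- The configuration with the level set `η ∪ β`. -/
noncomputable def cfg (β : Set (Edge d)) (η : Finset (Edge d)) : Conf d :=
  fun e => if e ∈ (η : Set (Edge d)) ∪ β then 0 else 1

lemma lev_cfg {s : ℝ} (hs0 : 0 < s) (hs1 : s ≤ 1) (β : Set (Edge d)) (η : Finset (Edge d)) :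
    lev (cfg β η) s = (η : Set (Edge d)) ∪ β := by
  ext e
  rw [mem_lev, cfg]
  split_ifs with h
  · simp only [h, iff_true]; exact hs0
  · simp only [h, iff_false]; exact not_lt.2 hs1

lemma Lb_eq {s : ℝ} {n : ℕ} {β : Set (Edge d)} (hβ : ∀ e ∈ boxEdges d n, e ∉ β) {v : Conf d}
    {η : Finset (Edge d)} (hη : η ⊆ boxEdges d n) (hv : lev v s = (η : Set (Edge d)) ∪ β) :
    Lb n s v = η := by
  ext e
  rw [Lb, Finset.mem_filter, ← mem_lev, hv]
  exact ⟨fun h => h.2.resolve_right (hβ e h.1), fun h => ⟨hη h, Or.inl h⟩⟩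

lemma measurable_Lb (n : ℕ) (s : ℝ) (f : Finset (Edge d) → ℝ) {v : Om d → Conf d}
    (hv : Measurable v) : Measurable fun ω => f (Lb n s (v ω)) := by
  have : (fun ω => f (Lb n s (v ω))) = fun ω => ∑ η ∈ (boxEdges d n).powerset,
      if ∀ e ∈ boxEdges d n, e ∈ η ↔ e ∈ lev (v ω) s then f η else 0 := by
    funext ω
    rw [Finset.sum_eq_single_of_mem (Lb n s (v ω))
      (Finset.mem_powerset.2 (Finset.filter_subset _ _)), if_pos]
    · intro e he
      simp [Lb, he, mem_lev]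
    · intro η hη hne
      refine if_neg fun h => hne (Finset.ext fun e => ?_)
      rw [Lb, Finset.mem_filter, ← mem_lev]
      exact ⟨fun h' => ⟨Finset.mem_powerset.1 hη h', (h e (Finset.mem_powerset.1 hη h')).1 h'⟩,
        fun h' => (h e h'.1).2 h'.2⟩
  rw [this]
  refine Finset.measurable_sum _ fun η _ => Measurable.ite (measurableSet_setOfPred.2 ?_)
    measurable_const measurable_const
  exact .forall fun e => measurable_const.imp
    (measurable_const.iff (measurable_set_iff.1 (measurable_lev hv s) e))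

lemma norm_Lb_le (n : ℕ) (s : ℝ) (f : Finset (Edge d) → ℝ) (v : Conf d) :
    ‖f (Lb n s v)‖ ≤ ∑ η ∈ (boxEdges d n).powerset, ‖f η‖ :=
  Finset.single_le_sum (f := fun η => ‖f η‖) (fun _ _ => norm_nonneg _)
    (Finset.mem_powerset.2 (Finset.filter_subset _ _))

lemma integrable_Lb (n : ℕ) (s : ℝ) (f : Finset (Edge d) → ℝ) {v : Om d → Conf d}
    (hv : Measurable v) : Integrable (fun ω => f (Lb n s (v ω))) (clockLaw d) :=
  Integrable.of_bound (measurable_Lb n s f hv).aestronglyMeasurable _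
    (Eventually.of_forall fun ω => norm_Lb_le n s f (v ω))

lemma fkE_congr (s : ℝ) (n : ℕ) (β : Set (Edge d)) {f g : Finset (Edge d) → ℝ}
    (h : ∀ η ⊆ boxEdges d n, f η = g η) : fkE q s n β f = fkE q s n β g := by
  unfold fkE
  rw [Finset.sum_congr rfl fun η hη => by rw [h η (Finset.mem_powerset.1 hη)]]

/-- Stationarity of the random-cluster measure under the finite-volume dynamics. -/
lemma run_inv_fk (hq : 1 ≤ q) {s : ℝ} (hs0 : 0 < s) (hs1 : s ≤ 1) (n : ℕ) {β : Set (Edge d)}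
    (hβ : ∀ e ∈ boxEdges d n, e ∉ β) (f : Finset (Edge d) → ℝ) (a L : ℝ) :
    fkE q s n β (fun η => ∫ ω, f (Lb n s (run q (boxEdges d n) (Rings ω) a (a + L) (cfg β η)))
      ∂clockLaw d) = fkE q s n β f := by
  have hsum : ∀ {g : Om d → ℝ}, Integrable g (clockLaw d) → HasSum
      (fun l => ∫ ω in Ev (boxEdges d n) a L l, g ω ∂clockLaw d) (∫ ω, g ω ∂clockLaw d) := by
    intro g hg
    have := hasSum_integral_iUnion (measurableSet_Ev (boxEdges d n) a L)
      (disjoint_Ev (boxEdges d n) a L) hg.integrableOn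
    rwa [setIntegral_congr_set (ae_Ev (boxEdges d n) a L), Measure.restrict_univ] at this
  have h1 : HasSum (fun l => fkE q s n β fun η => ∫ ω in Ev (boxEdges d n) a L l,
      f (Lb n s (run q (boxEdges d n) (Rings ω) a (a + L) (cfg β η))) ∂clockLaw d)
      (fkE q s n β fun η => ∫ ω, f (Lb n s (run q (boxEdges d n) (Rings ω) a (a + L) (cfg β η)))
        ∂clockLaw d) :=
    (hasSum_sum fun η _ => (hsum (integrable_Lb n s f
      (measurable_run_rings hq _ _ _ _))).mul_left _).div_const _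
  have h2 := hsum (integrable_const (fkE q s n β f))
  simp only [setIntegral_const] at h2
  simp only [integral_const, probReal_univ, smul_eq_mul, one_mul] at h2
  refine h1.unique ?_
  convert h2 using 2 with l
  rcases (Ev (boxEdges d n) a L l).eq_empty_or_nonempty with h0 | ⟨ω₀, h0⟩
  · simp only [h0, Measure.restrict_empty, integral_zero_measure, measureReal_empty, zero_mul]
    exact fkE_const hq hs0 hs1 n β 0
  · rw [← chain_inv hq hs0 hs1 n hβ f (measurableSet_Ev _ a L l) (setMark_mem_Ev _ a L l) l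
      (nodup_of_Ev h0) fun j hj => ((h0.2 j).1 hj).2.1]
    refine fkE_congr s n β fun η hη => setIntegral_congr_fun (measurableSet_Ev _ a L l)
      fun ω hω => ?_
    obtain ⟨h3, h4⟩ := lev_run hq hs1 hβ hω hη (lev_cfg hs0 hs1 β η)
    simp only [Lb_eq hβ h4 h3]

/-! ### Coalescence -/

lemma open_after (hq : 1 ≤ q) {s : ℝ} (hs1 : s ≤ 1) {Λ : Finset (Edge d)} {ω : Om d}
    (hω : ∀ j : Idx d, (j.1.2 : ℝ) < (pt ω j).2.1 ∧ (pt ω j).2.1 < j.1.2 + 1) {k : ℤ}
    {e : Edge d} (he : e ∈ Λ) (h1 : (ω (e, k)).1 = 1)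
    (h2 : ((((ω (e, k)).2 0).2 : I) : ℝ) < gq q s) {a : ℝ} (ha : a ≤ k) (v : Conf d) :
    (run q Λ (Rings ω) a (k + 1) v e : ℝ) < s := by
  have hR := lf_rings ω
  obtain ⟨t1, t2⟩ := hω ((e, k), 0)
  set τ := (pt ω ((e, k), 0)).2.1 with hτ
  have hr : Rings ω e τ ((ω (e, k)).2 0).2 :=
    rings_iff.2 ⟨((e, k), 0), by simp [Act, h1], rfl⟩
  have hno : ∀ u, τ < u → u ≤ k + 1 → ∀ α, ¬ Rings ω e u α := by
    intro u hu1 hu2 α hα
    obtain ⟨⟨⟨e', k'⟩, i⟩, hA, hp⟩ := rings_iff.1 hα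
    obtain ⟨t3, t4⟩ := hω ((e', k'), i)
    obtain rfl : e' = e := congrArg Prod.fst hp
    have hu : (pt ω ((e', k'), i)).2.1 = u := by rw [hp]
    rw [hu] at t3 t4
    simp only at t1 t2 t3 t4
    have k1 : k' < k + 1 := by exact_mod_cast t3.trans_le hu2
    have k2 : k < k' + 1 := by exact_mod_cast (t1.trans hu1).trans t4
    obtain rfl : k' = k := by omega
    have : i = 0 := by
      simp only [Act, h1] at hA
      omega
    subst this
    exact hu1.ne hu
  have haτ : a < τ := ha.trans_lt t1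
  obtain ⟨u, hu1, hu2, hu3⟩ := exists_gap' hR Λ haτ
  rw [run_semigroup hR haτ.le t2.le, run_of_no_ring hR fun _ => hno, run_semigroup hR hu1 hu2.le,
    run_single hu2 hu3]
  exact (step_lt_iff hq hs1 ⟨he, _, hr⟩).2 ⟨_, hr, Or.inr h2⟩

lemma coalesce (hq : 1 ≤ q) {s : ℝ} (hs0 : 0 < s) (hs1 : s ≤ 1) (Λ : Finset (Edge d)) :
    ∀ᵐ ω ∂clockLaw d, ∀ᶠ T : ℕ in atTop, ∀ v v' : Conf d,
      (∀ e ∉ Λ, (v e : ℝ) < s ↔ (v' e : ℝ) < s) →
      lev (run q Λ (Rings ω) (-T) 0 v) s = lev (run q Λ (Rings ω) (-T) 0 v') s := by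
  filter_upwards [ae_distinct (d := d), ae_sweep Λ (gq_pos hq hs0 hs1)] with ω hω ⟨k, hk, hsw⟩
  have hR := lf_rings ω
  filter_upwards [eventually_start_lt 0 (k : ℝ)] with T hT v v' hvv
  have h1 : (-T : ℝ) ≤ k := by linarith
  have h2 : (k : ℝ) + 1 ≤ 0 := by exact_mod_cast hk
  have h3 : lev (run q Λ (Rings ω) (-T) (k + 1) v) s =
      lev (run q Λ (Rings ω) (-T) (k + 1) v') s := by
    ext e
    simp only [mem_lev]
    by_cases he : e ∈ Λ
    · exact iff_of_true (open_after hq hs1 hω.2 he (hsw e he).1 (hsw e he).2 h1 v)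
        (open_after hq hs1 hω.2 he (hsw e he).1 (hsw e he).2 h1 v')
    · rw [run_of_no_ring hR fun h => absurd h he, run_of_no_ring hR fun h => absurd h he]
      exact hvv e he
  rw [run_semigroup hR (h1.trans (by linarith)) h2 v, run_semigroup hR (h1.trans (by linarith)) h2 v']
  exact Set.Subset.antisymm
    (run_lev_mono hq hs1 hs1 hR hR (fun τ _ _ => DomAt.refl q _ s τ) h3.le)
    (run_lev_mono hq hs1 hs1 hR hR (fun τ _ _ => DomAt.refl q _ s τ) h3.ge)

lemma ident (hq : 1 ≤ q) {s : ℝ} (hs0 : 0 < s) (hs1 : s ≤ 1) (n : ℕ) {β : Set (Edge d)}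
    (hβ : ∀ e ∈ boxEdges d n, e ∉ β) {v : Conf d}
    (hv : ∀ e ∉ boxEdges d n, (v e : ℝ) < s ↔ e ∈ β) (f : Finset (Edge d) → ℝ) :
    Tendsto (fun T : ℕ => ∫ ω, f (Lb n s (run q (boxEdges d n) (Rings ω) (-T) 0 v))
      ∂clockLaw d) atTop (𝓝 (fkE q s n β f)) := by
  have h1 : ∀ η ∈ (boxEdges d n).powerset, Tendsto (fun T : ℕ =>
      ∫ ω, f (Lb n s (run q (boxEdges d n) (Rings ω) (-T) 0 v)) ∂clockLaw d -
      ∫ ω, f (Lb n s (run q (boxEdges d n) (Rings ω) (-T) 0 (cfg β η))) ∂clockLaw d) atTop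
      (𝓝 0) := by
    intro η hη
    have := tendsto_integral_of_dominated_convergence (μ := clockLaw d) (f := fun _ => (0 : ℝ))
      (F := fun (T : ℕ) ω => f (Lb n s (run q (boxEdges d n) (Rings ω) (-T) 0 v)) -
        f (Lb n s (run q (boxEdges d n) (Rings ω) (-T) 0 (cfg β η))))
      (fun _ => 2 * ∑ η ∈ (boxEdges d n).powerset, ‖f η‖)
      (fun T => ((measurable_Lb n s f (measurable_run_rings hq _ _ _ _)).sub
        (measurable_Lb n s f (measurable_run_rings hq _ _ _ _))).aestronglyMeasurable)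
      (integrable_const _) (fun T => Eventually.of_forall fun ω => (norm_sub_le _ _).trans (by
        rw [two_mul]; exact add_le_add (norm_Lb_le n s f _) (norm_Lb_le n s f _))) ?_
    · rw [integral_zero] at this
      refine this.congr fun T => integral_sub ?_ ?_ <;>
        exact integrable_Lb n s f (measurable_run_rings hq _ _ _ _)
    · filter_upwards [coalesce hq hs0 hs1 (boxEdges d n)] with ω hω
      refine tendsto_const_nhds.congr' ?_
      filter_upwards [hω] with T hT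
      have h2 := hT v (cfg β η) fun e he => by
        rw [hv e he, ← mem_lev, lev_cfg hs0 hs1]
        exact ⟨Or.inr, fun h => h.resolve_left fun h => he (Finset.mem_powerset.1 hη h)⟩
      have h3 : Lb n s (run q (boxEdges d n) (Rings ω) (-T) 0 v) =
          Lb n s (run q (boxEdges d n) (Rings ω) (-T) 0 (cfg β η)) :=
        Finset.filter_congr fun e _ => by rw [← mem_lev, h2, mem_lev]
      rw [h3, sub_self]
  have h2 := (tendsto_finsetSum _ fun η hη => (h1 η hη).const_mul (fkW q s n β η)).div_const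
    (fkZ q s n β)
  simp only [mul_zero, Finset.sum_const_zero, zero_div] at h2
  rw [← tendsto_sub_nhds_zero_iff]
  refine h2.congr fun T => ?_
  have h3 := run_inv_fk hq hs0 hs1 n hβ f (-T) T
  rw [neg_add_cancel] at h3
  rw [← h3]
  simp only [mul_sub, Finset.sum_sub_distrib, sub_div]
  congr 1
  exact fkE_const hq hs0 hs1 n β _

end Id

theorem fk_ident_one (hq : 1 ≤ q) {s : ℝ} (hs0 : 0 < s) (hs1 : s ≤ 1) (n : ℕ)
    (f : Finset (Edge d) → ℝ) :
    Tendsto (fun T : ℕ => ∫ ω, f (Lb n s (run q (boxEdges d n) (Rings ω) (-T) 0 fun _ => 1))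
      ∂clockLaw d) atTop (𝓝 (fkE q s n ∅ f)) :=
  Id.ident hq hs0 hs1 n (fun _ _ => Set.notMem_empty _)
    (fun _ _ => iff_of_false (not_lt.2 hs1) (Set.notMem_empty _)) f

theorem fk_ident_zero (hq : 1 ≤ q) {s : ℝ} (hs0 : 0 < s) (hs1 : s ≤ 1) (n : ℕ)
    (f : Finset (Edge d) → ℝ) :
    Tendsto (fun T : ℕ => ∫ ω, f (Lb n s (run q (boxEdges d n) (Rings ω) (-T) 0 fun _ => 0))
      ∂clockLaw d) atTop (𝓝 (fkE q s n (boxEdges d n : Set (Edge d))ᶜ f)) :=
  Id.ident (β := (boxEdges d n : Set (Edge d))ᶜ) hq hs0 hs1 n (fun _ he h => h he)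
    (fun _ he => iff_of_true hs0 he) f

end Pool.Agent.P.MP_d95e10_pr
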