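import Pool.Agent.P.MP_d95e10_pr.Zeta

/-!
Static combinatorics: the first cluster reaching the boundary of a finite set, and the
exceptional vertices.
-/

namespace Pool.Agent.P.MP_d95e10_pr

open Filter unitInterval
open scoped Classical

variable {d : ℕ}

/-- Edges with both endpoints in `B`. -/
def inE (B : Finset (Vtx d)) : Set (Edge d) := {e | e.1 ∈ B ∧ tip e ∈ B}

/-- Boundary vertices of `B`. -/
def OnB (B : Finset (Vtx d)) (w : Vtx d) : Prop := w ∈ B ∧ ∃ e, Touches e w ∧ e ∉ inE B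

/-- `y` is joined to the boundary of `B` inside `B` at level `s`. -/
def Hit (v : Conf d) (B : Finset (Vtx d)) (y : Vtx d) (s : I) : Prop :=
  ∃ w, OnB B w ∧ Conn (lle v s ∩ inE B) y w

/-- The cluster of `y` inside `B` at the first level where it reaches the boundary. -/
def KB (v : Conf d) (B : Finset (Vtx d)) (y : Vtx d) : Set (Vtx d) :=
  {z | ∀ s, Hit v B y s → Conn (lle v s ∩ inE B) y z}

/-- Exceptional vertices: all sets `KB` miss the infinite clusters of level `p`. -/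
def Exc (v : Conf d) (p : ℝ) (y : Vtx d) : Prop :=
  ∀ B : Finset (Vtx d), y ∈ B → ∀ z ∈ KB v B y, ¬ InfAt (lev v p) z

/-- The edges at a vertex. -/
noncomputable def nbrE (z : Vtx d) : Finset (Edge d) :=
  Finset.univ.image (fun i => (z, i)) ∪ Finset.univ.image (fun i => (z - Pi.single i 1, i))

lemma mem_nbrE {z : Vtx d} {e : Edge d} : e ∈ nbrE z ↔ Touches e z := by
  obtain ⟨a, i⟩ := e
  simp only [nbrE, Finset.mem_union, Finset.mem_image, Finset.mem_univ, true_and, Prod.mk.injEq,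
    Touches, tip]
  constructor
  · rintro (⟨j, rfl, rfl⟩ | ⟨j, rfl, rfl⟩) <;> simp
  · rintro (rfl | rfl)
    · exact Or.inl ⟨i, rfl, rfl⟩
    · exact Or.inr ⟨i, by simp, rfl⟩

lemma card_nbrE (z : Vtx d) : (nbrE z).card ≤ 2 * d := by
  refine (Finset.card_union_le _ _).trans ?_
  have h1 := Finset.card_image_le (s := (Finset.univ : Finset (Fin d))) (f := fun i => (z, i))
  have h2 := Finset.card_image_le (s := (Finset.univ : Finset (Fin d)))
    (f := fun i => (z - Pi.single i 1, i))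
  simp only [Finset.card_univ, Fintype.card_fin] at h1 h2
  omega

lemma mem_inE_of_joins {B : Finset (Vtx d)} {e : Edge d} {a b : Vtx d} (h : Joins e a b) :
    e ∈ inE B ↔ a ∈ B ∧ b ∈ B := by
  rcases h with ⟨rfl, rfl⟩ | ⟨rfl, rfl⟩
  · rfl
  · exact and_comm

lemma inE_mono {B B' : Finset (Vtx d)} (h : B ⊆ B') : inE B ⊆ inE B' :=
  fun _ he => ⟨h he.1, h he.2⟩

lemma finite_inE (B : Finset (Vtx d)) : (inE B).Finite :=
  (B ×ˢ (Finset.univ : Finset (Fin d))).finite_toSet.subset fun e he => by simpa using he.1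

lemma conn_univ (a b : Vtx d) : Conn (Set.univ : Set (Edge d)) a b := by
  have h1 : ∀ (i : Fin d) (k : ℤ) (a : Vtx d), Conn Set.univ a (a + Pi.single i k) := by
    intro i k a
    induction k using Int.induction_on with
    | zero => simp
    | succ k ih =>
      refine ih.trans (Conn.of_joins (e := (a + Pi.single i (k : ℤ), i)) (Set.mem_univ _)
        (Or.inl ⟨rfl, ?_⟩))
      simp [tip, Pi.single_add, add_assoc]
    | pred k ih =>
      refine ih.trans (Conn.of_joins (e := (a + Pi.single i (-(k : ℤ) - 1), i)) (Set.mem_univ _)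
        (Or.inr ⟨rfl, ?_⟩))
      simp only [tip, add_assoc, ← Pi.single_add]
      simp
  have h2 : ∀ S : Finset (Fin d), Conn Set.univ a (a + ∑ i ∈ S, Pi.single i (b i - a i)) := by
    intro S
    induction S using Finset.induction_on with
    | empty => simp
    | insert i S hi ih =>
      rw [Finset.sum_insert hi, add_comm (Pi.single i _), ← add_assoc]
      exact ih.trans (h1 _ _ _)
  have := h2 Finset.univ
  rw [Finset.univ_sum_single (fun i => b i - a i)] at this
  convert this using 1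
  ext i; simp

lemma infinite_vtx (hd : 1 ≤ d) : Infinite (Vtx d) :=
  haveI : Nonempty (Fin d) := ⟨⟨0, hd⟩⟩
  inferInstance

lemma exit_or {ω : Set (Edge d)} {B : Finset (Vtx d)} {y c : Vtx d} (hy : y ∈ B)
    (h : Conn ω y c) : (∃ w, OnB B w ∧ Conn (ω ∩ inE B) y w) ∨ (c ∈ B ∧ Conn (ω ∩ inE B) y c) := by
  refine Conn.induction (P := fun c => (∃ w, OnB B w ∧ Conn (ω ∩ inE B) y w) ∨
    (c ∈ B ∧ Conn (ω ∩ inE B) y c)) (Or.inr ⟨hy, SimpleGraph.Reachable.refl _⟩) ?_ h
  rintro c c' e he hj - (ih | ⟨h1, h2⟩)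
  · exact Or.inl ih
  · by_cases hc : c' ∈ B
    · exact Or.inr ⟨hc, h2.trans (Conn.of_joins
        (show e ∈ ω ∩ inE B from ⟨he, (mem_inE_of_joins hj).2 ⟨h1, hc⟩⟩) hj)⟩
    · exact Or.inl ⟨c, ⟨h1, e, hj.touches_left, fun h => hc ((mem_inE_of_joins hj).1 h).2⟩, h2⟩

lemma mem_of_conn_inE {ω : Set (Edge d)} {B : Finset (Vtx d)} {y c : Vtx d} (hy : y ∈ B)
    (h : Conn (ω ∩ inE B) y c) : c ∈ B :=
  Conn.induction (P := fun c => c ∈ B) hy
    (fun _ _ _ he hj _ _ => ((mem_inE_of_joins hj).1 he.2).2) h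

lemma conn_inE_of_subset {ω : Set (Edge d)} {B : Finset (Vtx d)} {y c : Vtx d}
    (hB : cluster ω y ⊆ B) (h : Conn ω y c) : Conn (ω ∩ inE B) y c := by
  refine Conn.induction (P := fun c => Conn (ω ∩ inE B) y c) (SimpleGraph.Reachable.refl _) ?_ h
  intro c c' e he hj hc ih
  exact ih.trans (Conn.of_joins (show e ∈ ω ∩ inE B from ⟨he, (mem_inE_of_joins hj).2
    ⟨hB hc, hB (hc.trans (Conn.of_joins he hj))⟩⟩) hj)

lemma cluster_subset_local {ω ω' : Set (Edge d)} {y : Vtx d}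
    (h : ∀ e ∈ ω', ∀ c ∈ cluster ω y, Touches e c → e ∈ ω) : cluster ω' y ⊆ cluster ω y := by
  intro c hc
  exact Conn.induction (P := fun c => c ∈ cluster ω y) (SimpleGraph.Reachable.refl _)
    (fun c c' e he hj _ ih => ih.trans (Conn.of_joins (h e he c ih hj.touches_left) hj)) hc

lemma cluster_subset_local' {ω ω' : Set (Edge d)} {y : Vtx d}
    (h : ∀ e ∈ ω, ∀ c ∈ cluster ω y, Touches e c → e ∈ ω') : cluster ω y ⊆ cluster ω' y := by
  intro c hc
  exact Conn.induction (P := fun c => c ∈ cluster ω' y) (SimpleGraph.Reachable.refl _)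
    (fun c c' e he hj hc ih => ih.trans (Conn.of_joins (h e he c hc hj.touches_left) hj)) hc

lemma conn_sdiff_of_not {ω : Set (Edge d)} {f : Edge d} {y a c : Vtx d} (hf : Touches f a)
    (ha : ¬ Conn ω y a) (h : Conn ω y c) : Conn (ω \ {f}) y c := by
  refine Conn.induction (P := fun c => Conn (ω \ {f}) y c) (SimpleGraph.Reachable.refl _) ?_ h
  intro c c' e he hj hc ih
  refine ih.trans (Conn.of_joins (Set.mem_sdiff_singleton.2 ⟨he, ?_⟩) hj)
  rintro rfl
  rcases hj.eq_of_touches hf with rfl | rfl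
  · exact ha hc
  · exact ha (hc.trans (Conn.of_joins he hj))

lemma exists_level (v : Conf d) (γ : Finset (Edge d)) :
    ∃ s : I, (γ : Set (Edge d)) ⊆ lle v s ∧ (s = 0 ∨ ∃ g ∈ γ, v g = s) := by
  rcases γ.eq_empty_or_nonempty with rfl | h
  · exact ⟨0, by simp, Or.inl rfl⟩
  · obtain ⟨g, hg, hmax⟩ := γ.exists_max_image v h
    exact ⟨v g, hmax, Or.inr ⟨g, hg, rfl⟩⟩

variable {v v' : Conf d} {B B' : Finset (Vtx d)} {y : Vtx d} {p : ℝ}

lemma Hit.mono {s t : I} (h : Hit v B y s) (hst : s ≤ t) : Hit v B y t :=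
  h.imp fun _ hw => ⟨hw.1, hw.2.mono (Set.inter_subset_inter_left _ (lle_mono v hst))⟩

lemma hit_one (hd : 1 ≤ d) (hy : y ∈ B) : Hit v B y 1 := by
  have := infinite_vtx hd
  obtain ⟨c, hc⟩ := Infinite.exists_notMem_finset B
  have : lle v 1 = Set.univ := Set.eq_univ_of_forall fun e => le_one'
  rw [Hit, this]
  exact (exit_or hy (conn_univ y c)).resolve_right fun h => hc h.1

lemma exists_min_hit (hd : 1 ≤ d) (v : Conf d) (hy : y ∈ B) :
    ∃ m₀, Hit v B y m₀ ∧ ∀ s, Hit v B y s → m₀ ≤ s := by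
  have key : ∀ s, Hit v B y s → ∃ s' ≤ s, s' ∈ insert 0 (v '' inE B) ∩ {s | Hit v B y s} := by
    rintro s ⟨w, hw, hc⟩
    obtain ⟨γ, hγ, hc⟩ := hc.exists_finset
    obtain ⟨s', h1, h2⟩ := exists_level v γ
    refine ⟨s', ?_, ?_, w, hw, hc.mono fun e he => Set.mem_inter (h1 he) (hγ he).2⟩
    · rcases h2 with rfl | ⟨g, hg, rfl⟩
      · exact nonneg'
      · exact (hγ hg).1
    · rcases h2 with rfl | ⟨g, hg, rfl⟩
      · exact Set.mem_insert _ _
      · exact Set.mem_insert_of_mem _ ⟨g, (hγ hg).2, rfl⟩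
  have hf : (insert 0 (v '' inE B) ∩ {s | Hit v B y s}).Finite :=
    (((finite_inE B).image v).insert 0).inter_of_left _
  obtain ⟨s₀, -, hs₀⟩ := key 1 (hit_one hd hy)
  obtain ⟨m₀, hm₀, hmin⟩ := Set.exists_min_image _ id hf ⟨s₀, hs₀⟩
  refine ⟨m₀, hm₀.2, fun s hs => ?_⟩
  obtain ⟨s', h1, h2⟩ := key s hs
  exact (hmin s' h2).trans h1

lemma KB_eq {m₀ : I} (h1 : Hit v B y m₀) (h2 : ∀ s, Hit v B y s → m₀ ≤ s) :
    KB v B y = cluster (lle v m₀ ∩ inE B) y := by
  ext z
  exact ⟨fun h => h m₀ h1, fun h s hs =>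
    Conn.mono (Set.inter_subset_inter_left _ (lle_mono v (h2 s hs))) h⟩

lemma self_mem_KB : y ∈ KB v B y := fun _ _ => SimpleGraph.Reachable.refl _

lemma KB_subset (hd : 1 ≤ d) (hy : y ∈ B) : KB v B y ⊆ B := fun _ hz =>
  mem_of_conn_inE hy (hz 1 (hit_one hd hy))

lemma KB_local (hd : 1 ≤ d) (hy : y ∈ B)
    (h : ∀ e, ∀ c ∈ KB v B y, Touches e c → v' e = v e) : KB v' B y = KB v B y := by
  obtain ⟨m₀, h1, h2⟩ := exists_min_hit hd v hy
  rw [KB_eq h1 h2] at h ⊢
  have key : ∀ s ≤ m₀, cluster (lle v' s ∩ inE B) y = cluster (lle v s ∩ inE B) y := by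
    intro s hs
    have hsub := cluster_mono (Set.inter_subset_inter_left (inE B) (lle_mono v hs)) y
    refine Set.Subset.antisymm (cluster_subset_local fun e he c hc ht => ⟨?_, he.2⟩)
      (cluster_subset_local' fun e he c hc ht => ⟨?_, he.2⟩)
    · rw [mem_lle, ← h e c (hsub hc) ht]; exact he.1
    · rw [mem_lle, h e c (hsub hc) ht]; exact he.1
  rw [← key m₀ le_rfl]
  refine KB_eq ?_ fun s hs => ?_
  · obtain ⟨w, hw, hc⟩ := h1
    exact ⟨w, hw, show w ∈ cluster _ y from key m₀ le_rfl ▸ hc⟩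
  · by_contra hc
    obtain ⟨w, hw, hc'⟩ := hs
    exact hc (h2 s ⟨w, hw, show w ∈ cluster _ y from key s (not_le.1 hc).le ▸ hc'⟩)

/-- Changing the value of one edge leaving `KB` keeps its inner endpoint in `KB`. -/
lemma mem_KB_of_change (hd : 1 ≤ d) (hy : y ∈ B) {f : Edge d} {a x : Vtx d} (hf : Joins f a x)
    (ha : a ∈ KB v B y) (hx : x ∉ KB v B y)
    (h : ∀ e ≠ f, ∀ c ∈ KB v B y, Touches e c → v' e = v e) : a ∈ KB v' B y := by
  set w : Conf d := Function.update v' f (v f) with hw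
  have hK : KB w B y = KB v B y := KB_local hd hy fun e c hc ht => by
    by_cases he : e = f
    · subst he; simp [hw]
    · rw [hw, Function.update_of_ne he, h e he c hc ht]
  have hwv : ∀ s, (lle w s ∩ inE B) \ {f} = (lle v' s ∩ inE B) \ {f} := by
    intro s
    ext e
    by_cases he : e = f
    · simp [he]
    · simp [he, mem_lle, hw]
  obtain ⟨m₀, h1, h2⟩ := exists_min_hit hd w hy
  rw [← hK, KB_eq h1 h2] at ha hx
  intro s hs
  by_contra hc
  obtain ⟨c, hc1, hc2⟩ := hs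
  have h3 := conn_sdiff_of_not hf.touches_left hc hc2
  rw [← hwv] at h3
  have h4 := h2 s ⟨c, hc1, h3.mono Set.sdiff_subset⟩
  have h5 := conn_sdiff_of_not hf.touches_right hx ha
  rw [hwv] at h5
  exact hc (h5.mono (Set.sdiff_subset.trans (Set.inter_subset_inter_left _ (lle_mono _ h4))))

lemma Hit.of_subset {s : I} (hB : B ⊆ B') (hy : y ∈ B) (h : Hit v B' y s) : Hit v B y s := by
  obtain ⟨w, hw, hc⟩ := h
  have hsub : lle v s ∩ inE B' ∩ inE B ⊆ lle v s ∩ inE B := fun e he => ⟨he.1.1, he.2⟩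
  rcases exit_or hy hc with ⟨c, h1, h2⟩ | ⟨h1, h2⟩
  · exact ⟨c, h1, h2.mono hsub⟩
  · obtain ⟨e, he1, he2⟩ := hw.2
    exact ⟨w, ⟨h1, e, he1, fun h => he2 (inE_mono hB h)⟩, h2.mono hsub⟩

lemma KB_subset_KB {B'' : Finset (Vtx d)} {w : Vtx d} (hy : y ∈ B) (hB : B ⊆ B'')
    (hw : w ∈ KB v B y) (hwB : w ∈ B') (hB' : B' ⊆ B'') : KB v B' w ⊆ KB v B'' y := by
  intro z hz s hs
  have h1 : Conn (lle v s ∩ inE B'') y w :=
    (hw s (hs.of_subset hB hy)).mono (Set.inter_subset_inter_right _ (inE_mono hB))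
  have h2 : Hit v B'' w s := hs.imp fun c hc => ⟨hc.1, h1.symm.trans hc.2⟩
  exact h1.trans ((hz s (h2.of_subset hB' hwB)).mono
    (Set.inter_subset_inter_right _ (inE_mono hB')))

lemma Exc.of_mem_KB (h : Exc v p y) (hy : y ∈ B) {w : Vtx d} (hw : w ∈ KB v B y) : Exc v p w :=
  fun B' hwB z hz => h (B ∪ B') (Finset.mem_union_left _ hy) z
    (KB_subset_KB hy Finset.subset_union_left hw hwB Finset.subset_union_right hz)

lemma Exc.not_infAt (h : Exc v p y) : ¬ InfAt (lev v p) y :=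
  h {y} (Finset.mem_singleton_self y) y self_mem_KB

lemma Exc.of_conn (h : Exc v p y) {z : Vtx d} (hz : Conn (lev v p) y z) : Exc v p z := by
  have hf : (cluster (lev v p) y).Finite := Set.not_infinite.1 h.not_infAt
  set Q := hf.toFinset with hQ
  set B := Q ∪ ((Q.biUnion nbrE).image Prod.fst ∪ (Q.biUnion nbrE).image tip) with hB
  have hQB : cluster (lev v p) y ⊆ B := fun c hc =>
    Finset.mem_union_left _ (hf.mem_toFinset.2 hc)
  refine h.of_mem_KB (B := B) (hQB (SimpleGraph.Reachable.refl _)) fun s hs => ?_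
  rcases lt_or_ge (s : ℝ) p with h1 | h1
  · obtain ⟨w, ⟨-, e, he1, he2⟩, hc⟩ := hs
    have hw : w ∈ Q := hf.mem_toFinset.2 (hc.mono fun g hg =>
      lt_of_le_of_lt (show (v g : ℝ) ≤ s from hg.1) h1)
    have he : e ∈ Q.biUnion nbrE := Finset.mem_biUnion.2 ⟨w, hw, mem_nbrE.2 he1⟩
    exact absurd ⟨Finset.mem_union_right _ (Finset.mem_union_left _ (Finset.mem_image_of_mem _ he)),
      Finset.mem_union_right _ (Finset.mem_union_right _ (Finset.mem_image_of_mem _ he))⟩ he2
  · refine (conn_inE_of_subset hQB hz).mono (Set.inter_subset_inter_left _ fun g hg => ?_)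
    exact (lt_of_lt_of_le hg h1).le

/-- An infinite cluster of any level missing the infinite clusters of level `p` consists of
exceptional vertices. -/
lemma exc_of_lower {L : Set I} (hL : IsLowerSet L) (h0 : 0 ∈ L) (h1 : InfAt {e | v e ∈ L} y)
    (h2 : ∀ z, Conn {e | v e ∈ L} y z → ¬ InfAt (lev v p) z) : Exc v p y := by
  intro B hy z hz
  obtain ⟨c, hc1, hc2⟩ := infAt_iff.1 h1 B
  obtain ⟨w, hw, hc⟩ := (exit_or hy hc2).resolve_right fun h => hc1 h.1
  obtain ⟨γ, hγ, hc⟩ := hc.exists_finset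
  obtain ⟨s, hs1, hs2⟩ := exists_level v γ
  have hs : s ∈ L := by
    rcases hs2 with rfl | ⟨g, hg, rfl⟩
    · exact h0
    · exact (hγ hg).1
  exact h2 z ((hz s ⟨w, hw, hc.mono fun e he => Set.mem_inter (hs1 he) (hγ he).2⟩).mono
    fun e he => hL he.1 hs)

/-- The data needed to add a ring without influence. -/
lemma exists_cut (hd : 1 ≤ d) (hp : 0 < p) {z x : Vtx d} (h1 : ¬ Exc v p z)
    (h2 : ¬ InfAt (lev v p) z) (hx : InfAt (lev v p) x)
    (hu : ∀ a b, InfAt (lev v p) a → InfAt (lev v p) b → Conn (lev v p) a b) :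
    ∃ (S : Finset (Vtx d)) (γ : Finset (Edge d)), z ∈ S ∧ x ∉ S ∧ Conn (γ : Set (Edge d)) z x ∧
      (∀ g, Bdry g S → ∀ g' ∈ γ, v g' ≤ v g) ∧ ∃ g' ∈ γ, p ≤ v g' := by
  simp only [Exc, not_forall, not_not] at h1
  obtain ⟨B, hz, c, hc, hci⟩ := h1
  obtain ⟨m₀, hm₀1, hm₀2⟩ := exists_min_hit hd v hz
  have h3 : Conn (lle v m₀) z c := (hc m₀ hm₀1).mono Set.inter_subset_left
  have hpm₀ : p ≤ m₀ := by
    by_contra hlt
    exact h2 (hci.of_conn (h3.mono fun g hg =>
      lt_of_le_of_lt (show (v g : ℝ) ≤ m₀ from hg) (not_le.1 hlt)).symm)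
  have h4 : Conn (lle v m₀) z x :=
    h3.trans ((hu c x hci hx).mono fun g hg => (lt_of_lt_of_le hg hpm₀).le)
  obtain ⟨γ, hγ, h5⟩ := h4.exists_finset
  have hS : cluster (lev v m₀) z ⊆ B := by
    intro c' hc'
    rcases exit_or hz hc' with ⟨w, hw, h6⟩ | h6
    · obtain ⟨γ', hγ', h6⟩ := h6.exists_finset
      obtain ⟨s, hs1, hs2⟩ := exists_level v γ'
      have h7 : (m₀ : ℝ) ≤ s := hm₀2 s ⟨w, hw, h6.mono fun e he => Set.mem_inter (hs1 he) (hγ' he).2⟩
      rcases hs2 with rfl | ⟨g, hg, rfl⟩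
      · exact absurd (hpm₀.trans h7) (by simpa using hp)
      · exact absurd (hγ' hg).1 (not_lt.2 h7)
    · exact h6.1
  have hf : (cluster (lev v m₀) z).Finite := B.finite_toSet.subset hS
  refine ⟨hf.toFinset, γ, hf.mem_toFinset.2 (SimpleGraph.Reachable.refl _), fun h => ?_, h5, ?_, ?_⟩
  · exact (hx.mono (lev_mono v hpm₀)).of_conn (hf.mem_toFinset.1 h).symm hf
  · rintro g ⟨a, b, hj, ha, hb⟩ g' hg'
    simp only [Set.Finite.coe_toFinset] at ha hb
    refine (hγ hg').trans ?_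
    by_contra hlt
    exact hb (ha.trans (Conn.of_joins (show g ∈ lev v m₀ from not_le.1 hlt) hj))
  · by_contra hn
    push Not at hn
    exact h2 (hx.of_conn (h5.mono fun g hg => hn g hg).symm)

lemma Exc.of_change (hd : 1 ≤ d) (h : Exc v p y) {f : Edge d} {z x : Vtx d} (hf : Joins f z x)
    (hz : ¬ Exc v p z) (hx : InfAt (lev v p) x) (hv : ∀ e ≠ f, v' e = v e) : Exc v' p y := by
  intro B hy c hc
  rw [KB_local hd hy fun e c hc ht => hv e ?_] at hc
  · have hc' := h.of_mem_KB hy hc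
    refine fun hi => hc'.not_infAt (Set.Infinite.mono (cluster_subset_local fun e he a ha ht => ?_) hi)
    rw [mem_lev, ← hv e]
    · exact he
    · rintro rfl
      rcases hf.eq_of_touches ht with rfl | rfl
      · exact hz (hc'.of_conn ha)
      · exact hc'.not_infAt (hx.of_conn ha.symm)
  · rintro rfl
    rcases hf.eq_of_touches ht with rfl | rfl
    · exact hz (h.of_mem_KB hy hc)
    · exact h B hy _ hc hx

lemma KB_laminar (hd : 1 ≤ d) {y' : Vtx d} (hy : y ∈ B) (hy' : y' ∈ B) :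
    KB v B y ⊆ KB v B y' ∨ KB v B y' ⊆ KB v B y ∨ Disjoint (KB v B y) (KB v B y') := by
  obtain ⟨m₀, h1, h2⟩ := exists_min_hit hd v hy
  obtain ⟨m₀', h1', h2'⟩ := exists_min_hit hd v hy'
  rw [KB_eq h1 h2, KB_eq h1' h2']
  by_cases h : Disjoint (cluster (lle v m₀ ∩ inE B) y) (cluster (lle v m₀' ∩ inE B) y')
  · exact Or.inr (Or.inr h)
  obtain ⟨c, hc, hc'⟩ := Set.not_disjoint_iff.1 h
  rw [cluster_eq_of_conn hc, cluster_eq_of_conn hc']
  rcases le_total m₀ m₀' with h | h
  · exact Or.inl (cluster_mono (Set.inter_subset_inter_left _ (lle_mono v h)) c)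
  · exact Or.inr (Or.inl (cluster_mono (Set.inter_subset_inter_left _ (lle_mono v h)) c))

/-- The set `KB` as a finite set. -/
noncomputable def KF (v : Conf d) (B : Finset (Vtx d)) (y : Vtx d) : Finset (Vtx d) :=
  B.filter (· ∈ KB v B y)

lemma mem_KF (hd : 1 ≤ d) (hy : y ∈ B) {z : Vtx d} : z ∈ KF v B y ↔ z ∈ KB v B y := by
  rw [KF, Finset.mem_filter]
  exact ⟨fun h => h.2, fun h => ⟨KB_subset hd hy h, h⟩⟩

lemma le_card_KF (hd : 1 ≤ d) {R : ℕ} (hR : ∀ c ∈ box d R, y + c ∈ B) : R ≤ (KF v B y).card := by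
  have hy : y ∈ B := by simpa using hR 0 (mem_box.2 (by simp))
  obtain ⟨m₀, h1, h2⟩ := exists_min_hit hd v hy
  set N : Vtx d → ℕ := fun c => Finset.univ.sup fun i => (c i - y i).natAbs with hN
  have hNle : ∀ {c : Vtx d} {r : ℕ}, N c ≤ r ↔ ∀ i, |c i - y i| ≤ r := by
    intro c r
    simp only [hN, Finset.sup_le_iff, Finset.mem_univ, forall_const]
    refine forall_congr' fun i => ?_
    rw [← Int.natCast_natAbs]; exact Int.ofNat_le.symm
  have hstep : ∀ {e : Edge d} {a b : Vtx d}, Joins e a b → N b ≤ N a + 1 := by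
    intro e a b hj
    refine hNle.2 fun i => ?_
    have h3 := hNle.1 (le_refl (N a)) i
    have h4 : |b i - a i| ≤ 1 := by
      rcases hj with ⟨rfl, rfl⟩ | ⟨rfl, rfl⟩ <;> by_cases hi : i = e.2 <;>
        simp [tip, hi]
    have := abs_sub_le (b i) (a i) (y i)
    push_cast
    linarith
  obtain ⟨w, ⟨-, e, he1, he2⟩, hc⟩ := id h1
  have h3 := Conn.induction (P := fun c => ∀ r ≤ N c, ∃ c', Conn (lle v m₀ ∩ inE B) y c' ∧ N c' = r)
    (fun r hr => ⟨y, SimpleGraph.Reachable.refl _, by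
      have : N y ≤ 0 := hNle.2 (by simp)
      omega⟩)
    (fun a b g hg hj ha ih r hr => by
      rcases le_or_gt r (N a) with h | h
      · exact ih r h
      · exact ⟨b, ha.trans (Conn.of_joins hg hj), by have := hstep hj; omega⟩) hc
  have hw : R ≤ N w := by
    by_contra hlt
    obtain ⟨b, hj⟩ := he1.exists_joins
    have hB : ∀ c, N c ≤ R → c ∈ B := fun c hc => by
      simpa using hR (c - y) (mem_box.2 fun i => hNle.1 hc i)
    exact he2 ((mem_inE_of_joins hj).2 ⟨hB _ (by omega), hB _ (by have := hstep hj; omega)⟩)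
  refine le_trans ?_ (Finset.card_image_le (f := N))
  rw [← Finset.card_range R]
  refine Finset.card_le_card fun r hr => ?_
  obtain ⟨c, hc1, hc2⟩ := h3 r ((Finset.mem_range.1 hr).le.trans hw)
  exact Finset.mem_image.2 ⟨c, (mem_KF hd hy).2 (by rw [KB_eq h1 h2]; exact hc1), hc2⟩

/-! ### Translations -/

lemma lev_shift (v : Conf d) (z : Vtx d) (s : ℝ) : lev (v ∘ shiftE z) s = shiftS z (lev v s) := rfl

lemma mem_image_add {z c : Vtx d} : c + z ∈ B.image (· + z) ↔ c ∈ B :=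
  (add_left_injective z).mem_finset_image

lemma lle_inE_shift (v : Conf d) (z : Vtx d) (s : I) :
    lle (v ∘ shiftE z) s ∩ inE B = shiftS z (lle v s ∩ inE (B.image (· + z))) := by
  ext e
  simp only [shiftS, Set.mem_inter_iff, mem_lle, Function.comp, Set.mem_preimage, inE,
    Set.mem_ofPred_eq, tip_shiftE, mem_image_add]
  rw [show (shiftE z e).1 = e.1 + z from rfl, mem_image_add]

lemma onB_shift {z w : Vtx d} : OnB (B.image (· + z)) (w + z) ↔ OnB B w := by
  unfold OnB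
  rw [(shiftE_surjective z).exists]
  simp only [mem_image_add, touches_shiftE, inE, Set.mem_ofPred_eq, tip_shiftE]
  simp only [shiftE, mem_image_add]

lemma mem_KB_shift {z c : Vtx d} :
    c ∈ KB (v ∘ shiftE z) B y ↔ c + z ∈ KB v (B.image (· + z)) (y + z) := by
  have h : ∀ s, Hit (v ∘ shiftE z) B y s ↔ Hit v (B.image (· + z)) (y + z) s := by
    intro s
    unfold Hit
    rw [iff_comm, (add_right_surjective z).exists]
    simp only [lle_inE_shift, conn_shiftS, onB_shift]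
  simp only [KB, Set.mem_ofPred_eq, lle_inE_shift, conn_shiftS, h]

lemma KF_shift (z : Vtx d) :
    KF v (B.image (· + z)) (y + z) = (KF (v ∘ shiftE z) B y).image (· + z) := by
  ext c
  obtain ⟨c, rfl⟩ := add_right_surjective z c
  simp only [mem_image_add, KF, Finset.mem_filter, mem_KB_shift]

lemma exc_shift {z : Vtx d} : Exc (v ∘ shiftE z) p y ↔ Exc v p (y + z) := by
  constructor
  · intro h B hy c hc
    obtain ⟨c, rfl⟩ := add_right_surjective z c
    have hB : (B.image (· - z)).image (· + z) = B := by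
      rw [Finset.image_image]; simp [Function.comp_def]
    rw [← hB] at hy hc
    rw [← infAt_shiftS, ← lev_shift]
    exact h _ (mem_image_add.1 hy) c (mem_KB_shift.2 hc)
  · intro h B hy c hc
    rw [lev_shift, infAt_shiftS]
    exact h _ (mem_image_add.2 hy) _ (mem_KB_shift.1 hc)

/-! ### Measurability -/

@[fun_prop] lemma measurable_lev {Y : Type*} [MeasurableSpace Y] {f : Y → Conf d}
    (hf : Measurable f) (s : ℝ) : Measurable fun y => lev (f y) s :=
  measurable_set_iff.2 fun e => measurableSet_setOfPred.1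
    (measurableSet_lt (f := fun y => (f y e : ℝ)) (by fun_prop) measurable_const)

@[fun_prop] lemma measurable_lle {Y : Type*} [MeasurableSpace Y] {f : Y → Conf d}
    (hf : Measurable f) (s : I) : Measurable fun y => lle (f y) s :=
  measurable_set_iff.2 fun e => measurableSet_setOfPred.1
    (measurableSet_le (f := fun y => f y e) (by fun_prop) measurable_const)

lemma mem_KB_iff {z : Vtx d} : z ∈ KB v B y ↔ ∀ (γ : Finset (Edge d)) (w : Vtx d),
    (γ : Set (Edge d)) ⊆ inE B ∧ OnB B w ∧ Conn (γ : Set (Edge d)) y w →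
      Conn {e | e ∈ inE B ∧ (v e ≤ 0 ∨ ∃ g ∈ γ, v e ≤ v g)} y z := by
  constructor
  · rintro h γ w ⟨h1, h2, h3⟩
    obtain ⟨s, hs1, hs2⟩ := exists_level v γ
    refine (h s ⟨w, h2, h3.mono fun e he => Set.mem_inter (hs1 he) (h1 he)⟩).mono fun e he => ?_
    refine ⟨he.2, ?_⟩
    rcases hs2 with rfl | ⟨g, hg, rfl⟩
    · exact Or.inl he.1
    · exact Or.inr ⟨g, hg, he.1⟩
  · rintro h s ⟨w, hw, hc⟩
    obtain ⟨γ, hγ, hc⟩ := hc.exists_finset
    refine (h γ w ⟨fun e he => (hγ he).2, hw, hc⟩).mono fun e he => Set.mem_inter ?_ he.1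
    rcases he.2 with h | ⟨g, hg, h⟩
    · exact h.trans nonneg'
    · exact h.trans (hγ hg).1

@[fun_prop] lemma measurable_mem_KB {Y : Type*} [MeasurableSpace Y] {f : Y → Conf d}
    (hf : Measurable f) (B : Finset (Vtx d)) (y z : Vtx d) :
    Measurable fun a => z ∈ KB (f a) B y := by
  simp only [mem_KB_iff]
  refine .forall fun γ => .forall fun w => .imp measurable_const (measurable_conn ?_ _ _)
  refine measurable_set_iff.2 fun e => measurable_const.and (.or ?_ ?_)
  · exact measurableSet_setOfPred.1 (measurableSet_le (by fun_prop) measurable_const)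
  · exact .exists fun g => measurable_const.and
      (measurableSet_setOfPred.1 (measurableSet_le (by fun_prop) (by fun_prop)))

@[fun_prop] lemma measurable_exc {Y : Type*} [MeasurableSpace Y] {f : Y → Conf d}
    (hf : Measurable f) (p : ℝ) (y : Vtx d) : Measurable fun a => Exc (f a) p y := by
  unfold Exc
  exact .forall fun B => .imp measurable_const (.forall fun z =>
    .imp (measurable_mem_KB hf B y z) (measurable_infAt (measurable_lev hf p) z).not)

lemma measurableSet_KF_eq {Y : Type*} [MeasurableSpace Y] {f : Y → Conf d}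
    (hf : Measurable f) (B : Finset (Vtx d)) (y : Vtx d) (K : Finset (Vtx d)) :
    Measurable fun a => KF (f a) B y = K := by
  simp only [Finset.ext_iff, KF, Finset.mem_filter]
  exact .forall fun z => .iff (measurable_const.and (measurable_mem_KB hf B y z)) measurable_const

end Pool.Agent.P.MP_d95e10_pr
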