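import Pool.Agent.P.MP_d95e10_pr.Ident

/-!
Convergence in distribution of the infinite-volume processes to the stationary coupling.
-/

namespace Pool.Agent.P.MP_d95e10_pr

open MeasureTheory ProbabilityTheory Filter Topology unitInterval
open scoped Classical ENNReal

variable {d : ℕ} {q : ℝ}

namespace Lm

/-- The infinite-volume state at time `c` started at time `a` from the constant `b`. -/
noncomputable def Wl (q : ℝ) (b : I) (a c : ℝ) (ω : Om d) : Conf d :=
  fun e => limUnder atTop fun n => run q (boxEdges d n) (Rings ω) a c (fun _ => b) e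

lemma conv_of_lt (b : I) {a c : ℝ} (h : c < a) (ω : Om d) (e : Edge d) :
    ∃ x, Tendsto (fun n => run q (boxEdges d n) (Rings ω) a c (fun _ => b) e) atTop (𝓝 x) := by
  refine ⟨b, tendsto_const_nhds.congr fun n => ?_⟩
  rw [run_of_no_ring (lf_rings ω) fun _ τ h1 h2 => absurd (h1.trans_le h2) (lt_asymm h)]

lemma conv_one (hq : 1 ≤ q) (a c : ℝ) (ω : Om d) :
    Tendsto (fun n => run q (boxEdges d n) (Rings ω) a c (fun _ => 1)) atTop
      (𝓝 (Wl q 1 a c ω)) := by
  refine tendsto_pi_nhds.2 fun e => tendsto_nhds_limUnder ?_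
  rcases le_or_gt a c with h | h
  · exact ⟨_, tendsto_atTop_iInf fun m n hmn =>
      run_one_anti hq (boxEdges_mono hmn) (lf_rings ω) le_rfl h e⟩
  · exact conv_of_lt 1 h ω e

lemma conv_zero (hq : 1 ≤ q) (a c : ℝ) (ω : Om d) :
    Tendsto (fun n => run q (boxEdges d n) (Rings ω) a c (fun _ => 0)) atTop
      (𝓝 (Wl q 0 a c ω)) := by
  refine tendsto_pi_nhds.2 fun e => tendsto_nhds_limUnder ?_
  rcases le_or_gt a c with h | h
  · exact ⟨_, tendsto_atTop_iSup fun m n hmn =>
      run_zero_mono hq (boxEdges_mono hmn) (lf_rings ω) le_rfl h e⟩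
  · exact conv_of_lt 0 h ω e

lemma tendsto_gen (hq : 1 ≤ q) (b : I)
    (hconv : ∀ (a c : ℝ) (ω : Om d), Tendsto
      (fun n => run q (boxEdges d n) (Rings ω) a c (fun _ => b)) atTop (𝓝 (Wl q b a c ω)))
    (hae : ∀ᵐ ω ∂clockLaw d, Tendsto (fun t : ℝ => Wl q b (-t) 0 ω) atTop (𝓝 (zt q ω)))
    {μ : Measure (Conf d)} [IsProbabilityMeasure μ] (hμ : (clockLaw d).map (zt q) = μ) :
    TendstoInDistribution (Z q b) atTop id (fun _ => clockLaw d) μ := by
  have hm : ∀ a c : ℝ, Measurable (Wl q b a c : Om d → Conf d) := fun a c =>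
    measurable_of_tendsto_metrizable (fun n => measurable_run_rings hq _ a c _)
      (tendsto_pi_nhds.2 (hconv a c))
  have hlaw : ∀ t : ℝ, (clockLaw d).map (Z q b t) = (clockLaw d).map (Wl q b (-t) 0) := by
    intro t
    refine map_eq_of_tendsto (fun n => measurable_run_rings hq _ 0 t _)
      (fun n => measurable_run_rings hq _ (-t) 0 _) (fun n => ?_) (hconv 0 t) (hconv (-t) 0)
    simpa using map_run_eq hq (boxEdges d n) 0 (-t) t (fun _ => b)
  have h := (tendstoInDistribution_of_ae_tendsto (μ' := clockLaw d)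
    (fun t : ℝ => (hm (-t) 0).aemeasurable) (measurable_zt hq).aemeasurable hae).tendsto
  refine ⟨fun t => (hm 0 t).aemeasurable, aemeasurable_id, ?_⟩
  simp only [hlaw, Measure.map_id]
  simpa only [hμ] using h

lemma tendsto_Wl_one (hq : 1 ≤ q) (ω : Om d) :
    Tendsto (fun t : ℝ => Wl q 1 (-t) 0 ω) atTop (𝓝 (zt q ω)) := by
  refine tendsto_pi_nhds.2 fun e => tendsto_order.2 ⟨fun x hx => ?_, fun x hx => ?_⟩
  · filter_upwards [eventually_ge_atTop (0 : ℝ)] with t ht
    refine hx.trans_le (ge_of_tendsto' (tendsto_pi_nhds.1 (conv_one hq (-t) 0 ω) e) fun n => ?_)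
    exact zeta_le_run hq (lf_rings ω) _ (by linarith) e
  · obtain ⟨n, hn⟩ := iInf_lt_iff.1 hx
    filter_upwards [eventually_ge_atTop (n : ℝ)] with t ht
    refine lt_of_le_of_lt (le_of_tendsto (tendsto_pi_nhds.1 (conv_one hq (-t) 0 ω) e) ?_) hn
    filter_upwards [eventually_ge_atTop n] with m hm
    exact run_one_anti hq (boxEdges_mono hm) (lf_rings ω) (by linarith) (by simp) e

/-- The stationary configuration with the wired boundary condition. -/
noncomputable def zeta0 (q : ℝ) (R : Rel d) : Conf d :=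
  fun e => ⨆ n : ℕ, run q (boxEdges d n) R (-n) 0 (fun _ => 0) e

lemma run_le_zeta0 (hq : 1 ≤ q) {R : Rel d} (hR : LF R) (Λ : Finset (Edge d)) {a : ℝ}
    (ha : a ≤ 0) : run q Λ R a 0 (fun _ => 0) ≤ zeta0 q R := by
  obtain ⟨m, hm⟩ := exists_subset_boxEdges Λ
  obtain ⟨k, hk⟩ := exists_nat_ge (-a)
  have : (k : ℝ) ≤ (max m k : ℕ) := by exact_mod_cast le_max_right m k
  intro e
  refine le_trans (run_zero_mono hq (hm.trans (boxEdges_mono (le_max_left m k))) hR
    (a' := -(max m k : ℕ)) (by linarith) ha e) ?_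
  exact le_iSup (fun n : ℕ => run q (boxEdges d n) R (-n) 0 (fun _ => 0) e) (max m k)

lemma zeta0_shift (hq : 1 ≤ q) {R : Rel d} (hR : LF R) (z : Vtx d) :
    zeta0 q (fun e => R (shiftE z e)) = zeta0 q R ∘ shiftE z := by
  have key : ∀ {R : Rel d}, LF R → ∀ (z : Vtx d) (e : Edge d),
      zeta0 q (fun e => R (shiftE z e)) e ≤ zeta0 q R (shiftE z e) := by
    intro R hR z e
    refine iSup_le fun n => ?_
    have := congrFun (run_shift (q := q) (Λ := boxEdges d n) hR z (-n) 0 (fun _ => 0)) e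
    exact (le_of_eq this).trans
      (run_le_zeta0 hq hR ((boxEdges d n).image (shiftE z)) (a := -n) (by simp) _)
  funext e
  refine le_antisymm (key hR z e) ?_
  have := key (hR.shift z) (-z) (shiftE z e)
  simpa [shiftE_shiftE] using this

lemma zeta0_le (hq : 1 ≤ q) {R : Rel d} (hR : LF R) : zeta0 q R ≤ zeta q R 0 := by
  intro e
  refine iSup_le fun n => le_iInf fun m => ?_
  have h1 : (n : ℝ) ≤ (max n m : ℕ) := by exact_mod_cast le_max_left n m
  have h2 : (m : ℝ) ≤ (max n m : ℕ) := by exact_mod_cast le_max_right n m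
  refine (run_zero_mono hq (boxEdges_mono (le_max_left n m)) hR (a' := -(max n m : ℕ))
    (by linarith) (by simp) e).trans ((run_mono hq hR (v' := fun _ => 1)
      (fun _ => le_one') e).trans ?_)
  exact run_one_anti hq (boxEdges_mono (le_max_right n m)) hR (by linarith) (by simp) e

lemma measurable_zeta0 (hq : 1 ≤ q) : Measurable fun ω : Om d => zeta0 q (Rings ω) :=
  measurable_pi_lambda _ fun e => .iSup fun _ =>
    (measurable_pi_apply e).comp (measurable_run_rings hq _ _ _ _)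

lemma tendsto_Wl_zero (hq : 1 ≤ q) (ω : Om d) :
    Tendsto (fun t : ℝ => Wl q 0 (-t) 0 ω) atTop (𝓝 (zeta0 q (Rings ω))) := by
  refine tendsto_pi_nhds.2 fun e => tendsto_order.2 ⟨fun x hx => ?_, fun x hx => ?_⟩
  · obtain ⟨n, hn⟩ := lt_iSup_iff.1 hx
    filter_upwards [eventually_ge_atTop (n : ℝ)] with t ht
    refine lt_of_lt_of_le hn (ge_of_tendsto (tendsto_pi_nhds.1 (conv_zero hq (-t) 0 ω) e) ?_)
    filter_upwards [eventually_ge_atTop n] with m hm
    exact run_zero_mono hq (boxEdges_mono hm) (lf_rings ω) (by linarith) (by simp) e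
  · filter_upwards [eventually_ge_atTop (0 : ℝ)] with t ht
    refine lt_of_le_of_lt
      (le_of_tendsto' (tendsto_pi_nhds.1 (conv_zero hq (-t) 0 ω) e) fun n => ?_) hx
    exact run_le_zeta0 hq (lf_rings ω) _ (by linarith) e

/-- The probability that `e` is open at level `s`. -/
noncomputable def pr (v : Om d → Conf d) (e : Edge d) (s : ℝ) : ℝ :=
  (clockLaw d).real {ω | (v ω e : ℝ) < s}

lemma mset {v : Om d → Conf d} (hv : Measurable v) (e : Edge d) (s : ℝ) :
    MeasurableSet {ω | (v ω e : ℝ) < s} :=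
  measurableSet_lt (f := fun ω => (v ω e : ℝ)) (by fun_prop) measurable_const

lemma pr_anti {v v' : Om d → Conf d} (h : ∀ ω, v ω ≤ v' ω) (e : Edge d) (s : ℝ) :
    pr v' e s ≤ pr v e s :=
  measureReal_mono fun ω hω => lt_of_le_of_lt (show (v ω e : ℝ) ≤ v' ω e from h ω e) hω

lemma integral_card {v : Om d → Conf d} (hv : Measurable v) (n : ℕ) (s : ℝ) :
    ∫ ω, ((Lb n s (v ω)).card : ℝ) ∂clockLaw d = ∑ e ∈ boxEdges d n, pr v e s := by
  have : ∀ ω, ((Lb n s (v ω)).card : ℝ) = ∑ e ∈ boxEdges d n,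
      ({ω | (v ω e : ℝ) < s} : Set (Om d)).indicator (1 : Om d → ℝ) ω := by
    intro ω
    simp only [Lb, Finset.card_filter, Set.indicator_apply, Set.mem_ofPred_eq, Pi.one_apply]
    push_cast
    rfl
  simp only [this]
  rw [integral_finsetSum _ fun e _ => (integrable_const 1).indicator (mset hv e s)]
  exact Finset.sum_congr rfl fun e _ => integral_indicator_one (mset hv e s)

lemma pr_shift {v : Om d → Conf d} (hv : Measurable v)
    (hs : ∀ z ω, v (shiftO z ω) = v ω ∘ shiftE z) (e : Edge d) (s : ℝ) :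
    pr v e s = pr v (0, e.2) s := by
  have := (measurePreserving_shiftO e.1).measureReal_preimage
    (mset hv (0, e.2) s).nullMeasurableSet
  unfold pr
  rw [← this]
  congr 1
  ext ω
  simp [hs, shiftE]

lemma sum_prod {v : Om d → Conf d} (hv : Measurable v)
    (hs : ∀ z ω, v (shiftO z ω) = v ω ∘ shiftE z) (B : Finset (Vtx d)) (s : ℝ) :
    ∑ e ∈ B ×ˢ Finset.univ, pr v e s = B.card * ∑ i, pr v (0, i) s := by
  rw [Finset.sum_product, Finset.sum_congr rfl fun x _ =>
    Finset.sum_congr rfl fun i _ => pr_shift hv hs (x, i) s]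
  simp

lemma sum_pr_le (v : Om d → Conf d) (s : ℝ) : ∑ i, pr v (0, i) s ≤ d := by
  simpa using Finset.sum_le_card_nsmul Finset.univ (fun i => pr v (0, i) s) 1
    fun i _ => measureReal_le_one

lemma wired_le_free (hd : 1 ≤ d) (hq : 1 ≤ q) {s s' : ℝ} (hs0 : 0 < s) (hss : s < s')
    (hs1 : s' < 1) : ∑ i : Fin d, pr (fun ω => zeta0 q (Rings ω)) (0, i) s ≤
      ∑ i : Fin d, pr (zt q) (0, i) s' := by
  set A := ∑ i : Fin d, pr (fun ω => zeta0 q (Rings ω)) (0, i) s with hA
  set B := ∑ i : Fin d, pr (zt q) (0, i) s' with hB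
  refine le_of_forall_pos_le_add fun ε hε => ?_
  have hd0 : (0 : ℝ) < d + 1 := by positivity
  have hδ : 0 < ε / (d + 1) := div_pos hε hd0
  obtain ⟨m, h1, h2⟩ := ((boundary_small d hδ).and ((tendsto_add_atTop_nat 1).eventually
    (fk_wired_le_free hd hq hs0 hss hs1 hδ))).exists
  have h3 : ∑ e ∈ boxEdges d (m + 1), pr (fun ω => zeta0 q (Rings ω)) e s ≤
      fkE q s (m + 1) (boxEdges d (m + 1) : Set (Edge d))ᶜ fun η => (η.card : ℝ) := by
    refine ge_of_tendsto' (fk_ident_zero hq hs0 (hss.trans hs1).le (m + 1)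
      fun η => (η.card : ℝ)) fun T => ?_
    rw [integral_card (measurable_run_rings hq _ _ _ _)]
    exact Finset.sum_le_sum fun e _ =>
      pr_anti (fun ω => run_le_zeta0 hq (lf_rings ω) _ (by simp)) e s
  have h4 : (fkE q s' (m + 1) (∅ : Set (Edge d)) fun η => (η.card : ℝ)) ≤
      ∑ e ∈ boxEdges d (m + 1), pr (zt q) e s' := by
    refine le_of_tendsto' (fk_ident_one hq (hs0.trans hss) hs1.le (m + 1)
      fun η => (η.card : ℝ)) fun T => ?_
    rw [integral_card (measurable_run_rings hq _ _ _ _)]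
    exact Finset.sum_le_sum fun e _ =>
      pr_anti (fun ω => zeta_le_run hq (lf_rings ω) _ (by simp)) e s'
  have h5 : ((box d m).card : ℝ) * A ≤
      ∑ e ∈ boxEdges d (m + 1), pr (fun ω => zeta0 q (Rings ω)) e s := by
    rw [hA, ← sum_prod (measurable_zeta0 hq) fun z ω => zeta0_shift hq (lf_rings ω) z]
    refine Finset.sum_le_sum_of_subset_of_nonneg (fun e he => ?_) fun _ _ _ => measureReal_nonneg
    exact mem_boxEdges_of_touches (Finset.mem_product.1 he).1 (Or.inl rfl)
  have h6 : ∑ e ∈ boxEdges d (m + 1), pr (zt q) e s' ≤ ((box d (m + 1)).card : ℝ) * B := by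
    rw [hB, ← sum_prod (measurable_zt hq) (zt_shift hq)]
    exact Finset.sum_le_sum_of_subset_of_nonneg (Finset.filter_subset _ _)
      fun _ _ _ => measureReal_nonneg
  have h7 : ((box d (m + 1) \ box d m).card : ℝ) + (box d m).card = (box d (m + 1)).card := by
    exact_mod_cast Finset.card_sdiff_add_card_eq_card (box_mono (Nat.le_succ m))
  have h8 : ((box d (m + 1)).card : ℝ) = (2 * ((m + 1 : ℕ) : ℝ) + 1) ^ d := by
    rw [card_box]; push_cast; ring
  rw [← h8] at h1 h2
  have h9 : (0 : ℝ) < (box d (m + 1)).card := by rw [h8]; positivity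
  have hA1 : A ≤ d := sum_pr_le _ _
  have hA0 : 0 ≤ A := Finset.sum_nonneg fun _ _ => measureReal_nonneg
  set N : ℝ := ((box d (m + 1)).card : ℝ)
  set D : ℝ := ((box d (m + 1) \ box d m).card : ℝ)
  set δ := ε / (d + 1) with hδe
  have hε' : ε = δ * (d + 1) := (div_mul_cancel₀ ε hd0.ne').symm
  have h10 : D * A ≤ δ * N * d := mul_le_mul h1 hA1 hA0 (mul_pos hδ h9).le
  refine le_of_mul_le_mul_left ?_ h9
  rw [hε']
  nlinarith

lemma ae_zeta0_eq (hd : 1 ≤ d) (hq : 1 ≤ q) :
    ∀ᵐ ω ∂clockLaw d, zeta0 q (Rings ω) = zt q ω := by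
  set v : Om d → Conf d := fun ω => zeta0 q (Rings ω) with hv
  have hvm : Measurable v := measurable_zeta0 hq
  have hle : ∀ ω, v ω ≤ zt q ω := fun ω => zeta0_le hq (lf_rings ω)
  have key : ∀ (e : Edge d) (r r' : ℚ), 0 < r → r < r' → r' < 1 →
      clockLaw d {ω | (v ω e : ℝ) < r ∧ (r' : ℝ) ≤ zt q ω e} = 0 := by
    intro e r r' h0 h1 h2
    have h0' : (0 : ℝ) < r := by exact_mod_cast h0
    have h1' : (r : ℝ) < r' := by exact_mod_cast h1
    have h2' : (r' : ℝ) < 1 := by exact_mod_cast h2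
    rw [← measureReal_eq_zero_iff]
    set c := (clockLaw d).real {ω | (v ω e : ℝ) < r ∧ (r' : ℝ) ≤ zt q ω e} with hc
    have hgap : ∀ s : ℝ, r ≤ s → s ≤ r' →
        ∑ i : Fin d, pr (zt q) (0, i) s + c ≤ ∑ i : Fin d, pr v (0, i) s := by
      intro s hs hs'
      have h3 : pr (zt q) e s + c ≤ pr v e s := by
        rw [add_comm, hc, pr, ← measureReal_union _ (mset (measurable_zt hq) e s)]
        · refine measureReal_mono ?_
          rintro ω (h | h)
          · exact lt_of_lt_of_le h.1 hs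
          · exact lt_of_le_of_lt (show (v ω e : ℝ) ≤ zt q ω e from hle ω e) h
        · exact Set.disjoint_left.2 fun ω h h' => absurd (hs'.trans h.2) (not_le.2 h')
      rw [pr_shift hvm (fun z ω => zeta0_shift hq (lf_rings ω) z),
        pr_shift (measurable_zt hq) (zt_shift hq)] at h3
      have h4 := Finset.single_le_sum (f := fun i => pr v (0, i) s - pr (zt q) (0, i) s)
        (fun i _ => sub_nonneg.2 (pr_anti hle _ s)) (Finset.mem_univ e.2)
      rw [Finset.sum_sub_distrib] at h4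
      linarith
    have hit : ∀ (N : ℕ) (s : ℝ), r < s → s ≤ r' → N * c ≤ ∑ i : Fin d, pr (zt q) (0, i) s := by
      intro N
      induction N with
      | zero =>
        intro s _ _
        rw [Nat.cast_zero, zero_mul]
        exact Finset.sum_nonneg fun _ _ => measureReal_nonneg
      | succ N ih =>
        intro s hs hs'
        have h3 := ih ((r + s) / 2) (by linarith) (by linarith)
        have h4 := hgap ((r + s) / 2) (by linarith) (by linarith)
        have h5 := wired_le_free hd hq (s := (r + s) / 2) (s' := s) (by linarith) (by linarith)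
          (by linarith)
        push_cast
        linarith
    refine le_antisymm (not_lt.1 fun hpos => ?_) measureReal_nonneg
    obtain ⟨N, hN⟩ := exists_nat_gt (d / c)
    rw [div_lt_iff₀ hpos] at hN
    linarith [hit N r' h1' le_rfl, sum_pr_le (zt q : Om d → Conf d) r']
  have : ∀ᵐ ω ∂clockLaw d, ∀ (e : Edge d) (r r' : ℚ), 0 < r → r < r' → r' < 1 →
      ¬ ((v ω e : ℝ) < r ∧ (r' : ℝ) ≤ zt q ω e) := by
    refine ae_all_iff.2 fun e => ae_all_iff.2 fun r => ae_all_iff.2 fun r' => ?_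
    by_cases h : 0 < r ∧ r < r' ∧ r' < 1
    · filter_upwards [measure_eq_zero_iff_ae_notMem.1 (key e r r' h.1 h.2.1 h.2.2)] with ω hω
      exact fun _ _ _ => hω
    · exact .of_forall fun ω h0 h1 h2 => absurd ⟨h0, h1, h2⟩ h
  filter_upwards [this] with ω hω
  funext e
  refine le_antisymm (hle ω e) (not_lt.1 fun hlt => ?_)
  have hlt' : (v ω e : ℝ) < zt q ω e := hlt
  obtain ⟨r, h1, h2⟩ := exists_rat_btwn hlt'
  obtain ⟨r', h3, h4⟩ := exists_rat_btwn h2
  have h5 : (0 : ℝ) < r := lt_of_le_of_lt (v ω e).2.1 h1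
  have h6 : (r' : ℝ) < 1 := lt_of_lt_of_le h4 (zt q ω e).2.2
  exact hω e r r' (by exact_mod_cast h5) (by exact_mod_cast h3) (by exact_mod_cast h6) ⟨h1, h4.le⟩

end Lm

theorem tendsto_Z_one (hq : 1 ≤ q) {μ : Measure (Conf d)} [IsProbabilityMeasure μ]
    (hμ : (clockLaw d).map (zt q) = μ) :
    TendstoInDistribution (Z q 1) atTop id (fun _ => clockLaw d) μ :=
  Lm.tendsto_gen hq 1 (Lm.conv_one hq) (.of_forall (Lm.tendsto_Wl_one hq)) hμ

theorem tendsto_Z_zero (hd : 1 ≤ d) (hq : 1 ≤ q) {μ : Measure (Conf d)} [IsProbabilityMeasure μ]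
    (hμ : (clockLaw d).map (zt q) = μ) :
    TendstoInDistribution (Z q 0) atTop id (fun _ => clockLaw d) μ := by
  refine Lm.tendsto_gen hq 0 (Lm.conv_zero hq) ?_ hμ
  filter_upwards [Lm.ae_zeta0_eq hd hq] with ω hω
  exact hω ▸ Lm.tendsto_Wl_zero hq ω

end Pool.Agent.P.MP_d95e10_pr
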