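import Pool.Agent.P.MP_d95e10_pr.Shared2

/-!
Almost surely a point of an infinite cluster has finitely many pivotal rings.
-/

namespace Pool.Agent.P.MP_d95e10_pr

open MeasureTheory ProbabilityTheory Filter Topology unitInterval
open scoped Classical ENNReal

variable {d : ℕ} {q : ℝ}

lemma act_setMark {ω : Om d} {j j' : Idx d} {α : I} : Act (setMark ω j α) j' ↔ Act ω j' := by
  unfold Act setMark setPt
  by_cases h : j'.1 = j.1
  · rw [h]; simp
  · simp [h]

lemma pt_setMark_self (ω : Om d) (j : Idx d) (α : I) :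
    pt (setMark ω j α) j = ((pt ω j).1, (pt ω j).2.1, α) := by
  simp [pt, setMark, setPt]

lemma pt_setMark_ne {j j' : Idx d} (h : j ≠ j') (ω : Om d) (α : I) :
    pt (setMark ω j α) j' = pt ω j' := poi_pt_setPt h ω _

lemma setMark_setMark (ω : Om d) (j : Idx d) (α β : I) :
    setMark (setMark ω j α) j β = setMark ω j β := by
  simp [setMark, setPt]

lemma setMark_shiftO (z : Vtx d) (ω : Om d) (j : Idx d) (α : I) :
    setMark (shiftO z ω) j α = shiftO z (setMark ω ((shiftE z j.1.1, j.1.2), j.2) α) := by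
  funext c
  by_cases h : c = j.1
  · subst h
    simp [setMark, setPt, shiftO]
  · have : (shiftE z c.1, c.2) ≠ (shiftE z j.1.1, j.1.2) := fun h' => h (poi_shift_inj z h')
    simp [setMark, setPt, shiftO, Function.update_of_ne h, Function.update_of_ne this]

@[fun_prop] theorem measurable_rob (hq : 1 ≤ q) (p : ℝ) (M : ℕ) (x : Vtx d) :
    Measurable fun ω : Om d => Rob q p M ω x :=
  (measurable_infAt (measurable_lev (measurable_zt hq) p) x).and (.forall fun _ =>
    .imp (.forall fun j => measurable_const.imp (measurable_infAt (measurable_lev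
      ((measurable_zt hq).comp ((measurable_setMark j).comp measurable_prodMk_right)) p) x).not)
      measurable_const)

@[fun_prop] theorem measurable_gd (hq : 1 ≤ q) (p : ℝ) (M : ℕ) (y : Vtx d) :
    Measurable fun ω : Om d => Gd q p M ω y :=
  .exists fun _ => .exists fun x => measurable_const.and (measurable_rob hq p M x)

theorem rob_shift (hq : 1 ≤ q) {p : ℝ} {M : ℕ} {ω : Om d} {x z : Vtx d} :
    Rob q p M (shiftO z ω) x ↔ Rob q p M ω (x + z) := by
  have hinj : ∀ z : Vtx d, Function.Injective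
      fun j : Idx d => (((shiftE z j.1.1, j.1.2), j.2) : Idx d) := fun z j j' h =>
    Prod.ext (poi_shift_inj z (Prod.mk.inj h).1) (Prod.mk.inj h).2
  simp only [Rob, setMark_shiftO, zt_shift hq, lev_shift, infAt_shiftS]
  refine and_congr_right fun _ => ⟨fun h J hJ => ?_, fun h J hJ => ?_⟩
  · rw [← Finset.card_image_of_injective J (hinj (-z))]
    refine h _ fun j hj => ?_
    obtain ⟨k, hk, rfl⟩ := Finset.mem_image.1 hj
    simpa [shiftE_shiftE] using hJ k hk
  · rw [← Finset.card_image_of_injective J (hinj z)]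
    refine h _ fun j hj => ?_
    obtain ⟨k, hk, rfl⟩ := Finset.mem_image.1 hj
    exact hJ k hk

theorem gd_shift (hq : 1 ≤ q) {p : ℝ} {M : ℕ} {ω : Om d} {y z : Vtx d} :
    Gd q p M (shiftO z ω) y ↔ Gd q p M ω (y + z) := by
  unfold Gd
  rw [iff_comm, (shiftE_surjective z).exists]
  refine exists_congr fun f => ?_
  rw [(add_right_surjective z).exists]
  simp only [joins_shiftE, rob_shift hq]

namespace Rb

lemma split (η : I) (h0 : 0 < (η : ℝ)) (h1 : (η : ℝ) < 1) {g : I → ℝ≥0∞} (hg : Measurable g) :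
    ENNReal.ofReal (1 - η) * (∫⁻ α, g (σ η * α)) + ENNReal.ofReal η * ∫⁻ α, g (σ (η * σ α)) =
      ∫⁻ α, g α := by
  have m1 : Measurable fun α : I => σ η * α := by fun_prop
  have m2 : Measurable fun α : I => σ (η * σ α) := by fun_prop
  have h2 : 0 < 1 - (η : ℝ) := by linarith
  have : (volume : Measure I) = ENNReal.ofReal (1 - η) • volume.map (fun α : I => σ η * α) +
      ENNReal.ofReal η • volume.map (fun α : I => σ (η * σ α)) := by
    refine Measure.ext_of_Iic _ _ fun x => ?_
    simp only [Measure.add_apply, Measure.smul_apply, smul_eq_mul,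
      Measure.map_apply m1 measurableSet_Iic, Measure.map_apply m2 measurableSet_Iic,
      unitInterval.volume_Iic]
    have hx0 := x.2.1
    have hx1 := x.2.2
    rcases lt_or_ge (x : ℝ) (1 - η) with h | h
    · have e1 : (fun α : I => σ η * α) ⁻¹' Set.Iic x =
          Set.Iic ⟨x / (1 - η), by positivity, (div_le_one h2).2 h.le⟩ := by
        ext α
        simp only [Set.mem_preimage, Set.mem_Iic, ← Subtype.coe_le_coe, Set.Icc.coe_mul,
          coe_symm_eq, le_div_iff₀ h2, mul_comm]
      have e2 : (fun α : I => σ (η * σ α)) ⁻¹' Set.Iic x = ∅ := by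
        ext α
        simp only [Set.mem_preimage, Set.mem_Iic, ← Subtype.coe_le_coe, Set.Icc.coe_mul,
          coe_symm_eq, Set.mem_empty_iff_false, iff_false, not_le]
        nlinarith [α.2.1]
      rw [e1, e2, unitInterval.volume_Iic, ← ENNReal.ofReal_mul h2.le, mul_div_cancel₀ _ h2.ne']
      simp
    · have e1 : (fun α : I => σ η * α) ⁻¹' Set.Iic x = Set.univ := by
        ext α
        simp only [Set.mem_preimage, Set.mem_Iic, ← Subtype.coe_le_coe, Set.Icc.coe_mul,
          coe_symm_eq, Set.mem_univ, iff_true]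
        nlinarith [α.2.2]
      have e2 : (fun α : I => σ (η * σ α)) ⁻¹' Set.Iic x =
          Set.Iic ⟨(x - (1 - η)) / η, div_nonneg (by linarith) h0.le,
            (div_le_one h0).2 (by linarith)⟩ := by
        ext α
        simp only [Set.mem_preimage, Set.mem_Iic, ← Subtype.coe_le_coe, Set.Icc.coe_mul,
          coe_symm_eq, le_div_iff₀ h0]
        constructor <;> intro h <;> linarith
      rw [e1, e2, unitInterval.volume_Iic, ← ENNReal.ofReal_mul h0.le, mul_div_cancel₀ _ h0.ne',
        measure_univ, mul_one, ← ENNReal.ofReal_add h2.le (by linarith)]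
      simp
  conv_rhs => rw [this]
  rw [lintegral_add_measure, lintegral_smul_measure, lintegral_smul_measure, lintegral_map hg m1,
    lintegral_map hg m2, smul_eq_mul, smul_eq_mul]

/-- Domination of marks. -/
def Dom (q s p : ℝ) (ω ω' : Om d) : Prop :=
  ∀ j, (Act ω' j ↔ Act ω j) ∧ (pt ω' j).2.1 = (pt ω j).2.1 ∧
    (((pt ω' j).2.2 : ℝ) < s → ((pt ω j).2.2 : ℝ) < p) ∧
    (((pt ω' j).2.2 : ℝ) < gq q s → ((pt ω j).2.2 : ℝ) < gq q p)

lemma Dom.lev (hq : 1 ≤ q) {s p : ℝ} (hs : s ≤ 1) (hp : p ≤ 1) {ω ω' : Om d}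
    (h : Dom q s p ω ω') : lev (zt q ω') s ⊆ lev (zt q ω) p := by
  refine zeta_lev_mono hq (lf_rings _) (lf_rings _) hs hp fun τ _ e => ⟨fun α h1 h2 => ?_,
    fun h1 α h2 => ?_⟩
  · obtain ⟨j, hj, h3⟩ := rings_iff.1 h1
    obtain ⟨h4, h5, h6, h7⟩ := h j
    simp only [h3] at h5 h6 h7
    exact ⟨(pt ω j).2.2, rings_iff.2 ⟨j, h4.1 hj, Prod.ext (Prod.mk.inj h3).1
      (Prod.ext h5.symm rfl)⟩, h6 h2, h7⟩
  · obtain ⟨j, hj, h3⟩ := rings_iff.1 h2
    obtain ⟨h4, h5, -⟩ := h j
    simp only [h3] at h5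
    exact absurd (rings_iff.2 ⟨j, h4.2 hj, Prod.ext (Prod.mk.inj h3).1
      (Prod.ext h5 rfl)⟩) (h1 (pt ω' j).2.2)

lemma Dom.set {s p : ℝ} {ω ω' : Om d} (h : Dom q s p ω ω') (j : Idx d) {α β : I}
    (h1 : (β : ℝ) < s → (α : ℝ) < p) (h2 : (β : ℝ) < gq q s → (α : ℝ) < gq q p) :
    Dom q s p (setMark ω j α) (setMark ω' j β) := by
  intro j'
  rw [act_setMark, act_setMark]
  by_cases hj : j = j'
  · subst hj
    simp only [pt_setMark_self]
    exact ⟨(h j).1, (h j).2.1, h1, h2⟩
  · simp only [pt_setMark_ne hj]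
    exact h j'

lemma setMark_self (ω : Om d) (j : Idx d) : setMark ω j (pt ω j).2.2 = ω := by
  simp [setMark, setPt, pt]

lemma thin (hq : 1 ≤ q) {s p : ℝ} (hs0 : 0 < s) (hp : p ≤ 1) (η : I) (h0 : 0 < (η : ℝ))
    (h1 : (η : ℝ) < 1) (h2 : s ≤ (1 - η) * p) (h3 : gq q s ≤ (1 - η) * gq q p) (x : Vtx d)
    (J : Finset (Idx d)) : ∃ H : Om d → ℝ≥0∞, Measurable H ∧
      ∫⁻ ω, H ω ∂clockLaw d = clockLaw d {ω | InfAt (lev (zt q ω) s) x} ∧
      ∀ ω ω', Dom q s p ω ω' → (∀ j ∈ J, (pt ω' j).2.2 = (pt ω j).2.2) →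
        H ω' ≤ if InfAt (lev (zt q ω) p) x then ENNReal.ofReal (1 - η) ^
          (J.filter fun j => ¬ InfAt (lev (zt q (setMark ω j 1)) p) x).card else 0 := by
  have h4 : s ≤ 1 - η := h2.trans (mul_le_of_le_one_right (by linarith) hp)
  have hs1 : s ≤ 1 := by linarith
  induction J using Finset.induction_on with
  | empty =>
    have m := measurableSet_setOfPred.2 (measurable_infAt (measurable_lev (measurable_zt hq) s) x)
    refine ⟨_, measurable_one.indicator m, lintegral_indicator_one m, fun ω ω' h _ => ?_⟩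
    by_cases h5 : InfAt (lev (zt q ω') s) x
    · simp [h5, h5.mono (h.lev hq hs1 hp)]
    · simp [h5]
  | insert j J hj ih =>
    obtain ⟨H, hH, hI, hb⟩ := ih
    have m0 : ∀ {φ : I → I}, Measurable φ → Measurable fun ω => H (setMark ω j (φ (pt ω j).2.2)) :=
      fun hφ => hH.comp ((measurable_setMark j).comp
        (measurable_id.prodMk (hφ.comp (measurable_pt j).snd.snd)))
    have m1 : Measurable fun α : I => σ η * α := by fun_prop
    have m2 : Measurable fun α : I => σ (η * σ α) := by fun_prop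
    have m3 := ((m0 m1).const_mul (ENNReal.ofReal (1 - η))).add
      ((m0 m2).const_mul (ENNReal.ofReal η))
    refine ⟨_, m3, ?_, fun ω ω' h hJ => ?_⟩
    · rw [lintegral_setMark j m3, ← hI, lintegral_setMark j hH]
      refine lintegral_congr fun ω => ?_
      have m4 : Measurable fun α => H (setMark ω j α) :=
        hH.comp ((measurable_setMark j).comp measurable_prodMk_left)
      simp only [Pi.add_apply, pt_setMark_self, setMark_setMark]
      have m5 : Measurable fun α => H (setMark ω j (σ η * α)) := m4.comp m1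
      have m6 : Measurable fun α => H (setMark ω j (σ (η * σ α))) := m4.comp m2
      rw [lintegral_add_left (m5.const_mul _), lintegral_const_mul _ m5, lintegral_const_mul _ m6]
      exact split η h0 h1 m4
    · have hJ' : ∀ α β, ∀ j' ∈ J, (pt (setMark ω' j β) j').2.2 = (pt (setMark ω j α) j').2.2 := by
        intro α β j' hj'
        have : j ≠ j' := fun h => hj (h ▸ hj')
        rw [pt_setMark_ne this, pt_setMark_ne this, hJ j' (Finset.mem_insert_of_mem hj')]
      simp only [Pi.add_apply]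
      rw [hJ j (Finset.mem_insert_self _ _)]
      set α := (pt ω j).2.2 with hα
      have hη : 0 < 1 - (η : ℝ) := by linarith
      have hup : s ≤ (σ (η * σ α) : I) := by
        simp only [Set.Icc.coe_mul, coe_symm_eq]
        nlinarith [α.2.1]
      have b1 := hb _ _ (h.set j (α := α) (β := σ η * α)
        (fun h => lt_of_mul_lt_mul_left (lt_of_lt_of_le h h2) hη.le)
        (fun h => lt_of_mul_lt_mul_left (lt_of_lt_of_le h h3) hη.le)) (hJ' _ _)
      have b2 := fun β => hb _ _ (h.set j (α := β) (β := σ (η * σ α))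
        (fun h => absurd h (not_lt.2 hup))
        (fun h => absurd h (not_lt.2 ((gq_le hq hs0 hs1).trans hup)))) (hJ' _ _)
      have b3 := b2 α
      rw [hα, setMark_self, ← hα] at b1 b3
      rw [Finset.filter_insert]
      by_cases hpiv : InfAt (lev (zt q (setMark ω j 1)) p) x
      · rw [if_neg (not_not.2 hpiv)]
        refine (add_le_add (mul_le_mul_right b1 _) (mul_le_mul_right b3 _)).trans_eq ?_
        rw [← add_mul, ← ENNReal.ofReal_add hη.le h0.le]
        simp
      · have b4 := b2 1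
        rw [if_neg hpiv] at b4
        rw [if_pos hpiv, Finset.card_insert_of_notMem fun h => hj (Finset.mem_filter.1 h).1,
          le_zero_iff.1 b4, mul_zero, add_zero, pow_succ']
        refine (mul_le_mul_right b1 _).trans_eq ?_
        split_ifs <;> simp

lemma theta_le (hq : 1 ≤ q) {s p : ℝ} (hs0 : 0 < s) (hsp : s < p) (hp : p ≤ 1) (x : Vtx d) :
    clockLaw d {ω | InfAt (lev (zt q ω) s) x} ≤ clockLaw d {ω | ∃ M, Rob q p M ω x} := by
  have hp0 := hs0.trans hsp
  have g0 := gq_pos hq hs0 (hsp.le.trans hp)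
  have g1 := gq_strictMono hq hsp hp
  have g2 := g0.trans g1
  obtain ⟨t, ht1, ht2⟩ := exists_between (show max (s / p) (gq q s / gq q p) < 1 from
    max_lt ((div_lt_one hp0).2 hsp) ((div_lt_one g2).2 g1))
  rw [max_lt_iff, div_lt_iff₀ hp0, div_lt_iff₀ g2] at ht1
  have ht0 : 0 < t := (mul_pos_iff_of_pos_right hp0).1 (hs0.trans ht1.1)
  set η : I := ⟨1 - t, by linarith, by linarith⟩
  have hη : 1 - (η : ℝ) = t := by simp [η]
  have key : ∀ M : ℕ, clockLaw d {ω | InfAt (lev (zt q ω) s) x} ≤
      clockLaw d {ω | ∃ M, Rob q p M ω x} + ENNReal.ofReal t ^ M := by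
    intro M
    set A : Finset (Idx d) → Set (Om d) := fun J => {ω | InfAt (lev (zt q ω) p) x ∧
      (J.filter fun j => ¬ InfAt (lev (zt q (setMark ω j 1)) p) x).card ≤ M} with hA
    have mA : ∀ J, MeasurableSet (A J) := fun J => by
      refine measurableSet_setOfPred.2 ((measurable_infAt (measurable_lev (measurable_zt hq) p)
        x).and (measurableSet_setOfPred.1 (measurableSet_le ?_ measurable_const)))
      simp only [Finset.card_filter]
      exact J.measurable_sum fun j _ => .ite (measurableSet_setOfPred.2 (measurable_infAt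
        (measurable_lev ((measurable_zt hq).comp ((measurable_setMark j).comp
          measurable_prodMk_right)) p) x).not) measurable_const measurable_const
    have hanti : Antitone A := fun J J' h ω hω =>
      ⟨hω.1, (Finset.card_le_card (Finset.filter_subset_filter _ h)).trans hω.2⟩
    calc _ ≤ ⨅ J, clockLaw d (A J) + ENNReal.ofReal t ^ M := le_iInf fun J => ?_
      _ = clockLaw d (⋂ J, A J) + ENNReal.ofReal t ^ M := by
        rw [hanti.measure_iInter (fun J => (mA J).nullMeasurableSet) ⟨∅, measure_ne_top _ _⟩,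
          ENNReal.iInf_add]
      _ ≤ _ := by
        gcongr
        intro ω hω
        rw [Set.mem_iInter] at hω
        exact ⟨M, (hω ∅).1, fun J hJ => Finset.filter_true_of_mem hJ ▸ (hω J).2⟩
    obtain ⟨H, -, hI, hb⟩ := thin hq hs0 hp η (by simpa [η] using ht2) (by simpa [η] using ht0)
      (hη ▸ ht1.1.le) (hη ▸ ht1.2.le) x J
    rw [← hI, ← lintegral_indicator_one (mA J)]
    calc _ ≤ ∫⁻ ω, (A J).indicator 1 ω + ENNReal.ofReal t ^ M ∂clockLaw d :=
        lintegral_mono fun ω => (hb ω ω (fun j => ⟨Iff.rfl, rfl, fun h => h.trans hsp,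
          fun h => h.trans g1⟩) fun _ _ => rfl).trans ?_
      _ = _ := by rw [lintegral_add_right _ measurable_const]; simp
    have h1 : ENNReal.ofReal t ≤ 1 := ENNReal.ofReal_le_one.2 ht2.le
    rw [hη]
    split_ifs with h
    · by_cases hω : ω ∈ A J
      · rw [Set.indicator_of_mem hω]
        exact (pow_le_one' h1 _).trans le_self_add
      · exact (pow_le_pow_right_of_le_one' h1 (not_le.1 fun h' => hω ⟨h, h'⟩).le).trans le_add_self
    · exact zero_le
  have := (tendsto_const_nhds (x := clockLaw d {ω | ∃ M, Rob q p M ω x})).add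
    (ENNReal.tendsto_pow_atTop_nhds_zero_of_lt_one (ENNReal.ofReal_lt_one.2 ht2))
  simpa using ge_of_tendsto' this key

end Rb

theorem ae_rob (hq : 1 ≤ q) {p : ℝ} (hp0 : 0 < p) (hp1 : p ≤ 1) (x : Vtx d)
    (hc : ContinuousAt (fun s => (clockLaw d).real {ω | InfAt (lev (zt q ω) s) x}) p) :
    ∀ᵐ ω ∂clockLaw d, InfAt (lev (zt q ω) p) x → ∃ M, Rob q p M ω x := by
  have h1 : (clockLaw d).real {ω | InfAt (lev (zt q ω) p) x} ≤
      (clockLaw d).real {ω | ∃ M, Rob q p M ω x} := by
    refine le_of_tendsto (hc.tendsto.mono_left (nhdsWithin_le_nhds (s := Set.Iio p))) ?_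
    filter_upwards [Ioo_mem_nhdsLT hp0] with s hs
    exact ENNReal.toReal_mono (measure_ne_top _ _) (Rb.theta_le hq hs.1 hs.2 hp1 x)
  have h2 := ae_eq_of_subset_of_measure_ge (μ := clockLaw d) (s := {ω | ∃ M, Rob q p M ω x})
    (t := {ω | InfAt (lev (zt q ω) p) x}) (fun ω ⟨M, h⟩ => h.1)
    ((ENNReal.toReal_le_toReal (measure_ne_top _ _) (measure_ne_top _ _)).1 h1)
    (measurableSet_setOfPred.2 (.exists fun M => measurable_rob hq p M x)).nullMeasurableSet
    (measure_ne_top _ _)
  filter_upwards [h2] with ω hω h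
  exact hω.mpr h

end Pool.Agent.P.MP_d95e10_pr
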