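import Pool.Agent.P.MP_d95e10_pr.Select
import Pool.Agent.P.MP_d95e10_pr.Robust

/-!
The counting argument: no exceptional vertex has a robust neighbour.
-/

namespace Pool.Agent.P.MP_d95e10_pr

open MeasureTheory ProbabilityTheory Filter Topology unitInterval
open scoped Classical ENNReal

variable {d : ℕ} {q p : ℝ} {M : ℕ}

/-- Candidate rings. -/
def Cand (q p : ℝ) (M : ℕ) (δ : ℝ) (ω : Om d) (r : Pt d) : Prop :=
  Exc (zt q ω) p 0 ∧ (r.2.2 : ℝ) < gq q p ∧ r.2.1 ∈ Set.Ioc (-δ) 0 ∧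
    ∃ B : Finset (Vtx d), 0 ∈ B ∧ ∃ y x, Joins r.1 y x ∧ y ∈ KB (zt q ω) B 0 ∧ Rob q p M ω x ∧
      Quiet ω (KB (zt q ω) B 0) r.2.1

lemma quiet_iff {ω : Om d} {K : Set (Vtx d)} {τ : ℝ} : Quiet ω K τ ↔ ∀ j, Act ω j →
    (∃ c, c ∈ K ∧ Touches j.1.1 c) → ¬ (τ ≤ (pt ω j).2.1 ∧ (pt ω j).2.1 ≤ 0) := by
  constructor
  · intro h j hj hc ht
    exact h _ hc _ ht.1 ht.2 _ (rings_iff.2 ⟨j, hj, rfl⟩)
  · intro h e hc u h1 h2 α hr
    obtain ⟨j, hj, hp⟩ := rings_iff.1 hr
    obtain rfl : j.1.1 = e := (Prod.mk.inj hp).1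
    exact h j hj hc (by rw [hp]; exact ⟨h1, h2⟩)

lemma measurable_cand (hq : 1 ≤ q) (δ : ℝ) :
    Measurable fun y : Om d × Pt d => Cand q p M δ y.1 y.2 := by
  have hz : Measurable fun y : Om d × Pt d => zt q y.1 := (measurable_zt hq).comp measurable_fst
  have ht : ∀ j, Measurable fun y : Om d × Pt d => (pt y.1 j).2.1 := fun j =>
    ((measurable_pt j).comp measurable_fst).snd.fst
  simp only [Cand, quiet_iff]
  refine (measurable_exc hz p 0).and (.and (measurableSet_setOfPred.1 (measurableSet_lt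
    measurable_snd.snd.snd.subtype_coe measurable_const)) (.and (measurableSet_setOfPred.1
      (measurable_snd.snd.fst measurableSet_Ioc)) (.exists fun B => measurable_const.and
        (.exists fun y => .exists fun x => .and ?_ ((measurable_mem_KB hz B 0 y).and
          (((measurable_rob hq p M x).comp measurable_fst).and (.forall fun j =>
            ((measurable_act j).comp measurable_fst).imp (.imp (.exists fun c =>
              (measurable_mem_KB hz B 0 c).and measurable_const) (.not (.and ?_ ?_))))))))))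
  · exact (measurable_of_countable fun e : Edge d => Joins e y x).comp measurable_snd.fst
  · exact measurableSet_setOfPred.1 (measurableSet_le measurable_snd.snd.fst (ht j))
  · exact measurableSet_setOfPred.1 (measurableSet_le (ht j) measurable_const)

/-- A younger candidate is pivotal for the robust point of an older one. -/
lemma cand_pivotal (hd : 1 ≤ d) (hq : 1 ≤ q) (hp1 : p ≤ 1) {ω : Om d} {j₁ j' : Idx d}
    (h1 : Act ω j₁) (h2 : Act ω (TS.skip j₁ j')) {B : Finset (Vtx d)} {y x : Vtx d} (h0 : 0 ∈ B)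
    (hE₁ : Exc (zt q (rem ω j₁)) p 0) (hE₂ : Exc (zt q (rem ω (TS.skip j₁ j'))) p 0)
    (hα : ((pt ω j₁).2.2 : ℝ) < gq q p) (hτ : (pt ω j₁).2.1 ≤ 0) (hf : Joins (pt ω j₁).1 y x)
    (hy : y ∈ KB (zt q (rem ω j₁)) B 0) (hx : InfAt (lev (zt q (rem ω j₁)) p) x)
    (hQ : Quiet (rem ω j₁) (KB (zt q (rem ω j₁)) B 0) (pt ω j₁).2.1)
    (ht : (pt ω j₁).2.1 ≤ (pt ω (TS.skip j₁ j')).2.1) :
    ¬ InfAt (lev (zt q (setMark (rem ω j₁) j' 1)) p) x := by
  set j₂ := TS.skip j₁ j' with hj₂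
  have hne : j₁ ≠ j₂ := ((TS.range_skip j₁ j₂).1 ⟨j', rfl⟩).symm
  have hsub : ∀ e u β, Rings (rem ω j₂) e u β → Rings (rem ω j₁) e u β ∨ pt ω j₁ = (e, u, β) :=
    fun e u β h => (rings_rem h1 e u β).1 ((rings_rem h2 e u β).2 (Or.inl h))
  have hr₁ : Rings (rem ω j₂) (pt ω j₁).1 (pt ω j₁).2.1 (pt ω j₁).2.2 :=
    (rings_rem' h2 _ _ _).2 ⟨j₁, hne, h1, rfl⟩
  have hy₂ : y ∈ KB (zt q (rem ω j₂)) B 0 := by
    refine mem_KB_of_change hd h0 hf hy (fun h => hE₁ B h0 x h hx) fun e he c hc hec => ?_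
    refine zeta_causal (lf_rings _) (lf_rings _) hτ (fun g u hu β => ?_) (fun u h3 h4 β h => ?_)
      (hQ e ⟨c, hc, hec⟩)
    · have e1 : pt ω j₁ ≠ (g, u, β) := fun h => hu.ne' (by rw [h])
      have e2 : pt ω j₂ ≠ (g, u, β) := fun h => (hu.trans_le ht).ne' (by rw [h])
      have := (rings_rem h1 g u β).symm.trans (rings_rem h2 g u β)
      simpa only [e1, e2, or_false] using this.symm
    · rcases hsub e u β h with h | h
      · exact hQ e ⟨c, hc, hec⟩ u h3 h4 β h
      · exact he (by rw [h])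
  have hopen : (zt q (rem ω j₂) (pt ω j₁).1 : ℝ) < p := by
    refine zeta_small hq (lf_rings _) hp1 hτ hr₁ hα fun u h3 h4 β h => ?_
    rcases hsub _ u β h with h | h
    · exact hQ _ ⟨y, hy, hf.touches_left⟩ u h3.le h4 β h
    · exact h3.ne (by rw [h])
  refine fun hinf => hE₂ B h0 y hy₂ ((hinf.mono ?_).of_conn (Conn.of_joins hopen hf.symm))
  refine zeta_lev_mono hq (lf_rings _) (lf_rings _) hp1 hp1 fun τ _ e =>
    ⟨fun β h3 h4 => ⟨β, ?_, h4, id⟩, fun h3 β h4 => ⟨β, h4, ?_⟩⟩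
  · obtain ⟨k, hk, hp⟩ := rings_iff.1 h3
    have hkj : j' ≠ k := by
      rintro rfl
      rw [pt_setMark_self] at hp
      obtain rfl : 1 = β := (Prod.mk.inj (Prod.mk.inj hp).2).2
      exact absurd h4 (not_lt.2 hp1)
    rw [pt_setMark_ne hkj, TS.pt_rem] at hp
    rw [act_setMark, TS.act_rem h1] at hk
    exact (rings_rem' h2 _ _ _).2 ⟨_, fun h => hkj (TS.skip_inj j₁ h).symm, hk, hp⟩
  · obtain ⟨k, hk1, hk2, hp⟩ := (rings_rem' h2 _ _ _).1 h4
    by_cases hk : k = j₁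
    · rw [hk] at hp
      rwa [hp] at hα
    · obtain ⟨k', rfl⟩ := (TS.range_skip j₁ k).2 hk
      refine absurd (rings_iff.2 ⟨k', act_setMark.2 ((TS.act_rem h1 k').2 hk2), ?_⟩) (h3 β)
      rw [pt_setMark_ne fun h => hk1 (by rw [← h]), TS.pt_rem, hp]

lemma card_cand_le (hd : 1 ≤ d) (hq : 1 ≤ q) (hp1 : p ≤ 1) {δ : ℝ} {ω : Om d} {J : Finset (Idx d)}
    (hJ : ∀ j ∈ J, Act ω j ∧ Cand q p M δ (rem ω j) (pt ω j)) : J.card ≤ M + 1 := by
  rcases J.eq_empty_or_nonempty with rfl | hne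
  · simp
  obtain ⟨j₁, hj₁, hmin⟩ := J.exists_min_image (fun j => (pt ω j).2.1) hne
  obtain ⟨h1, hE, hα, hτ, B, h0, y, x, hf, hy, hx, hQ⟩ := hJ j₁ hj₁
  obtain ⟨J', -, hJ'⟩ := (Finset.subset_set_image_iff (s := Set.univ) (t := J.erase j₁)
    (f := TS.skip j₁)).1 fun j hj => by
      obtain ⟨k, hk⟩ := (TS.range_skip j₁ j).2 (Finset.ne_of_mem_erase hj)
      exact ⟨k, Set.mem_univ _, hk⟩
  have h2 := hx.2 J' fun j' hj' => by
    have h3 : TS.skip j₁ j' ∈ J := Finset.mem_of_mem_erase (hJ' ▸ Finset.mem_image_of_mem _ hj')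
    exact cand_pivotal hd hq hp1 h1 (hJ _ h3).1 h0 hE (hJ _ h3).2.1 hα hτ.2 hf hy hx.1 hQ
      (hmin _ h3)
  have h3 := Finset.card_image_le (s := J') (f := TS.skip j₁)
  rw [hJ', Finset.card_erase_of_mem hj₁] at h3
  omega

lemma tendsto_cand (hd : 1 ≤ d) (hq : 1 ≤ q) (hp1 : p ≤ 1) :
    Tendsto (fun n : ℕ => ∫⁻ ω, ∑' j : Idx d, (if Act ω j then
      (if Cand q p M (1 / (n + 1)) (rem ω j) (pt ω j) then 1 else 0) else 0) ∂clockLaw d)
      atTop (𝓝 0) := by
  conv in 𝓝 0 => rw [← lintegral_zero (μ := clockLaw d)]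
  have hm : ∀ δ j, Measurable fun ω : Om d => Cand q p M δ (rem ω j) (pt ω j) := fun δ j => by
    have := (measurable_cand (p := p) (M := M) hq δ).comp
      ((measurable_rem j).prodMk (measurable_pt j))
    simpa only [Function.comp_def] using this
  refine tendsto_lintegral_of_dominated_convergence (fun _ => ((M + 1 : ℕ) : ℝ≥0∞))
    (fun n => .tsum fun j => .ite (measurableSet_setOfPred.2 (measurable_act j))
      (.ite (measurableSet_setOfPred.2 (hm _ j)) measurable_const measurable_const)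
      measurable_const) (fun n => .of_forall fun ω => ?_) (by simp) ?_
  · refine ENNReal.summable.tsum_le_of_sum_le fun J => ?_
    simp only [← ite_and, Finset.sum_boole]
    exact_mod_cast card_cand_le hd hq hp1 fun j hj => (Finset.mem_filter.1 hj).2
  · filter_upwards [ae_no_ring_zero] with ω hω
    have hfin : {j | Act ω j ∧ Cand q p M 1 (rem ω j) (pt ω j)}.Finite := by
      by_contra h
      obtain ⟨J, hJ, hc⟩ := Set.Infinite.exists_subset_card_eq h (M + 2)
      have := card_cand_le hd hq hp1 fun j hj => hJ hj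
      omega
    have h1 : ∀ᶠ n : ℕ in atTop, ∀ j ∈ {j | Act ω j ∧ Cand q p M 1 (rem ω j) (pt ω j)},
        1 / ((n : ℝ) + 1) < -(pt ω j).2.1 := by
      refine (eventually_all_finite hfin).2 fun j hj =>
        tendsto_one_div_add_atTop_nhds_zero_nat.eventually (gt_mem_nhds (neg_pos.2 (lt_of_le_of_ne hj.2.2.2.1.2 fun h => ?_)))
      exact hω _ _ (rings_iff.2 ⟨j, hj.1, Prod.ext rfl (Prod.ext h rfl)⟩)
    refine tendsto_const_nhds.congr' (h1.mono fun n hn => (ENNReal.tsum_eq_zero.2 fun j => ?_).symm)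
    split_ifs with h2 h3
    · have h4 : 1 / ((n : ℝ) + 1) ≤ 1 := by
        rw [div_le_one (by positivity)]; simp
      have h5 := h3.2.2.1.1
      have := hn j ⟨h2, h3.1, h3.2.1, ⟨by linarith, h3.2.2.1.2⟩, h3.2.2.2⟩
      linarith
    · rfl
    · rfl

lemma cand_lower (hd : 1 ≤ d) (hq : 1 ≤ q) (hp0 : 0 < p) (hp1 : p ≤ 1) {ε c δ : ℝ} (hc : 0 ≤ c)
    {B : Finset (Vtx d)} (h0 : 0 ∈ B) {ω : Om d} (hD : Dense q p ε (Gd q p M) B 0 ω)
    (hR : ¬ Recent (KF (zt q ω) B 0) (c / (KF (zt q ω) B 0).card) ω)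
    (hδ : c / (KF (zt q ω) B 0).card ≤ δ) :
    ENNReal.ofReal (ε * c * gq q p) ≤ ∑' e : Edge d, ∫⁻ τ : ℝ, ∫⁻ α : I,
      if Cand q p M δ ω (e, τ, α) then 1 else 0 := by
  set K := KF (zt q ω) B 0 with hK
  have hg := gq_pos hq hp0 hp1
  have hKpos : (0 : ℝ) < K.card := by
    exact_mod_cast Finset.card_pos.2 ⟨0, (mem_KF hd h0).2 self_mem_KB⟩
  have : ∀ y, ∃ f : Edge d, Gd q p M ω y → ∃ x, Joins f y x ∧ Rob q p M ω x := fun y => by
    by_cases h : Gd q p M ω y
    · exact h.imp fun f h _ => h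
    · exact ⟨(0, ⟨0, hd⟩), fun h' => absurd h' h⟩
  choose f hf using this
  have hinj : Set.InjOn f (K.filter (Gd q p M ω)) := by
    intro y hy y' hy' h
    obtain ⟨h1, h2⟩ := Finset.mem_filter.1 hy
    obtain ⟨x, hx, -⟩ := hf y h2
    obtain ⟨x', hx', hr⟩ := hf y' (Finset.mem_filter.1 hy').2
    rcases (h ▸ hx).eq_or hx' with h3 | h3
    · exact h3.1
    · exact absurd (h3.1 ▸ hr.1) (hD.1 B h0 y ((mem_KF hd h0).1 h1))
  calc _ ≤ ∑ _e ∈ (K.filter (Gd q p M ω)).image f,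
        ENNReal.ofReal (gq q p) * ENNReal.ofReal (c / K.card) := by
        rw [Finset.sum_const, Finset.card_image_of_injOn hinj, nsmul_eq_mul,
          ← ENNReal.ofReal_mul hg.le, ← ENNReal.ofReal_natCast,
          ← ENNReal.ofReal_mul (by positivity)]
        refine ENNReal.ofReal_le_ofReal ?_
        calc _ = ε * K.card * (gq q p * (c / K.card)) := by field_simp
          _ ≤ _ := by gcongr; exact hD.2
    _ ≤ _ := Finset.sum_le_sum fun e he => ?_
    _ ≤ _ := ENNReal.sum_le_tsum _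
  obtain ⟨y, hy, rfl⟩ := Finset.mem_image.1 he
  obtain ⟨h1, h2⟩ := Finset.mem_filter.1 hy
  obtain ⟨x, hx, hr⟩ := hf y h2
  have e1 : ENNReal.ofReal (c / K.card) = volume (Set.Ioc (-(c / K.card)) 0) := by simp
  rw [e1, ← lintegral_indicator_const measurableSet_Ioc]
  refine lintegral_mono fun τ => ?_
  by_cases hτ : τ ∈ Set.Ioc (-(c / K.card)) 0
  · rw [Set.indicator_of_mem hτ, ← vol_lt hg.le ((gq_le hq hp0 hp1).trans hp1),
      ← lintegral_indicator_one (measurableSet_lt measurable_subtype_coe measurable_const)]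
    refine lintegral_mono fun α => ?_
    by_cases hα : α ∈ {a : I | (a : ℝ) < gq q p}
    · rw [Set.indicator_of_mem hα, Pi.one_apply]
      refine (if_pos ⟨hD.1, hα, ⟨by linarith [hτ.1], hτ.2⟩, B, h0, y, x, hx,
        (mem_KF hd h0).1 h1, hr, ?_⟩).ge
      rintro e ⟨a, ha, he⟩ u h3 h4 β
      exact not_rings_of_not_recent hR ((mem_KF hd h0).2 ha) he (hτ.1.trans_le h3) h4 β
    · rw [Set.indicator_of_notMem hα]
      exact zero_le
  · rw [Set.indicator_of_notMem hτ]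
    exact zero_le

theorem adj_null (hd : 1 ≤ d) (hq : 1 ≤ q) (hp0 : 0 < p) (hp1 : p ≤ 1) :
    clockLaw d {ω | Exc (zt q ω) p 0 ∧ Gd q p M ω 0} = 0 := by
  by_contra hne
  set b := (clockLaw d).real {ω | Exc (zt q ω) p 0 ∧ Gd q p M ω 0} with hb
  have hb0 : 0 < b := ENNReal.toReal_pos hne (measure_ne_top _ _)
  have hd0 : (0 : ℝ) < d := by exact_mod_cast hd
  have hg := gq_pos hq hp0 hp1
  set c := b / (16 * d) with hc
  have hc0 : 0 < c := by positivity
  refine absurd (ge_of_tendsto' (tendsto_cand (M := M) hd hq hp1) (a := 0)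
    (b := ENNReal.ofReal (b / 2 * c * gq q p) * ENNReal.ofReal (b / 8)) fun n => ?_)
    (not_le.2 (ENNReal.mul_pos (by simp; positivity) (by simp; positivity)))
  obtain ⟨R, hR⟩ := exists_nat_gt (c * (n + 1))
  obtain ⟨B, hB, hP⟩ := exists_dense (p := p) hd hq (fun y => measurable_gd hq p M y)
    (fun z ω y => gd_shift hq) R hb0 rfl
  have h0 : 0 ∈ B := hB (mem_box.2 (by simp))
  set E := {ω | Recent (KF (zt q ω) B 0) (c / (KF (zt q ω) B 0).card) ω} with hE
  set D := {ω | Dense q p (b / 2) (Gd q p M) B 0 ω} with hD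
  have mD : MeasurableSet D := measurableSet_setOfPred.2
    (measurable_dense hq _ (fun y => measurable_gd hq p M y) B 0)
  have mE : MeasurableSet E := by
    have : E = {ω | ∃ K, KF (zt q ω) B 0 = K ∧ Recent K (c / K.card) ω} := by simp [hE]
    rw [this]
    exact measurableSet_setOfPred.2 (.exists fun K =>
      (measurableSet_KF_eq (measurable_zt hq) B 0 K).and (measurable_recent K _))
  have h1 : ENNReal.ofReal (b / 8) ≤ clockLaw d (D \ E) := by
    refine le_trans ?_ le_measure_sdiff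
    refine le_trans ?_ (tsub_le_tsub (ENNReal.ofReal_le_of_le_toReal hP) (age_bound hd hq h0 hc0.le))
    rw [← ENNReal.ofReal_sub _ (by positivity)]
    refine ENNReal.ofReal_le_ofReal (le_of_eq ?_)
    rw [hc]; field_simp; norm_num
  rw [mecke (H := fun y => if Cand q p M (1 / (n + 1)) y.1 y.2 then 1 else 0)
    (.ite (measurableSet_setOfPred.2 (measurable_cand hq _)) measurable_const measurable_const)]
  refine (mul_le_mul_right h1 _).trans ?_
  rw [← lintegral_indicator_const (mD.diff mE)]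
  refine lintegral_mono fun ω => ?_
  by_cases hω : ω ∈ D \ E
  · rw [Set.indicator_of_mem hω]
    refine cand_lower hd hq hp0 hp1 hc0.le h0 hω.1 hω.2 ?_
    have h2 : (R : ℝ) ≤ (KF (zt q ω) B 0).card := by
      exact_mod_cast le_card_KF hd fun c hc => by simpa using hB hc
    have h3 : 0 < c * (n + 1) := by positivity
    rw [div_le_div_iff₀ (by linarith) (by positivity)]
    linarith
  · simp [hω]

end Pool.Agent.P.MP_d95e10_pr
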