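import Pool.Agent.P.MP_d95e10_pr.Poisson

/-!
The law of the rings in a finite window is invariant under real time shifts.
-/

namespace Pool.Agent.P.MP_d95e10_pr

open MeasureTheory ProbabilityTheory Filter unitInterval
open scoped Classical ENNReal

variable {d : ℕ}

namespace TS

/-- The point lies in the window. -/
def inW (Λ : Finset (Edge d)) (a L : ℝ) (p : Pt d) : Prop := p.1 ∈ Λ ∧ a < p.2.1 ∧ p.2.1 ≤ a + L

/-- Indices of the rings in the window. -/
def idx (Λ : Finset (Edge d)) (a L : ℝ) (ω : Om d) : Set (Idx d) :=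
  {j | Act ω j ∧ inW Λ a L (pt ω j)}

/-- Time shift of a point. -/
def sh (a : ℝ) (p : Pt d) : Pt d := (p.1, p.2.1 - a, p.2.2)

/-- Add a point to a relation. -/
def addPt (R : Rel d) (p : Pt d) : Rel d := fun e τ α => R e τ α ∨ p = (e, τ, α)

lemma measurable_inW (Λ : Finset (Edge d)) (a L : ℝ) : Measurable (inW Λ a L) := by
  unfold inW
  refine Measurable.and ?_ (Measurable.and ?_ ?_)
  · exact (measurable_of_countable fun e : Edge d => e ∈ Λ).comp measurable_fst
  · exact measurableSet_setOfPred.1 (measurableSet_lt measurable_const (by fun_prop))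
  · exact measurableSet_setOfPred.1 (measurableSet_le (by fun_prop) measurable_const)

@[fun_prop] lemma measurable_sh (a : ℝ) : Measurable (sh (d := d) a) := by unfold sh; fun_prop

lemma measurable_cnt (Λ : Finset (Edge d)) (a L : ℝ) :
    Measurable fun ω => (idx Λ a L ω).ncard :=
  measurable_ncard.comp (measurable_set_iff.2 fun j =>
    (measurable_act j).and ((measurable_inW Λ a L).comp (measurable_pt j)))

lemma finite_idx (Λ : Finset (Edge d)) (a L : ℝ) (ω : Om d) : (idx Λ a L ω).Finite := by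
  have h : ((Λ : Set (Edge d)) ×ˢ Set.Icc (⌊a⌋ - 1) ⌈a + L⌉).Finite :=
    Λ.finite_toSet.prod (Set.finite_Icc _ _)
  refine (h.biUnion fun c _ => (Set.finite_singleton c).prod (Set.finite_Iio (ω c).1)).subset ?_
  rintro ⟨⟨e, k⟩, i⟩ ⟨h1, h2, h3, h4⟩
  simp only [pt] at h2 h3 h4
  have h5 := ((ω (e, k)).2 i).1.2.1
  have h6 := ((ω (e, k)).2 i).1.2.2
  simp only [Set.mem_iUnion]
  refine ⟨(e, k), ⟨h2, ?_, ?_⟩, rfl, h1⟩
  · have : ((⌊a⌋ - 1 : ℤ) : ℝ) ≤ k := by push_cast; linarith [Int.floor_le a]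
    exact_mod_cast this
  · have : (k : ℝ) ≤ ((⌈a + L⌉ : ℤ) : ℝ) := by linarith [Int.le_ceil (a + L)]
    exact_mod_cast this

/-- The index shift caused by removing a ring. -/
def skip (j j' : Idx d) : Idx d :=
  if j'.1 = j.1 then (j'.1, if j'.2 < j.2 then j'.2 else j'.2 + 1) else j'

lemma skip_inj (j : Idx d) : Function.Injective (skip j) := by
  rintro ⟨c, i⟩ ⟨c', i'⟩ h
  unfold skip at h
  split_ifs at h <;> simp_all <;> omega

lemma act_rem {ω : Om d} {j : Idx d} (hj : Act ω j) (j' : Idx d) :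
    Act (rem ω j) j' ↔ Act ω (skip j j') := by
  obtain ⟨c, i⟩ := j
  obtain ⟨c', i'⟩ := j'
  unfold Act rem skip at *
  by_cases h : c' = c
  · subst h
    simp only [Function.update_self, ↓reduceIte] at hj ⊢
    split_ifs <;> omega
  · simp [h]

lemma pt_rem (ω : Om d) (j j' : Idx d) : pt (rem ω j) j' = pt ω (skip j j') := by
  obtain ⟨c, i⟩ := j
  obtain ⟨c', i'⟩ := j'
  unfold pt rem skip
  by_cases h : c' = c
  · subst h; simp
  · simp [h]

lemma range_skip (j j' : Idx d) : (∃ k, skip j k = j') ↔ j' ≠ j := by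
  obtain ⟨c, i⟩ := j
  obtain ⟨c', i'⟩ := j'
  constructor
  · rintro ⟨⟨c'', i''⟩, h⟩ h'
    rw [h'] at h
    unfold skip at h
    split_ifs at h <;> simp_all
    omega
  · intro h
    by_cases hc : c' = c
    · subst hc
      have : i' ≠ i := fun h' => h (by rw [h'])
      by_cases hi : i' < i
      · exact ⟨(c', i'), by simp [skip, hi]⟩
      · refine ⟨(c', i' - 1), ?_⟩
        have : ¬ i' - 1 < i := by omega
        simp only [skip, ↓reduceIte, this, Prod.mk.injEq, true_and]; omega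
    · exact ⟨(c', i'), by simp [skip, hc]⟩

lemma cnt_rem {Λ : Finset (Edge d)} {a L : ℝ} {ω : Om d} {j : Idx d} (hj : j ∈ idx Λ a L ω) :
    (idx Λ a L (rem ω j)).ncard + 1 = (idx Λ a L ω).ncard := by
  rw [← Set.ncard_image_of_injective _ (skip_inj j),
    ← Set.ncard_sdiff_singleton_add_one hj (finite_idx Λ a L ω)]
  congr 2
  ext k
  simp only [idx, Set.mem_image, Set.mem_ofPred_eq, act_rem hj.1, pt_rem, Set.mem_sdiff,
    Set.mem_singleton_iff]
  constructor
  · rintro ⟨k', h, rfl⟩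
    exact ⟨h, (range_skip j _).1 ⟨k', rfl⟩⟩
  · rintro ⟨h, h'⟩
    obtain ⟨k', rfl⟩ := (range_skip j k).2 h'
    exact ⟨k', h, rfl⟩

lemma win_iff (Λ : Finset (Edge d)) (a L : ℝ) (ω : Om d) (e : Edge d) (τ : ℝ) (α : I) :
    winRel Λ a L (Rings ω) e τ α ↔ ∃ j, j ∈ idx Λ a L ω ∧ sh a (pt ω j) = (e, τ, α) := by
  simp only [winRel, rings_iff, idx, inW, sh, Set.mem_ofPred_eq, Prod.mk.injEq]
  constructor
  · rintro ⟨h1, h2, h3, j, h4, h5⟩
    refine ⟨j, ⟨h4, ?_⟩, ?_⟩ <;> rw [h5] <;> simp [h1, h2, h3]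
  · rintro ⟨j, ⟨h1, h2, h3, h4⟩, rfl, rfl, rfl⟩
    exact ⟨h2, by linarith, by linarith, j, h1, by simp⟩

lemma win_rem {Λ : Finset (Edge d)} {a L : ℝ} {ω : Om d} {j : Idx d} (hj : j ∈ idx Λ a L ω) :
    addPt (winRel Λ a L (Rings (rem ω j))) (sh a (pt ω j)) = winRel Λ a L (Rings ω) := by
  funext e τ α
  obtain ⟨h1, h2, h3, h4⟩ := hj
  simp only [addPt, winRel, rings_rem h1, sh, Prod.mk.injEq, eq_iff_iff]
  constructor
  · rintro (⟨h5, h6, h7, h8⟩ | ⟨rfl, rfl, rfl⟩)
    · exact ⟨h5, h6, h7, Or.inl h8⟩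
    · exact ⟨h2, by linarith, by linarith, Or.inr (by simp)⟩
  · rintro ⟨h5, h6, h7, h8 | h8⟩
    · exact Or.inl ⟨h5, h6, h7, h8⟩
    · exact Or.inr (by rw [h8]; simp)

lemma meas_add {G : Rel d → ℝ≥0∞} (hG : UMeas G) (Y : Type) [MeasurableSpace Y] (J : Type)
    [Countable J] (act : Y → J → Prop) (p : Y → J → Pt d) (h1 : ∀ j, Measurable fun y => act y j)
    (h2 : ∀ j, Measurable fun y => p y j) (q : Y → Pt d) (hq : Measurable q) :
    Measurable fun y => G (addPt (famRel act p y) (q y)) := by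
  have := hG Y (Option J) (fun y j => j.elim True (act y)) (fun y j => j.elim (q y) (p y))
    (fun j => by cases j; exacts [measurable_const, h1 _]) (fun j => by cases j; exacts [hq, h2 _])
  convert this using 3 with y
  funext e τ α
  simp [addPt, famRel, Option.exists, or_comm]

lemma umeas_add {G : Rel d → ℝ≥0∞} (hG : UMeas G) (q : Pt d) : UMeas fun R => G (addPt R q) :=
  fun Y _ J _ act p h1 h2 => meas_add hG Y J act p h1 h2 _ measurable_const

lemma win_eq (Λ : Finset (Edge d)) (a L : ℝ) (ω : Om d) : winRel Λ a L (Rings ω) =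
    famRel (fun ω j => j ∈ idx Λ a L ω) (fun ω j => sh a (pt ω j)) ω := by
  funext e τ α
  exact propext (win_iff Λ a L ω e τ α)

lemma measurable_mem_idx (Λ : Finset (Edge d)) (a L : ℝ) (j : Idx d) :
    Measurable fun ω => j ∈ idx Λ a L ω :=
  (measurable_act j).and ((measurable_inW Λ a L).comp (measurable_pt j))

lemma meas_win {G : Rel d → ℝ≥0∞} (hG : UMeas G) (Λ : Finset (Edge d)) (a L : ℝ) :
    Measurable fun ω => G (winRel Λ a L (Rings ω)) := by
  simp only [win_eq]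
  exact hG _ _ _ _ (measurable_mem_idx Λ a L) fun j => by fun_prop

lemma mset_cnt (Λ : Finset (Edge d)) (a L : ℝ) (m : ℕ) :
    MeasurableSet {ω | (idx Λ a L ω).ncard = m} := measurable_cnt Λ a L (measurableSet_singleton m)

/-- Expectation on the event of `m` rings in the window. -/
noncomputable def Psi (Λ : Finset (Edge d)) (a L : ℝ) (m : ℕ) (G : Rel d → ℝ≥0∞) : ℝ≥0∞ :=
  ∫⁻ ω, (if (idx Λ a L ω).ncard = m then G (winRel Λ a L (Rings ω)) else 0) ∂clockLaw d

lemma tsum_Psi (Λ : Finset (Edge d)) (a L : ℝ) {G : Rel d → ℝ≥0∞} (hG : UMeas G) :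
    ∑' m, Psi Λ a L m G = ∫⁻ ω, G (winRel Λ a L (Rings ω)) ∂clockLaw d := by
  unfold Psi
  rw [← lintegral_tsum fun m => (Measurable.ite (mset_cnt Λ a L m)
    (meas_win hG Λ a L) measurable_const).aemeasurable]
  congr 1; ext ω
  simp only [eq_comm (a := (idx Λ a L ω).ncard)]
  exact tsum_ite_eq _ _

lemma Psi_zero (Λ : Finset (Edge d)) (a L : ℝ) (G : Rel d → ℝ≥0∞) :
    Psi Λ a L 0 G = G (fun _ _ _ => False) * Psi Λ a L 0 fun _ => 1 := by
  unfold Psi
  beta_reduce
  rw [← lintegral_const_mul _ (Measurable.ite (mset_cnt Λ a L 0) measurable_const measurable_const)]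
  congr 1; ext ω
  split_ifs with h
  · rw [Set.ncard_eq_zero (finite_idx Λ a L ω)] at h
    rw [mul_one]; congr 1; funext e τ α
    simp [win_iff, h]
  · simp

lemma mecke' {H : Om d × Pt d → ℝ≥0∞} (hH : Measurable H) :
    ∫⁻ ω, ∑' j : Idx d, (if Act ω j then H (rem ω j, pt ω j) else 0) ∂clockLaw d =
      ∑' e : Edge d, ∫⁻ τ : ℝ, ∫⁻ α : I, ∫⁻ ω, H (ω, (e, τ, α)) ∂clockLaw d := by
  rw [mecke hH, lintegral_tsum fun e => by fun_prop]
  congr 1; ext e
  rw [lintegral_lintegral_swap (by fun_prop)]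
  congr 1; ext τ
  rw [lintegral_lintegral_swap (by fun_prop)]

lemma Psi_succ (Λ : Finset (Edge d)) (a L : ℝ) (m : ℕ) {G : Rel d → ℝ≥0∞} (hG : UMeas G) :
    ((m + 1 : ℕ) : ℝ≥0∞) * Psi Λ a L (m + 1) G = ∑' e : Edge d, ∫⁻ τ : ℝ, ∫⁻ α : I,
      if inW Λ 0 L (e, τ, α) then Psi Λ a L m fun R => G (addPt R (e, τ, α)) else 0 := by
  have hm : Measurable fun y : Om d × Pt d => G (addPt (winRel Λ a L (Rings y.1)) (sh a y.2)) := by
    simp only [win_eq]
    exact meas_add hG (Om d × Pt d) _ (fun y j => j ∈ idx Λ a L y.1) (fun y j => sh a (pt y.1 j))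
      (fun j => (measurable_mem_idx Λ a L j).comp measurable_fst) (fun j => by fun_prop) _
      (by fun_prop)
  have := mecke' (H := fun y => if inW Λ a L y.2 ∧ (idx Λ a L y.1).ncard = m then
    G (addPt (winRel Λ a L (Rings y.1)) (sh a y.2)) else 0) (Measurable.ite
      (measurableSet_setOfPred.2 (((measurable_inW Λ a L).comp measurable_snd).and
        ((measurable_of_countable fun n : ℕ => n = m).comp
          ((measurable_cnt Λ a L).comp measurable_fst)))) hm measurable_const)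
  refine Eq.trans ?_ (this.trans ?_)
  · rw [Psi, ← lintegral_const_mul' _ _ (ENNReal.natCast_ne_top _)]
    congr 1; ext ω
    have e : ∀ j, (if Act ω j then (if inW Λ a L (pt ω j) ∧ (idx Λ a L (rem ω j)).ncard = m then
        G (addPt (winRel Λ a L (Rings (rem ω j))) (sh a (pt ω j))) else 0) else 0) =
        (idx Λ a L ω).indicator (fun _ => if (idx Λ a L ω).ncard = m + 1 then
          G (winRel Λ a L (Rings ω)) else 0) j := fun j => by
      by_cases hj : j ∈ idx Λ a L ω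
      · rw [Set.indicator_of_mem hj, if_pos hj.1, win_rem hj, ← cnt_rem hj]
        simp [hj.2]
      · rw [Set.indicator_of_notMem hj]
        split_ifs with h1 h2
        exacts [absurd ⟨h1, h2.1⟩ hj, rfl, rfl]
    simp only [e]
    rw [← tsum_subtype, ENNReal.tsum_set_const, ← (finite_idx Λ a L ω).cast_ncard_eq]
    split_ifs with h
    · rw [h]; rfl
    · simp
  · congr 1; ext e
    rw [← lintegral_add_left_eq_self _ a]
    congr 1; ext τ
    congr 1; ext α
    by_cases h : inW Λ 0 L (e, τ, α)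
    · have h' : inW Λ a L (e, a + τ, α) := by simpa [inW] using h
      simp [h, h', Psi, sh]
    · have h' : ¬ inW Λ a L (e, a + τ, α) := by simpa [inW] using h
      simp [h, h']

lemma umeas_one : UMeas (d := d) fun _ => 1 := fun _ _ _ _ _ _ _ _ => measurable_const

lemma Psi_cross (Λ : Finset (Edge d)) (a a' L : ℝ) {c c' : ℝ≥0∞} (hc : c ≠ ⊤) (hc' : c' ≠ ⊤)
    (h : (Psi Λ a L 0 fun _ => 1) * c' = (Psi Λ a' L 0 fun _ => 1) * c) (m : ℕ)
    {G : Rel d → ℝ≥0∞} (hG : UMeas G) : Psi Λ a L m G * c' = Psi Λ a' L m G * c := by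
  induction m generalizing G with
  | zero => rw [Psi_zero, Psi_zero Λ a', mul_assoc, mul_assoc, h]
  | succ m ih =>
    refine (ENNReal.mul_right_inj (a := ((m + 1 : ℕ) : ℝ≥0∞)) (by simp)
      (ENNReal.natCast_ne_top _)).1 ?_
    rw [← mul_assoc, ← mul_assoc, Psi_succ Λ a L m hG, Psi_succ Λ a' L m hG,
      ← ENNReal.tsum_mul_right, ← ENNReal.tsum_mul_right]
    simp only [← lintegral_mul_const' _ _ hc, ← lintegral_mul_const' _ _ hc', ite_mul, zero_mul,
      ih (umeas_add hG _)]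

lemma Psi_ne_top (Λ : Finset (Edge d)) (a L : ℝ) : (Psi Λ a L 0 fun _ => 1) ≠ ⊤ := by
  refine ne_top_of_le_ne_top ENNReal.one_ne_top ((ENNReal.le_tsum (f := fun m => Psi Λ a L m fun _ => 1) 0).trans ?_)
  rw [tsum_Psi Λ a L umeas_one]; simp

end TS

open TS in
/-- The law of the rings in a finite window is invariant under real time shifts. -/
theorem shift_law (Λ : Finset (Edge d)) (a a' L : ℝ) {G : Rel d → ℝ≥0∞} (hG : UMeas G) :
    ∫⁻ ω, G (winRel Λ a L (Rings ω)) ∂clockLaw d =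
      ∫⁻ ω, G (winRel Λ a' L (Rings ω)) ∂clockLaw d := by
  have h1 := Psi_cross Λ a a' L (Psi_ne_top Λ a L) (Psi_ne_top Λ a' L) (mul_comm _ _)
  have h2 : (Psi Λ a' L 0 fun _ => 1) = Psi Λ a L 0 fun _ => 1 := by
    have := tsum_congr (L := .unconditional ℕ) fun m => h1 m umeas_one
    rw [ENNReal.tsum_mul_right, ENNReal.tsum_mul_right, tsum_Psi _ _ _ umeas_one,
      tsum_Psi _ _ _ umeas_one] at this
    simpa using this
  rw [← tsum_Psi Λ a L hG, ← tsum_Psi Λ a' L hG]
  refine tsum_congr fun m => ?_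
  simpa using Psi_cross Λ a a' L ENNReal.one_ne_top ENNReal.one_ne_top (by rw [h2]) m hG

end Pool.Agent.P.MP_d95e10_pr
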