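import Pool.Agent.P.MP_d95e10_pr.Inv
import Pool.Agent.P.MP_d95e10_pr.TimeShift

/-!
Measurability of the dynamics and stationarity of the configuration built from the past.
-/

namespace Pool.Agent.P.MP_d95e10_pr

open MeasureTheory ProbabilityTheory Filter Topology unitInterval
open scoped Classical ENNReal BoundedContinuousFunction

variable {d : ℕ} {q : ℝ}

section fam

variable {Y : Type} [MeasurableSpace Y] {J : Type} [Countable J] {act : Y → J → Prop}
  {p : Y → J → Pt d}

lemma measurable_step (hq : 1 ≤ q) (h1 : ∀ j, Measurable fun y => act y j)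
    (h2 : ∀ j, Measurable fun y => p y j) (Λ : Finset (Edge d)) {v : Y → Conf d}
    (hv : Measurable v) {τ : Y → ℝ} (hτ : Measurable τ) :
    Measurable fun y => step q Λ (famRel act p y) (v y) (τ y) := by
  refine measurable_pi_lambda _ fun e => measurable_of_Iio fun s => ?_
  have hA : ∀ j, Measurable fun y => act y j ∧ (p y j).1 = e ∧ (p y j).2.1 = τ y := fun j =>
    (h1 j).and ((measurableSet_setOfPred.1 ((h2 j).fst (measurableSet_singleton e))).and
      (measurableSet_setOfPred.1 (measurableSet_eq_fun (h2 j).snd.fst hτ)))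
  have hR : ∀ y (P : I → Prop), (∃ α, famRel act p y e (τ y) α ∧ P α) ↔
      ∃ j, (act y j ∧ (p y j).1 = e ∧ (p y j).2.1 = τ y) ∧ P (p y j).2.2 := by
    intro y P
    constructor
    · rintro ⟨α, ⟨j, h3, h4⟩, h5⟩
      exact ⟨j, ⟨h3, by rw [h4], by rw [h4]⟩, by rwa [h4]⟩
    · rintro ⟨j, ⟨h3, h4, h5⟩, h6⟩
      exact ⟨_, ⟨j, h3, by rw [← h4, ← h5]⟩, h6⟩
  have : (fun y => step q Λ (famRel act p y) (v y) (τ y) e) ⁻¹' Set.Iio s =
      {y | (e ∈ Λ ∧ ∃ j, (act y j ∧ (p y j).1 = e ∧ (p y j).2.1 = τ y) ∧
        ((Conn (lev (v y) s \ {e}) e.1 (tip e) ∧ ((p y j).2.2 : ℝ) < s) ∨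
          ((p y j).2.2 : ℝ) < gq q s)) ∨
        (¬ (e ∈ Λ ∧ ∃ j, (act y j ∧ (p y j).1 = e ∧ (p y j).2.1 = τ y) ∧ True) ∧
          (v y e : ℝ) < s)} := by
    ext y
    simp only [Set.mem_preimage, Set.mem_Iio, Set.mem_ofPred_eq]
    rw [← hR y (fun _ => True), ← hR y (fun α => (Conn (lev (v y) s \ {e}) e.1 (tip e) ∧
      (α : ℝ) < s) ∨ (α : ℝ) < gq q s)]
    simp only [and_true]
    by_cases h : e ∈ Λ ∧ ∃ α, famRel act p y e (τ y) α
    · rw [← step_lt_iff hq s.2.2 h]
      simp [h]
    · rw [step_of_not h]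
      simp only [h, not_false_eq_true, true_and]
      exact ⟨Or.inr, fun h' => h'.resolve_left fun ⟨h3, α, h4, _⟩ => h ⟨h3, α, h4⟩⟩
  rw [this, measurableSet_setOfPred]
  have hc : Measurable fun y => Conn (lev (v y) s \ {e}) e.1 (tip e) :=
    measurable_conn (measurable_set_iff.2 fun f =>
      (measurable_set_iff.1 (measurable_lev hv s) f).and measurable_const) _ _
  have hm : ∀ j (t : ℝ), Measurable fun y => ((p y j).2.2 : ℝ) < t := fun j t =>
    measurableSet_setOfPred.1 (measurableSet_lt (h2 j).snd.snd.subtype_coe measurable_const)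
  exact (measurable_const.and (.exists fun j => (hA j).and ((hc.and (hm j _)).or (hm j _)))).or
    ((measurable_const.and (.exists fun j => (hA j).and measurable_const)).not.and
      (measurable_set_iff.1 (measurable_lev hv s) e))

lemma measurable_run (hq : 1 ≤ q) (h1 : ∀ j, Measurable fun y => act y j)
    (h2 : ∀ j, Measurable fun y => p y j) (Λ : Finset (Edge d)) (a b : ℝ) {v : Y → Conf d}
    (hv : Measurable v) : Measurable fun y => run q Λ (famRel act p y) a b (v y) := by
  have ht : ∀ j, Measurable fun y => (p y j).2.1 := fun j => (h2 j).snd.fst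
  have hf : ∀ (l : List J) {v : Y → Conf d}, Measurable v → Measurable fun y =>
      (l.map fun j => (p y j).2.1).foldl (step q Λ (famRel act p y)) (v y) := by
    intro l
    induction l with
    | nil => exact fun hv => hv
    | cons j l ih => exact fun hv => ih (measurable_step hq h1 h2 Λ hv (ht j))
  set E : List J → Y → Prop := fun l y => (l.Pairwise fun j j' => (p y j).2.1 < (p y j').2.1) ∧
    (∀ j ∈ l, a < (p y j).2.1 ∧ (p y j).2.1 ≤ b) ∧ ∀ j, act y j → (p y j).1 ∈ Λ →
      a < (p y j).2.1 → (p y j).2.1 ≤ b → ∃ j' ∈ l, (p y j').2.1 = (p y j).2.1 with hE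
  have hlt : ∀ {f g : Y → ℝ}, Measurable f → Measurable g → Measurable fun y => f y < g y :=
    fun hf hg => measurableSet_setOfPred.1 (measurableSet_lt hf hg)
  have hle : ∀ {f g : Y → ℝ}, Measurable f → Measurable g → Measurable fun y => f y ≤ g y :=
    fun hf hg => measurableSet_setOfPred.1 (measurableSet_le hf hg)
  have hEm : ∀ l, Measurable (E l) := by
    intro l
    refine .and ?_ (.and (.forall fun j => measurable_const.imp
      ((hlt measurable_const (ht j)).and (hle (ht j) measurable_const))) (.forall fun j =>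
        (h1 j).imp (.imp ?_ ((hlt measurable_const (ht j)).imp ((hle (ht j) measurable_const).imp
          (.exists fun j' => measurable_const.and
            (measurableSet_setOfPred.1 (measurableSet_eq_fun (ht j') (ht j)))))))))
    · simp only [List.pairwise_iff_getElem]
      exact .forall fun i => .forall fun k => .forall fun _ => .forall fun _ =>
        measurable_const.imp (hlt (ht _) (ht _))
    · exact measurableSet_setOfPred.1 ((h2 j).fst (Λ.finite_toSet.measurableSet))
  have hrun : ∀ l y, E l y → run q Λ (famRel act p y) a b (v y) =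
      (l.map fun j => (p y j).2.1).foldl (step q Λ (famRel act p y)) (v y) := by
    rintro l y ⟨h3, h4, h5⟩
    refine run_eq_foldl (List.pairwise_map.2 h3) ?_ (by simpa using h4) _
    rintro τ ⟨h6, h7, e, he, α, j, h8, h9⟩
    have := h5 j h8
    simp only [h9] at this
    simpa using this he h6 h7
  have hno : ∀ y, (¬ ∃ l, E l y) → run q Λ (famRel act p y) a b (v y) = v y := by
    intro y hy
    refine dif_neg fun hfin => hy ?_
    obtain ⟨L, hL, hm⟩ := exists_list hfin
    have : ∀ τ ∈ L, ∃ j, (p y j).2.1 = τ := fun τ hτ => by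
      obtain ⟨-, -, e, -, α, j, -, h⟩ := (hm τ).1 hτ
      exact ⟨j, by rw [h]⟩
    obtain ⟨l, rfl⟩ : ∃ l : List J, l.map (fun j => (p y j).2.1) = L := by
      choose g hg using this
      exact ⟨L.attach.map fun τ => g τ.1 τ.2, by simp [Function.comp_def, hg]⟩
    refine ⟨l, List.pairwise_map.1 hL, fun j hj => ?_, fun j h3 h4 h5 h6 => ?_⟩
    · have := (hm _).1 (List.mem_map_of_mem hj)
      exact ⟨this.1, this.2.1⟩
    · simpa using (hm _).2 ⟨h5, h6, _, h4, _, j, h3, rfl⟩
  intro S hS
  have : (fun y => run q Λ (famRel act p y) a b (v y)) ⁻¹' S =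
      (⋃ l, {y | E l y} ∩ (fun y => (l.map fun j => (p y j).2.1).foldl
        (step q Λ (famRel act p y)) (v y)) ⁻¹' S) ∪ ({y | ¬ ∃ l, E l y} ∩ v ⁻¹' S) := by
    ext y
    simp only [Set.mem_preimage, Set.mem_union, Set.mem_iUnion, Set.mem_inter_iff,
      Set.mem_ofPred_eq]
    constructor
    · intro h
      by_cases hy : ∃ l, E l y
      · obtain ⟨l, hl⟩ := hy
        exact Or.inl ⟨l, hl, hrun l y hl ▸ h⟩
      · exact Or.inr ⟨hy, hno y hy ▸ h⟩
    · rintro (⟨l, hl, h⟩ | ⟨hy, h⟩)
      · rwa [hrun l y hl]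
      · rwa [hno y hy]
  rw [this]
  exact (MeasurableSet.iUnion fun l => (measurableSet_setOfPred.2 (hEm l)).inter (hf l hv hS)).union
    ((measurableSet_setOfPred.2 (Measurable.exists hEm).not).inter (hv hS))

lemma measurable_zeta_fam (hq : 1 ≤ q) (h1 : ∀ j, Measurable fun y => act y j)
    (h2 : ∀ j, Measurable fun y => p y j) (t : ℝ) :
    Measurable fun y => zeta q (famRel act p y) t :=
  measurable_pi_lambda _ fun e => .iInf fun _ =>
    (measurable_pi_apply e).comp (measurable_run hq h1 h2 _ _ _ measurable_const)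

end fam

lemma measurable_run_rings (hq : 1 ≤ q) (Λ : Finset (Edge d)) (a b : ℝ) (v : Conf d) :
    Measurable fun ω : Om d => run q Λ (Rings ω) a b v := by
  simp only [rings_eq_famRel]
  exact measurable_run hq measurable_act measurable_pt Λ a b measurable_const

lemma measurable_zeta (hq : 1 ≤ q) (t : ℝ) :
    Measurable fun ω : Om d => zeta q (Rings ω) t := by
  simp only [rings_eq_famRel]
  exact measurable_zeta_fam hq measurable_act measurable_pt t

/-- The stationary configuration at time zero. -/
noncomputable def zt (q : ℝ) (ω : Om d) : Conf d := zeta q (Rings ω) 0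

@[fun_prop] lemma measurable_zt (hq : 1 ≤ q) : Measurable (zt q : Om d → Conf d) :=
  measurable_zeta hq 0

lemma zt_shift (hq : 1 ≤ q) (z : Vtx d) (ω : Om d) : zt q (shiftO z ω) = zt q ω ∘ shiftE z :=
  zeta_shift hq (lf_rings ω) z 0

lemma measurable_zeta_addPt (hq : 1 ≤ q) (t : ℝ) :
    Measurable fun y : Om d × Pt d => zeta q (TS.addPt (Rings y.1) y.2) t := by
  have : ∀ y : Om d × Pt d, TS.addPt (Rings y.1) y.2 =
      famRel (fun (y : Om d × Pt d) (j : Option (Idx d)) => j.elim True (Act y.1))
        (fun y j => j.elim y.2 (pt y.1)) y := by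
    intro y
    funext e τ α
    simp [TS.addPt, famRel, rings_iff, Option.exists, or_comm]
  simp only [this]
  refine measurable_zeta_fam hq ?_ ?_ t
  · rintro (_ | j)
    · exact measurable_const
    · exact (measurable_act j).comp measurable_fst
  · rintro (_ | j)
    · exact measurable_snd
    · exact (measurable_pt j).comp measurable_fst

/-- The law of a finite-volume run depends only on the elapsed time. -/
lemma map_run_eq (hq : 1 ≤ q) (Λ : Finset (Edge d)) (a a' L : ℝ) (v : Conf d) :
    (clockLaw d).map (fun ω => run q Λ (Rings ω) a (a + L) v) =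
      (clockLaw d).map (fun ω => run q Λ (Rings ω) a' (a' + L) v) := by
  ext S hS
  have := shift_law Λ a a' L (G := fun R => S.indicator 1 (run q Λ R 0 L v))
    fun Y _ J _ act p h1 h2 => (measurable_one.indicator hS).comp
      (measurable_run hq h1 h2 Λ 0 L measurable_const)
  simp only [run_winRel (lf_rings _)] at this
  rw [← lintegral_indicator_one hS, ← lintegral_indicator_one hS,
    lintegral_map (measurable_one.indicator hS) (measurable_run_rings hq _ _ _ _),
    lintegral_map (measurable_one.indicator hS) (measurable_run_rings hq _ _ _ _), this]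

/-- Pointwise limits of sequences with the same laws have the same law. -/
lemma map_eq_of_tendsto {X X' : ℕ → Om d → Conf d} {W W' : Om d → Conf d}
    (hX : ∀ n, Measurable (X n)) (hX' : ∀ n, Measurable (X' n))
    (h : ∀ n, (clockLaw d).map (X n) = (clockLaw d).map (X' n))
    (hW : ∀ ω, Tendsto (fun n => X n ω) atTop (𝓝 (W ω)))
    (hW' : ∀ ω, Tendsto (fun n => X' n ω) atTop (𝓝 (W' ω))) :
    (clockLaw d).map W = (clockLaw d).map W' := by
  have h1 := (tendstoInDistribution_of_ae_tendsto (μ' := clockLaw d)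
    (fun n => (hX n).aemeasurable) (measurable_of_tendsto_metrizable hX
      (tendsto_pi_nhds.2 hW)).aemeasurable (.of_forall hW)).tendsto
  have h2 := (tendstoInDistribution_of_ae_tendsto (μ' := clockLaw d)
    (fun n => (hX' n).aemeasurable) (measurable_of_tendsto_metrizable hX'
      (tendsto_pi_nhds.2 hW')).aemeasurable (.of_forall hW')).tendsto
  simp only [h] at h1
  exact congrArg Subtype.val (tendsto_nhds_unique (X := ProbabilityMeasure (Conf d)) h1 h2)

lemma tendsto_app (hq : 1 ≤ q) {R : Rel d} (hR : LF R) (t : ℝ) :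
    Tendsto (app q R t) atTop (𝓝 (zeta q R t)) :=
  tendsto_pi_nhds.2 fun e => tendsto_atTop_iInf fun _ _ h => app_anti hq hR t h e

/-- Stationarity. -/
lemma map_zeta (hq : 1 ≤ q) (t : ℝ) :
    (clockLaw d).map (fun ω => zeta q (Rings ω) t) = (clockLaw d).map (zt q) := by
  refine map_eq_of_tendsto (X := fun n ω => app q (Rings ω) t n)
    (X' := fun n ω => app q (Rings ω) 0 n) (fun n => measurable_run_rings hq _ _ _ _)
    (fun n => measurable_run_rings hq _ _ _ _) (fun n => ?_)
    (fun ω => tendsto_app hq (lf_rings ω) t) (fun ω => tendsto_app hq (lf_rings ω) 0)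
  have := map_run_eq hq (boxEdges d n) (t - n) (0 - n) n (fun _ => 1)
  simpa [app] using this

end Pool.Agent.P.MP_d95e10_pr
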