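import Pool.Agent.P.MP_d95e10_pr.Poisson1

/-!
Translation invariance, the zero-one law and almost sure properties of the clocks.
-/

namespace Pool.Agent.P.MP_d95e10_pr

open MeasureTheory ProbabilityTheory Filter unitInterval
open scoped Classical ENNReal symmDiff

variable {d : ℕ}

lemma poi_shift_inj (z : Vtx d) :
    Function.Injective fun j : Edge d × ℤ => (shiftE z j.1, j.2) := by
  rintro ⟨e, k⟩ ⟨e', k'⟩ h
  simp only [Prod.mk.injEq] at h
  rw [shiftE_injective z h.1, h.2]

theorem measurePreserving_shiftO (z : Vtx d) :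
    MeasurePreserving (shiftO z) (clockLaw d) (clockLaw d) :=
  ⟨by unfold shiftO; fun_prop, Measure.map_infinitePi_infinitePi_of_inj (poi_shift_inj z)⟩

lemma poi_exists_shift (hd : 1 ≤ d) (S : Finset (Edge d × ℤ)) :
    ∃ z : Vtx d, ∀ j ∈ S, (shiftE z j.1, j.2) ∉ S := by
  have : Nonempty (Fin d) := ⟨⟨0, hd⟩⟩
  obtain ⟨z, hz⟩ := Infinite.exists_notMem_finset
    ((S ×ˢ S).image fun p : (Edge d × ℤ) × (Edge d × ℤ) => p.2.1.1 - p.1.1.1)
  refine ⟨z, fun j hj hj' => hz ?_⟩
  exact Finset.mem_image.2 ⟨(j, (shiftE z j.1, j.2)), Finset.mem_product.2 ⟨hj, hj'⟩,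
    by simp [shiftE]⟩

theorem zero_one (hd : 1 ≤ d) {A : Set (Om d)} (hA : MeasurableSet A)
    (hinv : ∀ z, shiftO z ⁻¹' A = A) : clockLaw d A = 0 ∨ clockLaw d A = 1 := by
  set μ := clockLaw d with hμ
  have key : ∀ ε : ℝ, 0 < ε → μ.real A * (1 - μ.real A) ≤ 4 * ε := by
    intro ε hε
    obtain ⟨B, hB, hAB⟩ := exists_measure_symmDiff_lt_of_generateFrom_isSetRing (μ := μ)
      (C := measurableCylinders fun _ : Edge d × ℤ => Block) isSetRing_measurableCylinders
      ⟨{Set.univ}, Set.countable_singleton _,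
        Set.singleton_subset_iff.2 (univ_mem_measurableCylinders _), by simp⟩
      generateFrom_measurableCylinders.symm hA (ε := ENNReal.ofReal ε) (by simpa using hε)
    have hBm : MeasurableSet B := .of_mem_measurableCylinders hB
    obtain ⟨S, M, hM, hBdef⟩ := (mem_measurableCylinders B).1 hB
    obtain ⟨z, hz⟩ := poi_exists_shift hd S
    have hmp := measurePreserving_shiftO z
    set B' := shiftO z ⁻¹' B with hB'
    have hB'm : MeasurableSet B' := hmp.measurable hBm
    have h1 : μ.real (B ∆ A) ≤ ε := ENNReal.toReal_le_of_le_ofReal hε.le hAB.le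
    have h2 : μ.real (B' ∆ A) ≤ ε := by
      have : B' ∆ A = shiftO z ⁻¹' (B ∆ A) := by rw [Set.preimage_symmDiff, hinv]
      rw [this, measureReal_def, hmp.measure_preimage (hBm.symmDiff hA).nullMeasurableSet]
      exact h1
    have h3 : μ.real B' = μ.real B := by
      rw [measureReal_def, hmp.measure_preimage hBm.nullMeasurableSet, measureReal_def]
    set T : Finset (Edge d × ℤ) := S.image fun j => (shiftE z j.1, j.2) with hT
    have hST : Disjoint S T := by
      rw [Finset.disjoint_right]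
      intro j hj
      obtain ⟨j', hj', rfl⟩ := Finset.mem_image.1 hj
      exact hz j' hj'
    have hind := (iIndepFun_infinitePi (P := fun _ : Edge d × ℤ => blockLaw)
      (X := fun _ b => b) fun _ => measurable_id).indepFun_finset S T hST
        fun j => measurable_pi_apply j
    let g : (T → Block) → (S → Block) := fun x j =>
      x ⟨(shiftE z j.1.1, j.1.2), Finset.mem_image_of_mem _ j.2⟩
    have hg : Measurable g := by fun_prop
    have h4 : μ (B ∩ B'ᶜ) = μ B * μ B'ᶜ := by
      rw [hB', hBdef]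
      exact hind.measure_inter_preimage_eq_mul M (g ⁻¹' M)ᶜ hM (hg hM).compl
    have h5 : μ.real (B ∩ B'ᶜ) = μ.real B * (1 - μ.real B) := by
      rw [measureReal_def, h4, ENNReal.toReal_mul, ← measureReal_def, ← measureReal_def,
        probReal_compl_eq_one_sub hB'm, h3]
    have h6 : μ.real (B ∩ B'ᶜ) ≤ μ.real (B ∆ A) + μ.real (B' ∆ A) := by
      refine (measureReal_mono ?_).trans (measureReal_union_le _ _)
      rintro x ⟨hx, hx'⟩
      by_cases hxA : x ∈ A
      · exact Or.inr (Or.inr ⟨hxA, hx'⟩)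
      · exact Or.inl (Or.inl ⟨hx, hxA⟩)
    have h7 : |μ.real B - μ.real A| ≤ μ.real (B ∆ A) :=
      abs_measureReal_sub_le_measureReal_symmDiff hBm.nullMeasurableSet hA.nullMeasurableSet
    have h8 := abs_le.1 (h7.trans h1)
    have a0 : 0 ≤ μ.real A := measureReal_nonneg
    have a1 : μ.real A ≤ 1 := measureReal_le_one
    have b0 : 0 ≤ μ.real B := measureReal_nonneg
    have b1 : μ.real B ≤ 1 := measureReal_le_one
    nlinarith [h8.1, h8.2]
  have a0 : 0 ≤ μ.real A := measureReal_nonneg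
  have a1 : μ.real A ≤ 1 := measureReal_le_one
  have h0 : μ.real A * (1 - μ.real A) = 0 := by
    refine le_antisymm (le_of_forall_pos_le_add fun ε hε => ?_) (mul_nonneg a0 (by linarith))
    have := key (ε / 4) (by positivity)
    linarith
  rcases mul_eq_zero.1 h0 with h | h
  · exact Or.inl ((measureReal_eq_zero_iff (measure_ne_top _ _)).1 h)
  · right
    have : μ.real A = 1 := by linarith
    rw [measureReal_def, ENNReal.toReal_eq_one_iff] at this
    exact this

lemma poi_ae_ne (j : Idx d) {f : Om d → ℝ} (hf : Measurable f)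
    (hj : ∀ ω x, f (setPt ω j x) = f ω) : ∀ᵐ ω ∂clockLaw d, (pt ω j).2.1 ≠ f ω := by
  have hN : MeasurableSet {ω : Om d | (pt ω j).2.1 = f ω} :=
    measurableSet_eq_fun (by fun_prop) hf
  rw [ae_iff]
  simp only [ne_eq, not_not]
  rw [← lintegral_indicator_one hN, lintegral_setPt j (measurable_one.indicator hN)]
  refine (lintegral_congr fun ω => ?_).trans lintegral_zero
  have h1 : ((volume : Measure I).prod (volume : Measure I))
      ({u : I | (j.1.2 : ℝ) + u = f ω} ×ˢ Set.univ) = 0 := by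
    rw [Measure.prod_prod, Set.Subsingleton.measure_zero, zero_mul]
    intro u hu v hv
    exact Subtype.ext (add_left_cancel (hu.trans hv.symm))
  refine (lintegral_congr_ae ?_).trans lintegral_zero
  filter_upwards [measure_eq_zero_iff_ae_notMem.1 h1] with x hx
  refine Set.indicator_of_notMem (fun h => hx ⟨?_, trivial⟩) _
  have h2 : (pt (setPt ω j x) j).2.1 = f (setPt ω j x) := h
  rw [hj] at h2
  simpa [pt, setPt] using h2

lemma poi_pt_setPt {j j' : Idx d} (h : j ≠ j') (ω : Om d) (x : I × I) :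
    pt (setPt ω j x) j' = pt ω j' := by
  obtain ⟨c, i⟩ := j
  obtain ⟨c', i'⟩ := j'
  by_cases hc : c' = c
  · subst hc
    have hi : i' ≠ i := fun hi => h (by rw [hi])
    simp [pt, setPt, Function.update_of_ne hi]
  · simp [pt, setPt, Function.update_of_ne hc]

/-- Almost surely all times are distinct and none is an integer. -/
theorem ae_distinct : ∀ᵐ ω ∂clockLaw d,
    (∀ j j' : Idx d, (pt ω j).2.1 = (pt ω j').2.1 → j = j') ∧
      ∀ j : Idx d, (j.1.2 : ℝ) < (pt ω j).2.1 ∧ (pt ω j).2.1 < j.1.2 + 1 := by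
  refine Eventually.and ?_ ?_
  · refine ae_all_iff.2 fun j => ae_all_iff.2 fun j' => ?_
    by_cases h : j = j'
    · exact Eventually.of_forall fun _ _ => h
    · filter_upwards [poi_ae_ne j (f := fun ω => (pt ω j').2.1) (by fun_prop)
        fun ω x => by rw [poi_pt_setPt h]] with ω hω hω'
      exact absurd hω' hω
  · refine ae_all_iff.2 fun j => ?_
    filter_upwards [poi_ae_ne j (f := fun _ => (j.1.2 : ℝ)) measurable_const fun _ _ => rfl,
      poi_ae_ne j (f := fun _ => (j.1.2 : ℝ) + 1) measurable_const fun _ _ => rfl] with ω h1 h2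
    have h3 := ((ω j.1).2 j.2).1.2.1
    have h4 := ((ω j.1).2 j.2).1.2.2
    simp only [pt] at h1 h2 ⊢
    exact ⟨lt_of_le_of_ne (by linarith) h1.symm, lt_of_le_of_ne (by linarith) h2⟩

lemma poi_block_pos {g : ℝ} (hg : 0 < g) :
    blockLaw {b : Block | b.1 = 1 ∧ (((b.2 0).2 : I) : ℝ) < g} ≠ 0 := by
  have e1 : {b : Block | b.1 = 1 ∧ (((b.2 0).2 : I) : ℝ) < g} =
      ({1} : Set ℕ) ×ˢ (Function.eval 0 ⁻¹' (Set.univ ×ˢ {α : I | (α : ℝ) < g})) := by
    ext b; simp
  have hm : MeasurableSet {α : I | (α : ℝ) < g} :=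
    measurableSet_lt measurable_subtype_coe measurable_const
  rw [e1, blockLaw, Measure.prod_prod,
    (measurePreserving_eval_infinitePi (fun _ : ℕ => poiU) 0).measure_preimage
      (MeasurableSet.univ.prod hm).nullMeasurableSet, Measure.prod_prod, measure_univ, one_mul]
  refine mul_ne_zero ?_ ?_
  · rw [poissonMeasure_singleton]
    simp [Real.exp_pos]
  · have h1 : Set.Iio (⟨min g 1, le_min hg.le zero_le_one, min_le_right _ _⟩ : I) ⊆
        {α : I | (α : ℝ) < g} := fun α hα =>
      lt_of_lt_of_le (show (α : ℝ) < min g 1 from hα) (min_le_left _ _)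
    intro h0
    have h2 := measure_mono_null h1 h0
    rw [unitInterval.volume_Iio, ENNReal.ofReal_eq_zero] at h2
    exact absurd h2 (not_le.2 (lt_min hg one_pos))

/-- Almost surely some block in the past has, for each edge of `Λ`, exactly one ring, with mark
below `g`. -/
theorem ae_sweep (Λ : Finset (Edge d)) {g : ℝ} (hg : 0 < g) : ∀ᵐ ω ∂clockLaw d,
    ∃ k : ℤ, k < 0 ∧ ∀ e ∈ Λ, (ω (e, k)).1 = 1 ∧ ((((ω (e, k)).2 0).2 : I) : ℝ) < g := by
  set B : Set Block := {b : Block | b.1 = 1 ∧ (((b.2 0).2 : I) : ℝ) < g} with hB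
  have hBm : MeasurableSet B :=
    (measurableSet_eq_fun measurable_fst measurable_const).inter
      (measurableSet_lt (f := fun b : Block => (((b.2 0).2 : I) : ℝ)) (by fun_prop)
        measurable_const)
  set ν : Measure (Λ → Block) := Measure.infinitePi fun _ => blockLaw with hν
  set E : Set (Λ → Block) := Set.pi ((Finset.univ : Finset Λ) : Set Λ) fun _ => B with hE
  have hEm : MeasurableSet E := .pi (Finset.countable_toSet _) fun _ _ => hBm
  have hEpos : ν E ≠ 0 := by
    rw [hν, hE, Measure.infinitePi_pi _ fun _ _ => hBm]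
    exact Finset.prod_ne_zero_iff.2 fun _ _ => poi_block_pos hg
  have hElt : ν Eᶜ < 1 := by
    rw [prob_compl_eq_one_sub hEm]
    exact ENNReal.sub_lt_self ENNReal.one_ne_top one_ne_zero hEpos
  let f : ℕ × Λ → Edge d × ℤ := fun p => (p.2.1, -1 - (p.1 : ℤ))
  have hf : Function.Injective f := by
    rintro ⟨n, e⟩ ⟨n', e'⟩ h
    simp only [f, Prod.mk.injEq] at h
    have h1 : n = n' := by omega
    rw [h1, Subtype.ext h.1]
  have hmp1 : MeasurePreserving (fun (ω : Om d) p => ω (f p)) (clockLaw d)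
      (Measure.infinitePi fun _ : ℕ × Λ => blockLaw) :=
    ⟨by fun_prop, Measure.map_infinitePi_infinitePi_of_inj hf⟩
  have hmp2 : MeasurePreserving (MeasurableEquiv.curry ℕ Λ Block)
      (Measure.infinitePi fun _ : ℕ × Λ => blockLaw) (Measure.infinitePi fun _ : ℕ => ν) :=
    ⟨MeasurableEquiv.measurable _, Measure.infinitePi_map_curry fun _ _ => blockLaw⟩
  have hmp := hmp2.comp hmp1
  have hN : ∀ N : ℕ, clockLaw d {ω | ¬ ∃ k : ℤ, k < 0 ∧ ∀ e ∈ Λ, (ω (e, k)).1 = 1 ∧
      ((((ω (e, k)).2 0).2 : I) : ℝ) < g} ≤ ν Eᶜ ^ N := by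
    intro N
    have hm : MeasurableSet (Set.pi ((Finset.range N : Finset ℕ) : Set ℕ) fun _ => Eᶜ) :=
      .pi (Finset.countable_toSet _) fun _ _ => hEm.compl
    have h1 := hmp.measure_preimage hm.nullMeasurableSet
    rw [Measure.infinitePi_pi _ fun _ _ => hEm.compl, Finset.prod_const, Finset.card_range] at h1
    rw [← h1]
    refine measure_mono fun ω hω n _ hn => hω ⟨-1 - (n : ℤ), by omega, fun e he => ?_⟩
    exact hn ⟨e, he⟩ (by simp)
  rw [ae_iff]
  exact le_antisymm (ge_of_tendsto' (ENNReal.tendsto_pow_atTop_nhds_zero_of_lt_one hElt) hN)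
    zero_le

end Pool.Agent.P.MP_d95e10_pr
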