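import Pool.Agent.P.MP_d95e10_pr.Shared

/-!
Resampling lemmas and the Mecke formula for the block model of the clocks.
-/

namespace Pool.Agent.P.MP_d95e10_pr

open MeasureTheory ProbabilityTheory Filter unitInterval
open scoped Classical ENNReal

variable {d : ℕ}

/-- Resampling one coordinate of an i.i.d. family preserves the law. -/
lemma poi_mp_update {ι X : Type*} [DecidableEq ι] [MeasurableSpace X] (μ : Measure X)
    [IsProbabilityMeasure μ] (c : ι) :
    MeasurePreserving (fun p : (ι → X) × X => Function.update p.1 c p.2)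
      ((Measure.infinitePi fun _ : ι => μ).prod μ) (Measure.infinitePi fun _ : ι => μ) := by
  have hm : Measurable (fun p : (ι → X) × X => Function.update p.1 c p.2) := measurable_update'
  refine ⟨hm, Measure.eq_infinitePi _ fun s t ht => ?_⟩
  rw [Measure.map_apply hm (.pi s.countable_toSet fun i _ => ht i)]
  by_cases hc : c ∈ s
  · have : (fun p : (ι → X) × X => Function.update p.1 c p.2) ⁻¹' (Set.pi (s : Set ι) t) =
        (Set.pi ((s.erase c : Finset ι) : Set ι) t) ×ˢ t c := by
      ext ⟨ω, x⟩
      simp only [Set.mem_preimage, Set.mem_pi, Finset.mem_coe, Set.mem_prod, Finset.mem_erase]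
      constructor
      · intro h
        refine ⟨fun i hi => ?_, ?_⟩
        · simpa [Function.update_of_ne hi.1] using h i hi.2
        · simpa using h c hc
      · rintro ⟨h1, h2⟩ i hi
        by_cases hic : i = c
        · subst hic; simpa using h2
        · simpa [Function.update_of_ne hic] using h1 i ⟨hic, hi⟩
    rw [this, Measure.prod_prod, Measure.infinitePi_pi _ fun i _ => ht i,
      Finset.prod_erase_mul _ _ hc]
  · have : (fun p : (ι → X) × X => Function.update p.1 c p.2) ⁻¹' (Set.pi (s : Set ι) t) =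
        (Set.pi (s : Set ι) t) ×ˢ Set.univ := by
      ext ⟨ω, x⟩
      simp only [Set.mem_preimage, Set.mem_pi, Finset.mem_coe, Set.mem_prod, Set.mem_univ,
        and_true]
      refine forall₂_congr fun i hi => ?_
      have hic : i ≠ c := fun h => hc (h ▸ hi)
      rw [Function.update_of_ne hic]
    rw [this, Measure.prod_prod, Measure.infinitePi_pi _ fun i _ => ht i, measure_univ, mul_one]

lemma poi_lintegral_update {ι X : Type*} [DecidableEq ι] [MeasurableSpace X] (μ : Measure X)
    [IsProbabilityMeasure μ] (c : ι) {G : (ι → X) → ℝ≥0∞} (hG : Measurable G) :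
    ∫⁻ ω, G ω ∂(Measure.infinitePi fun _ : ι => μ) =
      ∫⁻ ω, ∫⁻ b, G (Function.update ω c b) ∂μ ∂(Measure.infinitePi fun _ : ι => μ) := by
  rw [← (poi_mp_update μ c).lintegral_comp hG, lintegral_prod]
  exact (hG.comp measurable_update').aemeasurable

theorem measurable_setPt (j : Idx d) :
    Measurable fun p : Om d × (I × I) => setPt p.1 j p.2 := by
  unfold setPt
  have h1 : Measurable fun p : Om d × (I × I) => Function.update (p.1 j.1).2 j.2 p.2 :=
    measurable_update'.comp (f := fun p : Om d × (I × I) => ((p.1 j.1).2, p.2)) (by fun_prop)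
  exact measurable_update'.comp (f := fun p : Om d × (I × I) =>
    (p.1, (((p.1 j.1).1, Function.update (p.1 j.1).2 j.2 p.2) : Block)))
    (measurable_fst.prodMk (Measurable.prodMk (by fun_prop) h1))

theorem measurable_setMark (j : Idx d) :
    Measurable fun p : Om d × I => setMark p.1 j p.2 := by
  unfold setMark
  exact (measurable_setPt j).comp (f := fun p : Om d × I => (p.1, (((p.1 j.1).2 j.2).1, p.2)))
    (by fun_prop)

theorem measurable_rem (j : Idx d) : Measurable fun ω : Om d => rem ω j := by
  unfold rem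
  refine measurable_update'.comp (f := fun ω : Om d =>
    (ω, (((ω j.1).1 - 1, fun m => (ω j.1).2 (if m < j.2 then m else m + 1)) : Block))) ?_
  refine measurable_id.prodMk (Measurable.prodMk ?_ (by fun_prop))
  exact (measurable_from_top (f := fun n : ℕ => n - 1)).comp (by fun_prop)

theorem lintegral_update (c : Edge d × ℤ) {G : Om d → ℝ≥0∞} (hG : Measurable G) :
    ∫⁻ ω, G ω ∂clockLaw d =
      ∫⁻ ω, ∫⁻ b, G (Function.update ω c b) ∂blockLaw ∂clockLaw d :=
  poi_lintegral_update blockLaw c hG

/-- The law of one (position, mark) pair. -/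
noncomputable abbrev poiU : Measure (I × I) := (volume : Measure I).prod volume

/-- The law of the sequence of (position, mark) pairs. -/
noncomputable abbrev poiS : Measure (ℕ → I × I) := Measure.infinitePi fun _ : ℕ => poiU

lemma poi_block_setPt (i : ℕ) {F : Block → ℝ≥0∞} (hF : Measurable F) :
    ∫⁻ b, ∫⁻ x, F (b.1, Function.update b.2 i x) ∂poiU ∂blockLaw = ∫⁻ b, F b ∂blockLaw := by
  have hm : Measurable fun p : Block × (I × I) => F (p.1.1, Function.update p.1.2 i p.2) :=
    hF.comp (Measurable.prodMk (by fun_prop) (measurable_update'.comp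
      (f := fun p : Block × (I × I) => (p.1.2, p.2)) (by fun_prop)))
  unfold blockLaw
  rw [lintegral_prod _ hm.lintegral_prod_right'.aemeasurable, lintegral_prod _ hF.aemeasurable]
  refine lintegral_congr fun n => ?_
  exact (poi_lintegral_update poiU i (G := fun s => F (n, s))
    (hF.comp measurable_prodMk_left)).symm

lemma poi_setPt_update (ω : Om d) (j : Idx d) (b : Block) (x : I × I) :
    setPt (Function.update ω j.1 b) j x =
      Function.update ω j.1 (b.1, Function.update b.2 j.2 x) := by
  simp [setPt]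

theorem lintegral_setPt (j : Idx d) {G : Om d → ℝ≥0∞} (hG : Measurable G) :
    ∫⁻ ω, G ω ∂clockLaw d =
      ∫⁻ ω, ∫⁻ x, G (setPt ω j x) ∂((volume : Measure I).prod volume) ∂clockLaw d := by
  have h1 : Measurable fun ω : Om d => ∫⁻ x, G (setPt ω j x) ∂poiU :=
    (hG.comp (measurable_setPt j)).lintegral_prod_right'
  rw [lintegral_update j.1 h1, lintegral_update j.1 hG]
  refine lintegral_congr fun ω => ?_
  simp only [poi_setPt_update]
  exact (poi_block_setPt j.2 (F := fun b => G (Function.update ω j.1 b))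
    (hG.comp (measurable_update ω))).symm

lemma poi_setMark_setPt (ω : Om d) (j : Idx d) (x : I × I) (α : I) :
    setMark (setPt ω j x) j α = setPt ω j (x.1, α) := by
  simp [setMark, setPt]

theorem lintegral_setMark (j : Idx d) {G : Om d → ℝ≥0∞} (hG : Measurable G) :
    ∫⁻ ω, G ω ∂clockLaw d = ∫⁻ ω, ∫⁻ α, G (setMark ω j α) ∂volume ∂clockLaw d := by
  have h1 : Measurable fun ω : Om d => ∫⁻ α, G (setMark ω j α) ∂volume :=
    (hG.comp (measurable_setMark j)).lintegral_prod_right'
  rw [lintegral_setPt j h1, lintegral_setPt j hG]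
  refine lintegral_congr fun ω => ?_
  simp only [poi_setMark_setPt]
  have h2 : Measurable fun x : I × I => G (setPt ω j x) :=
    hG.comp ((measurable_setPt j).comp measurable_prodMk_left)
  have h3 : Measurable fun x : I × I => ∫⁻ α, G (setPt ω j (x.1, α)) ∂volume :=
    (h2.lintegral_prod_right' (ν := volume)).comp measurable_fst
  rw [lintegral_prod _ h2.aemeasurable, lintegral_prod _ h3.aemeasurable]
  simp

/-- Skipping the index `i`. -/
def poiSkip (i m : ℕ) : ℕ := if m < i then m else m + 1

lemma poiSkip_ne (i m : ℕ) : poiSkip i m ≠ i := by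
  unfold poiSkip; split_ifs <;> omega

lemma poiSkip_injective (i : ℕ) : Function.Injective (poiSkip i) := by
  intro a b h
  unfold poiSkip at h
  split_ifs at h <;> omega

theorem rings_rem' {ω : Om d} {j : Idx d} (hj : Act ω j) (e : Edge d) (τ : ℝ) (α : I) :
    Rings (rem ω j) e τ α ↔ ∃ j', j' ≠ j ∧ Act ω j' ∧ pt ω j' = (e, τ, α) := by
  obtain ⟨c, i⟩ := j
  rw [rings_iff]
  unfold Act at hj
  simp only at hj
  constructor
  · rintro ⟨⟨c', m⟩, h1, h2⟩
    by_cases hc : c' = c
    · subst hc
      refine ⟨(c', poiSkip i m), by simp [poiSkip_ne], ?_, ?_⟩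
      · simp only [Act, rem, Function.update_self] at h1 ⊢
        unfold poiSkip; split_ifs <;> omega
      · rw [← h2]; simp [pt, rem, poiSkip]
    · refine ⟨(c', m), by simp [hc], ?_, ?_⟩
      · simpa [Act, rem, Function.update_of_ne hc] using h1
      · rw [← h2]; simp [pt, rem, Function.update_of_ne hc]
  · rintro ⟨⟨c', m⟩, h0, h1, h2⟩
    by_cases hc : c' = c
    · subst hc
      have hm : m ≠ i := fun h => h0 (by rw [h])
      have hs : (if (if m < i then m else m - 1) < i then (if m < i then m else m - 1)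
          else (if m < i then m else m - 1) + 1) = m := by
        split_ifs <;> omega
      refine ⟨(c', if m < i then m else m - 1), ?_, ?_⟩
      · simp only [Act, rem, Function.update_self] at h1 ⊢
        split_ifs <;> omega
      · rw [← h2]; simp only [pt, rem, Function.update_self, hs]
    · refine ⟨(c', m), ?_, ?_⟩
      · simpa [Act, rem, Function.update_of_ne hc] using h1
      · rw [← h2]; simp [pt, rem, Function.update_of_ne hc]

/-- Removing a ring in use removes at most that point from the ring relation. -/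
theorem rings_rem {ω : Om d} {j : Idx d} (hj : Act ω j) (e : Edge d) (τ : ℝ) (α : I) :
    Rings ω e τ α ↔ Rings (rem ω j) e τ α ∨ pt ω j = (e, τ, α) := by
  rw [rings_rem' hj, rings_iff]
  constructor
  · rintro ⟨j', h1, h2⟩
    by_cases h : j' = j
    · subst h; exact Or.inr h2
    · exact Or.inl ⟨j', h, h1, h2⟩
  · rintro (⟨j', -, h1, h2⟩ | h)
    · exact ⟨j', h1, h2⟩
    · exact ⟨j, hj, h⟩

lemma poi_skip_law (i : ℕ) {F : (ℕ → I × I) × (I × I) → ℝ≥0∞} (hF : Measurable F) :
    ∫⁻ s, F (fun m => s (poiSkip i m), s i) ∂poiS = ∫⁻ s, ∫⁻ x, F (s, x) ∂poiU ∂poiS := by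
  have h1 : Measurable fun s : ℕ → I × I => F (fun m => s (poiSkip i m), s i) :=
    hF.comp (by fun_prop)
  rw [poi_lintegral_update poiU i h1]
  simp only [Function.update_self, Function.update_of_ne (poiSkip_ne i _)]
  have h2 : MeasurePreserving (fun (s : ℕ → I × I) m => s (poiSkip i m)) poiS poiS :=
    ⟨by fun_prop, Measure.map_infinitePi_infinitePi_of_inj (poiSkip_injective i)⟩
  exact h2.lintegral_comp (f := fun s => ∫⁻ x, F (s, x) ∂poiU) hF.lintegral_prod_right'

lemma poi_succ (m : ℕ) :
    ((m + 1 : ℕ) : ℝ≥0∞) * poissonMeasure 1 {m + 1} = poissonMeasure 1 {m} := by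
  rw [poissonMeasure_singleton, poissonMeasure_singleton, ← ENNReal.ofReal_natCast,
    ← ENNReal.ofReal_mul (by positivity)]
  congr 1
  rw [Nat.factorial_succ]
  push_cast
  field_simp
  simp

lemma poi_block_mecke {F : Block × (I × I) → ℝ≥0∞} (hF : Measurable F) :
    ∑' i : ℕ, ∫⁻ b, (if i < b.1 then F ((b.1 - 1, fun m => b.2 (poiSkip i m)), b.2 i) else 0)
      ∂blockLaw = ∫⁻ b, ∫⁻ x, F (b, x) ∂poiU ∂blockLaw := by
  set Φ : ℕ → ℝ≥0∞ := fun n => ∫⁻ s, ∫⁻ x, F ((n, s), x) ∂poiU ∂poiS with hΦ
  have h1 : ∀ i : ℕ, ∫⁻ b, (if i < b.1 then F ((b.1 - 1, fun m => b.2 (poiSkip i m)), b.2 i)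
      else 0) ∂blockLaw = ∑' n : ℕ, (if i < n then Φ (n - 1) else 0) * poissonMeasure 1 {n} := by
    intro i
    have hm : Measurable fun b : Block =>
        (if i < b.1 then F ((b.1 - 1, fun m => b.2 (poiSkip i m)), b.2 i) else 0) := by
      refine Measurable.ite (measurableSet_lt measurable_const measurable_fst) (hF.comp ?_)
        measurable_const
      refine Measurable.prodMk (Measurable.prodMk ?_ (by fun_prop)) (by fun_prop)
      exact (measurable_from_top (f := fun n : ℕ => n - 1)).comp measurable_fst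
    unfold blockLaw
    rw [lintegral_prod _ hm.aemeasurable, lintegral_countable']
    refine tsum_congr fun n => ?_
    congr 1
    by_cases hn : i < n
    · simp only [hn, if_true]
      exact poi_skip_law i (F := fun p => F ((n - 1, p.1), p.2)) (hF.comp (by fun_prop))
    · simp [hn]
  have h2 : ∫⁻ b, ∫⁻ x, F (b, x) ∂poiU ∂blockLaw = ∑' n : ℕ, Φ n * poissonMeasure 1 {n} := by
    unfold blockLaw
    rw [lintegral_prod _ hF.lintegral_prod_right'.aemeasurable, lintegral_countable']
  simp only [h1, h2]
  rw [ENNReal.tsum_comm]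
  have h3 : ∀ n : ℕ, ∑' i : ℕ, (if i < n then Φ (n - 1) else 0) * poissonMeasure 1 {n} =
      n * (Φ (n - 1) * poissonMeasure 1 {n}) := by
    intro n
    rw [tsum_eq_sum (s := Finset.range n) fun i hi => by
      rw [Finset.mem_range] at hi; simp [hi]]
    rw [Finset.sum_congr rfl (g := fun _ => Φ (n - 1) * poissonMeasure 1 {n}) fun i hi => by
      rw [Finset.mem_range] at hi; simp [hi]]
    simp
  simp only [h3]
  rw [tsum_eq_zero_add' ENNReal.summable]
  simp only [Nat.cast_zero, zero_mul, zero_add, Nat.add_sub_cancel]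
  refine tsum_congr fun m => ?_
  rw [← poi_succ m]; ring

lemma poi_tsum_unit {φ : ℝ → ℝ≥0∞} (hφ : Measurable φ) :
    ∑' k : ℤ, ∫⁻ u : I, φ (k + u) = ∫⁻ τ, φ τ := by
  have h1 : ∀ k : ℤ, ∫⁻ u : I, φ (k + u) = ∫⁻ τ in Set.Ioc (k : ℝ) (k + 1), φ τ := by
    intro k
    have h2 := unitInterval.measurePreserving_coe.lintegral_comp
      (f := fun t : ℝ => φ (k + t)) (hφ.comp (by fun_prop))
    rw [h2, unitInterval, ← setLIntegral_congr Ioc_ae_eq_Icc]
    have h3 := (measurePreserving_add_left (volume : Measure ℝ) (k : ℝ)).setLIntegral_comp_preimage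
      (s := Set.Ioc (k : ℝ) (k + 1)) measurableSet_Ioc hφ
    rw [← h3]
    congr 2
    ext t; simp
  simp only [h1]
  rw [← lintegral_iUnion (fun _ => measurableSet_Ioc) (Set.pairwise_disjoint_Ioc_intCast ℝ),
    iUnion_Ioc_intCast, Measure.restrict_univ]

/-- Mecke formula. -/
theorem mecke {H : Om d × Pt d → ℝ≥0∞} (hH : Measurable H) :
    ∫⁻ ω, ∑' j : Idx d, (if Act ω j then H (rem ω j, pt ω j) else 0) ∂clockLaw d =
      ∫⁻ ω, ∑' e : Edge d, ∫⁻ τ : ℝ, ∫⁻ α : I, H (ω, (e, τ, α)) ∂volume ∂volume
        ∂clockLaw d := by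
  have hm : ∀ j : Idx d, Measurable fun ω : Om d =>
      (if Act ω j then H (rem ω j, pt ω j) else 0) := fun j =>
    Measurable.ite (measurableSet_setOfPred.2 (measurable_act j))
      (hH.comp ((measurable_rem j).prodMk (measurable_pt j))) measurable_const
  have hK : ∀ c : Edge d × ℤ, Measurable fun p : Om d × (I × I) =>
      H (p.1, (c.1, (c.2 : ℝ) + p.2.1, p.2.2)) := fun c => hH.comp (by fun_prop)
  have hc : ∀ c : Edge d × ℤ,
      ∑' i : ℕ, ∫⁻ ω, (if Act ω (c, i) then H (rem ω (c, i), pt ω (c, i)) else 0) ∂clockLaw d =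
      ∫⁻ ω, ∫⁻ x, H (ω, (c.1, (c.2 : ℝ) + x.1, x.2)) ∂poiU ∂clockLaw d := by
    intro c
    rw [lintegral_update c (hK c).lintegral_prod_right']
    simp only [fun i => lintegral_update c (hm (c, i))]
    have hm2 : ∀ i : ℕ, Measurable fun ω : Om d => ∫⁻ b, (if Act (Function.update ω c b) (c, i)
        then H (rem (Function.update ω c b) (c, i), pt (Function.update ω c b) (c, i)) else 0)
        ∂blockLaw := fun i =>
      ((hm (c, i)).comp (measurable_update' (a := c))).lintegral_prod_right'
    rw [← lintegral_tsum fun i => (hm2 i).aemeasurable]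
    refine lintegral_congr fun ω => ?_
    have := poi_block_mecke (F := fun p : Block × (I × I) =>
      H (Function.update ω c p.1, (c.1, (c.2 : ℝ) + p.2.1, p.2.2)))
      ((hK c).comp (f := fun p : Block × (I × I) => (Function.update ω c p.1, p.2))
        (((measurable_update ω).comp measurable_fst).prodMk measurable_snd))
    rw [← this]
    refine tsum_congr fun i => lintegral_congr fun b => ?_
    simp [Act, rem, pt, poiSkip]
  rw [lintegral_tsum fun j => (hm j).aemeasurable, ENNReal.tsum_prod']
  simp only [hc]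
  rw [← lintegral_tsum fun c => (hK c).lintegral_prod_right'.aemeasurable]
  refine lintegral_congr fun ω => ?_
  rw [ENNReal.tsum_prod']
  refine tsum_congr fun e => ?_
  have hφ : Measurable fun τ : ℝ => ∫⁻ α : I, H (ω, (e, τ, α)) :=
    Measurable.lintegral_prod_right' (f := fun p : ℝ × I => H (ω, (e, p.1, p.2)))
      (hH.comp (by fun_prop))
  rw [← poi_tsum_unit hφ]
  refine tsum_congr fun k => ?_
  exact lintegral_prod _ ((hK (e, k)).comp measurable_prodMk_left).aemeasurable

end Pool.Agent.P.MP_d95e10_pr
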