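import Pool.Agent.P.MP_d95e10_pr.Shared2

/-!
Adding one ring: exceptional vertices may be assumed to be adjacent to the infinite cluster.
-/

namespace Pool.Agent.P.MP_d95e10_pr

open MeasureTheory ProbabilityTheory Filter Topology unitInterval
open scoped Classical ENNReal

variable {d : ℕ} {q p : ℝ}

lemma ae_no_ring_zero : ∀ᵐ ω ∂clockLaw d, ∀ e α, ¬ Rings ω e 0 α := by
  filter_upwards [ae_distinct] with ω hω e α h
  obtain ⟨j, -, hj⟩ := rings_iff.1 h
  have := hω.2 j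
  simp only [hj] at this
  have h1 : j.1.2 < 0 := by exact_mod_cast this.1
  have h2 : 0 < j.1.2 + 1 := by exact_mod_cast this.2
  omega

lemma lf_addPt {R : Rel d} (hR : LF R) (x : Pt d) : LF (TS.addPt R x) := by
  intro Λ a b
  refine ((hR Λ a b).insert x.2.1).subset ?_
  rintro τ ⟨h1, h2, e, he, α, h | h⟩
  · exact Or.inr ⟨h1, h2, e, he, α, h⟩
  · exact Or.inl (by rw [h])

lemma addPt_rem {ω : Om d} {j : Idx d} (hj : Act ω j) :
    TS.addPt (Rings (rem ω j)) (pt ω j) = Rings ω := by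
  funext e τ α
  exact propext (rings_rem hj e τ α).symm

lemma vol_lt {g : ℝ} (hg0 : 0 ≤ g) (hg1 : g ≤ 1) :
    volume {α : I | (α : ℝ) < g} = ENNReal.ofReal g :=
  unitInterval.volume_Iio ⟨g, hg0, hg1⟩

lemma ae_addPt (hq : 1 ≤ q) {A : Set (Conf d)} (hA : MeasurableSet A)
    (h : ∀ᵐ ω ∂clockLaw d, zt q ω ∉ A) (f : Edge d) :
    ∀ᵐ ω ∂clockLaw d, ∀ᵐ τ : ℝ, ∀ᵐ α : I, zeta q (TS.addPt (Rings ω) (f, τ, α)) 0 ∉ A := by
  set H : Om d × Pt d → ℝ≥0∞ := fun y => A.indicator 1 (zeta q (TS.addPt (Rings y.1) y.2) 0)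
  have hH : Measurable H := (measurable_one.indicator hA).comp (measurable_zeta_addPt hq 0)
  have h1 := mecke hH
  rw [lintegral_congr_ae (g := fun _ => 0), lintegral_zero] at h1
  · have h2 : ∫⁻ ω, ∫⁻ τ : ℝ, ∫⁻ α : I, H (ω, (f, τ, α)) ∂volume ∂volume ∂clockLaw d = 0 :=
      le_antisymm (h1 ▸ lintegral_mono fun ω => ENNReal.le_tsum (f := fun e =>
        ∫⁻ τ : ℝ, ∫⁻ α : I, H (ω, (e, τ, α)) ∂volume ∂volume) f) zero_le
    have m1 : Measurable fun y : (Om d × ℝ) × I => H (y.1.1, (f, y.1.2, y.2)) :=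
      hH.comp (by fun_prop)
    have m2 : Measurable fun y : Om d × ℝ => ∫⁻ α : I, H (y.1, (f, y.2, α)) :=
      m1.lintegral_prod_right'
    rw [lintegral_eq_zero_iff m2.lintegral_prod_right'] at h2
    filter_upwards [h2] with ω hω
    have h3 := (lintegral_eq_zero_iff (m2.comp measurable_prodMk_left)).1 hω
    filter_upwards [h3] with τ hτ
    have h4 := (lintegral_eq_zero_iff (m1.comp (measurable_prodMk_left (x := (ω, τ))))).1 hτ
    filter_upwards [h4] with α hα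
    simpa [H] using hα
  · filter_upwards [h] with ω hω
    refine ENNReal.tsum_eq_zero.2 fun j => ?_
    split_ifs with hj
    · simp only [H, addPt_rem hj]
      exact Set.indicator_of_notMem hω _
    · rfl

theorem exc_null_of_adj (hd : 1 ≤ d) (hq : 1 ≤ q) (hp0 : 0 < p) (hp1 : p ≤ 1)
    (huniq : ∀ᵐ ω ∂clockLaw d, Uniq (lev (zt q ω) p))
    (hex : ∀ᵐ ω ∂clockLaw d, ∃ x, InfAt (lev (zt q ω) p) x)
    (h : ∀ e b c, Joins e b c → ∀ᵐ ω ∂clockLaw d,
      ¬ (Exc (zt q ω) p b ∧ InfAt (lev (zt q ω) p) c)) (y : Vtx d) :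
    ∀ᵐ ω ∂clockLaw d, ¬ Exc (zt q ω) p y := by
  have key : ∀ c, ∀ᵐ ω ∂clockLaw d, ¬ (Exc (zt q ω) p y ∧ InfAt (lev (zt q ω) p) c) := by
    intro c
    refine Conn.induction (P := fun c => ∀ᵐ ω ∂clockLaw d,
      ¬ (Exc (zt q ω) p y ∧ InfAt (lev (zt q ω) p) c))
      (.of_forall fun ω h => h.1.not_infAt h.2) ?_ (conn_univ y c)
    intro z x f _ hf _ ih
    have hA : MeasurableSet {v : Conf d | Exc v p y ∧ InfAt (lev v p) z} :=
      measurableSet_setOfPred.2 ((measurable_exc measurable_id p y).and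
        (measurable_infAt (measurable_lev measurable_id p) z))
    filter_upwards [ih, h f z x hf, huniq, ae_no_ring_zero, ae_addPt hq hA ih f]
      with ω h1 h2 h3 h4 h5
    rintro ⟨hy, hx⟩
    have hz : ¬ Exc (zt q ω) p z := fun h => h2 ⟨h, hx⟩
    obtain ⟨S, γ, hzS, hxS, hγ, hb, hp⟩ := exists_cut hd hp0 hz (fun h => h1 ⟨hy, h⟩) hx h3
    obtain ⟨u, -, hu0, hu⟩ := exists_gap' (lf_rings ω) (γ ∪ S.biUnion nbrE)
      (show (-1 : ℝ) < 0 by norm_num)
    obtain ⟨τ, hτ, h6⟩ := Measure.exists_mem_of_measure_ne_zero_of_ae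
      (s := Set.Ioo u 0) (by simpa using hu0) (ae_restrict_of_ae h5)
    have hg := gq_pos hq hp0 hp1
    obtain ⟨α, hα, h7⟩ := Measure.exists_mem_of_measure_ne_zero_of_ae
      (s := {α : I | (α : ℝ) < gq q p})
      (by rw [vol_lt hg.le ((gq_le hq hp0 hp1).trans hp1)]; simpa using hg) (ae_restrict_of_ae h6)
    have hno : ∀ g, (g ∈ γ ∨ ∃ u ∈ (S : Set (Vtx d)), Touches g u) → ∀ w, τ ≤ w → w ≤ 0 →
        ∀ β, ¬ Rings ω g w β := by
      intro g hg w hw1 hw2 β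
      rcases hw2.lt_or_eq with hw | rfl
      · refine hu g ?_ w (hτ.1.trans_le hw1) hw β
        rcases hg with hg | ⟨a, ha, hg⟩
        · exact Finset.mem_union_left _ hg
        · exact Finset.mem_union_right _ (Finset.mem_biUnion.2 ⟨a, ha, mem_nbrE.2 hg⟩)
      · exact h4 g β
    have hR' := lf_addPt (lf_rings ω) (f, τ, α)
    have hsame : ∀ e ≠ f, zeta q (TS.addPt (Rings ω) (f, τ, α)) 0 e = zt q ω e := fun e he =>
      no_influence hq (lf_rings ω) hR' (fun _ _ _ => Iff.rfl) hα hτ.2.le hf hzS hxS hγ hb hp hno he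
    have hsmall : (zeta q (TS.addPt (Rings ω) (f, τ, α)) 0 f : ℝ) < p := by
      refine zeta_small hq hR' hp1 hτ.2.le (Or.inr rfl) hα ?_
      rintro w hw1 hw2 β (h | h)
      · exact hno f (Or.inr ⟨z, hzS, hf.touches_left⟩) w hw1.le hw2 β h
      · exact hw1.ne (Prod.mk.inj (Prod.mk.inj h).2).1
    refine h7 ⟨hy.of_change hd hf hz hx hsame, (hx.mono fun e he => ?_).of_conn
      (Conn.of_joins hsmall hf.symm)⟩
    by_cases hef : e = f
    · subst hef; exact hsmall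
    · rw [mem_lev, hsame e hef]; exact he
  filter_upwards [ae_all_iff.2 key, hex] with ω h1 ⟨x, hx⟩ hy
  exact h1 x ⟨hy, hx⟩

end Pool.Agent.P.MP_d95e10_pr
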