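import Pool.Agent.P.MP_d95e10_pr.Reduction

/-!
Selection of a finite set in which many vertices of the first cluster are good, and the bound on
recent rings.
-/

namespace Pool.Agent.P.MP_d95e10_pr

open MeasureTheory ProbabilityTheory Filter Topology unitInterval
open scoped Classical ENNReal

variable {d : ℕ} {q p : ℝ}

lemma laminar_cover {V : Type*} [DecidableEq V] (K : V → Finset V) (G : V → Prop)
    [DecidablePred G] (ε : ℝ) (T : Finset V)
    (hlam : ∀ y ∈ T, ∀ y' ∈ T, K y ⊆ K y' ∨ K y' ⊆ K y ∨ Disjoint (K y) (K y'))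
    (h : ∀ y ∈ T, (((K y).filter G).card : ℝ) ≤ ε * (K y).card) :
    (((T.biUnion K).filter G).card : ℝ) ≤ ε * (T.biUnion K).card := by
  induction T using Finset.strongInduction with
  | H T ih =>
    rcases T.eq_empty_or_nonempty with rfl | hT
    · simp
    obtain ⟨y, hy, hmax⟩ := T.exists_max_image (fun y => (K y).card) hT
    set T' := (T.erase y).filter fun y' => Disjoint (K y) (K y') with hT'
    have hsub : T' ⊆ T := (Finset.filter_subset _ _).trans (Finset.erase_subset _ _)
    have hss : T' ⊂ T := ⟨hsub, fun h => by simpa [hT'] using h hy⟩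
    have hU : T.biUnion K = K y ∪ T'.biUnion K := by
      refine Finset.Subset.antisymm (Finset.biUnion_subset.2 fun y' hy' => ?_)
        (Finset.union_subset (Finset.subset_biUnion_of_mem K hy)
          (Finset.biUnion_subset_biUnion_of_subset_left K hsub))
      rcases hlam y hy y' hy' with h | h | h
      · rw [← Finset.eq_of_subset_of_card_le h (hmax y' hy')]
        exact Finset.subset_union_left
      · exact h.trans Finset.subset_union_left
      · by_cases h1 : y' = y
        · rw [h1]; exact Finset.subset_union_left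
        · exact (Finset.subset_biUnion_of_mem K (show y' ∈ T' by simp [hT', h1, hy', h])).trans
            Finset.subset_union_right
    have hdis : Disjoint (K y) (T'.biUnion K) :=
      (Finset.disjoint_biUnion_right _ _ _).2 fun y' hy' => (Finset.mem_filter.1 hy').2
    have h1 := ih T' hss (fun a ha b hb => hlam a (hsub ha) b (hsub hb)) fun a ha => h a (hsub ha)
    have h2 := h y hy
    have h3 := Finset.card_union_le ((K y).filter G) ((T'.biUnion K).filter G)
    rw [hU, Finset.filter_union, Finset.card_union_of_disjoint hdis]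
    push_cast
    have h4 : (((K y).filter G ∪ (T'.biUnion K).filter G).card : ℝ) ≤
      ((K y).filter G).card + ((T'.biUnion K).filter G).card := by exact_mod_cast h3
    linarith

lemma measurable_card_filter {V : Type*} (T : Finset V) {A : Om d → V → Prop}
    [∀ ω, DecidablePred (A ω)] (hA : ∀ y, Measurable fun ω => A ω y) :
    Measurable fun ω => ((T.filter (A ω)).card : ℝ) := by
  simp only [Finset.card_filter]
  push_cast
  exact T.measurable_sum fun y _ =>
    .ite (measurableSet_setOfPred.2 (hA y)) measurable_const measurable_const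

lemma integrable_card_filter {V : Type*} (T : Finset V) {A : Om d → V → Prop}
    [∀ ω, DecidablePred (A ω)] (hA : ∀ y, Measurable fun ω => A ω y) :
    Integrable (fun ω => ((T.filter (A ω)).card : ℝ)) (clockLaw d) :=
  .of_bound (measurable_card_filter T hA).aestronglyMeasurable T.card (.of_forall fun ω => by
    simpa using Finset.card_filter_le T (A ω))

lemma integral_card_filter {V : Type*} (T : Finset V) {A : Om d → V → Prop}
    [∀ ω, DecidablePred (A ω)] (hA : ∀ y, Measurable fun ω => A ω y) :
    ∫ ω, ((T.filter (A ω)).card : ℝ) ∂clockLaw d = ∑ y ∈ T, (clockLaw d).real {ω | A ω y} := by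
  have : ∀ ω, ((T.filter (A ω)).card : ℝ) = ∑ y ∈ T, {ω | A ω y}.indicator 1 ω := by
    intro ω
    simp only [Finset.card_filter, Set.indicator_apply, Set.mem_ofPred_eq, Pi.one_apply]
    push_cast
    congr
  simp only [this]
  rw [integral_finsetSum _ fun y _ =>
    (integrable_const 1).indicator (measurableSet_setOfPred.2 (hA y))]
  exact Finset.sum_congr rfl fun y _ => integral_indicator_one (measurableSet_setOfPred.2 (hA y))

lemma exists_box_ratio (d R : ℕ) {δ : ℝ} (hδ : 0 < δ) :
    ∃ N, ((box d (N + R)).card : ℝ) - (box d N).card ≤ δ * (box d (N + R)).card := by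
  have h1 : Tendsto (fun N : ℕ => (1 - 2 * R * (1 / (2 * ((N : ℝ) + R) + 1))) ^ d) atTop
      (𝓝 ((1 - 2 * R * 0) ^ d)) := by
    refine (tendsto_const_nhds.sub (tendsto_const_nhds.mul ?_)).pow d
    refine tendsto_const_nhds.div_atTop (tendsto_atTop_add_const_right _ _
      (Tendsto.const_mul_atTop two_pos (tendsto_atTop_add_const_right _ _
        tendsto_natCast_atTop_atTop)))
  obtain ⟨N, hN⟩ := (h1.eventually (lt_mem_nhds (show 1 - δ < _ by simpa using hδ))).exists
  refine ⟨N, ?_⟩
  have h2 : (0 : ℝ) < 2 * ((N : ℝ) + R) + 1 := by positivity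
  have h3 : 1 - 2 * R * (1 / (2 * ((N : ℝ) + R) + 1)) = (2 * N + 1) / (2 * ((N : ℝ) + R) + 1) := by
    field_simp; ring
  rw [h3, div_pow, lt_div_iff₀ (pow_pos h2 d)] at hN
  simp only [card_box]
  push_cast
  linarith

/-- The good event. -/
def Dense (q p ε : ℝ) (G : Om d → Vtx d → Prop) (B : Finset (Vtx d)) (y : Vtx d) (ω : Om d) :
    Prop :=
  Exc (zt q ω) p y ∧ ε * (KF (zt q ω) B y).card ≤ ((KF (zt q ω) B y).filter (G ω)).card

lemma measurable_dense (hq : 1 ≤ q) (ε : ℝ) {G : Om d → Vtx d → Prop}
    (hG : ∀ y, Measurable fun ω => G ω y) (B : Finset (Vtx d)) (y : Vtx d) :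
    Measurable (Dense q p ε G B y) := by
  have : Dense q p ε G B y = fun ω => Exc (zt q ω) p y ∧ ∃ K, KF (zt q ω) B y = K ∧
      ε * K.card ≤ (K.filter (G ω)).card := by
    funext ω; simp [Dense]
  rw [this]
  exact (measurable_exc (measurable_zt hq) p y).and (.exists fun K =>
    (measurableSet_KF_eq (measurable_zt hq) B y K).and (measurableSet_setOfPred.1
      (measurableSet_le measurable_const (measurable_card_filter K hG))))

theorem exists_dense (hd : 1 ≤ d) (hq : 1 ≤ q) {G : Om d → Vtx d → Prop}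
    (hG : ∀ y, Measurable fun ω => G ω y) (hGs : ∀ z ω y, G (shiftO z ω) y ↔ G ω (y + z))
    (R : ℕ) {b : ℝ} (hb0 : 0 < b) (hb : (clockLaw d).real {ω | Exc (zt q ω) p 0 ∧ G ω 0} = b) :
    ∃ B : Finset (Vtx d), box d R ⊆ B ∧
      b / 4 ≤ (clockLaw d).real {ω | Dense q p (b / 2) G B 0 ω} := by
  obtain ⟨N, hN⟩ := exists_box_ratio d R (show 0 < b / 4 by positivity)
  set B := box d (N + R) with hB
  have hQ : box d N ⊆ B := box_mono (by simp)
  have hm : ∀ y, Measurable fun ω => Exc (zt q ω) p y ∧ G ω y := fun y =>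
    (measurable_exc (measurable_zt hq) p y).and (hG y)
  have h1 : ∀ ω, ((B.filter fun y => Exc (zt q ω) p y ∧ G ω y).card : ℝ) ≤
      (((box d N).filter fun y => Dense q p (b / 2) G B y ω).card : ℝ) + 3 * b / 4 * B.card := by
    intro ω
    set T := B.filter fun y => ¬ b / 2 * (KF (zt q ω) B y).card ≤
      ((KF (zt q ω) B y).filter (G ω)).card with hT
    have h2 := laminar_cover (KF (zt q ω) B) (G ω) (b / 2) T (fun y hy y' hy' => by
      have hy := (Finset.mem_filter.1 hy).1
      have hy' := (Finset.mem_filter.1 hy').1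
      have e1 : ∀ y ∈ B, (KF (zt q ω) B y : Set (Vtx d)) = KB (zt q ω) B y := fun y hy =>
        Set.ext fun z => mem_KF hd hy
      simp only [← Finset.coe_subset, ← Finset.disjoint_coe, e1 y hy, e1 y' hy']
      exact KB_laminar hd hy hy') fun y hy => (not_le.1 (Finset.mem_filter.1 hy).2).le
    have h3 : ((T.biUnion (KF (zt q ω) B)).card : ℝ) ≤ B.card := by
      exact_mod_cast Finset.card_le_card (Finset.biUnion_subset.2 fun y _ =>
        Finset.filter_subset _ _)
    have h4 : (B.filter fun y => Exc (zt q ω) p y ∧ G ω y) ⊆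
        ((box d N).filter fun y => Dense q p (b / 2) G B y ω) ∪
          ((T.biUnion (KF (zt q ω) B)).filter (G ω) ∪ B \ box d N) := by
      intro y hy
      obtain ⟨hyB, hy1, hy2⟩ := Finset.mem_filter.1 hy
      simp only [Finset.mem_union, Finset.mem_filter, Finset.mem_sdiff, Finset.mem_biUnion]
      by_cases hyT : y ∈ T
      · exact Or.inr (Or.inl ⟨⟨y, hyT, (mem_KF hd hyB).2 self_mem_KB⟩, hy2⟩)
      · by_cases hyQ : y ∈ box d N
        · exact Or.inl ⟨hyQ, hy1, by simpa [hT, hyB] using hyT⟩
        · exact Or.inr (Or.inr ⟨hyB, hyQ⟩)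
    have h5 := (Finset.card_le_card h4).trans ((Finset.card_union_le _ _).trans
      (Nat.add_le_add_left (Finset.card_union_le _ _) _))
    have h6 : ((B \ box d N).card : ℝ) = B.card - (box d N).card := by
      rw [Finset.card_sdiff_of_subset hQ, Nat.cast_sub (Finset.card_le_card hQ)]
    have h7 := (Nat.cast_le (α := ℝ)).2 h5
    push_cast at h7
    nlinarith
  have hD := fun y => measurable_dense (p := p) hq (b / 2) hG B y
  have h2 := integral_mono (integrable_card_filter B (A := fun ω y => Exc (zt q ω) p y ∧ G ω y) hm)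
    ((integrable_card_filter (box d N) (A := fun ω y => Dense q p (b / 2) G B y ω) hD).add
      (integrable_const _)) h1
  rw [integral_add' (integrable_card_filter (box d N)
    (A := fun ω y => Dense q p (b / 2) G B y ω) hD) (integrable_const _),
    integral_card_filter B (A := fun ω y => Exc (zt q ω) p y ∧ G ω y) hm,
    integral_card_filter (box d N) (A := fun ω y => Dense q p (b / 2) G B y ω) hD] at h2
  have h3 : ∀ y, (clockLaw d).real {ω | Exc (zt q ω) p y ∧ G ω y} = b := by
    intro y
    rw [← hb, ← (measurePreserving_shiftO y).measureReal_preimage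
      (measurableSet_setOfPred.2 (hm 0)).nullMeasurableSet]
    simp [zt_shift hq, exc_shift, hGs]
  simp only [h3, Finset.sum_const, nsmul_eq_mul, integral_const, probReal_univ, smul_eq_mul,
    one_mul] at h2
  have h4 : ((box d N).card : ℝ) ≤ B.card := by exact_mod_cast Finset.card_le_card hQ
  obtain ⟨y, hy, h5⟩ := Finset.exists_le_of_sum_le (s := box d N) (f := fun _ => b / 4)
    (g := fun y => (clockLaw d).real {ω | Dense q p (b / 2) G B y ω})
    ⟨0, mem_box.2 (by simp)⟩ (by simp only [Finset.sum_const, nsmul_eq_mul]; nlinarith)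
  have hB' : (B.image (· - y)).image (· + y) = B := by
    rw [Finset.image_image]; simp [Function.comp_def]
  refine ⟨B.image (· - y), fun c hc => (mem_image_add (z := y)).1 ?_, h5.trans_eq ?_⟩
  · rw [hB']
    refine mem_box.2 fun i => ?_
    have := mem_box.1 hc i
    have := mem_box.1 hy i
    have := abs_add_le (c i) (y i)
    simp only [Pi.add_apply]
    push_cast
    linarith
  · rw [← (measurePreserving_shiftO y).measureReal_preimage (measurableSet_setOfPred.2
      (measurable_dense hq (b / 2) hG (B.image (· - y)) 0)).nullMeasurableSet]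
    congr 1
    ext ω
    have h6 := KF_shift (v := zt q ω) (B := B.image (· - y)) (y := 0) y
    rw [hB', zero_add] at h6
    simp only [Dense, Set.mem_ofPred_eq, Set.mem_preimage, zt_shift hq, exc_shift, zero_add, h6,
      Finset.filter_image, Finset.card_image_of_injective _ (add_left_injective y), hGs]

/-! ### Recent rings -/

lemma mecke_window {A : Set (Om d)} (hA : MeasurableSet A) (Λ : Finset (Edge d)) (a b : ℝ) :
    ∫⁻ ω, ∑' j : Idx d, (if Act ω j ∧ rem ω j ∈ A ∧ (pt ω j).1 ∈ Λ ∧ (pt ω j).2.1 ∈ Set.Ioc a b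
      then 1 else 0) ∂clockLaw d = clockLaw d A * (Λ.card * ENNReal.ofReal (b - a)) := by
  have hH : Measurable fun y : Om d × Pt d =>
      if y.1 ∈ A ∧ y.2.1 ∈ Λ ∧ y.2.2.1 ∈ Set.Ioc a b then (1 : ℝ≥0∞) else 0 :=
    .ite ((measurable_fst hA).inter ((measurable_snd.fst Λ.finite_toSet.measurableSet).inter
      (measurable_snd.snd.fst measurableSet_Ioc))) measurable_const measurable_const
  have := mecke hH
  simp only [ite_and] at this ⊢
  rw [this, ← lintegral_indicator_one hA, ← lintegral_mul_const _ (measurable_one.indicator hA)]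
  refine lintegral_congr fun ω => ?_
  by_cases hω : ω ∈ A
  · simp only [hω, if_true, Set.indicator_of_mem, Pi.one_apply, one_mul]
    rw [tsum_eq_sum (s := Λ) fun e he => by simp [he], Finset.sum_congr rfl
      (g := fun _ => ENNReal.ofReal (b - a)), Finset.sum_const, nsmul_eq_mul]
    intro e he
    simp only [he, if_true]
    rw [← Real.volume_Ioc, ← lintegral_indicator_one measurableSet_Ioc]
    refine lintegral_congr fun τ => ?_
    by_cases hτ : τ ∈ Set.Ioc a b <;> simp [hτ, -Set.mem_Ioc]
  · simp [hω]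

/-- Some edge touching `K` rings in `(-h, 0]`. -/
def Recent (K : Finset (Vtx d)) (h : ℝ) (ω : Om d) : Prop :=
  ∃ j, Act ω j ∧ (pt ω j).1 ∈ K.biUnion nbrE ∧ (pt ω j).2.1 ∈ Set.Ioc (-h) 0

lemma measurable_recent (K : Finset (Vtx d)) (h : ℝ) : Measurable (Recent K h) :=
  .exists fun j => (measurable_act j).and ((measurableSet_setOfPred.1
    ((measurable_pt j).fst (K.biUnion nbrE).finite_toSet.measurableSet)).and
      (measurableSet_setOfPred.1 ((measurable_pt j).snd.fst measurableSet_Ioc)))

lemma not_rings_of_not_recent {K : Finset (Vtx d)} {h : ℝ} {ω : Om d} (hω : ¬ Recent K h ω)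
    {e : Edge d} {c : Vtx d} (hc : c ∈ K) (he : Touches e c) {τ : ℝ} (h1 : -h < τ) (h2 : τ ≤ 0)
    (α : I) : ¬ Rings ω e τ α := by
  intro hr
  obtain ⟨j, hj, hp⟩ := rings_iff.1 hr
  exact hω ⟨j, hj, by rw [hp]; exact Finset.mem_biUnion.2 ⟨c, hc, mem_nbrE.2 he⟩,
    by rw [hp]; exact ⟨h1, h2⟩⟩

lemma recent_le (hd : 1 ≤ d) (hq : 1 ≤ q) {B : Finset (Vtx d)} (h0 : 0 ∈ B) (K : Finset (Vtx d))
    {h : ℝ} (hh : 0 ≤ h) : clockLaw d {ω | KF (zt q ω) B 0 = K ∧ Recent K h ω} ≤
      clockLaw d {ω | KF (zt q ω) B 0 = K} * ENNReal.ofReal (2 * d * K.card * h) := by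
  set A := {ω : Om d | KF (zeta q (Rings ω) (-h)) B 0 = K} with hA
  set A₀ := {ω : Om d | KF (zt q ω) B 0 = K} with hA₀
  set E := {ω : Om d | Recent K h ω} with hE
  have mA : MeasurableSet A := measurableSet_setOfPred.2
    (measurableSet_KF_eq (measurable_zeta hq _) B 0 K)
  have mE : MeasurableSet E := measurableSet_setOfPred.2 (measurable_recent K h)
  have h1 : clockLaw d A = clockLaw d A₀ := by
    have m : MeasurableSet {v : Conf d | KF v B 0 = K} := measurableSet_setOfPred.2
      (measurableSet_KF_eq measurable_id B 0 K)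
    have := congrArg (· {v : Conf d | KF v B 0 = K}) (map_zeta (d := d) hq (-h))
    simpa only [Measure.map_apply (measurable_zeta hq _) m, Measure.map_apply (measurable_zt hq) m]
  have h2 : A \ E = A₀ \ E := by
    ext ω
    refine and_congr_left fun hω => ?_
    have key : ∀ c ∈ K, ∀ e, Touches e c → zt q ω e = zeta q (Rings ω) (-h) e :=
      fun c hc e he => zeta_frozen hq (lf_rings ω) (by linarith) fun τ h1 h2 =>
        not_rings_of_not_recent hω hc he h1 h2
    constructor
    · intro (h3 : KF _ B 0 = K)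
      show KF _ B 0 = K
      rw [KF, KB_local hd h0 fun e c hc he => key c (h3 ▸ (mem_KF hd h0).2 hc) e he]
      exact h3
    · intro (h3 : KF _ B 0 = K)
      show KF _ B 0 = K
      rw [KF, KB_local hd h0 fun e c hc he => (key c (h3 ▸ (mem_KF hd h0).2 hc) e he).symm]
      exact h3
  have h3 : clockLaw d (A₀ ∩ E) = clockLaw d (A ∩ E) := by
    have e1 := measure_inter_add_sdiff (μ := clockLaw d) A₀ mE
    have e2 := measure_inter_add_sdiff (μ := clockLaw d) A mE
    rw [h2, h1, ← e1] at e2
    exact ((ENNReal.add_left_inj (measure_ne_top _ _)).1 e2).symm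
  calc clockLaw d (A₀ ∩ E) = ∫⁻ ω, (A ∩ E).indicator 1 ω ∂clockLaw d := by
        rw [h3, lintegral_indicator_one (mA.inter mE)]
    _ ≤ _ := lintegral_mono fun ω => ?_
    _ = _ := mecke_window mA (K.biUnion nbrE) (-h) 0
    _ ≤ _ := ?_
  · by_cases hω : ω ∈ A ∩ E
    · obtain ⟨j, hj1, hj2, hj3⟩ := hω.2
      refine le_trans ?_ (ENNReal.le_tsum j)
      refine le_of_eq ((Set.indicator_of_mem hω _).trans (if_pos ⟨hj1, ?_, hj2, hj3⟩).symm)
      show KF _ B 0 = K
      rw [zeta_congr (lf_rings _) (lf_rings ω)]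
      · exact hω.1
      · intro e τ hτ α
        rw [rings_rem hj1]
        refine ⟨Or.inl, fun h => h.resolve_right fun h => ?_⟩
        rw [h] at hj3
        exact absurd hj3.1 (not_lt.2 hτ)
    · simp [hω]
  · rw [h1]
    gcongr
    rw [ENNReal.ofReal_mul (by positivity), sub_neg_eq_add, zero_add]
    gcongr
    have : (K.biUnion nbrE).card ≤ 2 * d * K.card :=
      (Finset.card_biUnion_le_card_mul _ _ _ fun a _ => card_nbrE a).trans_eq (mul_comm _ _)
    rw [← ENNReal.ofReal_natCast]
    exact ENNReal.ofReal_le_ofReal (by exact_mod_cast this)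

theorem age_bound (hd : 1 ≤ d) (hq : 1 ≤ q) {B : Finset (Vtx d)} (h0 : 0 ∈ B) {c : ℝ}
    (hc : 0 ≤ c) : clockLaw d {ω | Recent (KF (zt q ω) B 0) (c / (KF (zt q ω) B 0).card) ω} ≤
      ENNReal.ofReal (2 * d * c) := by
  have m : ∀ K, MeasurableSet {ω : Om d | KF (zt q ω) B 0 = K} := fun K =>
    measurableSet_setOfPred.2 (measurableSet_KF_eq (measurable_zt hq) B 0 K)
  calc _ ≤ clockLaw d (⋃ K, {ω | KF (zt q ω) B 0 = K ∧ Recent K (c / K.card) ω}) :=
        measure_mono fun ω hω => Set.mem_iUnion.2 ⟨_, rfl, hω⟩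
    _ ≤ ∑' K, clockLaw d {ω | KF (zt q ω) B 0 = K ∧ Recent K (c / K.card) ω} := measure_iUnion_le _
    _ ≤ ∑' K, clockLaw d {ω | KF (zt q ω) B 0 = K} * ENNReal.ofReal (2 * d * c) := by
        refine ENNReal.tsum_le_tsum fun K => (recent_le hd hq h0 K (by positivity)).trans ?_
        refine mul_le_mul_right (ENNReal.ofReal_le_ofReal ?_) _
        rw [mul_assoc]
        gcongr
        rcases Nat.eq_zero_or_pos K.card with h | h
        · simp [h, hc]
        · rw [mul_div_cancel₀ _ (by exact_mod_cast h.ne')]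
    _ ≤ _ := by
        rw [ENNReal.tsum_mul_right, ← measure_iUnion (f := fun K => {ω | KF (zt q ω) B 0 = K})
          (fun K K' h => Set.disjoint_left.2
            fun ω (h1 : _ = K) (h2 : _ = K') => h (h1.symm.trans h2)) m]
        exact mul_le_of_le_one_left' prob_le_one

end Pool.Agent.P.MP_d95e10_pr
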