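import Pool.Agent.P.MP_d95e10_pr.Graph

/-!
Auxiliary definitions shared by the proof files.
-/

namespace Pool.Agent.P.MP_d95e10_pr

open MeasureTheory ProbabilityTheory Filter unitInterval
open scoped Classical ENNReal

variable {d : ℕ}

/-! ### Finite-volume random-cluster weights -/

/-- The number of open clusters meeting `S`. -/
noncomputable def nCl (S : Finset (Vtx d)) (ω : Set (Edge d)) : ℕ :=
  (S.image (openGraph ω).connectedComponentMk).card

/-- The opening probability of an edge whose endpoints are not joined off the edge. -/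
noncomputable def gq (q s : ℝ) : ℝ := s / (s + q * (1 - s))

/-- Random-cluster weight in the box with the outside configuration `β`. -/
noncomputable def fkW (q s : ℝ) (n : ℕ) (β : Set (Edge d)) (η : Finset (Edge d)) : ℝ :=
  s ^ η.card * (1 - s) ^ (boxEdges d n \ η).card * q ^ nCl (box d n) ((η : Set (Edge d)) ∪ β)

/-- The partition function. -/
noncomputable def fkZ (q s : ℝ) (n : ℕ) (β : Set (Edge d)) : ℝ :=
  ∑ η ∈ (boxEdges d n).powerset, fkW q s n β η

/-- Random-cluster expectation. -/
noncomputable def fkE (q s : ℝ) (n : ℕ) (β : Set (Edge d)) (f : Finset (Edge d) → ℝ) : ℝ :=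
  (∑ η ∈ (boxEdges d n).powerset, fkW q s n β η * f η) / fkZ q s n β

/-- Heat-bath opening probability. -/
noncomputable def heatP (q s : ℝ) (ω : Set (Edge d)) (e : Edge d) : ℝ :=
  if Conn (ω \ {e}) e.1 (tip e) then s else gq q s

/-! ### Ring configurations -/

/-- Ring relations. -/
abbrev Rel (d : ℕ) : Type := Edge d → ℝ → I → Prop

/-- Space-time-mark points. -/
abbrev Pt (d : ℕ) : Type := Edge d × ℝ × I

/-- Indices of potential rings. -/
abbrev Idx (d : ℕ) : Type := (Edge d × ℤ) × ℕ

/-- The index is in use. -/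
def Act (ω : Om d) (j : Idx d) : Prop := j.2 < (ω j.1).1

/-- The ring with index `j`. -/
noncomputable def pt (ω : Om d) (j : Idx d) : Pt d :=
  (j.1.1, (j.1.2 : ℝ) + ((ω j.1).2 j.2).1, ((ω j.1).2 j.2).2)

/-- Replace position and mark at the index `j`. -/
noncomputable def setPt (ω : Om d) (j : Idx d) (x : I × I) : Om d :=
  Function.update ω j.1 ((ω j.1).1, Function.update (ω j.1).2 j.2 x)

/-- Replace the mark at the index `j`. -/
noncomputable def setMark (ω : Om d) (j : Idx d) (α : I) : Om d :=
  setPt ω j (((ω j.1).2 j.2).1, α)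

/-- Remove the ring with index `j` from its block. -/
noncomputable def rem (ω : Om d) (j : Idx d) : Om d :=
  Function.update ω j.1 ((ω j.1).1 - 1, fun m => (ω j.1).2 (if m < j.2 then m else m + 1))

/-- Spatial translation of the clocks. -/
def shiftO (z : Vtx d) (ω : Om d) : Om d := fun j => ω (shiftE z j.1, j.2)

/-- The ring relation of a family of points. -/
def famRel {Y J : Type} (act : Y → J → Prop) (p : Y → J → Pt d) (y : Y) : Rel d :=
  fun e τ α => ∃ j, act y j ∧ p y j = (e, τ, α)

/-- Functionals of ring relations that are measurable along every measurable countable family. -/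
def UMeas (G : Rel d → ℝ≥0∞) : Prop :=
  ∀ (Y : Type) [MeasurableSpace Y] (J : Type) [Countable J] (act : Y → J → Prop)
    (p : Y → J → Pt d), (∀ j, Measurable fun y => act y j) → (∀ j, Measurable fun y => p y j) →
    Measurable fun y => G (famRel act p y)

/-- The rings of `Λ` in the time window `(a, a + L]`, moved to `(0, L]`. -/
def winRel (Λ : Finset (Edge d)) (a L : ℝ) (R : Rel d) : Rel d :=
  fun e τ α => e ∈ Λ ∧ 0 < τ ∧ τ ≤ L ∧ R e (a + τ) α

lemma rings_iff {ω : Om d} {e : Edge d} {τ : ℝ} {α : I} :
    Rings ω e τ α ↔ ∃ j, Act ω j ∧ pt ω j = (e, τ, α) := by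
  constructor
  · rintro ⟨k, i, hi, h1, h2⟩
    exact ⟨((e, k), i), hi, by simp [pt, h1, h2]⟩
  · rintro ⟨⟨⟨e', k⟩, i⟩, hi, h⟩
    simp only [pt, Prod.mk.injEq] at h
    obtain ⟨rfl, h1, h2⟩ := h
    exact ⟨k, i, hi, h1, h2⟩

lemma rings_eq_famRel (ω : Om d) : Rings ω = famRel Act pt ω := by
  funext e τ α
  exact propext rings_iff

instance : IsProbabilityMeasure blockLaw := by
  unfold blockLaw; infer_instance

instance : IsProbabilityMeasure (clockLaw d) := by
  unfold clockLaw; infer_instance

@[fun_prop] lemma measurable_act (j : Idx d) : Measurable fun ω : Om d => Act ω j := by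
  unfold Act
  exact measurableSet_setOfPred.1 (measurableSet_lt measurable_const (by fun_prop))

@[fun_prop] lemma measurable_pt (j : Idx d) : Measurable fun ω : Om d => pt ω j := by
  unfold pt
  fun_prop

end Pool.Agent.P.MP_d95e10_pr
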