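import Pool.Agent.P.MP_d95e10_pr.Meas
import Pool.Agent.P.MP_d95e10_pr.FK
import Pool.Agent.P.MP_d95e10_pr.BK

/-!
Further auxiliary definitions shared by the proof files.
-/

namespace Pool.Agent.P.MP_d95e10_pr

open MeasureTheory ProbabilityTheory Filter Topology unitInterval
open scoped Classical ENNReal

variable {d : ℕ}

/-- The level set inside the box. -/
noncomputable def Lb (n : ℕ) (s : ℝ) (v : Conf d) : Finset (Edge d) :=
  (boxEdges d n).filter fun e => (v e : ℝ) < s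

/-- Robust points: in an infinite cluster, with at most `M` pivotal rings. -/
def Rob (q p : ℝ) (M : ℕ) (ω : Om d) (x : Vtx d) : Prop :=
  InfAt (lev (zt q ω) p) x ∧ ∀ J : Finset (Idx d),
    (∀ j ∈ J, ¬ InfAt (lev (zt q (setMark ω j 1)) p) x) → J.card ≤ M

/-- Vertices with a robust neighbour. -/
def Gd (q p : ℝ) (M : ℕ) (ω : Om d) (y : Vtx d) : Prop :=
  ∃ f x, Joins f y x ∧ Rob q p M ω x

/-- No edge touching `K` rings in `[τ, 0]`. -/
def Quiet (ω : Om d) (K : Set (Vtx d)) (τ : ℝ) : Prop :=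
  ∀ e, (∃ c ∈ K, Touches e c) → ∀ u, τ ≤ u → u ≤ 0 → ∀ α, ¬ Rings ω e u α

/-- At most one infinite cluster. -/
def Uniq (ω : Set (Edge d)) : Prop := ∀ a b, InfAt ω a → InfAt ω b → Conn ω a b

end Pool.Agent.P.MP_d95e10_pr
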