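import Pool.Agent.P.MP_d95e10_pr.Dyn

/-!
The stationary infinite-volume configuration built from the past, free boundary condition.
-/

namespace Pool.Agent.P.MP_d95e10_pr

open Filter unitInterval
open scoped Classical

variable {d : ℕ}

/-- Finite approximation: box `n`, started `n` time units before `t`. -/
noncomputable def app (q : ℝ) (R : Rel d) (t : ℝ) (n : ℕ) : Conf d :=
  run q (boxEdges d n) R (t - n) t (fun _ => 1)

/-- The stationary configuration at time `t`. -/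
noncomputable def zeta (q : ℝ) (R : Rel d) (t : ℝ) : Conf d := fun e => ⨅ n, app q R t n e

variable {q : ℝ} {R R' : Rel d}

lemma app_anti (hq : 1 ≤ q) (hR : LF R) (t : ℝ) : Antitone (app q R t) := by
  intro m n h
  have : (m : ℝ) ≤ n := by exact_mod_cast h
  exact run_one_anti hq (boxEdges_mono h) hR (by linarith) (by simp)

lemma zeta_le_app (t : ℝ) (n : ℕ) : zeta q R t ≤ app q R t n := fun _ => iInf_le _ n

lemma zeta_le_run (hq : 1 ≤ q) (hR : LF R) (Λ : Finset (Edge d)) {a t : ℝ} (ha : a ≤ t) :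
    zeta q R t ≤ run q Λ R a t (fun _ => 1) := by
  obtain ⟨m, hm⟩ := exists_subset_boxEdges Λ
  obtain ⟨k, hk⟩ := exists_nat_ge (t - a)
  refine (zeta_le_app t (max m k)).trans (run_one_anti hq (hm.trans (boxEdges_mono (by simp)))
    hR ?_ ha)
  have : (k : ℝ) ≤ (max m k : ℕ) := by exact_mod_cast le_max_right m k
  linarith

lemma zeta_lt_iff {t s : ℝ} {e : Edge d} :
    (zeta q R t e : ℝ) < s ↔ ∃ n, (app q R t n e : ℝ) < s := by
  have : zeta q R t e = sInf (Set.range fun n => app q R t n e) := rfl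
  rw [this, sInf_lt_real (Set.range_nonempty _)]
  simp

lemma eventually_app_lt (hq : 1 ≤ q) (hR : LF R) {t s : ℝ} {e : Edge d}
    (h : (zeta q R t e : ℝ) < s) : ∀ᶠ n in atTop, (app q R t n e : ℝ) < s := by
  obtain ⟨n, hn⟩ := zeta_lt_iff.1 h
  filter_upwards [eventually_ge_atTop n] with m hm
  exact lt_of_le_of_lt (show (app q R t m e : ℝ) ≤ app q R t n e from app_anti hq hR t hm e) hn

lemma eventually_start_lt (t τ : ℝ) : ∀ᶠ n : ℕ in atTop, t - n < τ := by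
  obtain ⟨k, hk⟩ := exists_nat_gt (t - τ)
  filter_upwards [eventually_ge_atTop k] with m hm
  have : (k : ℝ) ≤ m := by exact_mod_cast hm
  linarith

lemma eventually_mem_boxEdges (e : Edge d) : ∀ᶠ n : ℕ in atTop, e ∈ boxEdges d n := by
  obtain ⟨k, hk⟩ := exists_subset_boxEdges {e}
  filter_upwards [eventually_ge_atTop k] with m hm
  exact boxEdges_mono hm (hk (by simp))

/-- An edge that does not ring keeps its value. -/
lemma zeta_frozen (hq : 1 ≤ q) (hR : LF R) {t t' : ℝ} (htt : t ≤ t') {e : Edge d}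
    (h : ∀ τ, t < τ → τ ≤ t' → ∀ α, ¬ R e τ α) : zeta q R t' e = zeta q R t e := by
  refine le_antisymm (le_iInf fun n => ?_) (le_iInf fun n => ?_)
  · have h0 : t - n ≤ t := by simp
    refine (zeta_le_run hq hR (boxEdges d n) (h0.trans htt) e).trans ?_
    rw [run_semigroup hR h0 htt, run_of_no_ring hR fun _ => h]
    rfl
  · rcases le_or_gt (t' - n) t with h0 | h0
    · unfold app
      rw [run_semigroup hR h0 htt, run_of_no_ring hR fun _ => h]
      exact zeta_le_run hq hR _ h0 e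
    · unfold app
      rw [run_of_no_ring hR fun _ τ h1 => h τ (h0.trans h1)]
      exact le_one'

lemma zeta_congr (hR : LF R) (hR' : LF R') {t : ℝ}
    (h : ∀ e τ, τ ≤ t → ∀ α, R e τ α ↔ R' e τ α) : zeta q R t = zeta q R' t := by
  funext e
  unfold zeta app
  congr 1
  funext n
  rw [run_congr hR hR' fun e _ τ _ h2 => h e τ h2]

lemma exists_gap' (hR : LF R) (Λ : Finset (Edge d)) {a τ : ℝ} (ha : a < τ) :
    ∃ u, a ≤ u ∧ u < τ ∧ ∀ e ∈ Λ, ∀ t, u < t → t < τ → ∀ α, ¬ R e t α := by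
  obtain ⟨u, h1, h2, h3⟩ := exists_gap (hR Λ a τ) ha
  exact ⟨u, h1, h2, fun e he t h4 h5 α hα =>
    h3 t ⟨h1.trans_lt h4, h5.le, e, he, α, hα⟩ ⟨h4, h5⟩⟩

/-- Causality. -/
lemma zeta_causal (hR : LF R) (hR' : LF R') {τ t : ℝ} (hτ : τ ≤ t)
    (h : ∀ e u, u < τ → ∀ α, R e u α ↔ R' e u α) {e : Edge d}
    (h1 : ∀ u, τ ≤ u → u ≤ t → ∀ α, ¬ R e u α) (h2 : ∀ u, τ ≤ u → u ≤ t → ∀ α, ¬ R' e u α) :
    zeta q R t e = zeta q R' t e := by
  unfold zeta app
  congr 1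
  funext n
  rcases lt_or_ge (t - n) τ with h0 | h0
  · obtain ⟨u, hu1, hu2, hu3⟩ := exists_gap' hR (boxEdges d n) h0
    have hut : u ≤ t := hu2.le.trans hτ
    rw [run_semigroup hR hu1 hut, run_semigroup hR' hu1 hut, run_of_no_ring hR, run_of_no_ring hR',
      run_congr hR hR' fun e _ w _ h4 => h e w (h4.trans_lt hu2)]
    · intro he w h3 h4 α hα
      rcases lt_or_ge w τ with h5 | h5
      · exact hu3 e he w h3 h5 α ((h e w h5 α).2 hα)
      · exact h2 w h5 h4 α hα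
    · intro he w h3 h4 α hα
      rcases lt_or_ge w τ with h5 | h5
      · exact hu3 e he w h3 h5 α hα
      · exact h1 w h5 h4 α hα
  · rw [run_of_no_ring hR fun _ w h3 => h1 w (h0.trans h3.le),
      run_of_no_ring hR' fun _ w h3 => h2 w (h0.trans h3.le)]

/-- A last ring with a small mark leaves the edge open. -/
lemma zeta_small (hq : 1 ≤ q) (hR : LF R) {τ t s : ℝ} (hs : s ≤ 1) (hτ : τ ≤ t) {e : Edge d}
    {α : I} (h : R e τ α) (hα : (α : ℝ) < gq q s)
    (h1 : ∀ u, τ < u → u ≤ t → ∀ α, ¬ R e u α) : (zeta q R t e : ℝ) < s := by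
  obtain ⟨n, hn1, hn2⟩ := ((eventually_start_lt t τ).and (eventually_mem_boxEdges e)).exists
  refine zeta_lt_iff.2 ⟨n, ?_⟩
  obtain ⟨u, hu1, hu2, hu3⟩ := exists_gap' hR (boxEdges d n) hn1
  unfold app
  rw [run_semigroup hR hn1.le hτ, run_of_no_ring hR fun _ => h1, run_semigroup hR hu1 hu2.le,
    run_single hu2 hu3]
  exact (step_lt_iff hq hs ⟨hn2, α, h⟩).2 ⟨α, h, Or.inr hα⟩

lemma zeta_lev_mono (hq : 1 ≤ q) (hR : LF R) (hR' : LF R') {s s' t : ℝ} (hs : s ≤ 1)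
    (hs' : s' ≤ 1) (hD : ∀ τ, τ ≤ t → DomAt q R s R' s' τ) :
    lev (zeta q R t) s ⊆ lev (zeta q R' t) s' := by
  intro e he
  obtain ⟨n, hn⟩ := zeta_lt_iff.1 he
  refine zeta_lt_iff.2 ⟨n, run_lev_mono hq hs hs' hR hR' (fun τ _ h => hD τ h) ?_ hn⟩
  intro f hf
  exact absurd hf (not_lt.2 hs)

lemma zeta_shift (hq : 1 ≤ q) (hR : LF R) (z : Vtx d) (t : ℝ) :
    zeta q (fun e => R (shiftE z e)) t = zeta q R t ∘ shiftE z := by
  have key : ∀ {R : Rel d}, LF R → ∀ (z : Vtx d) (e : Edge d),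
      zeta q R t (shiftE z e) ≤ zeta q (fun e => R (shiftE z e)) t e := by
    intro R hR z e
    refine le_iInf fun n => ?_
    have := congrFun (run_shift (q := q) (Λ := boxEdges d n) hR z (t - n) t (fun _ => 1)) e
    refine le_trans (zeta_le_run hq hR ((boxEdges d n).image (shiftE z)) (a := t - n) (by simp) _)
      (le_of_eq this.symm)
  funext e
  refine le_antisymm ?_ (key hR z e)
  have := key (hR.shift z) (-z) (shiftE z e)
  simpa [shiftE_shiftE] using this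

/-! ### Adding one ring without influence -/

/-- `g` joins `S` to its complement. -/
def Bdry (g : Edge d) (S : Set (Vtx d)) : Prop := ∃ u w, Joins g u w ∧ u ∈ S ∧ w ∉ S

lemma Joins.eq_or {f : Edge d} {a b z x : Vtx d} (h : Joins f a b) (h' : Joins f z x) :
    (a = z ∧ b = x) ∨ (a = x ∧ b = z) := by
  rcases h with ⟨rfl, rfl⟩ | ⟨rfl, rfl⟩ <;> rcases h' with ⟨rfl, rfl⟩ | ⟨rfl, rfl⟩ <;> simp

lemma conn_bypass {ω : Set (Edge d)} {f : Edge d} {z x : Vtx d} {S : Set (Vtx d)}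
    (hf : Joins f z x) (hz : z ∈ S) (hx : x ∉ S) (hω : ∀ g ∈ ω, g ≠ f → ¬ Bdry g S)
    {a b : Vtx d} (ha : a ∉ S) (hb : b ∉ S) (h : Conn ω a b) : Conn (ω \ {f}) a b := by
  have := Conn.induction (P := fun c => (c ∉ S → Conn (ω \ {f}) a c) ∧
    (c ∈ S → Conn (ω \ {f}) a x)) ⟨fun _ => SimpleGraph.Reachable.refl _, fun h => absurd h ha⟩
    ?_ h
  · exact this.1 hb
  rintro c c' g hg hj - ⟨ih1, ih2⟩
  by_cases hgf : g = f
  · subst hgf
    rcases hj.eq_or hf with ⟨rfl, rfl⟩ | ⟨rfl, rfl⟩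
    · exact ⟨fun _ => ih2 hz, fun h => absurd h hx⟩
    · exact ⟨fun h => absurd hz h, fun _ => ih1 hx⟩
  · by_cases hc : c ∈ S
    · exact ⟨fun h => absurd ⟨c, c', hj, hc, h⟩ (hω g hg hgf), fun _ => ih2 hc⟩
    · exact ⟨fun _ => (ih1 hc).trans (Conn.of_joins (Set.mem_sdiff_singleton.2 ⟨hg, hgf⟩) hj),
        fun h => absurd ⟨c', c, hj.symm, h, hc⟩ (hω g hg hgf)⟩

lemma conn_reroute {ω : Set (Edge d)} {f : Edge d} {z x : Vtx d} (hf : Joins f z x)
    (hzx : Conn ω z x) {a b : Vtx d} (h : Conn (insert f ω) a b) : Conn ω a b := by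
  refine Conn.induction (P := fun c => Conn ω a c) (SimpleGraph.Reachable.refl _) ?_ h
  rintro c c' g (rfl | hg) hj - ih
  · rcases hj.eq_or hf with ⟨rfl, rfl⟩ | ⟨rfl, rfl⟩
    · exact ih.trans hzx
    · exact ih.trans hzx.symm
  · exact ih.trans (Conn.of_joins hg hj)

/-- The step at an edge where both relations ring in the same way. -/
lemma step_lt_congr (hq : 1 ≤ q) {s : ℝ} (hs : s ≤ 1) {Λ : Finset (Edge d)} {τ : ℝ}
    {v v' : Conf d} {e : Edge d} (h1 : ∀ α, R e τ α ↔ R' e τ α)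
    (h2 : (v e : ℝ) < s ↔ (v' e : ℝ) < s)
    (h3 : e ∈ Λ → (∃ α, R e τ α) →
      (Conn (lev v s \ {e}) e.1 (tip e) ↔ Conn (lev v' s \ {e}) e.1 (tip e))) :
    (step q Λ R v τ e : ℝ) < s ↔ (step q Λ R' v' τ e : ℝ) < s := by
  by_cases h : e ∈ Λ ∧ ∃ α, R e τ α
  · have h' : e ∈ Λ ∧ ∃ α, R' e τ α := ⟨h.1, h.2.imp fun α => (h1 α).1⟩
    simp only [step_lt_iff hq hs h, step_lt_iff hq hs h', h1, h3 h.1 h.2]
  · have h' : ¬ (e ∈ Λ ∧ ∃ α, R' e τ α) := fun h' => h ⟨h'.1, h'.2.imp fun α => (h1 α).2⟩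
    rw [step_of_not h, step_of_not h', h2]

theorem no_influence (hq : 1 ≤ q) (hR : LF R) (hR' : LF R') {f : Edge d} {τ t p : ℝ} {α : I}
    (hRR : ∀ e u β, R' e u β ↔ R e u β ∨ (f, τ, α) = (e, u, β))
    (hα : (α : ℝ) < gq q p) (hτ : τ ≤ t)
    {z x : Vtx d} (hf : Joins f z x) {S : Set (Vtx d)} (hz : z ∈ S) (hx : x ∉ S)
    {γ : Finset (Edge d)} (hγ : Conn (γ : Set (Edge d)) z x)
    (hb : ∀ g, Bdry g S → ∀ g' ∈ γ, zeta q R t g' ≤ zeta q R t g)
    (hp : ∃ g' ∈ γ, p ≤ zeta q R t g')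
    (hno : ∀ g, (g ∈ γ ∨ ∃ u ∈ S, Touches g u) → ∀ u, τ ≤ u → u ≤ t → ∀ β, ¬ R g u β)
    {e : Edge d} (he : e ≠ f) : zeta q R' t e = zeta q R t e := by
  obtain ⟨g₀, hg₀, hpg⟩ := hp
  obtain ⟨g₁, hg₁, hmax⟩ := γ.exists_max_image (zeta q R t) ⟨g₀, hg₀⟩
  have hRe : ∀ e ≠ f, ∀ u β, R e u β ↔ R' e u β := by
    intro e he u β
    rw [hRR]
    exact ⟨Or.inl, fun h => h.resolve_right fun h => he (Prod.mk.inj h).1.symm⟩
  have hRb : ∀ e u, u < τ → ∀ β, R e u β ↔ R' e u β := by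
    intro e u hu β
    rw [hRR]
    exact ⟨Or.inl, fun h => h.resolve_right fun h => hu.ne' (Prod.mk.inj (Prod.mk.inj h).2).1⟩
  have key : ∀ s : ℝ, s ≤ 1 → ∀ᶠ n in atTop,
      ((app q R t n e : ℝ) < s ↔ (app q R' t n e : ℝ) < s) := by
    intro s hs
    have hev : ∀ᶠ n in atTop, (zeta q R t g₁ : ℝ) < s → ∀ g ∈ γ, (app q R t n g : ℝ) < s := by
      by_cases h : (zeta q R t g₁ : ℝ) < s
      · simp only [h, forall_const]
        exact (eventually_all_finset γ).2 fun g hg => eventually_app_lt hq hR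
          (lt_of_le_of_lt (show (zeta q R t g : ℝ) ≤ zeta q R t g₁ from hmax g hg) h)
      · simp [h]
    filter_upwards [hev, eventually_start_lt t τ] with n hn1 hn2
    obtain ⟨u, hu1, hu2, hu3⟩ := exists_gap' hR (boxEdges d n) hn2
    have hut : u ≤ t := hu2.le.trans hτ
    have hno' : ∀ g, (g ∈ γ ∨ ∃ u ∈ S, Touches g u) → g ∈ boxEdges d n →
        ∀ w, u < w → w ≤ t → ∀ β, ¬ R g w β := by
      intro g hg hgn w h1 h2 β
      rcases lt_or_ge w τ with h3 | h3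
      · exact hu3 g hgn w h1 h3 β
      · exact hno g hg w h3 h2 β
    have hfro : ∀ g, (g ∈ γ ∨ ∃ u ∈ S, Touches g u) →
        app q R t n g = run q (boxEdges d n) R (t - n) u (fun _ => 1) g := by
      intro g hg
      unfold app
      rw [run_semigroup hR hu1 hut, run_of_no_ring hR (hno' g hg)]
    have hkeep : ∀ g, (g ∈ γ ∨ ∃ u ∈ S, Touches g u) → ∀ w, u < w → w ≤ t → ∀ v : Conf d,
        step q (boxEdges d n) R v w g = v g := fun g hg w h1 h2 v =>
      step_of_not fun ⟨h3, β, hβ⟩ => hno' g hg h3 w h1 h2 β hβ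
    have hfS : f ∈ γ ∨ ∃ u ∈ S, Touches f u := Or.inr ⟨z, hz, hf.touches_left⟩
    unfold app
    rw [run_semigroup hR hu1 hut, run_semigroup hR' hu1 hut,
      ← run_congr hR hR' fun e _ w _ h4 => hRb e w (h4.trans_lt hu2)]
    by_cases hsa : (zeta q R t g₁ : ℝ) < s
    · refine (run_rel (P := fun v v' => (∀ e ≠ f, (v e : ℝ) < s ↔ (v' e : ℝ) < s) ∧
        ((v f : ℝ) < s → (v' f : ℝ) < s) ∧ ∀ g ∈ γ, (v g : ℝ) < s) hR hR' ?_
        ⟨fun _ _ => Iff.rfl, id, fun g hg => hfro g (Or.inl hg) ▸ hn1 hsa g hg⟩).1 e he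
      rintro w hw1 hw2 v v' ⟨h1, h2, h3⟩
      refine ⟨fun e he => step_lt_congr hq hs (hRe e he w) (h1 e he) fun heΛ ⟨β, hβ⟩ => ?_,
        fun h => ?_, fun g hg => by rw [hkeep g (Or.inl hg) w hw1 hw2]; exact h3 g hg⟩
      · have heγ : e ∉ γ := fun h => hno' e (Or.inl h) heΛ w hw1 hw2 β hβ
        constructor
        · refine Conn.mono fun g hg => (Set.mem_sdiff _).2 ⟨?_, hg.2⟩
          by_cases hgf : g = f
          · subst hgf; exact h2 hg.1
          · exact (h1 g hgf).1 hg.1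
        · intro h
          refine conn_reroute hf (hγ.mono fun g hg =>
            Set.mem_sdiff_singleton.2 ⟨h3 g hg, fun (h : g = e) => heγ (h ▸ hg)⟩) (h.mono fun g hg => ?_)
          by_cases hgf : g = f
          · exact Or.inl hgf
          · exact Or.inr ⟨(h1 g hgf).2 hg.1, hg.2⟩
      · rw [hkeep f hfS w hw1 hw2] at h
        by_cases h4 : f ∈ boxEdges d n ∧ ∃ β, R' f w β
        · obtain ⟨β, hβ⟩ := h4.2
          refine (step_lt_iff hq hs h4).2 ⟨β, hβ, Or.inr ?_⟩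
          rcases (hRR _ _ _).1 hβ with h5 | h5
          · exact absurd h5 (hno' f hfS h4.1 w hw1 hw2 β)
          · obtain rfl : α = β := (Prod.mk.inj (Prod.mk.inj h5).2).2
            refine hα.trans_le (gq_mono hq ?_ hs)
            have : (zeta q R t g₀ : ℝ) ≤ zeta q R t g₁ := hmax g₀ hg₀
            linarith
        · rw [step_of_not h4]
          exact h2 h
    · have hBt : ∀ g, Bdry g S → g ∈ γ ∨ ∃ u ∈ S, Touches g u := by
        rintro g ⟨a, b, h1, h2, -⟩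
        exact Or.inr ⟨a, h2, h1.touches_left⟩
      refine (run_rel (P := fun v v' => (∀ e ≠ f, (v e : ℝ) < s ↔ (v' e : ℝ) < s) ∧
        ∀ g, Bdry g S → ¬ (v g : ℝ) < s) hR hR' ?_ ⟨fun _ _ => Iff.rfl, fun g hg => ?_⟩).1 e he
      · rintro w hw1 hw2 v v' ⟨h1, h2⟩
        refine ⟨fun e he => step_lt_congr hq hs (hRe e he w) (h1 e he) fun heΛ ⟨β, hβ⟩ => ?_,
          fun g hg => by rw [hkeep g (hBt g hg) w hw1 hw2]; exact h2 g hg⟩
        have hn : ∀ c, Touches e c → c ∉ S := fun c hc hcS =>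
          hno' e (Or.inr ⟨c, hcS, hc⟩) heΛ w hw1 hw2 β hβ
        have e1 := hn e.1 (Or.inl rfl)
        have e2 := hn (tip e) (Or.inr rfl)
        constructor
        · intro h
          refine (conn_bypass hf hz hx (fun g hg _ hB => h2 g hB hg.1) e1 e2 h).mono ?_
          exact fun g hg => ⟨(h1 g hg.2).1 hg.1.1, hg.1.2⟩
        · intro h
          refine (conn_bypass hf hz hx (fun g hg hgf hB => h2 g hB ((h1 g hgf).2 hg.1)) e1 e2
            h).mono ?_
          exact fun g hg => ⟨(h1 g hg.2).2 hg.1.1, hg.1.2⟩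
      · rw [← hfro g (hBt g hg)]
        have h1 : (zeta q R t g₁ : ℝ) ≤ zeta q R t g := hb g hg g₁ hg₁
        have h2 : (zeta q R t g : ℝ) ≤ app q R t n g := zeta_le_app t n g
        linarith [not_lt.1 hsa]
  refine le_antisymm (le_of_lev fun s hs h => ?_) (le_of_lev fun s hs h => ?_)
  · obtain ⟨n, h1, h2⟩ := ((key s hs).and (eventually_app_lt hq hR h)).exists
    exact zeta_lt_iff.2 ⟨n, h1.1 h2⟩
  · obtain ⟨n, h1, h2⟩ := ((key s hs).and (eventually_app_lt hq hR' h)).exists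
    exact zeta_lt_iff.2 ⟨n, h1.2 h2⟩

end Pool.Agent.P.MP_d95e10_pr
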